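import Mathlib

/-!
# Arclength parametrisations and comparison of line integrals
-/

open MeasureTheory Set Metric Topology Filter
open scoped ENNReal NNReal

namespace Pool.Agent.QCS

set_option linter.unusedSectionVars false

/-- Comparison of Lebesgue measure with a finite measure by means of intervals. -/
theorem volume_le_of_Ioc (ν : Measure ℝ) [IsFiniteMeasure ν] {l : ℝ} (hl : 0 ≤ l)
    (h : ∀ s s', 0 ≤ s → s ≤ s' → s' ≤ l → ENNReal.ofReal (s' - s) ≤ ν (Ioc s s')) :
    volume.restrict (Ioc 0 l) ≤ ν := by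
  set p : ℝ → ℝ := fun x => max 0 (min l x) with hp
  have hpm : Monotone p := fun x y hxy => max_le_max le_rfl (min_le_min le_rfl hxy)
  have hpc : Continuous p := continuous_const.max (continuous_const.min continuous_id)
  have hp0 : ∀ x, 0 ≤ p x := fun x => le_max_left _ _
  have hpl : ∀ x, p x ≤ l := fun x => max_le hl (min_le_left _ _)
  have hIoc : ∀ x y, ENNReal.ofReal (p y - p x) ≤ ν (Ioc x y) := by
    intro x y
    rcases le_or_gt y x with hxy | hxy
    · rw [ENNReal.ofReal_of_nonpos (sub_nonpos.2 (hpm hxy))]; exact zero_le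
    · refine (h (p x) (p y) (hp0 x) (hpm hxy.le) (hpl y)).trans (measure_mono fun u hu => ?_)
      -- `Ioc (p x) (p y) ⊆ Ioc x y`
      have h1 : p x < u := hu.1
      have h2 : u ≤ p y := hu.2
      have h3 : 0 < u := (hp0 x).trans_lt h1
      have h4 : u ≤ l := h2.trans (hpl y)
      constructor
      · by_contra hcon
        push Not at hcon
        have : u ≤ p x := le_max_of_le_right (le_min h4 hcon)
        linarith
      · rcases le_max_iff.1 h2 with h5 | h5
        · linarith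
        · exact h5.trans (min_le_right _ _)
  -- the Stieltjes function of the difference
  set H : ℝ → ℝ := fun x => (ν (Iic x)).toReal with hH
  have hHsub : ∀ x y, x ≤ y → H y - H x = (ν (Ioc x y)).toReal := by
    intro x y hxy
    have h1 : ν (Iic y) = ν (Iic x) + ν (Ioc x y) := by
      rw [← Iic_union_Ioc_eq_Iic hxy, measure_union (Iic_disjoint_Ioc le_rfl) measurableSet_Ioc]
    rw [hH]; dsimp only
    rw [h1, ENNReal.toReal_add (measure_ne_top _ _) (measure_ne_top _ _)]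
    ring
  have hmono : Monotone fun x => H x - p x := by
    intro x y hxy
    have h1 := hHsub x y hxy
    have h2 := ENNReal.toReal_mono (measure_ne_top _ _) (hIoc x y)
    rw [ENNReal.toReal_ofReal (sub_nonneg.2 (hpm hxy))] at h2
    dsimp only
    linarith
  have hright : ∀ x, ContinuousWithinAt (fun x => H x - p x) (Ici x) x := by
    intro x
    refine ContinuousWithinAt.sub ?_ hpc.continuousWithinAt
    have hHm : Monotone H := fun a b hab =>
      ENNReal.toReal_mono (measure_ne_top _ _) (measure_mono (Iic_subset_Iic.2 hab))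
    -- sequential right continuity
    have hlim : Tendsto (fun n : ℕ => H (x + 1 / (n + 1 : ℝ))) atTop (𝓝 (H x)) := by
      have hI : (⋂ n : ℕ, Iic (x + 1 / (n + 1 : ℝ))) = Iic x := by
        refine Subset.antisymm (fun y hy => ?_) (subset_iInter fun n => Iic_subset_Iic.2 (by
          have : (0 : ℝ) < 1 / (n + 1 : ℝ) := by positivity
          linarith))
        have h1 : ∀ n : ℕ, y ≤ x + 1 / (n + 1 : ℝ) := fun n => mem_iInter.1 hy n
        have h2 : Tendsto (fun n : ℕ => x + 1 / ((n : ℝ) + 1)) atTop (𝓝 (x + 0)) :=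
          tendsto_const_nhds.add tendsto_one_div_add_atTop_nhds_zero_nat
        rw [add_zero] at h2
        exact ge_of_tendsto' h2 h1
      have h3 := tendsto_measure_iInter_atTop (μ := ν) (s := fun n : ℕ => Iic (x + 1 / (n + 1 : ℝ)))
        (fun n => measurableSet_Iic.nullMeasurableSet) (fun n m hnm => Iic_subset_Iic.2 (by
          have : (n : ℝ) ≤ m := by exact_mod_cast hnm
          gcongr)) ⟨0, measure_ne_top _ _⟩
      rw [hI] at h3
      exact (ENNReal.tendsto_toReal (measure_ne_top _ _)).comp h3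
    rw [Metric.continuousWithinAt_iff]
    intro ε hε
    obtain ⟨n, hn⟩ := (hlim.eventually_lt_const (show H x < H x + ε by linarith)).exists
    refine ⟨1 / (n + 1 : ℝ), by positivity, fun y hy hyd => ?_⟩
    have hy' : x ≤ y := hy
    rw [Real.dist_eq, abs_of_nonneg (by linarith)] at hyd
    rw [Real.dist_eq, abs_of_nonneg (sub_nonneg.2 (hHm hy'))]
    have : H y ≤ H (x + 1 / (n + 1 : ℝ)) := hHm (by linarith)
    linarith
  let G : StieltjesFunction ℝ := ⟨fun x => H x - p x, hmono, hright⟩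
  have hsum : ν = volume.restrict (Ioc 0 l) + G.measure := by
    refine Measure.ext_of_Ioc _ _ fun x y hxy => ?_
    rw [Measure.add_apply, G.measure_Ioc, Measure.restrict_apply measurableSet_Ioc]
    have h1 : Ioc x y ∩ Ioc 0 l = Ioc (p x) (p y) := by
      ext u
      simp only [mem_inter_iff, mem_Ioc, hp, max_lt_iff, min_lt_iff, le_max_iff, le_min_iff]
      constructor
      · rintro ⟨⟨h1, h2⟩, h3, h4⟩
        exact ⟨⟨h3, Or.inr h1⟩, Or.inr ⟨h4, h2⟩⟩
      · rintro ⟨⟨h1, h2⟩, h3⟩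
        rcases h3 with h3 | h3
        · linarith
        · rcases h2 with h2 | h2
          · linarith [h3.1]
          · exact ⟨⟨h2, h3.2⟩, h1, h3.1⟩
    rw [h1, Real.volume_Ioc]
    have h2 := hHsub x y hxy.le
    have h3 : ν (Ioc x y) = ENNReal.ofReal (H y - H x) := by
      rw [h2, ENNReal.ofReal_toReal (measure_ne_top _ _)]
    rw [h3, ← ENNReal.ofReal_add (sub_nonneg.2 (hpm hxy.le)) (sub_nonneg.2 (hmono hxy.le))]
    congr 1
    show _ = p y - p x + ((H y - p y) - (H x - p x))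
    ring
  rw [hsum]
  exact Measure.le_add_right le_rfl

/-- Arclength data for a curve. -/
structure Arc {Z : Type*} [MetricSpace Z] (g : ℝ → Z) (a b : ℝ) (σ : ℝ → ℝ) (Φ : ℝ → Z) :
    Prop where
  cont : ContinuousOn σ (Icc a b)
  mono : MonotoneOn σ (Icc a b)
  zero : σ a = 0
  lip : LipschitzWith 1 Φ
  eq : ∀ t ∈ Icc a b, Φ (σ t) = g t
  len : ENNReal.ofReal (σ b) ≤ eVariationOn Φ (Icc 0 (σ b))
  var : ∀ t ∈ Icc a b, ∀ t' ∈ Icc a b, t ≤ t' →
    eVariationOn g (Icc t t') = ENNReal.ofReal (σ t' - σ t)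

theorem exists_arc {Z : Type*} [MetricSpace Z] {g : ℝ → Z} {I : Set ℝ} (hI : I.OrdConnected)
    (hg : ContinuousOn g I) (hbv : LocallyBoundedVariationOn g I) {a b : ℝ} (ha : a ∈ I)
    (hb : b ∈ I) (hab : a ≤ b) : ∃ Φ, Arc g a b (variationOnFromTo g I a) Φ ∧
      ∀ s ∈ Icc 0 (variationOnFromTo g I a b), Φ s = naturalParameterization g I a s := by
  set σ := variationOnFromTo g I a with hσ
  have hsub : Icc a b ⊆ I := hI.out ha hb
  have hmonoI : MonotoneOn σ I := variationOnFromTo.monotoneOn hbv ha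
  have hmono : MonotoneOn σ (Icc a b) := hmonoI.mono hsub
  have hzero : σ a = 0 := variationOnFromTo.self g I a
  have hvar : ∀ t ∈ Icc a b, ∀ t' ∈ Icc a b, t ≤ t' →
      eVariationOn g (Icc t t') = ENNReal.ofReal (σ t' - σ t) := by
    intro t ht t' ht' htt
    have h1 : σ t' - σ t = variationOnFromTo g I t t' :=
      variationOnFromTo.sub_right hbv ha (hsub ht') (hsub ht)
    have h2 : I ∩ Icc t t' = Icc t t' := inter_eq_right.2 (hI.out (hsub ht) (hsub ht'))
    rw [h1, variationOnFromTo.eq_of_le g I htt, ENNReal.ofReal_toReal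
      (hbv t t' (hsub ht) (hsub ht')), h2]
  have hBV : BoundedVariationOn g (Icc a b) := by
    have := hbv a b ha hb
    rwa [inter_eq_right.2 hsub] at this
  have hcont : ContinuousOn σ (Icc a b) := by
    intro x hx
    have hgx : ContinuousWithinAt g (Icc a b) x := (hg x (hsub hx)).mono hsub
    have h1 := hBV.tendsto_eVariationOn_Icc_zero_right x (hgx.mono inter_subset_left)
    have h2 := hBV.tendsto_eVariationOn_Icc_zero_left (x := x) (hgx.mono inter_subset_left)
    have h3 : Tendsto (fun y => eVariationOn g (Icc a b ∩ Icc x y) +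
        eVariationOn g (Icc a b ∩ Icc y x)) (𝓝[Icc a b] x) (𝓝 (0 + 0)) := h1.add h2
    rw [add_zero] at h3
    rw [ContinuousWithinAt, tendsto_iff_edist_tendsto_0]
    refine tendsto_of_tendsto_of_tendsto_of_le_of_le' tendsto_const_nhds h3
      (Eventually.of_forall fun _ => zero_le) ?_
    filter_upwards [self_mem_nhdsWithin] with y hy
    rw [edist_dist, Real.dist_eq]
    rcases le_total x y with h | h
    · refine le_trans ?_ le_self_add
      rw [abs_of_nonneg (sub_nonneg.2 (hmono hx hy h)), ← hvar x hx y hy h,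
        inter_eq_right.2 (Icc_subset_Icc hx.1 hy.2)]
    · refine le_trans ?_ le_add_self
      rw [abs_sub_comm, abs_of_nonneg (sub_nonneg.2 (hmono hy hx h)), ← hvar y hy x hx h,
        inter_eq_right.2 (Icc_subset_Icc hy.1 hx.2)]
  set l := σ b with hl
  have hl0 : 0 ≤ l := by rw [← hzero]; exact hmono ⟨le_rfl, hab⟩ ⟨hab, le_rfl⟩ hab
  have himg : Icc 0 l ⊆ σ '' Icc a b := by
    rw [← hzero]; exact intermediate_value_Icc hab hcont
  have himgI : Icc 0 l ⊆ σ '' I := himg.trans (image_mono hsub)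
  have hspeed := has_unit_speed_naturalParameterization g hbv ha
  set N := naturalParameterization g I a with hN
  have hNvar : ∀ s ∈ Icc 0 l, ∀ s' ∈ Icc 0 l, eVariationOn N (σ '' I ∩ Icc s s') =
      ENNReal.ofReal (s' - s) := by
    intro s hs s' hs'
    have := hspeed (himgI hs) (himgI hs')
    simpa using this
  have hNlip : ∀ s ∈ Icc 0 l, ∀ s' ∈ Icc 0 l, dist (N s) (N s') ≤ |s - s'| := by
    have key : ∀ s ∈ Icc 0 l, ∀ s' ∈ Icc 0 l, s ≤ s' → dist (N s) (N s') ≤ s' - s := by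
      intro s hs s' hs' hss
      have h1 : edist (N s) (N s') ≤ eVariationOn N (σ '' I ∩ Icc s s') :=
        eVariationOn.edist_le N ⟨himgI hs, le_rfl, hss⟩ ⟨himgI hs', hss, le_rfl⟩
      rw [hNvar s hs s' hs', edist_dist] at h1
      exact (ENNReal.ofReal_le_ofReal_iff (sub_nonneg.2 hss)).1 h1
    intro s hs s' hs'
    rcases le_total s s' with h | h
    · rw [abs_sub_comm, abs_of_nonneg (sub_nonneg.2 h)]; exact key s hs s' hs' h
    · rw [abs_of_nonneg (sub_nonneg.2 h), dist_comm]; exact key s' hs' s hs h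
  set p : ℝ → ℝ := fun x => max 0 (min l x) with hp
  have hpr : ∀ u, p u ∈ Icc 0 l := fun u => ⟨le_max_left _ _, max_le hl0 (min_le_left _ _)⟩
  have hpid : ∀ u ∈ Icc 0 l, p u = u := fun u hu => by
    simp only [hp]
    rw [min_eq_right hu.2, max_eq_right hu.1]
  have hpl : ∀ u v, |p u - p v| ≤ |u - v| := by
    intro u v
    calc |max 0 (min l u) - max 0 (min l v)| ≤ |min l u - min l v| := by
          have := abs_max_sub_max_le_abs (min l u) (min l v) 0
          rwa [max_comm, max_comm (min l v)] at this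
      _ ≤ |u - v| := by simpa using abs_min_sub_min_le_max l u l v
  refine ⟨fun u => N (p u), ⟨hcont, hmono, hzero, ?_, ?_, ?_, hvar⟩, fun s hs => by
    show N (p s) = _; rw [hpid s hs]⟩
  · refine LipschitzWith.of_dist_le_mul fun u v => ?_
    simp only [NNReal.coe_one, one_mul, Real.dist_eq]
    exact (hNlip _ (hpr u) _ (hpr v)).trans (hpl u v)
  · intro t ht
    have h1 : σ t ∈ Icc 0 l := by
      constructor
      · rw [← hzero]; exact hmono ⟨le_rfl, hab⟩ ht ht.1
      · exact hmono ht ⟨hab, le_rfl⟩ ht.2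
    show N (p (σ t)) = _
    rw [hpid _ h1]
    exact edist_eq_zero.1 (edist_naturalParameterization_eq_zero hbv ha (hsub ht))
  · have h1 : eVariationOn (fun u => N (p u)) (Icc 0 l) = eVariationOn N (Icc 0 l) :=
      eVariationOn.eq_of_eqOn fun u hu => by
        show N (p u) = _; rw [hpid u hu]
    rw [h1]
    have h2 := hNvar 0 ⟨le_rfl, hl0⟩ l ⟨hl0, le_rfl⟩
    rw [inter_eq_right.2 himgI, sub_zero] at h2
    exact h2.ge

/-- Comparison of line integrals. -/
theorem Arc.comparison {Z₁ Z₂ : Type*} [MetricSpace Z₁] [MetricSpace Z₂] [MeasurableSpace Z₁]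
    [BorelSpace Z₁] {g₁ : ℝ → Z₁} {g₂ : ℝ → Z₂} {a b : ℝ} {σ₁ σ₂ : ℝ → ℝ} {Φ₁ : ℝ → Z₁}
    {Φ₂ : ℝ → Z₂} (h₁ : Arc g₁ a b σ₁ Φ₁) (h₂ : Arc g₂ a b σ₂ Φ₂) (hab : a ≤ b) {F : ℝ → ℝ≥0∞}
    (hFm : Measurable F) (hFfin : ∫⁻ u in Ioc 0 (σ₂ b), F u ≠ ∞)
    (hF : ∀ t ∈ Icc a b, ∀ t' ∈ Icc a b, t ≤ t' →
      ENNReal.ofReal (σ₁ t' - σ₁ t) ≤ ∫⁻ u in Ioc (σ₂ t) (σ₂ t'), F u)
    {R₁ : Z₁ → ℝ≥0∞} (hR₁ : Measurable R₁) {R₂ : Z₂ → ℝ≥0∞}
    (hR : ∀ t ∈ Icc a b, R₁ (g₁ t) = R₂ (g₂ t)) :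
    ∫⁻ s in Ioc 0 (σ₁ b), R₁ (Φ₁ s) ≤ ∫⁻ u in Ioc 0 (σ₂ b), F u * R₂ (Φ₂ u) := by
  have hA : a ∈ Icc a b := ⟨le_rfl, hab⟩
  have hB : b ∈ Icc a b := ⟨hab, le_rfl⟩
  set l₁ := σ₁ b with hl₁
  set l₂ := σ₂ b with hl₂
  have hl₁0 : 0 ≤ l₁ := by rw [← h₁.zero]; exact h₁.mono hA hB hab
  have hl₂0 : 0 ≤ l₂ := by rw [← h₂.zero]; exact h₂.mono hA hB hab
  have hex : ∀ u ∈ Icc 0 l₂, ∃ t ∈ Icc a b, σ₂ t = u := by
    intro u hu
    obtain ⟨t, ht, htu⟩ := intermediate_value_Icc hab h₂.cont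
      (show u ∈ Icc (σ₂ a) (σ₂ b) by rw [h₂.zero]; exact hu)
    exact ⟨t, ht, htu⟩
  choose! τ hτ hτσ using hex
  set p : ℝ → ℝ := fun x => max 0 (min l₂ x) with hp
  have hpm : Monotone p := fun x y hxy => max_le_max le_rfl (min_le_min le_rfl hxy)
  have hpr : ∀ u, p u ∈ Icc 0 l₂ := fun u => ⟨le_max_left _ _, max_le hl₂0 (min_le_left _ _)⟩
  have hpid : ∀ u ∈ Icc 0 l₂, p u = u := fun u hu => by
    simp only [hp]
    rw [min_eq_right hu.2, max_eq_right hu.1]
  set θ : ℝ → ℝ := fun u => σ₁ (τ (p u)) with hθ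
  have hθm : Monotone θ := by
    intro u v huv
    rcases (hpm huv).eq_or_lt with h | h
    · simp only [hθ]; rw [h]
    · refine h₁.mono (hτ _ (hpr u)) (hτ _ (hpr v)) ?_
      by_contra hcon
      push Not at hcon
      have := h₂.mono (hτ _ (hpr v)) (hτ _ (hpr u)) hcon.le
      rw [hτσ _ (hpr u), hτσ _ (hpr v)] at this
      linarith
  set κ : Measure ℝ := (volume.restrict (Ioc 0 l₂)).withDensity F with hκ
  have : IsFiniteMeasure κ := isFiniteMeasure_withDensity hFfin
  set ν : Measure ℝ := κ.map θ with hν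
  have : IsFiniteMeasure ν := by rw [hν]; infer_instance
  have key : volume.restrict (Ioc 0 l₁) ≤ ν := by
    refine volume_le_of_Ioc ν hl₁0 fun s s' hs hss hs' => ?_
    have hmax : ∀ s ∈ Icc 0 l₁, ∃ t ∈ Icc a b, σ₁ t = s ∧ ∀ t' ∈ Icc a b, σ₁ t' ≤ s → t' ≤ t := by
      intro s hs
      have hcl : IsCompact (Icc a b ∩ σ₁ ⁻¹' Iic s) :=
        isCompact_Icc.of_isClosed_subset
          (h₁.cont.preimage_isClosed_of_isClosed isClosed_Icc isClosed_Iic) inter_subset_left
      obtain ⟨t₀, ht₀, ht₀s⟩ := intermediate_value_Icc hab h₁.cont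
        (show s ∈ Icc (σ₁ a) (σ₁ b) by rw [h₁.zero]; exact hs)
      obtain ⟨t, ht, hmax⟩ := hcl.exists_isGreatest ⟨t₀, ht₀, ht₀s.le⟩
      refine ⟨t, ht.1, le_antisymm ht.2 ?_, fun t' ht' hle => hmax ⟨ht', hle⟩⟩
      rw [← ht₀s]
      exact h₁.mono ht₀ ht.1 (hmax ⟨ht₀, ht₀s.le⟩)
    obtain ⟨t, ht, hts, htmax⟩ := hmax s ⟨hs, hss.trans hs'⟩
    obtain ⟨t', ht', hts', -⟩ := hmax s' ⟨hs.trans hss, hs'⟩
    rcases hss.eq_or_lt with h | h
    · rw [h, sub_self, ENNReal.ofReal_zero]; exact zero_le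
    have htt : t ≤ t' := by
      by_contra hcon
      push Not at hcon
      have := h₁.mono ht' ht hcon.le
      rw [hts, hts'] at this
      linarith
    have h1 := hF t ht t' ht' htt
    rw [hts, hts'] at h1
    refine h1.trans ?_
    rw [hν, Measure.map_apply hθm.measurable measurableSet_Ioc, hκ,
      withDensity_apply _ (hθm.measurable measurableSet_Ioc), Measure.restrict_restrict
      (hθm.measurable measurableSet_Ioc), ← restrict_Ioo_eq_restrict_Ioc]
    refine lintegral_mono_set fun v hv => ?_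
    have hu0 : 0 ≤ σ₂ t := by rw [← h₂.zero]; exact h₂.mono hA ht ht.1
    have hul : σ₂ t' ≤ l₂ := h₂.mono ht' hB ht'.2
    have hv2 : v ∈ Icc 0 l₂ := ⟨hu0.trans hv.1.le, hv.2.le.trans hul⟩
    refine ⟨?_, hu0.trans_lt hv.1, hv.2.le.trans hul⟩
    show σ₁ (τ (p v)) ∈ Ioc s s'
    rw [hpid v hv2]
    have hτv := hτ v hv2
    have hτvσ := hτσ v hv2
    constructor
    · by_contra hcon
      push Not at hcon
      have h3 := h₂.mono hτv ht (htmax _ hτv hcon)
      rw [hτvσ] at h3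
      linarith [hv.1]
    · rw [← hts']
      refine h₁.mono hτv ht' ?_
      by_contra hcon
      push Not at hcon
      have h3 := h₂.mono ht' hτv hcon.le
      rw [hτvσ] at h3
      linarith [hv.2]
  have hcomp : Measurable fun s => R₁ (Φ₁ s) := hR₁.comp h₁.lip.continuous.measurable
  calc ∫⁻ s in Ioc 0 l₁, R₁ (Φ₁ s) ≤ ∫⁻ s, R₁ (Φ₁ s) ∂ν := lintegral_mono' key le_rfl
    _ = ∫⁻ u, R₁ (Φ₁ (θ u)) ∂κ := by
        rw [hν, lintegral_map hcomp hθm.measurable]
    _ = ∫⁻ u in Ioc 0 l₂, F u * R₁ (Φ₁ (θ u)) := by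
        have h := lintegral_withDensity_eq_lintegral_mul (volume.restrict (Ioc 0 l₂)) hFm
          (hcomp.comp hθm.measurable)
        exact h
    _ = ∫⁻ u in Ioc 0 l₂, F u * R₂ (Φ₂ u) := by
        refine setLIntegral_congr_fun measurableSet_Ioc fun u hu => ?_
        have hu2 : u ∈ Icc 0 l₂ := ⟨hu.1.le, hu.2⟩
        have h3 : θ u = σ₁ (τ u) := by simp only [hθ]; rw [hpid u hu2]
        show F u * R₁ (Φ₁ (θ u)) = F u * R₂ (Φ₂ u)
        rw [h3, h₁.eq _ (hτ u hu2), hR _ (hτ u hu2), ← h₂.eq _ (hτ u hu2), hτσ u hu2]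

end Pool.Agent.QCS
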