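import Pool.Agent.Lib.MP_811d89_an.QC2

/-!
# Assembly: from a skeleton to the quasiconformal length space
-/

open MeasureTheory Set Metric Topology Filter
open scoped ENNReal NNReal

namespace Pool.Agent.QCS

universe u

theorem C₂_ne_top : C₂ ≠ ∞ := by
  have h1 : ENNReal.ofReal (1 / 1024) ≠ 0 := by
    rw [ne_eq, ENNReal.ofReal_eq_zero, not_le]; norm_num
  refine ENNReal.mul_ne_top (ENNReal.div_ne_top (by norm_num) h1) (by norm_num)

theorem C₂_ge : 4096 ≤ C₂ := by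
  have h1 : (1 : ℝ≥0∞) ≤ 400 / ENNReal.ofReal (1 / 1024) := by
    rw [ENNReal.le_div_iff_mul_le (Or.inr (by norm_num)) (Or.inr (by norm_num)), one_mul]
    calc ENNReal.ofReal (1 / 1024) ≤ ENNReal.ofReal 1 := ENNReal.ofReal_le_ofReal (by norm_num)
      _ = 1 := ENNReal.ofReal_one
      _ ≤ 400 := by norm_num
  calc (4096 : ℝ≥0∞) = 1 * (4096 * 1) := by norm_num
    _ ≤ C₂ := by
      rw [C₂]
      gcongr
      norm_num

/-- Positive squares are arbitrarily small. -/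
theorem le_of_forall_sq {a b : ℝ≥0∞} (h : ∀ ε : ℝ≥0∞, ε ≠ 0 → a ≤ C₂ * (b + ε ^ 2)) :
    a ≤ C₂ * b := by
  have h1 : Tendsto (fun n : ℕ => C₂ * (b + ((n + 1 : ℕ) : ℝ≥0∞)⁻¹ ^ 2)) atTop
      (𝓝 (C₂ * (b + 0 ^ 2))) := by
    refine ENNReal.Tendsto.const_mul (tendsto_const_nhds.add ?_) (Or.inr C₂_ne_top)
    refine ((ENNReal.continuous_pow 2).tendsto _).comp ?_
    exact ENNReal.tendsto_inv_nat_nhds_zero.comp (tendsto_add_atTop_nat 1)
  rw [zero_pow (by norm_num), add_zero] at h1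
  refine ge_of_tendsto h1 (Eventually.of_forall fun n => h _ ?_)
  exact ENNReal.inv_ne_zero.2 (ENNReal.natCast_ne_top _)

variable {X : Type u} [MetricSpace X]

/-- The statement for one surface. -/
def Concl (X : Type u) [MetricSpace X] (K : ℝ≥0) : Prop :=
  ∃ (Y : Type u) (_ : MetricSpace Y), IsLengthSpace Y ∧ LocFinH2 Y ∧
      ∃ f : X ≃ₜ Y, IsQCWith K f

theorem concl_of_skel [SecondCountableTopology X] [LocallyConnectedSpace X] [ConnectedSpace X]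
    [LocallyCompactSpace X]
    (S : letI : MeasurableSpace X := borel X; haveI : BorelSpace X := ⟨rfl⟩; Skel X) :
    Concl X C₂.toNNReal := by
  letI : MeasurableSpace X := borel X
  haveI : BorelSpace X := ⟨rfl⟩
  obtain ⟨Y, hY, f, hf⟩ := Skel.exists_Y S
  letI : MeasurableSpace Y := borel Y
  haveI : BorelSpace Y := ⟨rfl⟩
  have hT : Trim S f := ⟨hf⟩
  refine ⟨Y, hY, hT.isLengthSpace, fun y => hT.locfin y, f, fun Γ => ?_⟩
  rw [ENNReal.coe_toNNReal C₂_ne_top]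
  constructor
  · refine (?_ : Mod2 Γ ≤ 4096 * Mod2 (Curve.map f '' Γ)).trans (mul_le_mul' C₂_ge le_rfl)
    rw [Mod2, Mod2]
    simp only [ENNReal.mul_iInf_of_ne (show (4096 : ℝ≥0∞) ≠ 0 by norm_num)
      (show (4096 : ℝ≥0∞) ≠ ∞ by norm_num)]
    refine le_iInf₂ fun ρ hρ => ?_
    obtain ⟨ρ', h1, h2, h3⟩ := hT.qc1 hρ.1 hρ.2
    exact (iInf₂_le ρ' ⟨h1, h2⟩).trans h3
  · have h0 : C₂ ≠ 0 := (lt_of_lt_of_le (by norm_num) C₂_ge).ne'
    rw [Mod2, Mod2]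
    simp only [ENNReal.mul_iInf_of_ne h0 C₂_ne_top]
    refine le_iInf₂ fun ρ hρ => ?_
    refine le_of_forall_sq fun ε hε => ?_
    obtain ⟨ρ', h1, h2, h3⟩ := hT.qc2 hρ.1 hρ.2 hε
    exact (iInf₂_le ρ' ⟨h1, h2⟩).trans h3

end Pool.Agent.QCS
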