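import Mathlib

/-!
# Metric differentiability of curves of unit speed
-/

open MeasureTheory Set Metric Topology Filter
open scoped ENNReal NNReal

namespace Pool.Agent.QCS

set_option linter.unusedSectionVars false

/-- Variations are bounded by integrals. -/
theorem eVariationOn_le_lintegral {Y : Type*} [PseudoEMetricSpace Y] {Φ : ℝ → Y} {s : Set ℝ}
    {g : ℝ → ℝ≥0∞}
    (h : ∀ a ∈ s, ∀ b ∈ s, a ≤ b → edist (Φ a) (Φ b) ≤ ∫⁻ x in Ioc a b, g x) {a b : ℝ}
    (hs : s ⊆ Icc a b) : eVariationOn Φ s ≤ ∫⁻ x in Ioc a b, g x := by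
  refine iSup_le fun p => ?_
  obtain ⟨n, u, hu, hus⟩ := p
  have key : ∀ m : ℕ, ∑ i ∈ Finset.range m, edist (Φ (u (i + 1))) (Φ (u i)) ≤
      ∫⁻ x in Ioc (u 0) (u m), g x := by
    intro m
    induction m with
    | zero => simp
    | succ m ih =>
      rw [Finset.sum_range_succ]
      have h1 := h (u m) (hus m) (u (m + 1)) (hus (m + 1)) (hu (Nat.le_succ m))
      rw [edist_comm] at h1
      calc _ ≤ (∫⁻ x in Ioc (u 0) (u m), g x) + ∫⁻ x in Ioc (u m) (u (m + 1)), g x :=
            add_le_add ih h1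
        _ = ∫⁻ x in Ioc (u 0) (u (m + 1)), g x := by
            rw [← Ioc_union_Ioc_eq_Ioc (hu (Nat.zero_le m)) (hu (Nat.le_succ m)),
              lintegral_union measurableSet_Ioc]
            exact Ioc_disjoint_Ioc_of_le le_rfl
  exact (key n).trans (lintegral_mono_set (Ioc_subset_Ioc (hs (hus 0)).1 (hs (hus n)).2))

/-- Two-sided metric differentiability with speed at least `1 / 2`. -/
def MD {Y : Type*} [MetricSpace Y] (Φ : ℝ → Y) (τ : ℝ) : Prop :=
  ∃ η > 0, ∀ a b, τ - η < a → a < τ → τ < b → b < τ + η → (1 / 2) * (b - a) ≤ dist (Φ a) (Φ b)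

theorem lip_increment {φ : ℝ → ℝ} (hφ : LipschitzWith 1 φ) {a b : ℝ} (hab : a ≤ b) :
    ENNReal.ofReal |φ b - φ a| ≤ ∫⁻ x in Ioc a b, ENNReal.ofReal |deriv φ x| := by
  have h1 := (hφ.lipschitzOnWith (s := uIcc a b)).absolutelyContinuousOnInterval.integral_deriv_eq_sub
  rw [← h1, intervalIntegral.integral_of_le hab]
  have h2 := enorm_integral_le_lintegral_enorm (μ := volume.restrict (Ioc a b)) (deriv φ)
  simpa only [Real.enorm_eq_ofReal_abs] using h2

theorem md_of_deriv {Y : Type*} [MetricSpace Y] {Φ : ℝ → Y} {z : Y} {τ : ℝ}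
    (hd : DifferentiableAt ℝ (fun t => dist z (Φ t)) τ)
    (h : 3 / 4 < |deriv (fun t => dist z (Φ t)) τ|) : MD Φ τ := by
  set φ : ℝ → ℝ := fun t => dist z (Φ t) with hφ
  set d := deriv φ τ with hdd
  have h1 := hd.hasDerivAt.isLittleO.def (show (0 : ℝ) < 1 / 4 by norm_num)
  obtain ⟨η, hη, hball⟩ := Metric.eventually_nhds_iff.1 h1
  have key : ∀ x, |x - τ| < η → |φ x - φ τ - (x - τ) * d| ≤ 1 / 4 * |x - τ| := by
    intro x hx
    have := hball (y := x) (by rwa [Real.dist_eq])
    simpa only [Real.norm_eq_abs, smul_eq_mul, ← hdd] using this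
  refine ⟨η, hη, fun a b ha1 ha2 hb1 hb2 => ?_⟩
  have ha := key a (by rw [abs_sub_comm, abs_of_nonneg (by linarith)]; linarith)
  have hb := key b (by rw [abs_of_nonneg (by linarith)]; linarith)
  rw [abs_sub_comm a τ, abs_of_nonneg (by linarith : 0 ≤ τ - a)] at ha
  rw [abs_of_nonneg (by linarith : 0 ≤ b - τ)] at hb
  have h2 : |φ b - φ a - (b - a) * d| ≤ 1 / 4 * (b - a) := by
    rw [abs_le] at ha hb ⊢
    constructor <;> nlinarith
  have h3 : |φ b - φ a| ≤ dist (Φ a) (Φ b) := by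
    have h4 := dist_triangle z (Φ a) (Φ b)
    have h5 := dist_triangle z (Φ b) (Φ a)
    rw [dist_comm (Φ b)] at h5
    rw [abs_le]
    constructor <;> simp only [hφ] <;> linarith
  have h6 : |(b - a) * d| ≤ |φ b - φ a| + |φ b - φ a - (b - a) * d| := by
    have := abs_sub_abs_le_abs_sub ((b - a) * d) (φ b - φ a)
    rw [abs_sub_comm ((b - a) * d)] at this
    linarith
  rw [abs_mul, abs_of_nonneg (by linarith : 0 ≤ b - a)] at h6
  have h7 : (b - a) * (3 / 4) ≤ (b - a) * |d| :=
    mul_le_mul_of_nonneg_left h.le (by linarith)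
  linarith

/-- Curves of unit speed are metrically differentiable almost everywhere. -/
theorem md_ae {Y : Type*} [MetricSpace Y] [TopologicalSpace.SeparableSpace Y] {Φ : ℝ → Y}
    (hΦ : LipschitzWith 1 Φ) {L : ℝ} (hlen : ENNReal.ofReal L ≤ eVariationOn Φ (Icc 0 L)) :
    ∀ᵐ τ ∂(volume.restrict (Icc 0 L)), MD Φ τ := by
  have : Nonempty Y := ⟨Φ 0⟩
  set z : ℕ → Y := TopologicalSpace.denseSeq Y with hz
  have hdense : DenseRange z := TopologicalSpace.denseRange_denseSeq Y
  set φ : ℕ → ℝ → ℝ := fun k t => dist (z k) (Φ t) with hφ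
  have hlip : ∀ k, LipschitzWith 1 (φ k) := by
    intro k
    have h1 : LipschitzWith 1 fun y : Y => dist (z k) y := LipschitzWith.dist_right (z k)
    have h2 := h1.comp hΦ
    rw [one_mul] at h2
    exact h2
  set B : Set ℝ := {τ | ∀ k, |deriv (φ k) τ| ≤ 3 / 4} with hB
  have hBm : MeasurableSet B := by
    have : B = ⋂ k, {τ | |deriv (φ k) τ| ≤ 3 / 4} := by ext; simp [hB]
    rw [this]
    exact MeasurableSet.iInter fun k =>
      measurableSet_le (measurable_deriv (φ k)).abs measurable_const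
  classical
  set g : ℝ → ℝ≥0∞ := fun τ => if τ ∈ B then ENNReal.ofReal (3 / 4) else 1 with hg
  have hderiv1 : ∀ k τ, |deriv (φ k) τ| ≤ 1 := by
    intro k τ
    have := norm_deriv_le_of_lipschitz (hlip k) (x₀ := τ)
    simpa using this
  have hgk : ∀ k τ, ENNReal.ofReal |deriv (φ k) τ| ≤ g τ := by
    intro k τ
    rw [hg]; dsimp only
    split_ifs with h
    · exact ENNReal.ofReal_le_ofReal (h k)
    · exact (ENNReal.ofReal_le_ofReal (hderiv1 k τ)).trans (by simp)
  have hedist : ∀ a b, a ≤ b → edist (Φ a) (Φ b) ≤ ∫⁻ x in Ioc a b, g x := by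
    intro a b hab
    refine ENNReal.le_of_forall_pos_le_add fun ε hε _ => ?_
    have hε' : (0 : ℝ) < ε := by exact_mod_cast hε
    obtain ⟨k, hk⟩ := hdense.exists_dist_lt (Φ a) (half_pos hε')
    have h1 : dist (Φ a) (Φ b) ≤ |φ k b - φ k a| + ε := by
      have h2 := dist_triangle (Φ a) (z k) (Φ b)
      have h3 : φ k b - φ k a ≤ |φ k b - φ k a| := le_abs_self _
      have h4 : φ k a = dist (Φ a) (z k) := dist_comm _ _
      have h5 : φ k b = dist (z k) (Φ b) := rfl
      linarith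
    rw [edist_dist]
    calc ENNReal.ofReal (dist (Φ a) (Φ b)) ≤ ENNReal.ofReal (|φ k b - φ k a| + ε) :=
          ENNReal.ofReal_le_ofReal h1
      _ = ENNReal.ofReal |φ k b - φ k a| + ε := by
          rw [ENNReal.ofReal_add (abs_nonneg _) hε'.le, ENNReal.ofReal_coe_nnreal]
      _ ≤ _ := by
          gcongr
          exact (lip_increment (hlip k) hab).trans (lintegral_mono fun x => hgk k x)
  have hvar : ENNReal.ofReal L ≤ ∫⁻ x in Ioc 0 L, g x :=
    hlen.trans (eVariationOn_le_lintegral (fun a _ b _ hab => hedist a b hab) Subset.rfl)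
  have hB0 : volume (B ∩ Ioc 0 L) = 0 := by
    have h1 : (∫⁻ x in Ioc 0 L, g x) + ENNReal.ofReal (1 / 4) * volume (B ∩ Ioc 0 L) =
        ENNReal.ofReal L := by
      have h2 : ENNReal.ofReal (1 / 4) * volume (B ∩ Ioc 0 L) =
          ∫⁻ x in Ioc 0 L, B.indicator (fun _ => ENNReal.ofReal (1 / 4)) x := by
        rw [lintegral_indicator hBm, Measure.restrict_restrict hBm, setLIntegral_const]
      rw [h2, ← lintegral_add_right _ (measurable_const.indicator hBm)]
      have h3 : ∀ x, g x + B.indicator (fun _ => ENNReal.ofReal (1 / 4)) x = 1 := by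
        intro x
        by_cases hx : x ∈ B
        · rw [indicator_of_mem hx, hg]; dsimp only; rw [if_pos hx,
            ← ENNReal.ofReal_add (by norm_num) (by norm_num)]
          norm_num
        · rw [indicator_of_notMem hx, hg]; dsimp only; rw [if_neg hx, add_zero]
      simp only [h3]
      simp
    have h4 : ENNReal.ofReal L + ENNReal.ofReal (1 / 4) * volume (B ∩ Ioc 0 L) ≤
        ENNReal.ofReal L + 0 := by
      rw [add_zero]
      calc _ ≤ (∫⁻ x in Ioc 0 L, g x) + ENNReal.ofReal (1 / 4) * volume (B ∩ Ioc 0 L) := by gcongr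
        _ = _ := h1
    have h5 := (ENNReal.add_le_add_iff_left ENNReal.ofReal_ne_top).1 h4
    have h6 := le_antisymm h5 zero_le
    rcases mul_eq_zero.1 h6 with h | h
    · norm_num at h
    · exact h
  have hdiff : ∀ᵐ τ : ℝ, ∀ k, DifferentiableAt ℝ (φ k) τ :=
    ae_all_iff.2 fun k => (hlip k).ae_differentiableAt_real
  have hBae : ∀ᵐ τ ∂(volume.restrict (Icc 0 L)), τ ∉ B := by
    rw [← restrict_Ioc_eq_restrict_Icc, ae_restrict_iff' measurableSet_Ioc, ae_iff]
    refine measure_mono_null (fun τ hτ => ?_) hB0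
    simp only [mem_ofPred_eq, Classical.not_imp, not_not] at hτ
    exact ⟨hτ.2, hτ.1⟩
  filter_upwards [ae_restrict_of_ae hdiff, hBae] with τ h1 h2
  have h3 : ∃ k, 3 / 4 < |deriv (φ k) τ| := by
    by_contra hcon
    push Not at hcon
    exact h2 hcon
  obtain ⟨k, hk⟩ := h3
  exact md_of_deriv (h1 k) hk

end Pool.Agent.QCS
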