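import Pool.Agent.Lib.MP_811d89_an.Good
import Pool.Agent.Lib.MP_811d89_an.Speed

/-!
# Bad scales
-/

open MeasureTheory Set Metric Topology Filter
open scoped ENNReal NNReal

namespace Pool.Agent.QCS

set_option linter.unusedSectionVars false

universe u

variable {X : Type u} [MetricSpace X] [MeasurableSpace X] [BorelSpace X]
variable {Y : Type u} [MetricSpace Y] [MeasurableSpace Y] [BorelSpace Y]
variable {S : Skel X} [LocallyConnectedSpace X] [ConnectedSpace X] [LocallyCompactSpace X]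
variable {f : X ≃ₜ Y}

/-- Short curves stay in balls where the weight is small. -/
theorem Trim.stay (hf : Trim S f) {y : X} {s lm : ℝ} (hlm : 0 ≤ lm)
    (hlam : ∀ z, dist (f y) (f z) < s → S.w z ≤ ENNReal.ofReal lm) {K : Set X} {p q : X} {l : ℝ}
    (h : LC K p q l) (hs : dist (f y) (f p) + lm * l < s) : dist (f p) (f q) ≤ lm * l := by
  obtain ⟨h0, g, hg, -, hg0, hgl⟩ := h
  have hcont : Continuous fun u => dist (f y) (f (g u)) :=
    continuous_const.dist (f.continuous.comp hg.continuous)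
  have hint : ∀ u ∈ Icc 0 l, (∀ u' ∈ Ico 0 u, dist (f y) (f (g u')) < s) →
      dist (f p) (f (g u)) ≤ lm * u := by
    intro u hu hall
    have h1 := hf.edist_curve hg hu.1
    rw [hg0, ← restrict_Ico_eq_restrict_Icc] at h1
    have h2 : ∫⁻ x in Ico 0 u, S.w (g x) ≤ ENNReal.ofReal (lm * u) := by
      calc ∫⁻ x in Ico 0 u, S.w (g x) ≤ ∫⁻ _ in Ico 0 u, ENNReal.ofReal lm :=
            setLIntegral_mono' measurableSet_Ico fun x hx => hlam _ (hall x hx)
        _ = ENNReal.ofReal (lm * u) := by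
            rw [setLIntegral_const, Real.volume_Ico, sub_zero, ← ENNReal.ofReal_mul hlm]
    rw [edist_dist] at h1
    exact (ENNReal.ofReal_le_ofReal_iff (mul_nonneg hlm hu.1)).1 (h1.trans h2)
  have hA : IsCompact (Icc 0 l ∩ {u | s ≤ dist (f y) (f (g u))}) :=
    isCompact_Icc.inter_right (isClosed_le continuous_const hcont)
  rcases (Icc 0 l ∩ {u | s ≤ dist (f y) (f (g u))}).eq_empty_or_nonempty with hem | hne
  · rw [← hgl]
    refine hint l ⟨h0, le_rfl⟩ fun u' hu' => ?_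
    by_contra hcon
    exact (hem ▸ (⟨⟨hu'.1, hu'.2.le⟩, not_lt.1 hcon⟩ :
      u' ∈ Icc 0 l ∩ {u | s ≤ dist (f y) (f (g u))}) : u' ∈ (∅ : Set ℝ))
  · exfalso
    obtain ⟨u, hu, hmin⟩ := hA.exists_isLeast hne
    have h1 := hint u hu.1 fun u' hu' => by
      by_contra hcon
      exact absurd (hmin ⟨⟨hu'.1, hu'.2.le.trans hu.1.2⟩, not_lt.1 hcon⟩) (not_le.2 hu'.2)
    have h2 : s ≤ dist (f y) (f (g u)) := hu.2
    have h3 := dist_triangle (f y) (f p) (f (g u))
    have h4 : lm * u ≤ lm * l := mul_le_mul_of_nonneg_left hu.1.2 hlm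
    linarith

theorem Trim.bad_reach (hf : Trim S f) {y : X} (hy : S.v y ≠ ∞) {s : ℝ} (hs : 0 < s)
    (hE : ∀ e ∈ S.E, s ≤ dist (f y) (f e)) {c₀ : ℝ} (hc₀ : 0 < c₀) (hc : 64 * c₀ ≤ 1)
    (hbad : mass f y s * lam S f y s ^ 2 < ENNReal.ofReal (c₀ * s ^ 2)) :
    ∃ t, 0 ≤ t ∧ ENNReal.ofReal t < S.v y ∧
      (∀ a ∈ frontier (S.hair t y), ∀ b ∈ frontier (S.hair t y),
        dist (f a) (f b) ≤ 8 * c₀ * s) ∧
      (∀ q ∈ frontier (S.hair t y), s / 8 ≤ dist (f y) (f q)) ∧
      (∃ q ∈ frontier (S.hair t y), dist (f y) (f q) ≤ s / 4) ∧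
      S.Lh t y * lam S f y s ≤ ENNReal.ofReal (8 * c₀ * s) := by
  have hyE : y ∉ S.E := fun h => by
    have := hE y h
    rw [dist_self] at this
    linarith
  obtain ⟨c, hcg⟩ := S.exists_Geod hyE hy
  set V := (S.v y).toReal with hV
  have hV0 : 0 ≤ V := ENNReal.toReal_nonneg
  have hVe : S.v y = ENNReal.ofReal V := hcg.v_eq
  have hint : ENNReal.ofReal s ≤ ∫⁻ τ in Icc 0 V, S.w (c τ) := by
    have h2 := hf.edist_curve hcg.lip hV0
    rw [hcg.top] at h2
    refine le_trans ?_ h2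
    rw [edist_dist, dist_comm]
    exact ENNReal.ofReal_le_ofReal (hE (c 0) hcg.zero)
  obtain ⟨t₁, ht₁, ht₁e⟩ := Skel.exists_psi (S := S) (r := s / 4) hV0 (by positivity)
    ((ENNReal.ofReal_le_ofReal (by linarith)).trans hint)
  obtain ⟨t₂, ht₂, ht₂e⟩ := Skel.exists_psi (S := S) (r := s / 8) hV0 (by positivity)
    ((ENNReal.ofReal_le_ofReal (by linarith)).trans hint)
  have h12 : t₁ < t₂ := by
    by_contra hcon
    push Not at hcon
    have h1 : ∫⁻ τ in Icc t₁ V, S.w (c τ) ≤ ∫⁻ τ in Icc t₂ V, S.w (c τ) :=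
      lintegral_mono_set (Icc_subset_Icc hcon le_rfl)
    rw [ht₁e, ht₂e] at h1
    have := (ENNReal.ofReal_le_ofReal_iff (by positivity)).1 h1
    linarith
  -- distances along the geodesic
  have hgd : ∀ τ ∈ Icc t₁ V, dist (f y) (f (c τ)) ≤ s / 4 := by
    intro τ hτ
    have h1 := hf.edist_curve hcg.lip hτ.2
    rw [hcg.top] at h1
    have h2 := h1.trans ((lintegral_mono_set (Icc_subset_Icc hτ.1 le_rfl)).trans ht₁e.le)
    rw [edist_dist, dist_comm] at h2
    exact (ENNReal.ofReal_le_ofReal_iff (by positivity)).1 h2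
  set lm := (lam S f y s).toReal with hlmdef
  have hlamfin : lam S f y s ≠ ∞ := ((lam_le_one y s).trans_lt ENNReal.one_lt_top).ne
  have hlame : lam S f y s = ENNReal.ofReal lm := (ENNReal.ofReal_toReal hlamfin).symm
  have hlm0 : 0 ≤ lm := ENNReal.toReal_nonneg
  have hlam : ∀ z, dist (f y) (f z) < s → S.w z ≤ ENNReal.ofReal lm := fun z hz => by
    rw [← hlame]; exact w_le_lam hz
  have hlen : s / 8 ≤ lm * (t₂ - t₁) := by
    have h1 : ENNReal.ofReal (s / 4) ≤ ENNReal.ofReal (lm * (t₂ - t₁)) + ENNReal.ofReal (s / 8) := by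
      rw [← ht₁e, ← ht₂e]
      have hsub : Icc t₁ V ⊆ Icc t₁ t₂ ∪ Icc t₂ V := by
        intro x hx
        rcases le_total x t₂ with h | h
        · exact Or.inl ⟨hx.1, h⟩
        · exact Or.inr ⟨h, hx.2⟩
      refine (lintegral_mono_set hsub).trans ((lintegral_union_le _ _ _).trans ?_)
      refine add_le_add ?_ le_rfl
      calc ∫⁻ x in Icc t₁ t₂, S.w (c x) ≤ ∫⁻ _ in Icc t₁ t₂, ENNReal.ofReal lm :=
            setLIntegral_mono' measurableSet_Icc fun x hx => hlam _
              ((hgd x ⟨hx.1, hx.2.trans ht₂.2⟩).trans_lt (by linarith))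
        _ = ENNReal.ofReal (lm * (t₂ - t₁)) := by
            rw [setLIntegral_const, Real.volume_Icc, ← ENNReal.ofReal_mul hlm0]
    rw [← ENNReal.ofReal_add (mul_nonneg hlm0 (by linarith)) (by positivity)] at h1
    have := (ENNReal.ofReal_le_ofReal_iff (by nlinarith)).1 h1
    linarith
  have hlmpos : 0 < lm := by
    rcases hlm0.eq_or_lt with h | h
    · rw [← h, zero_mul] at hlen; linarith
    · exact h
  set r := s / (4 * lm) with hr
  have hr0 : 0 < r := by positivity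
  have hlr : lm * r = s / 4 := by rw [hr]; field_simp
  -- the region is inside the ball
  have hreg : S.region y c t₁ t₂ r ⊆ f ⁻¹' ball (f y) s := by
    rintro z ⟨hzc, σ, hσ, hd⟩
    have hLC := LC_of_dl_le (S.cc_compact y hyE) hr0.le hd
    have h1 := hgd σ ⟨hσ.1, hσ.2.trans ht₂.2⟩
    have h2 := hf.stay hlm0 hlam hLC (by rw [hlr]; linarith)
    rw [mem_preimage, mem_ball, dist_comm]
    rw [hlr] at h2
    have h3 := dist_triangle (f y) (f (c σ)) (f z)
    linarith
  -- masses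
  have hmassfin : mass f y s ≠ ∞ := by
    intro h
    rw [h, ENNReal.top_mul] at hbad
    · exact absurd hbad (not_lt.2 le_top)
    · rw [hlame]
      have : ENNReal.ofReal lm ≠ 0 := by simpa using hlmpos
      exact pow_ne_zero _ this
  set M := (mass f y s).toReal with hM
  have hM0 : 0 ≤ M := ENNReal.toReal_nonneg
  have hMb : M * lm ^ 2 < c₀ * s ^ 2 := by
    rw [hlame, ← ENNReal.ofReal_toReal hmassfin, ← ENNReal.ofReal_pow hlm0,
      ← ENNReal.ofReal_mul ENNReal.toReal_nonneg] at hbad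
    exact (ENNReal.ofReal_lt_ofReal_iff (by positivity)).1 hbad
  obtain ⟨t, ht, hmin⟩ := S.exists_min_Lh_le hyE hcg ht₁.1 le_rfl h12 le_rfl ht₂.2 hr0
  set m := (μH[2] (S.region y c t₁ t₂ r)).toReal with hm
  have hm0 : 0 ≤ m := ENNReal.toReal_nonneg
  have hmM : m ≤ M := ENNReal.toReal_mono hmassfin (measure_mono hreg)
  set l := 8 * c₀ * s / lm with hl
  have hl0 : 0 < l := by positivity
  have hlml : lm * l = 8 * c₀ * s := by rw [hl]; field_simp
  have hml : m / (t₂ - t₁) ≤ l := by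
    rw [div_le_iff₀ (by linarith), hl]
    have h1 : m * lm ^ 2 ≤ c₀ * s ^ 2 := (mul_le_mul_of_nonneg_right hmM (by positivity)).trans hMb.le
    have h2 : 8 * c₀ * s / lm * (t₂ - t₁) * lm ^ 2 = 8 * c₀ * s * (lm * (t₂ - t₁)) := by
      field_simp
    have h3 : c₀ * s ^ 2 ≤ 8 * c₀ * s * (lm * (t₂ - t₁)) := by
      have : 8 * c₀ * s * (s / 8) ≤ 8 * c₀ * s * (lm * (t₂ - t₁)) := by gcongr
      nlinarith
    have h4 : m * lm ^ 2 ≤ 8 * c₀ * s / lm * (t₂ - t₁) * lm ^ 2 := by rw [h2]; linarith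
    exact le_of_mul_le_mul_right h4 (by positivity)
  have hlr2 : l < r := by
    rw [hl, hr, div_lt_div_iff₀ hlmpos (by positivity)]
    nlinarith [mul_pos hs hlmpos]
  have hLl : S.Lh t y ≤ ENNReal.ofReal l := by
    rcases min_le_iff.1 (hmin.trans (ENNReal.ofReal_le_ofReal hml)) with h | h
    · exact h
    · exact absurd ((ENNReal.ofReal_le_ofReal_iff hl0.le).1 h) (not_le.2 hlr2)
  have ht0 : 0 ≤ t := ht₁.1.trans ht.1.le
  have htV : t < V := ht.2.trans_le ht₂.2
  have hq₀ : c t ∈ frontier (S.hair t y) := hcg.mem_frontier ht0 htV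
  have hq₀d : dist (f y) (f (c t)) ≤ s / 4 := hgd t ⟨ht.1.le, htV.le⟩
  have hcc := S.cc_compact y hyE
  have hLC : ∀ a ∈ frontier (S.hair t y), ∀ b ∈ frontier (S.hair t y), LC (S.cc y) a b l :=
    fun a ha b hb => LC_of_dl_le hcc hl0.le ((S.dl_le_Lh ha hb).trans hLl)
  have hfr : ∀ a ∈ frontier (S.hair t y), dist (f y) (f a) ≤ s / 4 + 8 * c₀ * s := by
    intro a ha
    have h1 := hf.stay hlm0 hlam (hLC _ hq₀ a ha) (by rw [hlml]; nlinarith)
    rw [hlml] at h1
    have h2 := dist_triangle (f y) (f (c t)) (f a)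
    linarith
  refine ⟨t, ht0, ?_, fun a ha b hb => ?_, fun q hq => ?_, ⟨c t, hq₀, hq₀d⟩, ?_⟩
  · rw [hVe]; exact (ENNReal.ofReal_lt_ofReal_iff (ht0.trans_lt htV)).2 htV
  · have h1 := hf.stay hlm0 hlam (hLC a ha b hb) (by
      rw [hlml]
      have := hfr a ha
      nlinarith)
    rwa [hlml] at h1
  · have hqW : q ∉ S.hair t y := fun h => hq.2 (by
      rw [(S.isOpen_hair t y).interior_eq]; exact h)
    have h1 := Skel.crossing_cost hcg ht0 hqW
    have hct : S.v (c t) ≠ ∞ := by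
      rw [hcg.val t ⟨ht0, htV.le⟩]; exact ENNReal.ofReal_ne_top
    have hqv : S.v q ≠ ∞ := S.v_ne_top_of_LC ((hLC _ hq₀ q hq).mono (subset_univ _)) hct
    rw [← hf.edist_eq y q hy hqv] at h1
    have h2 : ENNReal.ofReal (s / 8) ≤ edist (f y) (f q) := by
      rw [← ht₂e]
      exact (lintegral_mono_set (Icc_subset_Icc ht.2.le le_rfl)).trans h1
    rw [edist_dist] at h2
    exact (ENNReal.ofReal_le_ofReal_iff dist_nonneg).1 h2
  · rw [hlame]
    calc S.Lh t y * ENNReal.ofReal lm ≤ ENNReal.ofReal l * ENNReal.ofReal lm := by gcongr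
      _ = ENNReal.ofReal (8 * c₀ * s) := by
          rw [← ENNReal.ofReal_mul hl0.le, mul_comm, hlml]

/-- Bad scales at arbitrary points off the skeleton. -/
theorem Trim.bad_scale (hf : Trim S f) {x : X} {s : ℝ} (hs : 0 < s)
    (hE : ∀ e ∈ S.E, 2 * s ≤ dist (f x) (f e))
    (hbad : mass f x s * lam S f x s ^ 2 < ENNReal.ofReal (1 / 1024 * s ^ 2)) :
    ∃ t, 0 ≤ t ∧ ENNReal.ofReal t < S.v x ∧
      (∀ a ∈ frontier (S.hair t x), ∀ b ∈ frontier (S.hair t x), dist (f a) (f b) ≤ s / 32) ∧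
      (∀ q ∈ frontier (S.hair t x), s / 16 ≤ dist (f x) (f q)) ∧
      (∃ q ∈ frontier (S.hair t x), dist (f x) (f q) ≤ s / 2) ∧
      S.Lh t x * S.w x ≤ ENNReal.ofReal s := by
  obtain ⟨z, hz, hzx⟩ := Trim.exists_near f S (f x) (ε := s / 32) (by positivity)
  set s' := 31 * s / 32 with hs'
  have hs'0 : 0 < s' := by positivity
  have hball : ball (f z) s' ⊆ ball (f x) s := ball_subset_ball' (by rw [hs']; linarith)
  have hmass : mass f z s' ≤ mass f x s := measure_mono (preimage_mono hball)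
  have hlam : lam S f z s' ≤ lam S f x s := lam_le fun y hy => by
    have h1 : f y ∈ ball (f x) s := hball (by rw [mem_ball, dist_comm]; exact hy)
    rw [mem_ball, dist_comm] at h1
    exact w_le_lam h1
  obtain ⟨t, ht0, htv, h1, h2, ⟨q, hq, hqd⟩, h4⟩ := hf.bad_reach hz hs'0 (fun e he => by
      have h1 := hE e he
      have h2 := dist_triangle (f x) (f z) (f e)
      rw [dist_comm (f x) (f z)] at h2
      rw [hs']; linarith) (c₀ := 1 / 512) (by norm_num) (by norm_num) (by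
      calc mass f z s' * lam S f z s' ^ 2 ≤ mass f x s * lam S f x s ^ 2 := by gcongr
        _ < ENNReal.ofReal (1 / 1024 * s ^ 2) := hbad
        _ ≤ ENNReal.ofReal (1 / 512 * s' ^ 2) := by
          refine ENNReal.ofReal_le_ofReal ?_
          rw [hs']; nlinarith [sq_nonneg s])
  -- `x` is in the hair
  have hxW : x ∈ S.hair t z := by
    by_contra hcon
    obtain ⟨h0, g, hg, -, hg0, hgl⟩ := hf.LC_all (f z) (f x) (r := s / 16) (by linarith)
    have hconn : IsPreconnected (f.symm '' (g '' Icc 0 (s / 16))) :=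
      (isPreconnected_Icc.image g hg.continuous.continuousOn).image _
        f.symm.continuous.continuousOn
    obtain ⟨p, ⟨_, ⟨u, hu, rfl⟩, hp⟩, hpF⟩ := meets_frontier (U := S.hair t z) hconn
      ⟨z, ⟨f z, ⟨0, ⟨le_rfl, h0⟩, hg0⟩, by simp⟩, S.mem_hair htv⟩
      ⟨x, ⟨f x, ⟨s / 16, ⟨h0, le_rfl⟩, hgl⟩, by simp⟩, hcon⟩
    have h5 := h2 p hpF
    rw [← hp, f.apply_symm_apply, ← hg0] at h5
    have h6 := lip_dist hg 0 u
    rw [zero_sub, abs_neg, abs_of_nonneg hu.1] at h6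
    rw [hs'] at h5
    linarith [hu.2]
  have hWeq := S.hair_eq hxW
  refine ⟨t, ht0, S.v_gt_of_hair hxW, ?_, ?_, ?_, ?_⟩
  · rw [hWeq]
    intro a ha b hb
    refine (h1 a ha b hb).trans ?_
    rw [hs']; linarith
  · rw [hWeq]
    intro q hq
    have h5 := h2 q hq
    have h6 := dist_triangle (f z) (f x) (f q)
    rw [hs'] at h5
    linarith
  · rw [hWeq]
    refine ⟨q, hq, ?_⟩
    have h6 := dist_triangle (f x) (f z) (f q)
    rw [dist_comm (f x) (f z)] at h6
    rw [hs'] at hqd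
    linarith
  · rw [S.Lh_eq hxW]
    calc S.Lh t z * S.w x ≤ S.Lh t z * lam S f z s' := by
          gcongr
          exact w_le_lam (by rw [hs']; linarith)
      _ ≤ ENNReal.ofReal (8 * (1 / 512) * s') := h4
      _ ≤ ENNReal.ofReal s := ENNReal.ofReal_le_ofReal (by rw [hs']; linarith)

theorem w_ne_zero_of_thick {x : X} (h : S.Thick x) : S.w x ≠ 0 := by
  have hv := h.v_ne_top
  obtain ⟨l, hl, hL⟩ := h
  set V := (S.v x).toReal with hV
  have hV0 : 0 ≤ V := ENNReal.toReal_nonneg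
  have hnd : ¬ S.deep (l / (V + 1)).toNNReal x := by
    rintro ⟨t, ht0, htv, hlt⟩
    have h1 := hL t ht0 htv
    have h2 : ((l / (V + 1)).toNNReal : ℝ≥0∞) * (S.v x - ENNReal.ofReal t) ≤ ENNReal.ofReal l := by
      calc ((l / (V + 1)).toNNReal : ℝ≥0∞) * (S.v x - ENNReal.ofReal t)
          ≤ ENNReal.ofReal (l / (V + 1)) * ENNReal.ofReal V :=
            mul_le_mul' le_rfl (tsub_le_self.trans (ENNReal.ofReal_toReal hv).ge)
        _ = ENNReal.ofReal (l / (V + 1) * V) := (ENNReal.ofReal_mul (by positivity)).symm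
        _ ≤ ENNReal.ofReal l := by
            refine ENNReal.ofReal_le_ofReal ?_
            rw [div_mul_eq_mul_div, div_le_iff₀ (by positivity)]
            nlinarith
    exact absurd (h1.trans_lt hlt) (not_lt.2 h2)
  intro h0
  have h1 := S.le_w_of_not_deep hnd
  rw [h0] at h1
  have hpos : (0 : ℝ≥0) < (l / (V + 1)).toNNReal := Real.toNNReal_pos.2 (by positivity)
  have h2 : (0 : ℝ≥0∞) < min 1 (16 * ((l / (V + 1)).toNNReal : ℝ≥0∞) ^ 2) := by
    refine lt_min one_pos ?_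
    have : (0 : ℝ≥0) < 16 * (l / (V + 1)).toNNReal ^ 2 := by positivity
    exact_mod_cast this
  exact absurd h1 (not_le.2 h2)

/-- If a point off the skeleton is not in the good set, hairs at bad scales eventually do not
contain a given other point. -/
theorem Trim.no_far (_hf : Trim S f) {x y' : X} (hx : x ∉ S.E) (hne : x ≠ y') :
    ∃ s₀ > 0, ∀ s t, 0 < s → s < s₀ → 0 ≤ t → ENNReal.ofReal t < S.v x →
      (∃ q ∈ frontier (S.hair t x), dist (f x) (f q) ≤ s / 2) →
      S.Lh t x * S.w x ≤ ENNReal.ofReal s → y' ∉ S.hair t x := by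
  obtain ⟨ε₀, hε₀, hsm⟩ := S.small_hair' (isCompact_singleton (x := x)) (dist_pos.2 hne)
  have hbig : ∀ t, ENNReal.ofReal t < S.v x → y' ∈ S.hair t x → ENNReal.ofReal ε₀ ≤ S.Lh t x := by
    intro t ht hy'
    by_contra hcon
    push Not at hcon
    exact absurd (hsm x rfl hx t hcon x (S.mem_hair ht) y' hy') (lt_irrefl _)
  by_cases hw : S.w x = 0
  · -- there is a hair of `x` not containing `y'`
    have hnt : ¬ S.Thick x := fun h => w_ne_zero_of_thick h hw
    have hnt' : ∀ l > 0, ∃ t, 0 ≤ t ∧ ENNReal.ofReal t < S.v x ∧ S.Lh t x < ENNReal.ofReal l := by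
      unfold Skel.Thick at hnt
      push Not at hnt
      exact hnt
    obtain ⟨t', ht'0, ht'v, ht'L⟩ := hnt' ε₀ hε₀
    have hy't : y' ∉ S.hair t' x := fun h => absurd (hbig t' ht'v h) (not_le.2 ht'L)
    have hopen : IsOpen (f '' S.hair t' x) := f.isOpenMap _ (S.isOpen_hair t' x)
    obtain ⟨r, hr, hball⟩ := Metric.isOpen_iff.1 hopen (f x) ⟨x, S.mem_hair ht'v, rfl⟩
    refine ⟨r, hr, fun s t hs hsr ht0 htv hq _ hy'mem => ?_⟩
    obtain ⟨q, hq, hqd⟩ := hq
    have hqt : q ∈ S.hair t' x := by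
      obtain ⟨q', hq', hqq⟩ := hball (show f q ∈ ball (f x) r by
        rw [mem_ball, dist_comm]; linarith)
      rwa [← f.injective hqq]
    have hqn : q ∉ S.hair t x := fun h => hq.2 (by
      rw [(S.isOpen_hair t x).interior_eq]; exact h)
    rcases le_total t t' with h | h
    · exact hqn (S.hair_anti h x hqt)
    · exact hy't (S.hair_anti h x hy'mem)
  · set w := (S.w x).toReal with hwd
    have hwfin : S.w x ≠ ∞ := ((S.w_le_one x).trans_lt ENNReal.one_lt_top).ne
    have hw0 : 0 < w := ENNReal.toReal_pos hw hwfin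
    refine ⟨ε₀ * w, by positivity, fun s t hs hsr ht0 htv _ hLw hy'mem => ?_⟩
    have h1 := hbig t htv hy'mem
    have h2 : ENNReal.ofReal (ε₀ * w) ≤ ENNReal.ofReal s := by
      rw [ENNReal.ofReal_mul hε₀.le, hwd, ENNReal.ofReal_toReal hwfin]
      exact (mul_le_mul' h1 le_rfl).trans hLw
    exact absurd ((ENNReal.ofReal_le_ofReal_iff hs.le).1 h2) (not_le.2 hsr)

/-- Points of metric differentiability are good or in the skeleton. -/
theorem Trim.good_of_md (hf : Trim S f) {Φ : ℝ → Y} (hΦ : LipschitzWith 1 Φ) {τ : ℝ}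
    (hmd : MD Φ τ) (hE : f.symm (Φ τ) ∉ S.E) : f.symm (Φ τ) ∈ Good S f (1 / 1024) := by
  obtain ⟨η, hη, hmd⟩ := hmd
  set x := f.symm (Φ τ) with hx
  have hfx : f x = Φ τ := by rw [hx, f.apply_symm_apply]
  set b₁ := τ + η / 2 with hb₁
  set a₁ := τ - η / 2 with ha₁
  -- the curve is not constant on either side
  have hR : Φ τ ≠ Φ b₁ := by
    intro h
    have h1 : Tendsto (fun a => (1 / 2) * (b₁ - a) - dist (Φ a) (Φ b₁)) (𝓝[<] τ)
        (𝓝 ((1 / 2) * (b₁ - τ) - dist (Φ τ) (Φ b₁))) := by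
      refine Tendsto.mono_left ?_ nhdsWithin_le_nhds
      have : Continuous fun a => (1 / 2) * (b₁ - a) - dist (Φ a) (Φ b₁) :=
        (continuous_const.mul (continuous_const.sub continuous_id)).sub
          (hΦ.continuous.dist continuous_const)
      exact this.tendsto τ
    have h2 : ∀ᶠ a in 𝓝[<] τ, (1 / 2) * (b₁ - a) - dist (Φ a) (Φ b₁) ≤ 0 := by
      have h3 : ∀ᶠ a in 𝓝[<] τ, τ - η < a :=
        mem_nhdsWithin_of_mem_nhds (lt_mem_nhds (by linarith))
      filter_upwards [h3, self_mem_nhdsWithin] with a ha1 ha2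
      have := hmd a b₁ ha1 ha2 (by linarith) (by linarith)
      linarith
    have h3 := le_of_tendsto h1 h2
    rw [h, dist_self] at h3
    linarith
  have hLft : Φ τ ≠ Φ a₁ := by
    intro h
    have h1 : Tendsto (fun b => (1 / 2) * (b - a₁) - dist (Φ a₁) (Φ b)) (𝓝[>] τ)
        (𝓝 ((1 / 2) * (τ - a₁) - dist (Φ a₁) (Φ τ))) := by
      refine Tendsto.mono_left ?_ nhdsWithin_le_nhds
      have : Continuous fun b => (1 / 2) * (b - a₁) - dist (Φ a₁) (Φ b) :=
        (continuous_const.mul (continuous_id.sub continuous_const)).sub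
          (continuous_const.dist hΦ.continuous)
      exact this.tendsto τ
    have h2 : ∀ᶠ b in 𝓝[>] τ, (1 / 2) * (b - a₁) - dist (Φ a₁) (Φ b) ≤ 0 := by
      have h3 : ∀ᶠ b in 𝓝[>] τ, b < τ + η :=
        mem_nhdsWithin_of_mem_nhds (gt_mem_nhds (by linarith))
      filter_upwards [h3, self_mem_nhdsWithin] with b hb1 hb2
      have := hmd a₁ b (by linarith) (by linarith) hb2 hb1
      linarith
    have h3 := le_of_tendsto h1 h2
    rw [h, dist_self] at h3
    linarith
  obtain ⟨s₁, hs₁, hfar₁⟩ := hf.no_far (y' := f.symm (Φ b₁)) hE (fun h => hR (by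
    rw [← hfx, h, f.apply_symm_apply]))
  obtain ⟨s₂, hs₂, hfar₂⟩ := hf.no_far (y' := f.symm (Φ a₁)) hE (fun h => hLft (by
    rw [← hfx, h, f.apply_symm_apply]))
  -- distance to the skeleton
  have hopen : IsOpen (f '' S.Eᶜ) := f.isOpenMap _ S.closed.isOpen_compl
  obtain ⟨r, hr, hball⟩ := Metric.isOpen_iff.1 hopen (f x) ⟨x, hE, rfl⟩
  have hEr : ∀ e ∈ S.E, r ≤ dist (f x) (f e) := by
    intro e he
    by_contra hcon
    push Not at hcon
    obtain ⟨e', he', hee⟩ := hball (show f e ∈ ball (f x) r by rw [mem_ball, dist_comm]; exact hcon)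
    rw [f.injective hee] at he'
    exact he' he
  have hpow : ∀ᶠ k : ℕ in atTop, (1 / 2 : ℝ) ^ k < min (min s₁ s₂) (r / 2) :=
    (tendsto_pow_atTop_nhds_zero_of_lt_one (by norm_num) (by norm_num)).eventually_lt_const
      (by positivity)
  show ∀ᶠ k : ℕ in atTop, _
  filter_upwards [hpow] with k hk
  by_contra hcon
  push Not at hcon
  set s : ℝ := (1 / 2) ^ k with hs
  have hs0 : 0 < s := by positivity
  have hss₁ : s < s₁ := hk.trans_le ((min_le_left _ _).trans (min_le_left _ _))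
  have hss₂ : s < s₂ := hk.trans_le ((min_le_left _ _).trans (min_le_right _ _))
  have hsr : s < r / 2 := hk.trans_le (min_le_right _ _)
  obtain ⟨t, ht0, htv, h1, h2, h3, h4⟩ := hf.bad_scale hs0
    (fun e he => (by linarith [hEr e he] : 2 * s ≤ dist (f x) (f e))) hcon
  have hout₁ := hfar₁ s t hs0 hss₁ ht0 htv h3 h4
  have hout₂ := hfar₂ s t hs0 hss₂ ht0 htv h3 h4
  have hxW := S.mem_hair htv
  have hsym : Continuous fun u => f.symm (Φ u) := f.symm.continuous.comp hΦ.continuous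
  obtain ⟨p, ⟨b, hb, hbp⟩, hpF⟩ := meets_frontier (U := S.hair t x)
    ((isPreconnected_Icc (a := τ) (b := b₁)).image (fun u => f.symm (Φ u)) hsym.continuousOn)
    ⟨x, ⟨τ, ⟨le_rfl, by linarith⟩, rfl⟩, hxW⟩
    ⟨_, ⟨b₁, ⟨by linarith, le_rfl⟩, rfl⟩, hout₁⟩
  obtain ⟨q, ⟨a, ha, haq⟩, hqF⟩ := meets_frontier (U := S.hair t x)
    ((isPreconnected_Icc (a := a₁) (b := τ)).image (fun u => f.symm (Φ u)) hsym.continuousOn)
    ⟨x, ⟨τ, ⟨by linarith, le_rfl⟩, rfl⟩, hxW⟩
    ⟨_, ⟨a₁, ⟨le_rfl, by linarith⟩, rfl⟩, hout₂⟩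
  have hfp : f p = Φ b := by rw [← hbp]; simp
  have hfq : f q = Φ a := by rw [← haq]; simp
  have hxn : ∀ z ∈ frontier (S.hair t x), z ≠ x := fun z hz h => hz.2 (by
    rw [(S.isOpen_hair t x).interior_eq, h]; exact hxW)
  have hbτ : τ < b := by
    rcases hb.1.eq_or_lt with h | h
    · exact absurd (by rw [← hbp, ← h]) (hxn p hpF)
    · exact h
  have haτ : a < τ := by
    rcases ha.2.eq_or_lt with h | h
    · exact absurd (by rw [← haq, h]) (hxn q hqF)
    · exact h
  have h5 := hmd a b (by linarith [ha.1]) haτ hbτ (by linarith [hb.2])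
  have h6 := h1 q hqF p hpF
  rw [hfq, hfp] at h6
  have h7 := h2 p hpF
  have h8 := h2 q hqF
  rw [hfp, hfx] at h7
  rw [hfq, hfx] at h8
  have h9 := lip_dist hΦ τ b
  rw [abs_sub_comm, abs_of_nonneg (by linarith)] at h9
  have h10 := lip_dist hΦ τ a
  rw [abs_of_nonneg (by linarith)] at h10
  linarith

/-- Curves of unit speed spend almost all their time in the good set or in the skeleton. -/
theorem Trim.ae_good [SecondCountableTopology X] (hf : Trim S f) {Φ : ℝ → Y}
    (hΦ : LipschitzWith 1 Φ) {L : ℝ} (hlen : ENNReal.ofReal L ≤ eVariationOn Φ (Icc 0 L)) :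
    ∀ᵐ τ ∂(volume.restrict (Icc 0 L)), f.symm (Φ τ) ∈ Good S f (1 / 1024) ∪ S.E := by
  have : SecondCountableTopology Y := f.symm.isEmbedding.secondCountableTopology
  filter_upwards [md_ae hΦ hlen] with τ hτ
  by_cases h : f.symm (Φ τ) ∈ S.E
  · exact Or.inr h
  · exact Or.inl (hf.good_of_md hΦ hτ h)

end Pool.Agent.QCS
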