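import Mathlib

/-!
# Basic facts on 1-Lipschitz curves, length distances and weighted costs
-/

open MeasureTheory Set Metric Topology Filter
open scoped ENNReal NNReal

namespace Pool.Agent.QCS

set_option linter.unusedSectionVars false

variable {X : Type*} [MetricSpace X]

/-- `a` and `b` are joined inside `K` by a `1`-Lipschitz curve parametrised by `[0, L]`. -/
def LC (K : Set X) (a b : X) (L : ℝ) : Prop :=
  0 ≤ L ∧ ∃ c : ℝ → X, LipschitzWith 1 c ∧ (∀ s, c s ∈ K) ∧ c 0 = a ∧ c L = b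

/-- Concatenation of two curves at time `L`. -/
noncomputable def cat (c₁ c₂ : ℝ → X) (L : ℝ) : ℝ → X :=
  fun s => if s ≤ L then c₁ s else c₂ (s - L)

theorem lip_dist {c : ℝ → X} (hc : LipschitzWith 1 c) (s t : ℝ) : dist (c s) (c t) ≤ |s - t| := by
  have := hc.dist_le_mul s t
  simpa [Real.dist_eq] using this

theorem lip_of_dist {c : ℝ → X} (h : ∀ s t, s ≤ t → dist (c s) (c t) ≤ t - s) :
    LipschitzWith 1 c := by
  refine LipschitzWith.of_dist_le_mul fun s t => ?_
  simp only [NNReal.coe_one, one_mul, Real.dist_eq]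
  rcases le_total s t with hst | hst
  · rw [abs_sub_comm, abs_of_nonneg (sub_nonneg.2 hst)]; exact h s t hst
  · rw [abs_of_nonneg (sub_nonneg.2 hst), dist_comm]; exact h t s hst

theorem cat_lip {c₁ c₂ : ℝ → X} (h₁ : LipschitzWith 1 c₁) (h₂ : LipschitzWith 1 c₂) {L : ℝ}
    (h : c₁ L = c₂ 0) : LipschitzWith 1 (cat c₁ c₂ L) := by
  refine lip_of_dist fun s t hst => ?_
  unfold cat
  split_ifs with h1 h2 h2
  · have := lip_dist h₁ s t
    rwa [abs_sub_comm, abs_of_nonneg (sub_nonneg.2 hst)] at this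
  · have e1 := lip_dist h₁ s L
    have e2 := lip_dist h₂ 0 (t - L)
    rw [abs_sub_comm, abs_of_nonneg (sub_nonneg.2 h1)] at e1
    rw [zero_sub, abs_neg, abs_of_nonneg (by linarith [not_le.1 h2])] at e2
    calc dist (c₁ s) (c₂ (t - L)) ≤ dist (c₁ s) (c₁ L) + dist (c₁ L) (c₂ (t - L)) :=
          dist_triangle _ _ _
      _ ≤ (L - s) + (t - L) := by rw [h] at *; exact add_le_add (h ▸ e1) e2
      _ = t - s := by ring
  · exact absurd (hst.trans h2) h1
  · have := lip_dist h₂ (s - L) (t - L)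
    rwa [abs_sub_comm, abs_of_nonneg (by linarith), show t - L - (s - L) = t - s by ring] at this

theorem cat_left {c₁ c₂ : ℝ → X} {L s : ℝ} (h : s ≤ L) : cat c₁ c₂ L s = c₁ s := by
  simp [cat, h]

theorem cat_right {c₁ c₂ : ℝ → X} {L s : ℝ} (h : L < s) : cat c₁ c₂ L s = c₂ (s - L) := by
  simp [cat, not_le.2 h]

theorem cat_right' {c₁ c₂ : ℝ → X} {L s : ℝ} (hL : c₁ L = c₂ 0) (h : L ≤ s) :
    cat c₁ c₂ L s = c₂ (s - L) := by
  rcases h.eq_or_lt with rfl | h
  · rw [cat_left le_rfl, hL, sub_self]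
  · exact cat_right h

theorem LC.nonneg {K : Set X} {a b : X} {L : ℝ} (h : LC K a b L) : 0 ≤ L := h.1

theorem LC.refl {K : Set X} {a : X} (ha : a ∈ K) : LC K a a 0 :=
  ⟨le_rfl, fun _ => a, LipschitzWith.const' a |>.weaken zero_le_one, fun _ => ha, rfl, rfl⟩

theorem lip_shift {c : ℝ → X} (hc : LipschitzWith 1 c) (a : ℝ) :
    LipschitzWith 1 (fun s => c (a + s)) := by
  refine lip_of_dist fun s t hst => ?_
  have := lip_dist hc (a + s) (a + t)
  rwa [abs_sub_comm, abs_of_nonneg (by linarith), show a + t - (a + s) = t - s by ring] at this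

theorem lip_rev {c : ℝ → X} (hc : LipschitzWith 1 c) (a : ℝ) :
    LipschitzWith 1 (fun s => c (a - s)) := by
  refine lip_of_dist fun s t hst => ?_
  have := lip_dist hc (a - s) (a - t)
  rwa [abs_of_nonneg (by linarith), show a - s - (a - t) = t - s by ring] at this

theorem LC.symm {K : Set X} {a b : X} {L : ℝ} (h : LC K a b L) : LC K b a L := by
  obtain ⟨h0, c, hc, hK, ha, hb⟩ := h
  exact ⟨h0, fun s => c (L - s), lip_rev hc L, fun s => hK _, by simpa using hb, by simpa using ha⟩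

theorem LC.trans {K : Set X} {a b d : X} {L M : ℝ} (h₁ : LC K a b L) (h₂ : LC K b d M) :
    LC K a d (L + M) := by
  obtain ⟨h0, c, hc, hK, ha, hb⟩ := h₁
  obtain ⟨h0', c', hc', hK', ha', hb'⟩ := h₂
  have he : c L = c' 0 := hb.trans ha'.symm
  refine ⟨add_nonneg h0 h0', cat c c' L, cat_lip hc hc' he, fun s => ?_, ?_, ?_⟩
  · unfold cat; split_ifs <;> simp [hK, hK']
  · rw [cat_left h0, ha]
  · rw [cat_right' he (by linarith), add_sub_cancel_left, hb']

theorem LC.mono {K K' : Set X} {a b : X} {L : ℝ} (h : LC K a b L) (hK : K ⊆ K') : LC K' a b L := by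
  obtain ⟨h0, c, hc, hK2, ha, hb⟩ := h
  exact ⟨h0, c, hc, fun s => hK (hK2 s), ha, hb⟩

theorem LC.left_mem {K : Set X} {a b : X} {L : ℝ} (h : LC K a b L) : a ∈ K := by
  obtain ⟨h0, c, hc, hK, ha, hb⟩ := h
  exact ha ▸ hK 0

theorem LC.right_mem {K : Set X} {a b : X} {L : ℝ} (h : LC K a b L) : b ∈ K := h.symm.left_mem

theorem LC.mono_length {K : Set X} {a b : X} {L M : ℝ} (h : LC K a b L) (hM : L ≤ M) :
    LC K a b M := by
  have h2 : LC K b b (M - L) := ⟨sub_nonneg.2 hM, fun _ => b,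
    LipschitzWith.const' b |>.weaken zero_le_one, fun _ => h.right_mem, rfl, rfl⟩
  simpa using h.trans h2

theorem LC.dist_le {K : Set X} {a b : X} {L : ℝ} (h : LC K a b L) : dist a b ≤ L := by
  obtain ⟨h0, c, hc, hK, ha, hb⟩ := h
  have := lip_dist hc 0 L
  rwa [ha, hb, zero_sub, abs_neg, abs_of_nonneg h0] at this

/-- Sub-curves: if `c` is `1`-Lipschitz and `c s ∈ K` for `s ∈ [a, b]` then `c a`, `c b` are joined
in `K` by a curve of length `b - a`. -/
theorem LC.of_curve {K : Set X} {c : ℝ → X} (hc : LipschitzWith 1 c) {a b : ℝ} (hab : a ≤ b)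
    (hK : ∀ s ∈ Icc a b, c s ∈ K) : LC K (c a) (c b) (b - a) := by
  refine ⟨sub_nonneg.2 hab, fun s => c (max a (min b (a + s))), ?_, fun s => ?_, ?_, ?_⟩
  · have h1 : LipschitzWith 1 (fun s : ℝ => max a (min b (a + s))) := by
      refine LipschitzWith.of_dist_le_mul fun s t => ?_
      simp only [NNReal.coe_one, one_mul, Real.dist_eq]
      calc |max a (min b (a + s)) - max a (min b (a + t))|
          ≤ |min b (a + s) - min b (a + t)| := by
            have := abs_max_sub_max_le_abs (min b (a + s)) (min b (a + t)) a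
            rwa [max_comm, max_comm (min b (a + t))] at this
        _ ≤ |(a + s) - (a + t)| := by
            have := abs_min_sub_min_le_max b (a + s) b (a + t)
            simpa using this
        _ = |s - t| := by congr 1; ring
    have h2 := hc.comp h1
    rw [one_mul] at h2
    exact h2
  · exact hK _ ⟨le_max_left _ _, max_le hab (min_le_left _ _)⟩
  · simp [hab]
  · simp [hab]

/-- Limits of rough curves in a compact set. -/
theorem rough_limit {K : Set X} (hK : IsCompact K) {a b : X} {L : ℕ → ℝ} {L₀ : ℝ} {ε : ℕ → ℝ}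
    (hε : Tendsto ε atTop (𝓝 0)) {c : ℕ → ℝ → X}
    (hc : ∀ n s t, dist (c n s) (c n t) ≤ |s - t| + ε n) (hcK : ∀ n s, c n s ∈ K)
    (ha : Tendsto (fun n => c n 0) atTop (𝓝 a)) (hb : Tendsto (fun n => c n (L n)) atTop (𝓝 b))
    (hL : Tendsto L atTop (𝓝 L₀)) (h0 : 0 ≤ L₀) : LC K a b L₀ := by
  let U : Ultrafilter ℕ := Filter.hyperfilter ℕ
  have hU : (U : Filter ℕ) ≤ atTop := by
    rw [← Nat.cofinite_eq_atTop]; exact Filter.hyperfilter_le_cofinite
  have hex : ∀ s : ℝ, ∃ x ∈ K, Tendsto (fun n => c n s) U (𝓝 x) := by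
    intro s
    have : ((U.map fun n => c n s : Ultrafilter X) : Filter X) ≤ 𝓟 K := by
      rw [Filter.le_principal_iff]
      have h5 : (fun n => c n s) ⁻¹' K ∈ (U : Filter ℕ) := Filter.univ_mem' fun n => hcK n s
      exact h5
    obtain ⟨x, hx, hx'⟩ := hK.ultrafilter_le_nhds (U.map fun n => c n s) this
    exact ⟨x, hx, hx'⟩
  choose c₀ hc₀K hc₀ using hex
  have hlip : LipschitzWith 1 c₀ := by
    refine LipschitzWith.of_dist_le_mul fun s t => ?_
    simp only [NNReal.coe_one, one_mul, Real.dist_eq]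
    have h1 : Tendsto (fun n => dist (c n s) (c n t)) U (𝓝 (dist (c₀ s) (c₀ t))) :=
      (hc₀ s).dist (hc₀ t)
    have h2 : Tendsto (fun n => |s - t| + ε n) U (𝓝 (|s - t| + 0)) :=
      (tendsto_const_nhds.add hε).mono_left hU
    rw [add_zero] at h2
    exact le_of_tendsto_of_tendsto' h1 h2 fun n => hc n s t
  refine ⟨h0, c₀, hlip, hc₀K, ?_, ?_⟩
  · exact tendsto_nhds_unique (hc₀ 0) (ha.mono_left hU)
  · have h3 : Tendsto (fun n => c n L₀) atTop (𝓝 b) := by
      rw [tendsto_iff_dist_tendsto_zero]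
      have h4 : Tendsto (fun n => (|L₀ - L n| + ε n) + dist (c n (L n)) b) atTop (𝓝 0) := by
        have e1 : Tendsto (fun n => |L₀ - L n|) atTop (𝓝 |L₀ - L₀|) :=
          (tendsto_const_nhds.sub hL).abs
        rw [sub_self, abs_zero] at e1
        have e2 := tendsto_iff_dist_tendsto_zero.1 hb
        simpa using (e1.add hε).add e2
      refine squeeze_zero (fun n => dist_nonneg) (fun n => ?_) h4
      exact (dist_triangle _ _ _).trans (add_le_add (hc n _ _) le_rfl)
    exact tendsto_nhds_unique (hc₀ L₀) (h3.mono_left hU)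

theorem LC.limit {K : Set X} (hK : IsCompact K) {a b : ℕ → X} {a₀ b₀ : X} {L : ℕ → ℝ} {L₀ : ℝ}
    (h : ∀ n, LC K (a n) (b n) (L n)) (ha : Tendsto a atTop (𝓝 a₀)) (hb : Tendsto b atTop (𝓝 b₀))
    (hL : Tendsto L atTop (𝓝 L₀)) : LC K a₀ b₀ L₀ := by
  choose h0 c hc hcK hca hcb using h
  refine rough_limit hK (ε := fun _ => 0) tendsto_const_nhds (c := c) (fun n s t => ?_) hcK
    ?_ ?_ hL (ge_of_tendsto' hL h0)
  · simpa using lip_dist (hc n) s t
  · simpa [hca] using ha
  · simpa [hcb] using hb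

/-! ### The length distance -/

/-- The length distance inside `K`. -/
noncomputable def dl (K : Set X) (a b : X) : ℝ≥0∞ :=
  ⨅ (L : ℝ) (_ : LC K a b L), ENNReal.ofReal L

theorem LC.dl_le {K : Set X} {a b : X} {L : ℝ} (h : LC K a b L) : dl K a b ≤ ENNReal.ofReal L :=
  iInf₂_le L h

theorem exists_LC_of_dl_lt {K : Set X} {a b : X} {r : ℝ≥0∞} (h : dl K a b < r) :
    ∃ L, LC K a b L ∧ ENNReal.ofReal L < r := by
  simp only [dl, iInf_lt_iff] at h
  obtain ⟨L, h1, h2⟩ := h
  exact ⟨L, h1, h2⟩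

theorem dl_self {K : Set X} {a : X} (ha : a ∈ K) : dl K a a = 0 := by
  have := (LC.refl ha).dl_le
  simpa using this

theorem dl_comm (K : Set X) (a b : X) : dl K a b = dl K b a := by
  unfold dl
  congr 1; ext L
  exact iInf_congr_Prop ⟨LC.symm, LC.symm⟩ fun _ => rfl

theorem dl_triangle (K : Set X) (a b d : X) : dl K a d ≤ dl K a b + dl K b d := by
  refine ENNReal.le_of_forall_pos_le_add fun ε hε hlt => ?_
  have h1 : dl K a b < ∞ := lt_of_le_of_lt le_self_add hlt
  have h2 : dl K b d < ∞ := lt_of_le_of_lt le_add_self hlt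
  have hε2 : (0 : ℝ≥0∞) < ((ε / 2 : ℝ≥0) : ℝ≥0∞) := by
    exact_mod_cast (half_pos hε)
  obtain ⟨L, hL, hL'⟩ := exists_LC_of_dl_lt (ENNReal.lt_add_right h1.ne hε2.ne')
  obtain ⟨M, hM, hM'⟩ := exists_LC_of_dl_lt (ENNReal.lt_add_right h2.ne hε2.ne')
  calc dl K a d ≤ ENNReal.ofReal (L + M) := (hL.trans hM).dl_le
    _ = ENNReal.ofReal L + ENNReal.ofReal M := ENNReal.ofReal_add hL.nonneg hM.nonneg
    _ ≤ (dl K a b + (ε / 2 : ℝ≥0)) + (dl K b d + (ε / 2 : ℝ≥0)) := add_le_add hL'.le hM'.le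
    _ = dl K a b + dl K b d + ε := by
        rw [add_add_add_comm]
        congr 1
        exact_mod_cast add_halves ε

theorem edist_le_dl (K : Set X) (a b : X) : edist a b ≤ dl K a b := by
  refine le_iInf₂ fun L hL => ?_
  rw [edist_dist]
  exact ENNReal.ofReal_le_ofReal hL.dist_le

theorem dl_anti {K K' : Set X} (h : K ⊆ K') (a b : X) : dl K' a b ≤ dl K a b :=
  le_iInf₂ fun _ hL => (hL.mono h).dl_le

theorem mem_of_dl_lt_top {K : Set X} {a b : X} (h : dl K a b < ∞) : a ∈ K ∧ b ∈ K := by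
  obtain ⟨L, hL, -⟩ := exists_LC_of_dl_lt h
  exact ⟨hL.left_mem, hL.right_mem⟩

/-- Attainment: if `dl K a b ≤ r` with `K` compact and `r` real then there is a curve. -/
theorem LC_of_dl_le {K : Set X} (hK : IsCompact K) {a b : X} {r : ℝ} (hr : 0 ≤ r)
    (h : dl K a b ≤ ENNReal.ofReal r) : LC K a b r := by
  have h1 : ∀ n : ℕ, LC K a b (r + 1 / (n + 1 : ℝ)) := by
    intro n
    have hpos : (0 : ℝ) < 1 / (n + 1 : ℝ) := by positivity
    have : dl K a b < ENNReal.ofReal (r + 1 / (n + 1 : ℝ)) :=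
      h.trans_lt ((ENNReal.ofReal_lt_ofReal_iff (by linarith)).2 (by linarith))
    obtain ⟨L, hL, hL'⟩ := exists_LC_of_dl_lt this
    exact hL.mono_length ((ENNReal.ofReal_lt_ofReal_iff (by linarith)).1 hL').le
  refine LC.limit hK h1 tendsto_const_nhds tendsto_const_nhds ?_
  have := tendsto_one_div_add_atTop_nhds_zero_nat (𝕜 := ℝ)
  simpa using tendsto_const_nhds.add this

/-- Lower semicontinuity of the length distance in a compact set, in sequential form. -/
theorem dl_le_of_tendsto {K : Set X} (hK : IsCompact K) {a b : ℕ → X} {a₀ b₀ : X}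
    (ha : Tendsto a atTop (𝓝 a₀)) (hb : Tendsto b atTop (𝓝 b₀)) {r : ℝ≥0∞}
    (h : ∀ n, dl K (a n) (b n) ≤ r) : dl K a₀ b₀ ≤ r := by
  rcases eq_or_ne r ∞ with rfl | hr
  · exact le_top
  · lift r to ℝ≥0 using hr
    have h1 : ∀ n, LC K (a n) (b n) r := fun n => LC_of_dl_le hK r.2 (by simpa using h n)
    simpa using (LC.limit hK h1 ha hb tendsto_const_nhds).dl_le

/-! ### Weighted costs -/

/-- The infimum of the `w`-weighted lengths of the `1`-Lipschitz curves from `a` to `b`. -/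
noncomputable def cost (w : X → ℝ≥0∞) (a b : X) : ℝ≥0∞ :=
  ⨅ (L : ℝ) (c : ℝ → X) (_ : 0 ≤ L ∧ LipschitzWith 1 c ∧ c 0 = a ∧ c L = b),
    ∫⁻ s in Icc 0 L, w (c s)

theorem cost_le {w : X → ℝ≥0∞} {a b : X} {L : ℝ} {c : ℝ → X} (hL : 0 ≤ L)
    (hc : LipschitzWith 1 c) (ha : c 0 = a) (hb : c L = b) :
    cost w a b ≤ ∫⁻ s in Icc 0 L, w (c s) :=
  iInf_le_of_le L (iInf₂_le c ⟨hL, hc, ha, hb⟩)

theorem exists_of_cost_lt {w : X → ℝ≥0∞} {a b : X} {r : ℝ≥0∞} (h : cost w a b < r) :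
    ∃ (L : ℝ) (c : ℝ → X), 0 ≤ L ∧ LipschitzWith 1 c ∧ c 0 = a ∧ c L = b ∧
      ∫⁻ s in Icc 0 L, w (c s) < r := by
  simp only [cost, iInf_lt_iff] at h
  obtain ⟨L, c, ⟨h1, h2, h3, h4⟩, h5⟩ := h
  exact ⟨L, c, h1, h2, h3, h4, h5⟩

theorem cost_self (w : X → ℝ≥0∞) (a : X) : cost w a a = 0 := by
  have := cost_le (w := w) (a := a) (b := a) (L := 0) (c := fun _ => a) le_rfl
    (LipschitzWith.const' a |>.weaken zero_le_one) rfl rfl
  simpa using this

/-- Sub-curves bound the cost between their end points. -/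
theorem cost_le_of_curve {w : X → ℝ≥0∞} {c : ℝ → X} (hc : LipschitzWith 1 c) {a b : ℝ}
    (hab : a ≤ b) : cost w (c a) (c b) ≤ ∫⁻ s in Icc a b, w (c s) := by
  have h := cost_le (w := w) (sub_nonneg.2 hab) (lip_shift hc a) (a := c a) (b := c b)
    (by simp) (by simp)
  refine h.trans_eq ?_
  have hpre : (fun s => a + s) ⁻¹' Icc a b = Icc 0 (b - a) := by
    ext s; simp only [mem_preimage, mem_Icc]; constructor <;> rintro ⟨h1, h2⟩ <;>
      constructor <;> linarith
  have hmp : MeasurePreserving (fun s : ℝ => a + s) volume volume := measurePreserving_add_left _ a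
  have hme : MeasurableEmbedding (fun s : ℝ => a + s) := measurableEmbedding_addLeft a
  rw [← hpre]
  exact hmp.setLIntegral_comp_preimage_emb hme (fun s => w (c s)) (Icc a b)

theorem cost_comm (w : X → ℝ≥0∞) (a b : X) : cost w a b = cost w b a := by
  have key : ∀ a b : X, cost w a b ≤ cost w b a := by
    intro a b
    refine le_of_forall_gt fun r hr => ?_
    obtain ⟨L, c, hL, hc, ha, hb, hlt⟩ := exists_of_cost_lt hr
    have h := cost_le (w := w) hL (lip_rev hc L) (a := a) (b := b) (by simpa using hb)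
      (by simpa using ha)
    refine h.trans_lt (lt_of_eq_of_lt ?_ hlt)
    have hpre : (fun s => L - s) ⁻¹' Icc 0 L = Icc 0 L := by
      ext s; simp only [mem_preimage, mem_Icc]; constructor <;> rintro ⟨h1, h2⟩ <;>
        constructor <;> linarith
    have hmp : MeasurePreserving (fun s : ℝ => L - s) volume volume :=
      Measure.measurePreserving_sub_left volume L
    have hme : MeasurableEmbedding (fun s : ℝ => L - s) := measurableEmbedding_subLeft L
    have h3 := hmp.setLIntegral_comp_preimage_emb hme (fun s => w (c s)) (Icc 0 L)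
    rw [hpre] at h3
    exact h3
  exact le_antisymm (key a b) (key b a)

theorem lintegral_cat_le {w : X → ℝ≥0∞} {c₁ c₂ : ℝ → X} {L M : ℝ} :
    ∫⁻ s in Icc 0 (L + M), w (cat c₁ c₂ L s) ≤
      (∫⁻ s in Icc 0 L, w (c₁ s)) + ∫⁻ s in Icc 0 M, w (c₂ s) := by
  have hsub : Icc 0 (L + M) ⊆ Icc 0 L ∪ Ioc L (L + M) := by
    intro s hs
    rcases le_or_gt s L with h | h
    · exact Or.inl ⟨hs.1, h⟩
    · exact Or.inr ⟨h, hs.2⟩
  refine (lintegral_mono_set hsub).trans ((lintegral_union_le _ _ _).trans ?_)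
  refine add_le_add (le_of_eq ?_) ?_
  · exact setLIntegral_congr_fun measurableSet_Icc fun s hs => by rw [cat_left hs.2]
  · have e1 : ∫⁻ s in Ioc L (L + M), w (cat c₁ c₂ L s) = ∫⁻ s in Ioc L (L + M), w (c₂ (s - L)) :=
      setLIntegral_congr_fun measurableSet_Ioc fun s hs => by rw [cat_right hs.1]
    rw [e1]
    have hpre : (fun s => s - L) ⁻¹' Ioc 0 M = Ioc L (L + M) := by
      ext s; simp only [mem_preimage, mem_Ioc]; constructor <;> rintro ⟨h1, h2⟩ <;>
        constructor <;> linarith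
    have hmp : MeasurePreserving (fun s : ℝ => s - L) volume volume := measurePreserving_sub_right _ L
    have hme : MeasurableEmbedding (fun s : ℝ => s - L) := measurableEmbedding_subRight L
    rw [← hpre, hmp.setLIntegral_comp_preimage_emb hme (fun s => w (c₂ s))]
    exact lintegral_mono_set Ioc_subset_Icc_self

theorem cost_triangle (w : X → ℝ≥0∞) (a b d : X) : cost w a d ≤ cost w a b + cost w b d := by
  refine ENNReal.le_of_forall_pos_le_add fun ε hε hlt => ?_
  have h1 : cost w a b < ∞ := lt_of_le_of_lt le_self_add hlt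
  have h2 : cost w b d < ∞ := lt_of_le_of_lt le_add_self hlt
  have hε2 : (0 : ℝ≥0∞) < ((ε / 2 : ℝ≥0) : ℝ≥0∞) := by
    exact_mod_cast (half_pos hε)
  obtain ⟨L, c, hL, hc, ha, hb, hlt1⟩ := exists_of_cost_lt (ENNReal.lt_add_right h1.ne hε2.ne')
  obtain ⟨M, c', hM, hc', ha', hb', hlt2⟩ := exists_of_cost_lt (ENNReal.lt_add_right h2.ne hε2.ne')
  have he : c L = c' 0 := hb.trans ha'.symm
  calc cost w a d ≤ ∫⁻ s in Icc 0 (L + M), w (cat c c' L s) :=
        cost_le (add_nonneg hL hM) (cat_lip hc hc' he) (by rw [cat_left hL, ha])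
          (by rw [cat_right' he (by linarith), add_sub_cancel_left, hb'])
    _ ≤ (∫⁻ s in Icc 0 L, w (c s)) + ∫⁻ s in Icc 0 M, w (c' s) := lintegral_cat_le
    _ ≤ (cost w a b + (ε / 2 : ℝ≥0)) + (cost w b d + (ε / 2 : ℝ≥0)) := add_le_add hlt1.le hlt2.le
    _ = cost w a b + cost w b d + ε := by
        rw [add_add_add_comm]
        congr 1
        exact_mod_cast add_halves ε

theorem cost_mono {w w' : X → ℝ≥0∞} (h : ∀ x, w x ≤ w' x) (a b : X) : cost w a b ≤ cost w' a b := by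
  refine le_iInf fun L => le_iInf₂ fun c hc => ?_
  exact (cost_le hc.1 hc.2.1 hc.2.2.1 hc.2.2.2).trans (lintegral_mono fun s => h _)

theorem LC.cost_le {w : X → ℝ≥0∞} {M : ℝ≥0∞} {K : Set X} (hw : ∀ x ∈ K, w x ≤ M) {a b : X}
    {L : ℝ} (h : LC K a b L) : cost w a b ≤ M * ENNReal.ofReal L := by
  obtain ⟨h0, c, hc, hK, ha, hb⟩ := h
  refine (Pool.Agent.QCS.cost_le h0 hc ha hb).trans ?_
  calc ∫⁻ s in Icc 0 L, w (c s) ≤ ∫⁻ _ in Icc 0 L, M := lintegral_mono fun s => hw _ (hK s)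
    _ = M * ENNReal.ofReal L := by
        rw [setLIntegral_const, Real.volume_Icc, sub_zero]

theorem cost_le_dl {w : X → ℝ≥0∞} (hw : ∀ x, w x ≤ 1) (K : Set X) (a b : X) :
    cost w a b ≤ dl K a b := by
  refine le_iInf₂ fun L hL => ?_
  simpa using hL.cost_le (w := w) (M := 1) fun x _ => hw x

theorem cost_one (a b : X) : cost (fun _ => 1) a b = dl univ a b := by
  refine le_antisymm (cost_le_dl (fun _ => le_rfl) _ _ _) ?_
  refine le_iInf fun L => le_iInf₂ fun c hc => ?_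
  have h : LC univ a b L := ⟨hc.1, c, hc.2.1, fun _ => mem_univ _, hc.2.2.1, hc.2.2.2⟩
  refine h.dl_le.trans (le_of_eq ?_)
  simp

end Pool.Agent.QCS
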