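import Mathlib

/-!
# Eilenberg's inequality with a measurable majorant
-/

open MeasureTheory Set Metric Topology Filter
open scoped ENNReal NNReal

namespace Pool.Agent.QCS

set_option linter.unusedSectionVars false

variable {X : Type*} [MetricSpace X] [MeasurableSpace X] [BorelSpace X]

open Measure in
/-- Covers almost realising the Hausdorff measure. -/
theorem exists_cover {d : ℝ} (A : Set X) (hA : μH[d] A ≠ ∞) {r : ℝ≥0∞} (hr : 0 < r) {ε : ℝ≥0∞}
    (hε : ε ≠ 0) : ∃ t : ℕ → Set X, A ⊆ ⋃ i, t i ∧ (∀ i, ediam (t i) ≤ r) ∧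
      ∑' i, ⨆ _ : (t i).Nonempty, ediam (t i) ^ d ≤ μH[d] A + ε := by
  have h := hausdorffMeasure_apply d A
  have h1 : (⨅ (t : ℕ → Set X) (_ : A ⊆ iUnion t) (_ : ∀ n, ediam (t n) ≤ r),
          ∑' n, ⨆ _ : (t n).Nonempty, ediam (t n) ^ d) ≤ μH[d] A := by
    rw [h]; exact le_iSup₂_of_le r hr le_rfl
  have h2 := h1.trans_lt (ENNReal.lt_add_right hA hε)
  simp only [iInf_lt_iff] at h2
  obtain ⟨t, h3, h4, h5⟩ := h2
  exact ⟨t, h3, h4, h5.le⟩

open Measure in
/-- Eilenberg's inequality for functions which are `1`-Lipschitz at small scales. -/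
theorem eilenberg (A : Set X) (f : X → ℝ) {r : ℝ≥0∞} (hr : 0 < r)
    (hf : ∀ x ∈ A, ∀ y ∈ A, edist x y < r → edist (f x) (f y) ≤ edist x y) :
    ∃ h : ℝ → ℝ≥0∞, Measurable h ∧ (∀ t, μH[1] (A ∩ f ⁻¹' {t}) ≤ h t) ∧
      ∫⁻ t, h t ≤ μH[2] A := by
  classical
  by_cases hA : μH[2] A = ∞
  · exact ⟨fun _ => ∞, measurable_const, fun t => le_top, by rw [hA]; exact le_top⟩
  -- choose a scale
  obtain ⟨r', hr', hr'r⟩ := exists_between hr
  let rn : ℕ → ℝ≥0∞ := fun n => min r' ((n : ℝ≥0∞) + 1)⁻¹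
  have hrn : ∀ n, 0 < rn n := fun n => lt_min hr' (ENNReal.inv_pos.2 (by finiteness))
  have hrnlt : ∀ n, rn n < r := fun n => (min_le_left _ _).trans_lt hr'r
  have hrn0 : Tendsto rn atTop (𝓝 0) := by
    have h1 : Tendsto (fun n : ℕ => ((n : ℝ≥0∞) + 1)⁻¹) atTop (𝓝 0) := by
      have := ENNReal.tendsto_inv_nat_nhds_zero.comp (tendsto_add_atTop_nat 1)
      refine this.congr fun n => ?_
      simp
    exact tendsto_of_tendsto_of_tendsto_of_le_of_le tendsto_const_nhds h1 (fun n => zero_le)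
      (fun n => min_le_right _ _)
  have hcov : ∀ n : ℕ, ∃ t : ℕ → Set X, A ⊆ ⋃ i, t i ∧ (∀ i, ediam (t i) ≤ rn n) ∧
      ∑' i, ⨆ _ : (t i).Nonempty, ediam (t i) ^ (2 : ℝ) ≤ μH[2] A + ((n : ℝ≥0∞) + 1)⁻¹ :=
    fun n => exists_cover A hA (hrn n) (ENNReal.inv_ne_zero.2 (by finiteness))
  choose t htA htr hts using hcov
  let B : ℕ → ℕ → Set X := fun n i => t n i ∩ A
  have hBd : ∀ n i, ediam (B n i) ≤ rn n := fun n i =>
    (ediam_mono inter_subset_left).trans (htr n i)
  have hBf : ∀ n i, ediam (f '' B n i) ≤ ediam (B n i) := by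
    intro n i
    refine ediam_le ?_
    rintro _ ⟨x, hx, rfl⟩ _ ⟨y, hy, rfl⟩
    have h1 : edist x y ≤ ediam (B n i) := edist_le_ediam_of_mem hx hy
    exact (hf x hx.2 y hy.2 (h1.trans_lt ((hBd n i).trans_lt (hrnlt n)))).trans h1
  let h : ℕ → ℝ → ℝ≥0∞ := fun n s =>
    ∑' i, (closure (f '' B n i)).indicator (fun _ => ediam (B n i)) s
  have hmeas : ∀ n, Measurable (h n) := fun n =>
    Measurable.tsum fun i => measurable_const.indicator isClosed_closure.measurableSet
  have hint : ∀ n, ∫⁻ s, h n s ≤ μH[2] A + ((n : ℝ≥0∞) + 1)⁻¹ := by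
    intro n
    rw [lintegral_tsum fun i => (measurable_const.indicator
      isClosed_closure.measurableSet).aemeasurable]
    refine le_trans (ENNReal.tsum_le_tsum fun i => ?_) (hts n)
    rw [lintegral_indicator isClosed_closure.measurableSet, setLIntegral_const]
    have h1 : volume (closure (f '' B n i)) ≤ ediam (B n i) :=
      (Real.volume_le_diam _).trans (by rw [ediam_closure]; exact hBf n i)
    rcases (B n i).eq_empty_or_nonempty with hB | hB
    · rw [hB]; simp
    · have hne : (t n i).Nonempty := hB.mono inter_subset_left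
      refine le_iSup_of_le hne ?_
      calc ediam (B n i) * volume (closure (f '' B n i)) ≤ ediam (t n i) * ediam (t n i) :=
            mul_le_mul' (ediam_mono inter_subset_left)
              (h1.trans (ediam_mono inter_subset_left))
        _ = ediam (t n i) ^ (2 : ℝ) := by rw [ENNReal.rpow_two, sq]
  refine ⟨fun s => liminf (fun n => h n s) atTop, Measurable.liminf hmeas, fun s => ?_, ?_⟩
  · have key := hausdorffMeasure_le_liminf_tsum (d := 1) (A ∩ f ⁻¹' {s}) (l := atTop) rn hrn0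
      (fun n i => B n i ∩ f ⁻¹' {s}) (Eventually.of_forall fun n i =>
        (ediam_mono inter_subset_left).trans (hBd n i))
      (Eventually.of_forall fun n x hx => by
        obtain ⟨i, hi⟩ := mem_iUnion.1 (htA n hx.1)
        exact mem_iUnion.2 ⟨i, ⟨hi, hx.1⟩, hx.2⟩)
    refine key.trans (liminf_le_liminf (Eventually.of_forall fun n => ?_))
    refine ENNReal.tsum_le_tsum fun i => ?_
    simp only [ENNReal.rpow_one]
    by_cases hs : s ∈ closure (f '' B n i)
    · rw [indicator_of_mem hs]; exact ediam_mono inter_subset_left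
    · have : B n i ∩ f ⁻¹' {s} = ∅ := by
        by_contra hne
        obtain ⟨x, hx⟩ := nonempty_iff_ne_empty.2 hne
        exact hs (subset_closure ⟨x, hx.1, hx.2⟩)
      rw [this]; simp
  · refine (lintegral_liminf_le hmeas).trans ?_
    have h1 : Tendsto (fun n : ℕ => μH[2] A + ((n : ℝ≥0∞) + 1)⁻¹) atTop (𝓝 (μH[2] A + 0)) := by
      refine tendsto_const_nhds.add ?_
      have := ENNReal.tendsto_inv_nat_nhds_zero.comp (tendsto_add_atTop_nat 1)
      refine this.congr fun n => ?_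
      simp
    rw [add_zero] at h1
    rw [← h1.liminf_eq]
    exact liminf_le_liminf (Eventually.of_forall hint)

open Measure in
/-- Some level set in every interval has finite `H¹` measure. -/
theorem exists_level_lt_top (A : Set X) (hA : μH[2] A ≠ ∞) (f : X → ℝ) {r : ℝ≥0∞} (hr : 0 < r)
    (hf : ∀ x ∈ A, ∀ y ∈ A, edist x y < r → edist (f x) (f y) ≤ edist x y) {a b : ℝ} (hab : a < b) :
    ∃ t ∈ Ioo a b, μH[1] (A ∩ f ⁻¹' {t}) < ∞ := by
  obtain ⟨h, hm, hle, hint⟩ := eilenberg A f hr hf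
  by_contra hcon
  push Not at hcon
  have h1 : ∀ t ∈ Ioo a b, h t = ∞ := fun t ht => top_le_iff.1 ((hcon t ht).trans (hle t))
  have h2 : ∫⁻ t in Ioo a b, h t = ∞ := by
    rw [setLIntegral_congr_fun measurableSet_Ioo (fun t ht => h1 t ht), setLIntegral_const,
      Real.volume_Ioo, ENNReal.top_mul]
    simpa using hab
  exact hA (top_le_iff.1 (h2 ▸ (setLIntegral_le_lintegral _ _).trans hint))

open Measure in
/-- Lower bound for the `H¹` measure of sets with large image. -/
theorem le_H1_of_image (A : Set X) (f : X → ℝ) {r : ℝ≥0∞} (hr : 0 < r)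
    (hf : ∀ x ∈ A, ∀ y ∈ A, edist x y < r → edist (f x) (f y) ≤ edist x y) :
    volume (f '' A) ≤ μH[1] A := by
  by_cases hA : μH[1] A = ∞
  · exact hA ▸ le_top
  obtain ⟨r', hr', hr'r⟩ := exists_between hr
  refine ENNReal.le_of_forall_pos_le_add fun ε hε _ => ?_
  obtain ⟨t, htA, htr, hts⟩ := exists_cover A hA hr' (ε := ε) (by positivity)
  have h1 : f '' A ⊆ ⋃ i, f '' (t i ∩ A) := by
    rintro _ ⟨x, hx, rfl⟩
    obtain ⟨i, hi⟩ := mem_iUnion.1 (htA hx)
    exact mem_iUnion.2 ⟨i, x, ⟨hi, hx⟩, rfl⟩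
  refine (measure_mono h1).trans ((measure_iUnion_le _).trans ?_)
  refine le_trans (ENNReal.tsum_le_tsum fun i => ?_) hts
  rcases (t i ∩ A).eq_empty_or_nonempty with hB | hB
  · rw [hB]; simp
  · refine le_iSup_of_le (hB.mono inter_subset_left) ?_
    rw [ENNReal.rpow_one]
    refine (Real.volume_le_diam _).trans ?_
    refine ediam_le ?_
    rintro _ ⟨x, hx, rfl⟩ _ ⟨y, hy, rfl⟩
    have h1 : edist x y ≤ ediam (t i) := edist_le_ediam_of_mem hx.1 hy.1
    exact (hf x hx.2 y hy.2 (h1.trans_lt ((htr i).trans_lt hr'r))).trans h1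

end Pool.Agent.QCS
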