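import Pool.Agent.Lib.MP_811d89_an.Base
import Pool.Agent.Lib.MP_811d89_an.Eil

/-!
# Chains and chain distances
-/

open MeasureTheory Set Metric Topology Filter
open scoped ENNReal NNReal

namespace Pool.Agent.QCS

set_option linter.unusedSectionVars false

variable {X : Type*} [MetricSpace X]

/-- There is an `ε`-chain in `K` from `a` to `b` of total length `L`. -/
inductive Chain (K : Set X) (ε : ℝ) : X → X → ℝ → Prop
  | refl {x : X} : x ∈ K → Chain K ε x x 0
  | step {x y z : X} {L : ℝ} : Chain K ε x y L → z ∈ K → dist y z < ε →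
      Chain K ε x z (L + dist y z)

namespace Chain

variable {K : Set X} {ε : ℝ} {a b d : X} {L M : ℝ}

theorem nonneg (h : Chain K ε a b L) : 0 ≤ L := by
  induction h with
  | refl _ => exact le_rfl
  | step _ _ _ ih => exact add_nonneg ih dist_nonneg

theorem left_mem (h : Chain K ε a b L) : a ∈ K := by
  induction h with
  | refl h => exact h
  | step _ _ _ ih => exact ih

theorem right_mem (h : Chain K ε a b L) : b ∈ K := by
  cases h with
  | refl h => exact h
  | step _ h _ => exact h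

theorem trans (h₁ : Chain K ε a b L) (h₂ : Chain K ε b d M) : Chain K ε a d (L + M) := by
  induction h₂ with
  | refl _ => simpa using h₁
  | step _ hz hd ih => rw [← add_assoc]; exact ih.step hz hd

theorem mono {K' : Set X} {ε' : ℝ} (h : Chain K ε a b L) (hK : K ⊆ K') (hε : ε ≤ ε') :
    Chain K' ε' a b L := by
  induction h with
  | refl h => exact .refl (hK h)
  | step _ hz hd ih => exact ih.step (hK hz) (hd.trans_le hε)

theorem single (ha : a ∈ K) (hb : b ∈ K) (h : dist a b < ε) : Chain K ε a b (dist a b) := by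
  simpa using (Chain.refl ha).step hb h

theorem eq_of_zero (h : Chain K ε a b L) (hL : L = 0) : a = b := by
  induction h with
  | refl _ => rfl
  | step h1 hz hd ih =>
    have h2 := h1.nonneg
    obtain ⟨h4, h5⟩ := (add_eq_zero_iff_of_nonneg h2 dist_nonneg).1 hL
    rw [ih h4, eq_of_dist_eq_zero h5]

/-- A chain gives a rough curve. -/
theorem rough (h : Chain K ε a b L) (hε : 0 < ε) : ∃ (c : ℝ → X) (p : ℝ → ℝ),
    (∀ s ∈ Icc 0 L, c s ∈ K) ∧ c 0 = a ∧ c L = b ∧ p L = L ∧
    (∀ s ∈ Icc 0 L, s - ε ≤ p s ∧ p s ≤ s) ∧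
    (∀ s ∈ Icc 0 L, ∀ t ∈ Icc 0 L, dist (c s) (c t) ≤ |p s - p t|) := by
  induction h with
  | @refl hx =>
    refine ⟨fun _ => a, fun s => s, fun _ _ => hx, rfl, rfl, rfl, fun s _ => ⟨by linarith, le_rfl⟩,
      fun s hs t ht => by simp⟩
  | @step y z L h1 hz hd ih =>
    obtain ⟨c, p, hcK, hc0, hcL, hpL, hp, hcp⟩ := ih
    have hL := h1.nonneg
    have hd0 : 0 ≤ dist y z := dist_nonneg
    have hmin : ∀ s ∈ Icc 0 (L + dist y z), min s L ∈ Icc 0 L := fun s hs =>
      ⟨le_min hs.1 hL, min_le_right _ _⟩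
    have hLm : L ∈ Icc 0 L := ⟨hL, le_rfl⟩
    have key : ∀ s ∈ Icc 0 (L + dist y z), dist (c (min s L)) z ≤
        |p (min s L) - (L + dist y z)| := by
      intro s hs
      have h2 := hcp _ (hmin s hs) L hLm
      have h3 := (hp _ (hmin s hs)).2
      have h4 : min s L ≤ L := min_le_right _ _
      rw [hcL, hpL] at h2
      have h5 : |p (min s L) - L| = L - p (min s L) := by
        rw [abs_sub_comm, abs_of_nonneg]; linarith
      have h6 : |p (min s L) - (L + dist y z)| = L + dist y z - p (min s L) := by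
        rw [abs_sub_comm, abs_of_nonneg]; linarith
      rw [h5] at h2
      rw [h6]
      linarith [dist_triangle (c (min s L)) y z]
    refine ⟨fun s => if s < L + dist y z then c (min s L) else z,
      fun s => if s < L + dist y z then p (min s L) else L + dist y z,
      fun s hs => ?_, ?_, ?_, ?_, fun s hs => ?_, fun s hs t ht => ?_⟩
    · dsimp only; split_ifs
      · exact hcK _ (hmin s hs)
      · exact hz
    · dsimp only; split_ifs with h2
      · rw [min_eq_left hL, hc0]
      · have h3 : L = 0 := by linarith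
        have h4 : dist y z = 0 := by linarith
        rw [← eq_of_dist_eq_zero h4, ← h1.eq_of_zero h3]
    · simp
    · simp
    · dsimp only; split_ifs with h2
      · have h3 := hp _ (hmin s hs)
        refine ⟨?_, h3.2.trans (min_le_left _ _)⟩
        rcases le_total s L with h4 | h4
        · rw [min_eq_left h4] at h3 ⊢; exact h3.1
        · rw [min_eq_right h4, hpL]; linarith
      · have : s = L + dist y z := le_antisymm hs.2 (not_lt.1 h2)
        constructor <;> linarith
    · dsimp only; split_ifs with h2 h3 h3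
      · exact hcp _ (hmin s hs) _ (hmin t ht)
      · exact key s hs
      · rw [dist_comm, abs_sub_comm]; exact key t ht
      · simp

theorem rough' (h : Chain K ε a b L) (hε : 0 < ε) : ∃ c : ℝ → X,
    (∀ s, c s ∈ K) ∧ c 0 = a ∧ (∀ s, L ≤ s → c s = b) ∧
    (∀ s t, dist (c s) (c t) ≤ |s - t| + ε) := by
  obtain ⟨c, p, hcK, hc0, hcL, hpL, hp, hcp⟩ := h.rough hε
  have hL := h.nonneg
  have hpr : ∀ s, max 0 (min L s) ∈ Icc 0 L := fun s =>
    ⟨le_max_left _ _, max_le hL (min_le_left _ _)⟩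
  refine ⟨fun s => c (max 0 (min L s)), fun s => hcK _ (hpr s), ?_, fun s hs => ?_, fun s t => ?_⟩
  · simpa [hL] using hc0
  · simpa [hL, hs] using hcL
  · refine (hcp _ (hpr s) _ (hpr t)).trans ?_
    have h1 := hp _ (hpr s)
    have h2 := hp _ (hpr t)
    have h3 : |max 0 (min L s) - max 0 (min L t)| ≤ |s - t| := by
      calc |max 0 (min L s) - max 0 (min L t)| ≤ |min L s - min L t| := by
            have := abs_max_sub_max_le_abs (min L s) (min L t) 0
            rwa [max_comm, max_comm (min L t)] at this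
        _ ≤ |s - t| := by simpa using abs_min_sub_min_le_max L s L t
    have h4 := abs_le.1 h3
    rw [abs_le]
    constructor <;> linarith

/-- Chains from curves. -/
theorem of_LC (h : LC K a b L) (hε : 0 < ε) : ∃ L' ≤ L, Chain K ε a b L' := by
  obtain ⟨h0, c, hc, hcK, rfl, rfl⟩ := h
  obtain ⟨n, hn⟩ := exists_nat_gt (L / ε)
  have hn0 : 0 < (n : ℝ) := (div_nonneg h0 hε.le).trans_lt hn
  have hstep : L / n < ε := by
    rw [div_lt_iff₀ hn0]; rwa [div_lt_iff₀ hε, mul_comm] at hn
  have key : ∀ i : ℕ, ∃ L' ≤ i * (L / n), Chain K ε (c 0) (c (i * (L / n))) L' := by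
    intro i
    induction i with
    | zero => exact ⟨0, by simp, by simpa using Chain.refl (hcK 0)⟩
    | succ i ih =>
      obtain ⟨L', h1, h2⟩ := ih
      have h3 : dist (c (i * (L / n))) (c ((i + 1 : ℕ) * (L / n))) ≤ L / n := by
        have := lip_dist hc (i * (L / n)) ((i + 1 : ℕ) * (L / n))
        refine this.trans (le_of_eq ?_)
        rw [abs_sub_comm, show ((i + 1 : ℕ) : ℝ) * (L / n) - i * (L / n) = L / n by
          push_cast; ring, abs_of_nonneg (by positivity)]
      refine ⟨_, ?_, h2.step (hcK _) (h3.trans_lt hstep)⟩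
      have h4 : ((i + 1 : ℕ) : ℝ) * (L / n) = i * (L / n) + L / n := by push_cast; ring
      rw [h4] at h3 ⊢
      exact add_le_add h1 h3
  obtain ⟨L', h1, h2⟩ := key n
  have h3 : (n : ℝ) * (L / n) = L := by field_simp
  rw [h3] at h1 h2
  exact ⟨L', h1, h2⟩

end Chain

/-- Chain distance from `F` inside `K`, truncated at `T`. -/
noncomputable def cd (K F : Set X) (T ε : ℝ) (z : X) : ℝ :=
  sInf (insert T {L | ∃ e ∈ F, Chain K ε e z L})

variable {K F : Set X} {T ε : ℝ}

theorem cd_bdd (z : X) : ∀ L ∈ insert T {L | ∃ e ∈ F, Chain K ε e z L}, min T 0 ≤ L := by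
  rintro L (rfl | ⟨e, -, h⟩)
  · exact min_le_left _ _
  · exact (min_le_right _ _).trans h.nonneg

theorem cd_le_T (z : X) : cd K F T ε z ≤ T := csInf_le ⟨_, cd_bdd z⟩ (mem_insert _ _)

theorem cd_le_chain {z e : X} {L : ℝ} (he : e ∈ F) (h : Chain K ε e z L) : cd K F T ε z ≤ L :=
  csInf_le ⟨_, cd_bdd z⟩ (mem_insert_of_mem _ ⟨e, he, h⟩)

theorem cd_nonneg (hT : 0 ≤ T) (z : X) : 0 ≤ cd K F T ε z := by
  refine le_csInf (insert_nonempty _ _) fun L hL => ?_
  have := cd_bdd z L hL
  rwa [min_eq_right hT] at this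

theorem cd_zero (hT : 0 ≤ T) {z : X} (hz : z ∈ F) (hzK : z ∈ K) : cd K F T ε z = 0 :=
  le_antisymm (cd_le_chain hz (.refl hzK)) (cd_nonneg hT z)

theorem cd_le_LC {z e : X} {L : ℝ} (hε : 0 < ε) (he : e ∈ F) (h : LC K e z L) :
    cd K F T ε z ≤ L := by
  obtain ⟨L', h1, h2⟩ := Chain.of_LC h hε
  exact (cd_le_chain he h2).trans h1

theorem exists_chain_of_cd_lt {z : X} {a : ℝ} (h : cd K F T ε z < a) (hT : a ≤ T) :
    ∃ e ∈ F, ∃ L < a, Chain K ε e z L := by
  obtain ⟨L, hL, hlt⟩ := exists_lt_of_csInf_lt (insert_nonempty _ _) h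
  rcases hL with rfl | ⟨e, he, hc⟩
  · exact absurd hlt (not_lt.2 hT)
  · exact ⟨e, he, L, hlt, hc⟩

theorem cd_lip {y z : X} (hz : z ∈ K) (h : dist y z < ε) :
    cd K F T ε z ≤ cd K F T ε y + dist y z := by
  rw [← sub_le_iff_le_add]
  refine le_csInf (insert_nonempty _ _) fun L hL => ?_
  rw [sub_le_iff_le_add]
  rcases hL with rfl | ⟨e, he, hc⟩
  · exact (cd_le_T z).trans (le_add_of_nonneg_right dist_nonneg)
  · exact cd_le_chain he (hc.step hz h)

theorem cd_lip' {y z : X} (hy : y ∈ K) (hz : z ∈ K) (h : dist y z < ε) :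
    |cd K F T ε y - cd K F T ε z| ≤ dist y z := by
  rw [abs_le]
  constructor
  · linarith [cd_lip (F := F) (T := T) hz h]
  · have := cd_lip (F := F) (T := T) hy (by rwa [dist_comm] at h)
    rw [dist_comm] at this; linarith

theorem cd_edist {y z : X} (hy : y ∈ K) (hz : z ∈ K) (h : edist y z < ENNReal.ofReal ε) :
    edist (cd K F T ε y) (cd K F T ε z) ≤ edist y z := by
  rw [edist_dist, edist_dist, Real.dist_eq]
  refine ENNReal.ofReal_le_ofReal (cd_lip' hy hz ?_)
  rw [edist_dist] at h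
  exact (ENNReal.ofReal_lt_ofReal_iff_of_nonneg dist_nonneg).1 h

theorem cd_continuousOn (hε : 0 < ε) : ContinuousOn (cd K F T ε) K := by
  refine Metric.continuousOn_iff.2 fun y hy η hη => ⟨min ε η, lt_min hε hη, fun z hz hd => ?_⟩
  rw [Real.dist_eq]
  exact (cd_lip' hz hy (hd.trans_le (min_le_left _ _))).trans_lt (hd.trans_le (min_le_right _ _))

theorem cd_anti {ε' : ℝ} (h : ε' ≤ ε) (z : X) : cd K F T ε z ≤ cd K F T ε' z := by
  refine csInf_le_csInf ⟨_, cd_bdd z⟩ (insert_nonempty _ _) (insert_subset_insert ?_)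
  rintro L ⟨e, he, hc⟩
  exact ⟨e, he, hc.mono Subset.rfl h⟩

/-- The limit of the chain distances is the length distance. -/
theorem LC_of_cd_le (hK : IsCompact K) (hF : IsClosed F) {z : X} {a : ℝ} (ha : 0 ≤ a) (haT : a < T)
    (h : ∀ n : ℕ, cd K F T (1 / (n + 1 : ℝ)) z ≤ a) : ∃ e ∈ F, LC K e z a := by
  have h1 : ∀ n : ℕ, ∃ e ∈ F, ∃ L < a + 1 / (n + 1 : ℝ), Chain K (1 / (n + 1 : ℝ)) e z L := by
    intro n
    have hn : (0 : ℝ) < 1 / (n + 1 : ℝ) := by positivity
    obtain ⟨e, he, L, hL, hc⟩ := exists_chain_of_cd_lt (a := min T (a + 1 / (n + 1 : ℝ)))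
      ((h n).trans_lt (lt_min haT (by linarith))) (min_le_left _ _)
    exact ⟨e, he, L, hL.trans_le (min_le_right _ _), hc⟩
  choose e he L hL hc using h1
  obtain ⟨e₀, he₀, φ, hφ, hlim⟩ := hK.tendsto_subseq (x := e) fun n => (hc n).left_mem
  have h2 : ∀ n, ∃ c : ℝ → X, (∀ s, c s ∈ K) ∧ c 0 = e n ∧ (∀ s, L n ≤ s → c s = z) ∧
    (∀ s t, dist (c s) (c t) ≤ |s - t| + 1 / (n + 1 : ℝ)) := fun n =>
      (hc n).rough' (by positivity)
  choose c hcK hc0 hcz hcd using h2
  have hinv : Tendsto (fun n : ℕ => 1 / ((n : ℝ) + 1)) atTop (𝓝 0) :=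
    tendsto_one_div_add_atTop_nhds_zero_nat
  have hinv' := hinv.comp hφ.tendsto_atTop
  have heF : e₀ ∈ F := hF.mem_of_tendsto hlim (Eventually.of_forall fun n => he _)
  refine ⟨e₀, heF, rough_limit hK (ε := fun n => 1 / ((φ n : ℝ) + 1)) hinv' (c := fun n => c (φ n))
    (fun n s t => hcd (φ n) s t) (fun n s => hcK _ s) (by simpa [hc0, Function.comp_def] using hlim)
    (L := fun n => a + 1 / ((φ n : ℝ) + 1)) ?_ ?_ ha⟩
  · have : (fun n => c (φ n) (a + 1 / ((φ n : ℝ) + 1))) = fun _ => z := by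
      ext n; exact hcz _ _ (hL _).le
    rw [this]; exact tendsto_const_nhds
  · simpa using tendsto_const_nhds.add hinv'

end Pool.Agent.QCS
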