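import Pool.Agent.Lib.MP_811d89_an.Chain

/-!
# Continua of finite `H¹` measure
-/

open MeasureTheory Set Metric Topology Filter
open scoped ENNReal NNReal

namespace Pool.Agent.QCS

set_option linter.unusedSectionVars false

variable {X : Type*} [MetricSpace X] [MeasurableSpace X] [BorelSpace X]

theorem chain_of_walk {C : Set X} {ε : ℝ} {O : ℕ → Set X} {D : ℕ → ℝ≥0∞}
    (hD : ∀ i, ∀ x ∈ O i, ∀ y ∈ O i, edist x y ≤ D i) (hDε : ∀ i, D i < ENNReal.ofReal ε)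
    {G : SimpleGraph ℕ} (hG : ∀ i j, G.Adj i j → (O i ∩ O j ∩ C).Nonempty) {i j : ℕ}
    (w : G.Walk i j) : ∀ x ∈ O i ∩ C, ∀ y ∈ O j ∩ C, ∃ L, Chain C ε x y L ∧
      ENNReal.ofReal L ≤ (w.support.map D).sum := by
  have hd : ∀ i, ∀ x ∈ O i, ∀ y ∈ O i, dist x y < ε := by
    intro i x hx y hy
    have h1 := (hD i x hx y hy).trans_lt (hDε i)
    rw [edist_dist] at h1
    exact (ENNReal.ofReal_lt_ofReal_iff_of_nonneg dist_nonneg).1 h1
  induction w with
  | nil =>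
    intro x hx y hy
    refine ⟨dist x y, Chain.single hx.2 hy.2 (hd _ x hx.1 y hy.1), ?_⟩
    rw [← edist_dist]
    simpa using hD _ x hx.1 y hy.1
  | @cons i k j h p ih =>
    intro x hx y hy
    obtain ⟨z, ⟨hzi, hzk⟩, hzC⟩ := hG _ _ h
    obtain ⟨L, hL, hL'⟩ := ih z ⟨hzk, hzC⟩ y hy
    refine ⟨dist x z + L, (Chain.single hx.2 hzC (hd _ x hx.1 z hzi)).trans hL, ?_⟩
    rw [ENNReal.ofReal_add dist_nonneg hL.nonneg, ← edist_dist]
    simp only [SimpleGraph.Walk.support_cons, List.map_cons, List.sum_cons]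
    exact add_le_add (hD _ x hx.1 z hzi) hL'

open Measure in
theorem exists_chain_of_connected {C : Set X} (hC : IsPreconnected C) (hcomp : IsCompact C)
    (hfin : μH[1] C ≠ ∞) {a b : X} (ha : a ∈ C) (hb : b ∈ C) {ε η : ℝ} (hε : 0 < ε) (hη : 0 < η) :
    ∃ L, Chain C ε a b L ∧ ENNReal.ofReal L ≤ μH[1] C + ENNReal.ofReal η := by
  classical
  obtain ⟨t, htC, htr, hts⟩ := exists_cover C hfin (r := ENNReal.ofReal (ε / 4))
    (by simpa using hε) (ε := ENNReal.ofReal (η / 2)) (by simpa using hη)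
  let δ : ℕ → ℝ≥0 := fun i => min (ε / 8).toNNReal ((η / 8).toNNReal * (1 / 2) ^ i)
  have hδ0 : ∀ i, 0 < δ i := fun i => by
    refine lt_min (Real.toNNReal_pos.2 (by positivity)) (mul_pos (Real.toNNReal_pos.2 (by positivity)) ?_)
    positivity
  let O : ℕ → Set X := fun i => thickening (δ i) (t i ∩ C)
  let D : ℕ → ℝ≥0∞ := fun i => ediam (t i ∩ C) + 2 * δ i
  have hD : ∀ i, ∀ x ∈ O i, ∀ y ∈ O i, edist x y ≤ D i := fun i x hx y hy =>
    (edist_le_ediam_of_mem hx hy).trans (ediam_thickening_le _)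
  have hDε : ∀ i, D i < ENNReal.ofReal ε := by
    intro i
    have h1 : ediam (t i ∩ C) ≤ ENNReal.ofReal (ε / 4) := (ediam_mono inter_subset_left).trans (htr i)
    have h2 : (2 * (δ i : ℝ≥0∞)) ≤ ENNReal.ofReal (ε / 4) := by
      have h3 : (δ i : ℝ≥0∞) ≤ ENNReal.ofReal (ε / 8) := by
        rw [ENNReal.ofReal]; exact_mod_cast min_le_left _ _
      calc (2 * (δ i : ℝ≥0∞)) ≤ 2 * ENNReal.ofReal (ε / 8) := by gcongr
        _ = ENNReal.ofReal (ε / 4) := by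
          rw [← ENNReal.ofReal_ofNat 2, ← ENNReal.ofReal_mul (by norm_num)]
          congr 1; norm_num; ring
    calc D i ≤ ENNReal.ofReal (ε / 4) + ENNReal.ofReal (ε / 4) := add_le_add h1 h2
      _ = ENNReal.ofReal (ε / 2) := by
        rw [← ENNReal.ofReal_add (by positivity) (by positivity)]; congr 1; ring
      _ < ENNReal.ofReal ε := (ENNReal.ofReal_lt_ofReal_iff hε).2 (by linarith)
  have hOopen : ∀ i, IsOpen (O i) := fun i => isOpen_thickening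
  have hCO : C ⊆ ⋃ i, O i := by
    intro x hx
    obtain ⟨i, hi⟩ := mem_iUnion.1 (htC hx)
    exact mem_iUnion.2 ⟨i, self_subset_thickening (by exact_mod_cast hδ0 i) _ ⟨hi, hx⟩⟩
  obtain ⟨s, hs⟩ := hcomp.elim_finite_subcover O hOopen hCO
  let G : SimpleGraph ℕ :=
    { Adj := fun i j => i ≠ j ∧ i ∈ s ∧ j ∈ s ∧ (O i ∩ O j ∩ C).Nonempty
      symm := ⟨fun i j h => ⟨h.1.symm, h.2.2.1, h.2.1, by rw [inter_comm (O j)]; exact h.2.2.2⟩⟩
      loopless := ⟨fun i h => h.1 rfl⟩ }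
  obtain ⟨i₀, hi₀s, hi₀⟩ := mem_iUnion₂.1 (hs ha)
  obtain ⟨j₀, hj₀s, hj₀⟩ := mem_iUnion₂.1 (hs hb)
  have hreach : G.Reachable i₀ j₀ := by
    by_contra hcon
    let U : Set X := ⋃ i ∈ {i | i ∈ s ∧ G.Reachable i₀ i}, O i
    let V : Set X := ⋃ i ∈ {i | i ∈ s ∧ ¬ G.Reachable i₀ i}, O i
    have hU : IsOpen U := isOpen_biUnion fun i _ => hOopen i
    have hV : IsOpen V := isOpen_biUnion fun i _ => hOopen i
    have hUV : C ⊆ U ∪ V := by
      intro x hx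
      obtain ⟨i, his, hi⟩ := mem_iUnion₂.1 (hs hx)
      by_cases hr : G.Reachable i₀ i
      · exact Or.inl (mem_iUnion₂.2 ⟨i, ⟨his, hr⟩, hi⟩)
      · exact Or.inr (mem_iUnion₂.2 ⟨i, ⟨his, hr⟩, hi⟩)
    obtain ⟨x, hxC, hxU, hxV⟩ := hC U V hU hV hUV
      ⟨a, ha, mem_iUnion₂.2 ⟨i₀, ⟨hi₀s, SimpleGraph.Reachable.refl _⟩, hi₀⟩⟩
      ⟨b, hb, mem_iUnion₂.2 ⟨j₀, ⟨hj₀s, hcon⟩, hj₀⟩⟩
    obtain ⟨i, ⟨his, hi⟩, hxi⟩ := mem_iUnion₂.1 hxU
    obtain ⟨j, ⟨hjs, hj⟩, hxj⟩ := mem_iUnion₂.1 hxV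
    have hij : i ≠ j := fun h => hj (h ▸ hi)
    exact hj (hi.trans (SimpleGraph.Adj.reachable (G := G) ⟨hij, his, hjs, x, ⟨hxi, hxj⟩, hxC⟩))
  obtain ⟨w⟩ := hreach
  let p := w.toPath
  obtain ⟨L, hL, hL'⟩ := chain_of_walk hD hDε (G := G) (fun i j h => h.2.2.2) (p : G.Walk i₀ j₀)
    a ⟨hi₀, ha⟩ b ⟨hj₀, hb⟩
  refine ⟨L, hL, hL'.trans ?_⟩
  rw [← List.sum_toFinset D p.2.support_nodup]
  refine (ENNReal.sum_le_tsum _).trans ?_
  have h1 : ∑' i, D i = ∑' i, ediam (t i ∩ C) + ∑' i, 2 * (δ i : ℝ≥0∞) := ENNReal.tsum_add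
  have h2 : ∑' i, ediam (t i ∩ C) ≤ μH[1] C + ENNReal.ofReal (η / 2) := by
    refine le_trans (ENNReal.tsum_le_tsum fun i => ?_) hts
    rcases (t i ∩ C).eq_empty_or_nonempty with hB | hB
    · rw [hB]; simp
    · refine le_iSup_of_le (hB.mono inter_subset_left) ?_
      rw [ENNReal.rpow_one]
      exact ediam_mono inter_subset_left
  have h3 : ∑' i, 2 * (δ i : ℝ≥0∞) ≤ ENNReal.ofReal (η / 2) := by
    calc ∑' i, 2 * (δ i : ℝ≥0∞) ≤ ∑' i : ℕ, 2 * (ENNReal.ofReal (η / 8) * (1 / 2) ^ i) := by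
          refine ENNReal.tsum_le_tsum fun i => ?_
          gcongr
          have : δ i ≤ (η / 8).toNNReal * (1 / 2) ^ i := min_le_right _ _
          calc (δ i : ℝ≥0∞) ≤ (((η / 8).toNNReal * (1 / 2) ^ i : ℝ≥0) : ℝ≥0∞) := by exact_mod_cast this
            _ = ENNReal.ofReal (η / 8) * (1 / 2) ^ i := by
              rw [ENNReal.coe_mul, ENNReal.coe_pow, ENNReal.coe_div (by norm_num)]
              simp [ENNReal.ofReal]
      _ = ENNReal.ofReal (η / 2) := by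
          rw [ENNReal.tsum_mul_left, ENNReal.tsum_mul_left]
          have : ∑' i : ℕ, (1 / 2 : ℝ≥0∞) ^ i = 2 := by
            rw [ENNReal.tsum_geometric, one_div, ENNReal.one_sub_inv_two, inv_inv]
          rw [this, ← ENNReal.ofReal_ofNat 2, ← ENNReal.ofReal_mul (by positivity),
            ← ENNReal.ofReal_mul (by positivity)]
          congr 1; norm_num; ring
  calc ∑' i, D i ≤ (μH[1] C + ENNReal.ofReal (η / 2)) + ENNReal.ofReal (η / 2) := by
        rw [h1]; exact add_le_add h2 h3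
    _ = μH[1] C + ENNReal.ofReal η := by
        rw [add_assoc, ← ENNReal.ofReal_add (by positivity) (by positivity), add_halves]

open Measure in
/-- Points of a continuum are joined, in any compact set containing it, by a curve whose length is
at most its `H¹` measure. -/
theorem dl_le_H1 {C K : Set X} (hC : IsPreconnected C) (hcomp : IsCompact C) (hCK : C ⊆ K)
    (hK : IsCompact K) {a b : X} (ha : a ∈ C) (hb : b ∈ C) : dl K a b ≤ μH[1] C := by
  rcases eq_or_ne (μH[1] C) ∞ with h | hfin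
  · rw [h]; exact le_top
  refine ENNReal.le_of_forall_pos_le_add fun η hη _ => ?_
  have hη' : (0 : ℝ) < η := by exact_mod_cast hη
  set A : ℝ := (μH[1] C).toReal + η with hA
  have hA0 : 0 ≤ A := by positivity
  have hAe : μH[1] C + ENNReal.ofReal η = ENNReal.ofReal A := by
    rw [hA, ENNReal.ofReal_add (by positivity) (by positivity), ENNReal.ofReal_toReal hfin]
  have h1 : ∀ n : ℕ, cd K {a} (A + 1) (1 / (n + 1 : ℝ)) b ≤ A := by
    intro n
    obtain ⟨L, hL, hL'⟩ := exists_chain_of_connected hC hcomp hfin ha hb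
      (ε := 1 / (n + 1 : ℝ)) (by positivity) hη'
    refine (cd_le_chain (mem_singleton a) (hL.mono hCK le_rfl)).trans ?_
    rw [hAe] at hL'
    exact (ENNReal.ofReal_le_ofReal_iff hA0).1 hL'
  obtain ⟨e, he, hLC⟩ := LC_of_cd_le hK isClosed_singleton hA0 (by linarith) h1
  rw [mem_singleton_iff.1 he] at hLC
  refine hLC.dl_le.trans ?_
  rw [← hAe]
  simp

open Measure in
theorem H1_ge_of_connected {C : Set X} (hC : IsPreconnected C) {f : X → ℝ} {r : ℝ≥0∞} (hr : 0 < r)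
    (hf : ∀ x ∈ C, ∀ y ∈ C, edist x y < r → edist (f x) (f y) ≤ edist x y) {z₀ z₁ : X}
    (h₀ : z₀ ∈ C) (h₁ : z₁ ∈ C) {ρ : ℝ} (hf₀ : f z₀ ≤ 0) (hf₁ : ρ ≤ f z₁) :
    ENNReal.ofReal ρ ≤ μH[1] (C ∩ {y | f y < ρ}) := by
  have hcont : ContinuousOn f C := by
    intro x hx
    rw [ContinuousWithinAt, EMetric.tendsto_nhds]
    intro ε hε
    have h1 : Metric.eball x (min r ε) ∩ C ∈ 𝓝[C] x :=
      inter_mem (mem_nhdsWithin_of_mem_nhds (Metric.eball_mem_nhds x (lt_min hr hε)))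
        self_mem_nhdsWithin
    filter_upwards [h1] with y hy
    have h2 : edist y x < min r ε := hy.1
    exact (hf y hy.2 x hx (h2.trans_le (min_le_left _ _))).trans_lt (h2.trans_le (min_le_right _ _))
  have himg : Ico 0 ρ ⊆ f '' (C ∩ {y | f y < ρ}) := by
    intro s hs
    obtain ⟨y, hy, hys⟩ := hC.intermediate_value h₀ h₁ hcont ⟨hf₀.trans hs.1, hs.2.le.trans hf₁⟩
    exact ⟨y, ⟨hy, show f y < ρ by rw [hys]; exact hs.2⟩, hys⟩
  calc ENNReal.ofReal ρ = volume (Ico 0 ρ) := by rw [Real.volume_Ico, sub_zero]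
    _ ≤ volume (f '' (C ∩ {y | f y < ρ})) := measure_mono himg
    _ ≤ μH[1] (C ∩ {y | f y < ρ}) := le_H1_of_image _ f hr
        fun x hx y hy h => hf x hx.1 y hy.1 h

end Pool.Agent.QCS
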