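import Pool.Agent.Lib.MP_811d89_an.Depth

/-!
# Crossing lemma, small hairs, lower bounds
-/

open MeasureTheory Set Metric Topology Filter
open scoped ENNReal NNReal

namespace Pool.Agent.QCS

set_option linter.unusedSectionVars false

variable {X : Type*} [MetricSpace X] [MeasurableSpace X] [BorelSpace X]

theorem volume_image_le {h : ℝ → ℝ} {K : ℝ≥0} {A : Set ℝ} (hl : LipschitzOnWith K h A) :
    volume (h '' A) ≤ K * volume A := by
  have := hl.hausdorffMeasure_image_le (d := 1) zero_le_one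
  simpa [hausdorffMeasure_real] using this

namespace Skel

variable (S : Skel X) [LocallyConnectedSpace X] [ConnectedSpace X]

theorem w_congr {y y' : X} (h : ∀ κ, S.deep κ y ↔ S.deep κ y') : S.w y = S.w y' := by
  unfold w
  congr 1
  exact iInf_congr fun κ => iInf_congr_Prop (h κ) fun _ => rfl

theorem deep_iff_of_hair {y y' : X} (hv : S.v y = S.v y')
    (hh : ∀ t, 0 ≤ t → ENNReal.ofReal t < S.v y → S.Lh t y = S.Lh t y') (κ : ℝ≥0) :
    S.deep κ y ↔ S.deep κ y' := by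
  constructor
  · rintro ⟨t, h0, ht, hL⟩
    exact ⟨t, h0, hv ▸ ht, by rw [← hh t h0 ht, ← hv]; exact hL⟩
  · rintro ⟨t, h0, ht, hL⟩
    rw [← hv] at ht hL
    exact ⟨t, h0, ht, by rw [hh t h0 ht]; exact hL⟩

variable {S}

/-- The first exit point of a curve from a hair of higher level. -/
theorem exit_point {y : X} {g : ℝ → X} (hg : LipschitzWith 1 g) (hg0 : g 0 = y) {M : ℝ}
    (hM : 0 ≤ M) {τ : ℝ} (hτ : ENNReal.ofReal τ < S.v y) (hout : g M ∉ S.hair τ y) :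
    ∃ u ∈ Icc 0 M, g u ∈ frontier (S.hair τ y) ∧ S.v (g u) = ENNReal.ofReal τ ∧
      ∀ u' ∈ Ico 0 u, g u' ∈ S.hair τ y := by
  let A : Set ℝ := Icc 0 M ∩ g ⁻¹' (S.hair τ y)ᶜ
  have hAc : IsCompact A :=
    isCompact_Icc.inter_right ((S.isOpen_hair _ _).isClosed_compl.preimage hg.continuous)
  obtain ⟨u, hu, hmin⟩ := hAc.exists_isLeast ⟨M, ⟨hM, le_rfl⟩, hout⟩
  have hin : ∀ u' ∈ Ico 0 u, g u' ∈ S.hair τ y := by
    intro u' hu'
    by_contra hcon
    exact absurd (hmin ⟨⟨hu'.1, hu'.2.le.trans hu.1.2⟩, hcon⟩) (not_le.2 hu'.2)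
  have hu0 : 0 < u := by
    rcases hu.1.1.eq_or_lt with h | h
    · exact absurd (by rw [← h, hg0]; exact S.mem_hair hτ) hu.2
    · exact h
  have hcl : g u ∈ closure (S.hair τ y) := by
    have h1 : g '' Ico 0 u ⊆ S.hair τ y := by rintro _ ⟨u', hu', rfl⟩; exact hin u' hu'
    refine closure_mono h1 (image_closure_subset_closure_image hg.continuous ⟨u, ?_, rfl⟩)
    rw [closure_Ico hu0.ne]; exact ⟨hu0.le, le_rfl⟩
  have hfr : g u ∈ frontier (S.hair τ y) := ⟨hcl, fun h => hu.2 (interior_subset h)⟩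
  refine ⟨u, hu.1, hfr, le_antisymm (S.v_le_of_frontier hfr) ?_, hin⟩
  refine ENNReal.le_of_forall_pos_le_add fun ε hε _ => ?_
  have hε' : (0 : ℝ) < ε := by exact_mod_cast hε
  set u' := max 0 (u - ε) with hu'
  have hu'1 : u' ∈ Ico 0 u := ⟨le_max_left _ _, max_lt hu0 (by linarith)⟩
  have h2 := S.v_gt_of_hair (hin u' hu'1)
  have h3 := S.v_lip hg u u'
  rw [abs_of_nonneg (by linarith [hu'1.2])] at h3
  refine h2.le.trans (h3.trans (add_le_add le_rfl ?_))
  rw [← ENNReal.ofReal_coe_nnreal]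
  refine ENNReal.ofReal_le_ofReal ?_
  have : u - ε ≤ u' := le_max_right _ _
  linarith

theorem Geod.v_eq {y : X} {c : ℝ → X} (hc : S.Geod y c) : S.v y = ENNReal.ofReal (S.v y).toReal := by
  have h := hc.val _ ⟨ENNReal.toReal_nonneg, le_rfl⟩
  rwa [hc.top] at h

/-- The crossing lemma: the weighted length of a curve leaving a hair is at least the weighted
length of the corresponding part of the geodesic. -/
theorem crossing {y : X} {c : ℝ → X} (hc : S.Geod y c) {t : ℝ} (ht : 0 ≤ t) {g : ℝ → X}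
    (hg : LipschitzWith 1 g) (hg0 : g 0 = y) {M : ℝ} (hM : 0 ≤ M) (hout : g M ∉ S.hair t y) :
    ∫⁻ τ in Icc t (S.v y).toReal, S.w (c τ) ≤ ∫⁻ u in Icc 0 M, S.w (g u) := by
  set V := (S.v y).toReal with hV
  have hVe : S.v y = ENNReal.ofReal V := hc.v_eq
  -- the crossing points
  have hpt : ∀ τ ∈ Ioo t V, ∃ u ∈ Icc 0 M, S.v (g u) = ENNReal.ofReal τ ∧
      S.w (g u) = S.w (c τ) := by
    intro τ hτ
    have hτv : ENNReal.ofReal τ < S.v y := by
      rw [hVe]; exact (ENNReal.ofReal_lt_ofReal_iff (by linarith [hτ.1, hτ.2])).2 hτ.2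
    obtain ⟨u, hu, hfr, hvu, hin⟩ := exit_point hg hg0 hM hτv
      (fun h => hout (S.hair_anti hτ.1.le y h))
    refine ⟨u, hu, hvu, ?_⟩
    have hcv : S.v (c τ) = ENNReal.ofReal τ := hc.val τ ⟨by linarith [hτ.1], hτ.2.le⟩
    refine S.w_congr fun κ => S.deep_iff_of_hair (hvu.trans hcv.symm) (fun t' ht' ht'' => ?_) κ
    rw [hvu] at ht''
    have ht'τ : t' < τ := by
      rw [ENNReal.ofReal_lt_ofReal_iff (by linarith [hτ.1])] at ht''
      exact ht''
    have h1 : c τ ∈ S.hair t' y := hc.mem_hair ht' ⟨ht'τ, hτ.2.le⟩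
    have h2 : g u ∈ S.hair t' y := by
      have h3 : IsPreconnected (insert (g u) (S.hair τ y)) :=
        (S.hair_conn τ y).subset_closure (subset_insert _ _)
          (insert_subset (frontier_subset_closure hfr) subset_closure)
      refine S.subset_hair h3 ?_ (mem_insert_of_mem _ (S.mem_hair hτv))
        (S.mem_hair (ht''.trans hτv)) (mem_insert _ _)
      rintro z (rfl | hz)
      · rw [hvu]; exact ht''
      · exact ht''.trans (S.v_gt_of_hair hz)
    rw [S.Lh_eq h1, S.Lh_eq h2]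
  -- finiteness of `v` along the curve
  have hvfin : ∀ u, S.v (g u) ≠ ∞ := by
    intro u
    have h1 := S.v_lip hg 0 u
    rw [hg0, hVe] at h1
    exact (h1.trans_lt (by finiteness)).ne
  set h : ℝ → ℝ := fun u => (S.v (g u)).toReal with hh
  have hlip : LipschitzWith 1 h := by
    have key : ∀ u u', h u' ≤ h u + |u - u'| := by
      intro u u'
      have h1 := ENNReal.toReal_mono (by finiteness [hvfin u]) (S.v_lip hg u u')
      rwa [ENNReal.toReal_add (hvfin u) (by finiteness), ENNReal.toReal_ofReal (abs_nonneg _)] at h1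
    refine LipschitzWith.of_dist_le_mul fun u u' => ?_
    simp only [NNReal.coe_one, one_mul, Real.dist_eq]
    rw [abs_le]
    constructor
    · linarith [key u u']
    · have := key u' u; rw [abs_sub_comm] at this; linarith
  have hwr : ∀ z, S.w z = ENNReal.ofReal (S.w z).toReal := fun z =>
    (ENNReal.ofReal_toReal ((S.w_le_one z).trans_lt ENNReal.one_lt_top).ne).symm
  have hmeas1 : Measurable fun τ => (S.w (c τ)).toReal :=
    (S.measurable_w.comp hc.lip.continuous.measurable).ennreal_toReal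
  have hmeas2 : Measurable fun u => (S.w (g u)).toReal :=
    (S.measurable_w.comp hg.continuous.measurable).ennreal_toReal
  have e1 : ∫⁻ τ in Icc t V, S.w (c τ) = ∫⁻ τ in Ioo t V, ENNReal.ofReal (S.w (c τ)).toReal := by
    rw [← restrict_Ioo_eq_restrict_Icc]
    exact lintegral_congr fun τ => hwr _
  have e2 : ∫⁻ u in Icc 0 M, S.w (g u) = ∫⁻ u in Icc 0 M, ENNReal.ofReal (S.w (g u)).toReal :=
    lintegral_congr fun τ => hwr _
  rw [e1, e2, lintegral_eq_lintegral_meas_lt _ (Eventually.of_forall fun _ =>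
    ENNReal.toReal_nonneg) hmeas1.aemeasurable, lintegral_eq_lintegral_meas_lt _
    (Eventually.of_forall fun _ => ENNReal.toReal_nonneg) hmeas2.aemeasurable]
  refine lintegral_mono fun r => ?_
  rw [Measure.restrict_apply (measurableSet_lt measurable_const hmeas1),
    Measure.restrict_apply (measurableSet_lt measurable_const hmeas2)]
  have hsub : {τ | r < (S.w (c τ)).toReal} ∩ Ioo t V ⊆
      h '' ({u | r < (S.w (g u)).toReal} ∩ Icc 0 M) := by
    rintro τ ⟨hτ1, hτ2⟩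
    obtain ⟨u, hu, hvu, hwu⟩ := hpt τ hτ2
    refine ⟨u, ⟨?_, hu⟩, ?_⟩
    · show r < (S.w (g u)).toReal
      rw [hwu]; exact hτ1
    · rw [hh]; dsimp only; rw [hvu, ENNReal.toReal_ofReal (by linarith [hτ2.1])]
  refine (measure_mono hsub).trans ?_
  have := volume_image_le (hlip.lipschitzOnWith (s := {u | r < (S.w (g u)).toReal} ∩ Icc 0 M))
  simpa using this

theorem crossing_cost {y : X} {c : ℝ → X} (hc : S.Geod y c) {t : ℝ} (ht : 0 ≤ t) {q : X}
    (hout : q ∉ S.hair t y) : ∫⁻ τ in Icc t (S.v y).toReal, S.w (c τ) ≤ cost S.w y q := by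
  refine le_iInf fun L => le_iInf₂ fun g hg => ?_
  exact crossing hc ht hg.2.1 hg.2.2.1 hg.1 (by rw [hg.2.2.2]; exact hout)

variable (S)

/-! ### Small hairs -/

/-- Hairs with small frontiers are small. -/
theorem small_hair {K : Set X} (hK : IsCompact K) {ρ : ℝ} (hρ : 0 < ρ) : ∃ ε > 0, ∀ z t,
    (frontier (S.hair t z) ∩ K).Nonempty →
    (∀ a ∈ frontier (S.hair t z), ∀ b ∈ frontier (S.hair t z), dist a b < ε) →
    ∀ y ∈ S.hair t z, ∀ y' ∈ S.hair t z, dist y y' < ρ := by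
  obtain ⟨e₁, he₁, e₂, he₂, hne⟩ := S.nontriv
  set ρ' := min ρ (dist e₁ e₂) with hρ'
  have hρ'0 : 0 < ρ' := lt_min hρ (dist_pos.2 hne)
  choose N hNo hxN hNb hNc using fun x => S.small x (ρ' / 2) (half_pos hρ'0)
  obtain ⟨ε, hε, hleb⟩ := lebesgue_number_lemma_of_metric hK hNo
    (fun x _ => mem_iUnion.2 ⟨x, hxN x⟩)
  refine ⟨ε, hε, fun z t hmeet hdiam => ?_⟩
  obtain ⟨p, hpF, hpK⟩ := hmeet
  obtain ⟨x, hx⟩ := hleb p hpK
  have hFN : frontier (S.hair t z) ⊆ N x := fun a ha => hx (hdiam a ha p hpF)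
  have hdis : Disjoint (N x)ᶜ (frontier (S.hair t z)) :=
    disjoint_left.2 fun a ha hb => ha (hFN hb)
  have hcase := subset_or_disjoint_of_frontier (hNc x) hdis
  have hWN : S.hair t z ⊆ N x := by
    rcases hcase with h | h
    · exfalso
      have hex : e₁ ∉ N x ∨ e₂ ∉ N x := by
        by_contra hcon
        push Not at hcon
        have h1 := hNb x hcon.1
        have h2 := hNb x hcon.2
        rw [mem_ball] at h1 h2
        have h3 := dist_triangle_right e₁ e₂ x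
        have h4 : ρ' ≤ dist e₁ e₂ := min_le_right _ _
        linarith
      rcases hex with h1 | h1
      · exact S.cell_disj (S.hair_sub_cell t z (h h1)) he₁
      · exact S.cell_disj (S.hair_sub_cell t z (h h1)) he₂
    · intro y hy
      by_contra hcon
      exact disjoint_left.1 h hcon hy
  intro y hy y' hy'
  have h1 := hNb x (hWN hy)
  have h2 := hNb x (hWN hy')
  rw [mem_ball] at h1 h2
  have h3 := dist_triangle_right y y' x
  have h4 : ρ' ≤ ρ := min_le_left _ _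
  linarith

theorem small_hair' {K : Set X} (hK : IsCompact K) {ρ : ℝ} (hρ : 0 < ρ) : ∃ ε > 0, ∀ z ∈ K,
    z ∉ S.E → ∀ t, S.Lh t z < ENNReal.ofReal ε →
    ∀ y ∈ S.hair t z, ∀ y' ∈ S.hair t z, dist y y' < ρ := by
  obtain ⟨K', hK', hKK', hcells⟩ := S.cells K hK
  obtain ⟨ε, hε, h⟩ := S.small_hair hK' hρ
  refine ⟨ε, hε, fun z hzK hzE t hL y hy y' hy' => ?_⟩
  have hv : ENNReal.ofReal t < S.v z := by
    by_contra hcon
    rw [hair, connectedComponentIn_eq_empty (F := {y | ENNReal.ofReal t < S.v y}) hcon] at hy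
    exact hy
  refine h z t ?_ (fun a ha b hb => ?_) y hy y' hy'
  · obtain ⟨p, hp⟩ := S.frontier_hair_nonempty hv
    exact ⟨p, hp, hcells z hzK hzE (S.frontier_hair_sub_cc t z hp)⟩
  · have h1 := ((edist_le_dl _ a b).trans (S.dl_le_Lh ha hb)).trans_lt hL
    rw [edist_dist] at h1
    exact (ENNReal.ofReal_lt_ofReal_iff hε).1 h1

theorem not_deep_of_mem_E {κ : ℝ≥0} {z : X} (hz : z ∈ S.E) : ¬ S.deep κ z := by
  rintro ⟨t, -, ht, -⟩
  rw [S.v_zero hz] at ht
  exact not_lt_zero ht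

/-- Continua of definite size contain points which are not deep. -/
theorem exists_not_deep {K : Set X} (hK : IsCompact K) {ρ : ℝ} (hρ : 0 < ρ) : ∃ κ : ℝ≥0, 0 < κ ∧
    κ ≤ 1 ∧ ∀ A ⊆ K, IsCompact A → IsPreconnected A → (∃ a ∈ A, ∃ b ∈ A, ρ ≤ dist a b) →
    ∃ z ∈ A, ¬ S.deep κ z := by
  obtain ⟨K', hK', hKK', hcells⟩ := S.cells K hK
  obtain ⟨ε, hε, hsm⟩ := S.small_hair' hK hρ
  set M := (μH[2] K').toReal with hM
  have hM0 : 0 ≤ M := ENNReal.toReal_nonneg
  have hMfin : μH[2] K' ≠ ∞ := (S.compact_lt_top hK').ne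
  set T := (M + 1) / ε with hT
  have hT0 : 0 < T := by positivity
  refine ⟨min (ε / T).toNNReal 1, lt_min (Real.toNNReal_pos.2 (by positivity)) one_pos,
    min_le_right _ _, fun A hAK hA hAc hab => ?_⟩
  by_contra hcon
  push Not at hcon
  have hcon' : ∀ z ∈ A, S.deep (ε / T).toNNReal z := fun z hz =>
    S.deep_mono (min_le_left _ _) (hcon z hz)
  obtain ⟨a, ha, b, hb, hdab⟩ := hab
  have hAE : ∀ z ∈ A, z ∉ S.E := fun z hz hE => S.not_deep_of_mem_E hE (hcon' z hz)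
  obtain ⟨z₁, hz₁, hmin⟩ := LowerSemicontinuousOn.exists_isMinOn ⟨a, ha⟩ hA
    (S.v_lsc.lowerSemicontinuousOn A)
  have hmin' : ∀ z ∈ A, S.v z₁ ≤ S.v z := fun z hz => hmin hz
  have hE₁ := hAE z₁ hz₁
  have hvT : S.v z₁ ≤ ENNReal.ofReal T := by
    by_contra hlt
    push Not at hlt
    obtain ⟨t, ht, hL⟩ := S.exists_Lh_le hE₁ le_rfl hT0 hlt.le
    have h1 : S.Lh t z₁ < ENNReal.ofReal ε := by
      refine hL.trans_lt ((ENNReal.ofReal_lt_ofReal_iff hε).2 ?_)
      have h2 : (μH[2] (S.hair 0 z₁)).toReal ≤ M := ENNReal.toReal_mono hMfin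
        (measure_mono ((S.hair_sub_cell 0 z₁).trans ((S.cell_sub_cc z₁).trans
          (hcells z₁ (hAK hz₁) hE₁))))
      rw [sub_zero, div_lt_iff₀ hT0, hT]
      have : ε * ((M + 1) / ε) = M + 1 := by field_simp
      linarith
    have h3 : A ⊆ S.hair t z₁ := by
      have h4 : ENNReal.ofReal t < S.v z₁ :=
        ((ENNReal.ofReal_lt_ofReal_iff hT0).2 ht.2).trans hlt
      exact S.subset_hair hAc (fun y hy => h4.trans_le (hmin' y hy)) hz₁ (S.mem_hair h4)
    exact absurd (hsm z₁ (hAK hz₁) hE₁ t h1 a (h3 ha) b (h3 hb)) (not_lt.2 hdab)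
  obtain ⟨t, h0, ht, hL⟩ := hcon' z₁ hz₁
  have h1 : S.Lh t z₁ < ENNReal.ofReal ε := by
    refine hL.trans_le ?_
    calc ((ε / T).toNNReal : ℝ≥0∞) * (S.v z₁ - ENNReal.ofReal t)
        ≤ ENNReal.ofReal (ε / T) * ENNReal.ofReal T := by
          exact mul_le_mul' le_rfl (tsub_le_self.trans hvT)
      _ = ENNReal.ofReal ε := by
          rw [← ENNReal.ofReal_mul (by positivity)]
          congr 1
          field_simp
  have h2 := hsm z₁ (hAK hz₁) hE₁ t h1
  have h3 : ∃ x ∈ A, x ∉ S.hair t z₁ := by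
    by_contra h
    push Not at h
    exact absurd (h2 a (h a ha) b (h b hb)) (not_lt.2 hdab)
  obtain ⟨x, hxA, hx⟩ := h3
  obtain ⟨p, hpA, hpF⟩ := meets_frontier (U := S.hair t z₁) hAc ⟨z₁, hz₁, S.mem_hair ht⟩
    ⟨x, hxA, hx⟩
  exact absurd ((hmin' p hpA).trans (S.v_le_of_frontier hpF)) (not_le.2 ht)

/-- Curves of small weighted length have small diameter. -/
theorem path_small [LocallyCompactSpace X] (x : X) {ρ : ℝ} (hρ : 0 < ρ) : ∃ η > 0, ∃ r > 0,
    ∀ (c : ℝ → X) (L : ℝ), LipschitzWith 1 c → dist x (c 0) < r →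
    ∫⁻ s in Icc 0 L, S.w (c s) < ENNReal.ofReal η → ∀ s ∈ Icc 0 L, dist x (c s) < ρ := by
  obtain ⟨ρ₁, hρ₁, hcpt⟩ : ∃ ρ₁ > 0, IsCompact (closedBall x ρ₁) := by
    obtain ⟨K, hK, hxK⟩ := exists_compact_mem_nhds x
    obtain ⟨ρ₁, hρ₁, hsub⟩ := Metric.nhds_basis_closedBall.mem_iff.1 hxK
    exact ⟨ρ₁, hρ₁, hK.of_isClosed_subset isClosed_closedBall hsub⟩
  set ρ₀ := min ρ ρ₁ with hρ₀
  have hρ0 : 0 < ρ₀ := lt_min hρ hρ₁
  have hcpt0 : IsCompact (closedBall x ρ₀) :=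
    hcpt.of_isClosed_subset isClosed_closedBall (closedBall_subset_closedBall (min_le_right _ _))
  obtain ⟨κ, hκ, hκ1, hdeep⟩ := S.exists_not_deep hcpt0 (ρ := ρ₀ / 4) (by positivity)
  have hκr : (0 : ℝ) < κ := by exact_mod_cast hκ
  refine ⟨κ ^ 2 * (ρ₀ / 4), by positivity, ρ₀ / 4, by positivity, fun c L hc h0 hint s hs => ?_⟩
  by_contra hcon
  push Not at hcon
  have hcon' : ρ₀ ≤ dist x (c s) := (min_le_left _ _).trans hcon
  have hφ : Continuous fun u => dist x (c u) := continuous_const.dist hc.continuous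
  -- first time at distance `ρ₀`
  have hA1 : IsCompact (Icc 0 s ∩ {u | ρ₀ ≤ dist x (c u)}) :=
    isCompact_Icc.inter_right (isClosed_le continuous_const hφ)
  obtain ⟨s₁, hs₁, hs₁min⟩ := hA1.exists_isLeast ⟨s, ⟨hs.1, le_rfl⟩, hcon'⟩
  have hs₁le : ∀ u ∈ Icc 0 s₁, dist x (c u) ≤ ρ₀ := by
    intro u hu
    rcases hu.2.eq_or_lt with h | h
    · rw [h]
      by_contra hgt
      push Not at hgt
      obtain ⟨u', hu', hu'e⟩ := intermediate_value_Icc (hs₁.1.1) hφ.continuousOn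
        (show ρ₀ ∈ Icc (dist x (c 0)) (dist x (c s₁)) from ⟨by linarith, hgt.le⟩)
      have h5 := hs₁min ⟨⟨hu'.1, hu'.2.trans hs₁.1.2⟩, hu'e.ge⟩
      have h6 : u' = s₁ := le_antisymm hu'.2 h5
      rw [h6] at hu'e
      exact absurd hu'e hgt.ne'
    · by_contra hgt
      push Not at hgt
      exact absurd (hs₁min ⟨⟨hu.1, h.le.trans hs₁.1.2⟩, hgt.le⟩) (not_le.2 h)
  -- first time at distance `ρ₀ / 2`
  have hA2 : IsCompact (Icc 0 s₁ ∩ {u | ρ₀ / 2 ≤ dist x (c u)}) :=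
    isCompact_Icc.inter_right (isClosed_le continuous_const hφ)
  obtain ⟨a, ha, hamin⟩ := hA2.exists_isLeast ⟨s₁, ⟨hs₁.1.1, le_rfl⟩, by
    have : ρ₀ ≤ dist x (c s₁) := hs₁.2
    show ρ₀ / 2 ≤ _
    linarith⟩
  have hale : ∀ u ∈ Icc 0 a, dist x (c u) ≤ ρ₀ / 2 := by
    intro u hu
    rcases hu.2.eq_or_lt with h | h
    · rw [h]
      by_contra hgt
      push Not at hgt
      obtain ⟨u', hu', hu'e⟩ := intermediate_value_Icc (ha.1.1) hφ.continuousOn
        (show ρ₀ / 2 ∈ Icc (dist x (c 0)) (dist x (c a)) from ⟨by linarith, hgt.le⟩)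
      have h5 := hamin ⟨⟨hu'.1, hu'.2.trans ha.1.2⟩, hu'e.ge⟩
      have h6 : u' = a := le_antisymm hu'.2 h5
      rw [h6] at hu'e
      exact absurd hu'e hgt.ne'
    · by_contra hgt
      push Not at hgt
      exact absurd (hamin ⟨⟨hu.1, h.le.trans ha.1.2⟩, hgt.le⟩) (not_le.2 h)
  -- last time at distance `3 ρ₀ / 4`
  have hA3 : IsCompact (Icc 0 s₁ ∩ {u | dist x (c u) ≤ 3 * ρ₀ / 4}) :=
    isCompact_Icc.inter_right (isClosed_le hφ continuous_const)
  obtain ⟨b, hb, hbmax⟩ := hA3.exists_isGreatest ⟨a, ha.1, (hale a ⟨ha.1.1, le_rfl⟩).trans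
    (by linarith)⟩
  have hab : a ≤ b := hbmax ⟨ha.1, (hale a ⟨ha.1.1, le_rfl⟩).trans (by linarith)⟩
  have hbge : ∀ u ∈ Icc b s₁, 3 * ρ₀ / 4 ≤ dist x (c u) := by
    intro u hu
    rcases hu.1.eq_or_lt with h | h
    · rw [← h]
      by_contra hlt
      push Not at hlt
      obtain ⟨u', hu', hu'e⟩ := intermediate_value_Icc (hb.1.2) hφ.continuousOn
        (show 3 * ρ₀ / 4 ∈ Icc (dist x (c b)) (dist x (c s₁)) from ⟨hlt.le, by
          have : ρ₀ ≤ dist x (c s₁) := hs₁.2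
          linarith⟩)
      have h5 := hbmax ⟨⟨hb.1.1.trans hu'.1, hu'.2⟩, hu'e.le⟩
      have h6 : u' = b := le_antisymm h5 hu'.1
      rw [h6] at hu'e
      exact absurd hu'e hlt.ne
    · by_contra hlt
      push Not at hlt
      exact absurd (hbmax ⟨⟨hb.1.1.trans hu.1, hu.2⟩, hlt.le⟩) (not_le.2 h)
  -- two points which are not deep
  have himg : ∀ p q : ℝ, p ∈ Icc 0 s₁ → q ≤ s₁ → c '' Icc p q ⊆ closedBall x ρ₀ := by
    rintro p q hp hq _ ⟨u, hu, rfl⟩
    rw [mem_closedBall, dist_comm]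
    exact hs₁le u ⟨hp.1.trans hu.1, hu.2.trans hq⟩
  obtain ⟨_, ⟨p, hp, rfl⟩, hpd⟩ := hdeep (c '' Icc 0 a) (himg 0 a ⟨le_rfl, hs₁.1.1⟩ ha.1.2)
    (isCompact_Icc.image hc.continuous) (isPreconnected_Icc.image c hc.continuous.continuousOn)
    ⟨c 0, ⟨0, ⟨le_rfl, ha.1.1⟩, rfl⟩, c a, ⟨a, ⟨ha.1.1, le_rfl⟩, rfl⟩, by
      have h1 : ρ₀ / 2 ≤ dist x (c a) := ha.2
      have h2 := dist_triangle x (c 0) (c a)
      linarith⟩
  obtain ⟨_, ⟨q, hq, rfl⟩, hqd⟩ := hdeep (c '' Icc b s₁) (himg b s₁ hb.1 le_rfl)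
    (isCompact_Icc.image hc.continuous) (isPreconnected_Icc.image c hc.continuous.continuousOn)
    ⟨c b, ⟨b, ⟨le_rfl, hb.1.2⟩, rfl⟩, c s₁, ⟨s₁, ⟨hb.1.2, le_rfl⟩, rfl⟩, by
      have h1 : ρ₀ ≤ dist x (c s₁) := hs₁.2
      have h3 : dist x (c b) ≤ 3 * ρ₀ / 4 := hb.2
      have h2 := dist_triangle x (c b) (c s₁)
      linarith⟩
  have hpq : p ≤ q := hp.2.trans (hab.trans hq.1)
  have h1 := S.dl_le_cost hκ hκ1 hpd hqd
  have h2 : cost S.w (c p) (c q) ≤ ∫⁻ s in Icc 0 L, S.w (c s) :=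
    (cost_le_of_curve hc hpq).trans (lintegral_mono_set (Icc_subset_Icc hp.1
      (hq.2.trans (hs₁.1.2.trans hs.2))))
  have h3 : ENNReal.ofReal (ρ₀ / 4) ≤ dl univ (c p) (c q) := by
    refine le_trans ?_ (edist_le_dl _ _ _)
    rw [edist_dist]
    refine ENNReal.ofReal_le_ofReal ?_
    have h4 := hale p hp
    have h5 := hbge q hq
    have h6 := dist_triangle x (c p) (c q)
    linarith
  have h4 : ENNReal.ofReal (κ ^ 2 * (ρ₀ / 4)) ≤ (κ : ℝ≥0∞) ^ 2 * dl univ (c p) (c q) := by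
    rw [ENNReal.ofReal_mul (by positivity), ENNReal.ofReal_pow hκr.le, ENNReal.ofReal_coe_nnreal]
    gcongr
  exact absurd ((h4.trans (h1.trans h2)).trans_lt hint) (lt_irrefl _)

theorem v_ne_top_of_LC {y z : X} {L : ℝ} (h : LC univ y z L) (hy : S.v y ≠ ∞) : S.v z ≠ ∞ :=
  ((S.v_le_add_LC h).trans_lt (ENNReal.add_lt_top.2 ⟨hy.lt_top, ENNReal.ofReal_lt_top⟩)).ne

/-- The reachable points are dense. -/
theorem dense_reach [LocallyCompactSpace X] (x : X) {r : ℝ} (hr : 0 < r) :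
    ∃ z, dist x z < r ∧ S.v z ≠ ∞ := by
  obtain ⟨ρ₁, hρ₁, hcpt⟩ : ∃ ρ₁ > 0, IsCompact (closedBall x ρ₁) := by
    obtain ⟨K, hK, hxK⟩ := exists_compact_mem_nhds x
    obtain ⟨ρ₁, hρ₁, hsub⟩ := Metric.nhds_basis_closedBall.mem_iff.1 hxK
    exact ⟨ρ₁, hρ₁, hK.of_isClosed_subset isClosed_closedBall hsub⟩
  set ρ₀ := min (r / 2) ρ₁ with hρ₀
  have hρ0 : 0 < ρ₀ := lt_min (half_pos hr) hρ₁
  have hcpt0 : IsCompact (closedBall x ρ₀) :=
    hcpt.of_isClosed_subset isClosed_closedBall (closedBall_subset_closedBall (min_le_right _ _))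
  obtain ⟨N, hN, hNc, hxN, hNU⟩ := exists_conn_nhd (isOpen_ball (x := x) (ε := ρ₀))
    (mem_ball_self hρ0)
  have hclN : closure N ⊆ closedBall x ρ₀ :=
    (closure_mono hNU).trans closure_ball_subset_closedBall
  -- the neighbourhood is nontrivial
  obtain ⟨b, hb, hbx⟩ : ∃ b ∈ N, b ≠ x := by
    by_contra hcon
    push Not at hcon
    have h1 : N = {x} := Subset.antisymm (fun b hb => hcon b hb) (singleton_subset_iff.2 hxN)
    have h2 : IsClopen ({x} : Set X) := ⟨isClosed_singleton, h1 ▸ hN⟩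
    have h3 := h2.eq_univ ⟨x, rfl⟩
    obtain ⟨e₁, he₁, e₂, he₂, hne⟩ := S.nontriv
    have h4 : e₁ ∈ ({x} : Set X) := h3 ▸ mem_univ _
    have h5 : e₂ ∈ ({x} : Set X) := h3 ▸ mem_univ _
    exact hne (h4.trans h5.symm)
  obtain ⟨κ, hκ, hκ1, hdeep⟩ := S.exists_not_deep hcpt0 (ρ := dist b x) (dist_pos.2 hbx)
  obtain ⟨z, hz, hzd⟩ := hdeep (closure N) hclN
    (hcpt0.of_isClosed_subset isClosed_closure hclN) hNc.closure
    ⟨b, subset_closure hb, x, subset_closure hxN, le_rfl⟩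
  refine ⟨z, ?_, S.v_ne_top_of_not_deep hκ hzd⟩
  have h1 := hclN hz
  rw [mem_closedBall, dist_comm] at h1
  have h2 : ρ₀ ≤ r / 2 := min_le_left _ _
  linarith

end Skel

end Pool.Agent.QCS
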