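import Mathlib

/-!
# Definitions for MP_811d89_an (quasiconformal equivalence of metric surfaces to length spaces)

Curves, line integrals, the conformal modulus with respect to the Hausdorff `2`-measure,
quasiconformal homeomorphisms and length spaces.
-/

open MeasureTheory Set Metric Topology
open scoped ENNReal NNReal

namespace Pool.Agent.QCS

universe u

/-- A curve in `Z`: an interval `I` of the real line (of any kind) and a map continuous on it. -/
structure Curve (Z : Type u) [TopologicalSpace Z] where
  /-- the parameter interval -/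
  I : Set ℝ
  /-- it is an interval -/
  ordConnected : I.OrdConnected
  /-- it is nonempty -/
  nonempty : I.Nonempty
  /-- the map -/
  toFun : ℝ → Z
  /-- it is continuous on the interval -/
  cont : ContinuousOn toFun I

/-- The image of a curve under a homeomorphism. -/
def Curve.map {X Y : Type u} [TopologicalSpace X] [TopologicalSpace Y] (f : X ≃ₜ Y)
    (γ : Curve X) : Curve Y where
  I := γ.I
  ordConnected := γ.ordConnected
  nonempty := γ.nonempty
  toFun := fun t => f (γ.toFun t)
  cont := f.continuous.comp_continuousOn γ.cont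

/-- A curve is locally rectifiable if every compact subcurve has finite length. -/
def LocRect {Z : Type u} [MetricSpace Z] (γ : Curve Z) : Prop :=
  LocallyBoundedVariationOn γ.toFun γ.I

/-- The line integral of `ρ` along `γ`: the supremum over the compact subcurves `γ|[a,b]` of the
integral of `ρ` in the arclength parametrisation. -/
noncomputable def lineInt {Z : Type u} [MetricSpace Z] (ρ : Z → ℝ≥0∞) (γ : Curve Z) : ℝ≥0∞ :=
  ⨆ (a : ℝ) (b : ℝ) (_ : a ∈ γ.I) (_ : b ∈ γ.I) (_ : a ≤ b),
    ∫⁻ s in Icc 0 (variationOnFromTo γ.toFun γ.I a b),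
      ρ (naturalParameterization γ.toFun γ.I a s)

/-- The Hausdorff `2`-measure of a metric space, with its Borel sigma-algebra (diameter squared,
without a normalising constant). -/
noncomputable def H2 (Z : Type u) [MetricSpace Z] : @Measure Z (borel Z) :=
  letI : MeasurableSpace Z := borel Z
  haveI : BorelSpace Z := ⟨rfl⟩
  Measure.hausdorffMeasure 2

/-- `ρ` is admissible for the curve family `Γ`. -/
def Admissible {Z : Type u} [MetricSpace Z] (Γ : Set (Curve Z)) (ρ : Z → ℝ≥0∞) : Prop :=
  @Measurable Z ℝ≥0∞ (borel Z) _ ρ ∧ ∀ γ ∈ Γ, LocRect γ → 1 ≤ lineInt ρ γ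

/-- The conformal modulus of a curve family. -/
noncomputable def Mod2 {Z : Type u} [MetricSpace Z] (Γ : Set (Curve Z)) : ℝ≥0∞ :=
  ⨅ (ρ : Z → ℝ≥0∞) (_ : Admissible Γ ρ), @lintegral Z (borel Z) (H2 Z) (fun z => ρ z ^ 2)

/-- `f` is a `K`-quasiconformal homeomorphism. -/
def IsQCWith {X Y : Type u} [MetricSpace X] [MetricSpace Y] (K : ℝ≥0) (f : X ≃ₜ Y) : Prop :=
  ∀ Γ : Set (Curve X), Mod2 Γ ≤ K * Mod2 (Curve.map f '' Γ) ∧ Mod2 (Curve.map f '' Γ) ≤ K * Mod2 Γ

/-- Locally finite Hausdorff `2`-measure. -/
def LocFinH2 (Z : Type u) [MetricSpace Z] : Prop := ∀ z : Z, ∃ U ∈ 𝓝 z, H2 Z U < ∞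

/-- A length space: every distance is the infimum of the lengths of the curves joining the points. -/
def IsLengthSpace (Z : Type u) [MetricSpace Z] : Prop :=
  ∀ x y : Z, edist x y = ⨅ γ : Path x y, eVariationOn γ univ

/-- A surface, boundary allowed: every point has an open neighbourhood which is homeomorphic to
an open subset of the plane or to an open subset of the closed half plane. -/
def IsSurface (X : Type u) [TopologicalSpace X] : Prop :=
  ∀ x : X, (∃ e : OpenPartialHomeomorph X (EuclideanSpace ℝ (Fin 2)), x ∈ e.source) ∨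
    ∃ e : OpenPartialHomeomorph X (EuclideanHalfSpace 2), x ∈ e.source

end Pool.Agent.QCS
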