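import Pool.Agent.Lib.MP_811d89_an.Short

/-!
# Weighted depth and area
-/

open MeasureTheory Set Metric Topology Filter
open scoped ENNReal NNReal

namespace Pool.Agent.QCS

set_option linter.unusedSectionVars false

variable {X : Type*} [MetricSpace X] [MeasurableSpace X] [BorelSpace X]

/-- One dimensional integral bound. -/
theorem int_bound {F : ℝ → ℝ≥0∞} {a b m s₁ lam : ℝ} (hm : 0 ≤ m) (hlam : 0 < lam)
    (h1 : ∀ x ∈ Icc a b, F x ≤ ENNReal.ofReal lam)
    (h2 : ∀ x ∈ Icc a b, s₁ < x - a → 0 < x - a → F x ≤ ENNReal.ofReal ((16 * m / (x - a) ^ 2) ^ 2)) :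
    ∫⁻ x in Icc a b, F x ≤
      ENNReal.ofReal (lam * max s₁ (4 * √m) + (256 * m ^ 2 / 3) * (max s₁ (4 * √m)) ^ (-3 : ℝ)) := by
  set s₀ := max s₁ (4 * √m) with hs₀
  have hs0 : 0 ≤ s₀ := le_max_of_le_right (by positivity)
  have hsub : Icc a b ⊆ (Icc a b ∩ Icc a (a + s₀)) ∪ (Icc a b ∩ Ioi (a + s₀)) := by
    intro x hx
    rcases le_or_gt x (a + s₀) with h | h
    · exact Or.inl ⟨hx, hx.1, h⟩
    · exact Or.inr ⟨hx, h⟩
  refine (lintegral_mono_set hsub).trans ((lintegral_union_le _ _ _).trans ?_)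
  have e1 : ∫⁻ x in Icc a b ∩ Icc a (a + s₀), F x ≤ ENNReal.ofReal (lam * s₀) := by
    calc ∫⁻ x in Icc a b ∩ Icc a (a + s₀), F x
        ≤ ∫⁻ _ in Icc a b ∩ Icc a (a + s₀), ENNReal.ofReal lam :=
          setLIntegral_mono' (measurableSet_Icc.inter measurableSet_Icc) fun x hx => h1 x hx.1
      _ ≤ ∫⁻ _ in Icc a (a + s₀), ENNReal.ofReal lam := lintegral_mono_set inter_subset_right
      _ = ENNReal.ofReal (lam * s₀) := by
          rw [setLIntegral_const, Real.volume_Icc, add_sub_cancel_left,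
            ← ENNReal.ofReal_mul hlam.le]
  have e2 : ∫⁻ x in Icc a b ∩ Ioi (a + s₀), F x ≤
      ENNReal.ofReal ((256 * m ^ 2 / 3) * s₀ ^ (-3 : ℝ)) := by
    have hle : ∀ x ∈ Icc a b ∩ Ioi (a + s₀), F x ≤
        ENNReal.ofReal (256 * m ^ 2 * (x - a) ^ (-4 : ℝ)) := by
      intro x hx
      have hx1 : a + s₀ < x := hx.2
      have hpos : 0 < x - a := by linarith
      refine (h2 x hx.1 ((le_max_left _ _).trans_lt (by linarith)) hpos).trans (le_of_eq ?_)
      congr 1
      rw [Real.rpow_neg hpos.le, show (4 : ℝ) = ((4 : ℕ) : ℝ) by norm_num, Real.rpow_natCast]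
      field_simp
      ring
    rcases hm.eq_or_lt with hm0 | hm0
    · have : ∫⁻ x in Icc a b ∩ Ioi (a + s₀), F x ≤ 0 := by
        calc ∫⁻ x in Icc a b ∩ Ioi (a + s₀), F x
            ≤ ∫⁻ _ in Icc a b ∩ Ioi (a + s₀), (0 : ℝ≥0∞) :=
              setLIntegral_mono' (measurableSet_Icc.inter measurableSet_Ioi) fun x hx =>
                (hle x hx).trans (by rw [← hm0]; simp)
          _ = 0 := by simp
      exact this.trans zero_le
    · have hs0' : 0 < s₀ := lt_max_of_lt_right (by positivity)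
      calc ∫⁻ x in Icc a b ∩ Ioi (a + s₀), F x
          ≤ ∫⁻ x in Icc a b ∩ Ioi (a + s₀), ENNReal.ofReal (256 * m ^ 2 * (x - a) ^ (-4 : ℝ)) :=
            setLIntegral_mono' (measurableSet_Icc.inter measurableSet_Ioi) hle
        _ ≤ ∫⁻ x in Ioi (a + s₀), ENNReal.ofReal (256 * m ^ 2 * (x - a) ^ (-4 : ℝ)) :=
            lintegral_mono_set inter_subset_right
        _ = ∫⁻ x in Ioi s₀, ENNReal.ofReal (256 * m ^ 2 * x ^ (-4 : ℝ)) := by
            have hpre : (fun s => s - a) ⁻¹' Ioi s₀ = Ioi (a + s₀) := by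
              ext s; simp only [mem_preimage, mem_Ioi]; constructor <;> intro h <;> linarith
            have hmp : MeasurePreserving (fun s : ℝ => s - a) volume volume :=
              measurePreserving_sub_right _ a
            have hme : MeasurableEmbedding (fun s : ℝ => s - a) := measurableEmbedding_subRight a
            rw [← hpre]
            exact hmp.setLIntegral_comp_preimage_emb hme
              (fun x => ENNReal.ofReal (256 * m ^ 2 * x ^ (-4 : ℝ))) (Ioi s₀)
        _ = ENNReal.ofReal (∫ x in Ioi s₀, 256 * m ^ 2 * x ^ (-4 : ℝ)) := by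
            rw [← ofReal_integral_eq_lintegral_ofReal]
            · exact (integrableOn_Ioi_rpow_of_lt (by norm_num) hs0').const_mul _
            · filter_upwards [self_mem_ae_restrict measurableSet_Ioi] with x hx
              have : 0 < x := hs0'.trans hx
              show (0 : ℝ) ≤ _
              positivity
        _ = ENNReal.ofReal ((256 * m ^ 2 / 3) * s₀ ^ (-3 : ℝ)) := by
            rw [integral_const_mul, integral_Ioi_rpow_of_lt (by norm_num) hs0']
            congr 1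
            rw [show (-4 : ℝ) + 1 = -3 by norm_num]
            ring
  rw [ENNReal.ofReal_add (by positivity) (by positivity)]
  exact add_le_add e1 e2

theorem tail_le {m s : ℝ} (hm : 0 ≤ m) (hs : 4 * √m ≤ s) :
    (256 * m ^ 2 / 3) * s ^ (-3 : ℝ) ≤ (4 / 3) * √m := by
  rcases hm.eq_or_lt with h | h
  · rw [← h]; simp
  · have hq : 0 < √m := Real.sqrt_pos.2 h
    have hs0 : 0 < s := by linarith
    have h1 : s ^ (-3 : ℝ) ≤ (4 * √m) ^ (-3 : ℝ) :=
      Real.rpow_le_rpow_of_nonpos (by positivity) hs (by norm_num)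
    have h2 : (256 * m ^ 2 / 3) * (4 * √m) ^ (-3 : ℝ) = (4 / 3) * √m := by
      rw [Real.rpow_neg (by positivity), show (3 : ℝ) = ((3 : ℕ) : ℝ) by norm_num,
        Real.rpow_natCast]
      have h3 : m = √m ^ 2 := (Real.sq_sqrt hm).symm
      have h4 : m ^ 2 = √m ^ 4 := by
        calc m ^ 2 = (√m ^ 2) ^ 2 := by rw [← h3]
          _ = √m ^ 4 := by ring
      rw [h4]
      field_simp
      norm_num
    calc (256 * m ^ 2 / 3) * s ^ (-3 : ℝ) ≤ (256 * m ^ 2 / 3) * (4 * √m) ^ (-3 : ℝ) := by gcongr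
      _ = _ := h2

/-- The integral bound with the natural threshold. -/
theorem int_bound' {F : ℝ → ℝ≥0∞} {a b m : ℝ} (hm : 0 ≤ m)
    (h1 : ∀ x ∈ Icc a b, F x ≤ 1)
    (h2 : ∀ x ∈ Icc a b, 0 < x - a → F x ≤ ENNReal.ofReal ((16 * m / (x - a) ^ 2) ^ 2)) :
    ∫⁻ x in Icc a b, F x ≤ ENNReal.ofReal (6 * √m) := by
  have h3 := int_bound (s₁ := 0) (lam := 1) hm one_pos (a := a) (b := b) (F := F)
    (by simpa using h1) (fun x hx _ hx' => h2 x hx hx')
  refine h3.trans (ENNReal.ofReal_le_ofReal ?_)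
  have h4 : max 0 (4 * √m) = 4 * √m := max_eq_right (by positivity)
  rw [h4, one_mul]
  have h5 := tail_le hm (le_refl (4 * √m))
  have : 0 ≤ √m := Real.sqrt_nonneg _
  linarith

namespace Skel

variable (S : Skel X) [LocallyConnectedSpace X] [ConnectedSpace X]

/-- The weight bound from one neck. -/
theorem w_le_of_Lh {y : X} {t : ℝ} (ht : 0 ≤ t) {l σ : ℝ} (hl : 0 ≤ l) (hσ : 0 < σ)
    (hL : S.Lh t y ≤ ENNReal.ofReal l) (hv : ENNReal.ofReal (t + σ) ≤ S.v y) :
    S.w y ≤ ENNReal.ofReal (16 * (l / σ) ^ 2) := by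
  have key : ∀ ε : ℝ, 0 < ε → S.w y ≤ ENNReal.ofReal (16 * (l / σ + ε) ^ 2) := by
    intro ε hε
    have hk : 0 ≤ l / σ + ε := by positivity
    have hdeep : S.deep (l / σ + ε).toNNReal y := by
      refine ⟨t, ht, lt_of_lt_of_le ?_ hv, ?_⟩
      · exact (ENNReal.ofReal_lt_ofReal_iff (by linarith)).2 (by linarith)
      · have h1 : ENNReal.ofReal σ ≤ S.v y - ENNReal.ofReal t := by
          rw [ENNReal.le_sub_iff_add_le_left ENNReal.ofReal_ne_top
            ((ENNReal.ofReal_le_ofReal (by linarith)).trans hv), ← ENNReal.ofReal_add ht hσ.le]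
          exact hv
        calc S.Lh t y ≤ ENNReal.ofReal l := hL
          _ < ENNReal.ofReal ((l / σ + ε) * σ) := by
            refine (ENNReal.ofReal_lt_ofReal_iff (by positivity)).2 ?_
            have : l / σ * σ = l := by field_simp
            nlinarith
          _ = ENNReal.ofReal (l / σ + ε) * ENNReal.ofReal σ := ENNReal.ofReal_mul hk
          _ ≤ _ := by
            rw [ENNReal.ofReal]
            gcongr
    refine (S.w_le_of_deep hdeep).trans (le_of_eq ?_)
    rw [ENNReal.ofReal_mul (by norm_num), ENNReal.ofReal_pow hk]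
    congr 1
    simp
  have hlim : Tendsto (fun ε : ℝ => ENNReal.ofReal (16 * (l / σ + ε) ^ 2)) (𝓝[>] 0)
      (𝓝 (ENNReal.ofReal (16 * (l / σ + 0) ^ 2))) := by
    refine (ENNReal.continuous_ofReal.tendsto _).comp ?_
    have : Continuous fun ε : ℝ => 16 * (l / σ + ε) ^ 2 := by fun_prop
    exact (this.tendsto 0).mono_left nhdsWithin_le_nhds
  rw [add_zero] at hlim
  exact ge_of_tendsto hlim (eventually_nhdsWithin_of_forall fun ε hε => key ε hε)

/-- Geodesics from the skeleton to `z`. -/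
structure Geod (z : X) (c : ℝ → X) : Prop where
  lip : LipschitzWith 1 c
  inK : ∀ s, c s ∈ S.cc z
  zero : c 0 ∈ S.E
  top : c (S.v z).toReal = z
  val : ∀ τ ∈ Icc 0 (S.v z).toReal, S.v (c τ) = ENNReal.ofReal τ

theorem exists_Geod {z : X} (hz : z ∉ S.E) (hv : S.v z ≠ ∞) : ∃ c, S.Geod z c := by
  obtain ⟨c, h1, h2, h3, h4, h5⟩ := S.exists_geod hz hv
  exact ⟨c, h1, h2, h3, h4, h5⟩

variable {S}

theorem Geod.mem_hair {z : X} {c : ℝ → X} (h : S.Geod z c) {t : ℝ} (ht : 0 ≤ t) {τ : ℝ}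
    (hτ : τ ∈ Ioc t (S.v z).toReal) : c τ ∈ S.hair t z :=
  S.geod_mem_hair h.lip h.top h.val ht hτ

theorem Geod.mem_frontier {z : X} {c : ℝ → X} (h : S.Geod z c) {t : ℝ} (ht : 0 ≤ t)
    (hV : t < (S.v z).toReal) : c t ∈ frontier (S.hair t z) :=
  S.geod_mem_frontier h.lip h.top h.val ht hV

variable (S)

theorem exists_Lh_le {z : X} (hz : z ∉ S.E) {a b : ℝ} (ha : 0 ≤ a) (hab : a < b)
    (hb : ENNReal.ofReal b ≤ S.v z) :
    ∃ t ∈ Ioo a b, S.Lh t z ≤ ENNReal.ofReal ((μH[2] (S.hair a z)).toReal / (b - a)) := by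
  obtain ⟨h, hm, hle, hint⟩ := S.neck_coarea hz ha hb
  have hfin : μH[2] (S.hair a z) ≠ ∞ :=
    ((measure_mono ((S.hair_sub_cell a z).trans (S.cell_sub_cc z))).trans_lt
      (S.compact_lt_top (S.cc_compact z hz))).ne
  obtain ⟨t, ht, htle⟩ := exists_le_setLAverage (μ := volume) (s := Ioo a b) (f := h)
    (by simpa using hab) (by simp) hm.aemeasurable
  refine ⟨t, ht, (hle t ht).trans (htle.trans ?_)⟩
  rw [setLAverage_eq, Real.volume_Ioo, ENNReal.ofReal_div_of_pos (by linarith),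
    ENNReal.ofReal_toReal hfin]
  gcongr
  exact (setLIntegral_le_lintegral _ _).trans hint

/-- The region swept by the curve `c|[a,b]` and its `ρ`-neighbourhood in the closed cell. -/
def region (z : X) (c : ℝ → X) (a b ρ : ℝ) : Set X :=
  {y | y ∈ S.cc z ∧ ∃ s ∈ Icc a b, dl (S.cc z) (c s) y ≤ ENNReal.ofReal ρ}

theorem region_sub {z : X} {c : ℝ → X} {a b ρ : ℝ} : S.region z c a b ρ ⊆ S.cc z := fun _ h => h.1

theorem region_closed {z : X} (hz : z ∉ S.E) {c : ℝ → X} (hc : Continuous c) {a b ρ : ℝ}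
    (hρ : 0 ≤ ρ) : IsClosed (S.region z c a b ρ) := by
  have hcc := S.cc_compact z hz
  refine IsSeqClosed.isClosed fun y y₀ hy hlim => ?_
  have h1 : ∀ n, ∃ s ∈ Icc a b, LC (S.cc z) (c s) (y n) ρ := fun n => by
    obtain ⟨s, hs, h⟩ := (hy n).2
    exact ⟨s, hs, LC_of_dl_le hcc hρ h⟩
  choose s hs hLC using h1
  obtain ⟨s₀, hs₀, φ, hφ, hlim2⟩ := isCompact_Icc.tendsto_subseq hs
  have h2 := LC.limit hcc (fun n => hLC (φ n)) ((hc.tendsto s₀).comp hlim2)
    (hlim.comp hφ.tendsto_atTop) tendsto_const_nhds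
  exact ⟨h2.right_mem, s₀, hs₀, h2.dl_le⟩

theorem region_lt_top {z : X} (hz : z ∉ S.E) {c : ℝ → X} {a b ρ : ℝ} :
    μH[2] (S.region z c a b ρ) ≠ ∞ :=
  ((measure_mono S.region_sub).trans_lt (S.compact_lt_top (S.cc_compact z hz))).ne

theorem exists_min_Lh_le {z : X} (hz : z ∉ S.E) {c : ℝ → X} (hc : S.Geod z c) {a b a' b' : ℝ}
    (ha : 0 ≤ a) (haa : a ≤ a') (hab : a' < b') (hbb : b' ≤ b) (hb : b ≤ (S.v z).toReal) {ρ : ℝ}
    (hρ : 0 < ρ) : ∃ t ∈ Ioo a' b', min (S.Lh t z) (ENNReal.ofReal ρ) ≤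
      ENNReal.ofReal ((μH[2] (S.region z c a b ρ)).toReal / (b' - a')) := by
  obtain ⟨h, hm, hle, hint⟩ := S.neck_coarea_local hz hc.lip hc.top hc.val ha hb hρ
  have hfin := S.region_lt_top hz (c := c) (a := a) (b := b) (ρ := ρ)
  obtain ⟨t, ht, htle⟩ := exists_le_setLAverage (μ := volume) (s := Ioo a' b') (f := h)
    (by simpa using hab) (by simp) hm.aemeasurable
  refine ⟨t, ht, (hle t ⟨haa.trans_lt ht.1, ht.2.trans_le hbb⟩).trans (htle.trans ?_)⟩
  rw [setLAverage_eq, Real.volume_Ioo, ENNReal.ofReal_div_of_pos (by linarith),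
    ENNReal.ofReal_toReal hfin]
  gcongr
  exact (setLIntegral_le_lintegral _ _).trans hint

/-- Weight of geodesic points from a neck. -/
theorem w_geod_le {z : X} {c : ℝ → X} (hc : S.Geod z c) {t τ l σ : ℝ} (ht : 0 ≤ t)
    (hl : 0 ≤ l) (hσ : 0 < σ) (hτ : t + σ ≤ τ) (hτV : τ ≤ (S.v z).toReal)
    (hL : S.Lh t z ≤ ENNReal.ofReal l) : S.w (c τ) ≤ ENNReal.ofReal (16 * (l / σ) ^ 2) := by
  have h1 := hc.mem_hair ht (τ := τ) ⟨by linarith, hτV⟩
  refine S.w_le_of_Lh ht hl hσ (by rwa [S.Lh_eq h1]) ?_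
  rw [hc.val τ ⟨by linarith, hτV⟩]
  exact ENNReal.ofReal_le_ofReal hτ

/-- The weighted length of the top part of a geodesic is controlled by the area of the hair. -/
theorem depth_le {z : X} (hz : z ∉ S.E) {c : ℝ → X} (hc : S.Geod z c) {a : ℝ} (ha : 0 ≤ a) :
    ∫⁻ τ in Icc a (S.v z).toReal, S.w (c τ) ≤
      ENNReal.ofReal (6 * √(μH[2] (S.hair a z)).toReal) := by
  refine int_bound' ENNReal.toReal_nonneg (fun x _ => S.w_le_one _) fun x hx hxa => ?_
  set m := (μH[2] (S.hair a z)).toReal with hm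
  have hm0 : 0 ≤ m := ENNReal.toReal_nonneg
  set σ := x - a with hσ
  obtain ⟨t, ht, hL⟩ := S.exists_Lh_le hz ha (b := a + σ / 2) (by linarith) (by
    have hV : 0 ≤ (S.v z).toReal := ENNReal.toReal_nonneg
    have h2 := hc.val _ ⟨hV, le_rfl⟩
    rw [hc.top] at h2
    rw [h2]
    exact ENNReal.ofReal_le_ofReal (by linarith [hx.2]))
  have h3 := S.w_geod_le hc (t := t) (τ := x) (l := m / (a + σ / 2 - a)) (σ := σ / 2)
    (by linarith [ht.1]) (by rw [add_sub_cancel_left]; positivity) (by linarith)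
    (by linarith [ht.2]) hx.2 hL
  refine h3.trans (ENNReal.ofReal_le_ofReal (le_of_eq ?_))
  rw [add_sub_cancel_left]
  field_simp
  ring

/-- Area from weighted depth. -/
theorem area_ge {z : X} (hz : z ∉ S.E) {c : ℝ → X} (hc : S.Geod z c) {a s : ℝ} (ha : 0 ≤ a)
    (hs : 0 < s) (hint : ENNReal.ofReal (s / 4) ≤ ∫⁻ τ in Icc a (S.v z).toReal, S.w (c τ)) :
    ENNReal.ofReal (s ^ 2 / 576) ≤ μH[2] (S.region z c a (S.v z).toReal (s / 4)) := by
  set m := (μH[2] (S.region z c a (S.v z).toReal (s / 4))).toReal with hm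
  have hm0 : 0 ≤ m := ENNReal.toReal_nonneg
  have hfin := S.region_lt_top hz (c := c) (a := a) (b := (S.v z).toReal) (ρ := s / 4)
  rw [← ENNReal.ofReal_toReal hfin, ← hm]
  refine ENNReal.ofReal_le_ofReal ?_
  have hb := int_bound (F := fun τ => S.w (c τ)) (a := a) (b := (S.v z).toReal) (s₁ := 8 * m / s)
    (lam := 1) hm0 one_pos (fun x _ => by simpa using S.w_le_one _) (fun x hx hx1 hxa => by
      set σ := x - a with hσ
      obtain ⟨t, ht, hL⟩ := S.exists_min_Lh_le hz hc (a := a) (b := (S.v z).toReal) (a' := a)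
        (b' := a + σ / 2) ha le_rfl (by linarith) (by linarith [hx.2]) le_rfl
        (ρ := s / 4) (by positivity)
      rw [← hm, add_sub_cancel_left] at hL
      have h4 : m / (σ / 2) < s / 4 := by
        rw [div_lt_iff₀ hs] at hx1
        rw [div_lt_iff₀ (by linarith)]
        nlinarith
      have h5 : S.Lh t z ≤ ENNReal.ofReal (m / (σ / 2)) := by
        rcases min_le_iff.1 hL with h | h
        · exact h
        · exact absurd ((ENNReal.ofReal_le_ofReal_iff (by positivity)).1 h) (not_le.2 h4)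
      have h3 := S.w_geod_le hc (t := t) (τ := x) (l := m / (σ / 2)) (σ := σ / 2)
        (by linarith [ht.1]) (by positivity) (by linarith) (by linarith [ht.2]) hx.2 h5
      refine h3.trans (ENNReal.ofReal_le_ofReal (le_of_eq ?_))
      field_simp
      ring)
  have h6 := hint.trans hb
  rw [one_mul] at h6
  set q := √m with hq
  have hq0 : 0 ≤ q := Real.sqrt_nonneg _
  have hqm : m = q ^ 2 := (Real.sq_sqrt hm0).symm
  have h7 := tail_le hm0 (le_max_right (8 * m / s) (4 * √m))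
  have h8 : s / 4 ≤ max (8 * m / s) (4 * q) + 4 / 3 * q := by
    have h9 := (ENNReal.ofReal_le_ofReal_iff (by positivity)).1 h6
    exact h9.trans (add_le_add le_rfl h7)
  by_contra hcon
  push Not at hcon
  have h10 : q < s / 24 := by
    by_contra h
    push Not at h
    have : (s / 24) ^ 2 ≤ q ^ 2 := by gcongr
    nlinarith
  have h11 : 8 * m / s ≤ 4 * q := by
    rw [div_le_iff₀ hs, hqm]
    nlinarith
  rw [max_eq_right h11] at h8
  linarith

end Skel

end Pool.Agent.QCS
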