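import Pool.Agent.Lib.MP_811d89_an.Unic

/-!
# Topological disks and half disks
-/

open Set Topology Filter

namespace Pool.Agent.QCS

/-- The topological properties of small coordinate patches of a surface which are used. -/
structure Disk (Z : Type*) [TopologicalSpace Z] : Prop where
  conn : IsPreconnected (univ : Set Z)
  uni : ∀ A : Set Z, IsPreconnected A → IsPreconnected Aᶜ → IsPreconnected (frontier A)
  shell : ∀ K : Set Z, IsCompact K → ∃ K', IsCompact K' ∧ K ⊆ K' ∧ IsPreconnected K'ᶜ ∧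
    K'ᶜ.Nonempty

theorem Disk.of_homeo {Z Z' : Type*} [TopologicalSpace Z] [TopologicalSpace Z'] (h : Z ≃ₜ Z')
    (hd : Disk Z') : Disk Z := by
  refine ⟨?_, fun A hA hA' => ?_, fun K hK => ?_⟩
  · have := (hd.conn.image h.symm h.symm.continuous.continuousOn)
    rwa [image_univ, h.symm.surjective.range_eq] at this
  · have h1 : IsPreconnected (h '' A) := hA.image h h.continuous.continuousOn
    have h2 : IsPreconnected (h '' A)ᶜ := by
      rw [← h.image_compl]; exact hA'.image h h.continuous.continuousOn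
    have h3 := (hd.uni _ h1 h2).image h.symm h.symm.continuous.continuousOn
    rw [← h.image_frontier, ← image_comp] at h3
    simpa using h3
  · obtain ⟨K', h1, h2, h3, h4⟩ := hd.shell (h '' K) (hK.image h.continuous)
    refine ⟨h.symm '' K', h1.image h.symm.continuous, ?_, ?_, ?_⟩
    · intro x hx
      exact ⟨h x, h2 ⟨x, hx, rfl⟩, h.symm_apply_apply x⟩
    · rw [← h.symm.image_compl]; exact h3.image h.symm h.symm.continuous.continuousOn
    · rw [← h.symm.image_compl]; exact h4.image _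

/-- The complement of a compact rectangle in a larger rectangle is connected. -/
theorem isPreconnected_rect_diff {I J : Set ℝ} (hI : Convex ℝ I) (hJ : Convex ℝ J)
    {a b c d : ℝ} (hb : ∃ y ∈ I, b < y) (hc : ∃ y ∈ J, y < c) (hd : ∃ y ∈ J, d < y) :
    IsPreconnected ((I ×ˢ J) \ (Icc a b ×ˢ Icc c d)) := by
  obtain ⟨b', hb', hbb⟩ := hb
  obtain ⟨c', hc', hcc⟩ := hc
  obtain ⟨d', hd', hdd⟩ := hd
  set R1 : Set (ℝ × ℝ) := (I ∩ Ioi b) ×ˢ J with hR1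
  set R2 : Set (ℝ × ℝ) := I ×ˢ (J ∩ Iio c) with hR2
  set R3 : Set (ℝ × ℝ) := I ×ˢ (J ∩ Ioi d) with hR3
  set R4 : Set (ℝ × ℝ) := (I ∩ Iio a) ×ˢ J with hR4
  have h1 : IsPreconnected R1 := ((hI.inter (convex_Ioi b)).prod hJ).isPreconnected
  have h2 : IsPreconnected R2 := (hI.prod (hJ.inter (convex_Iio c))).isPreconnected
  have h3 : IsPreconnected R3 := (hI.prod (hJ.inter (convex_Ioi d))).isPreconnected
  have h4 : IsPreconnected R4 := ((hI.inter (convex_Iio a)).prod hJ).isPreconnected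
  have h12 : IsPreconnected (R1 ∪ R2) :=
    IsPreconnected.union (b', c') ⟨⟨hb', hbb⟩, hc'⟩ ⟨hb', hc', hcc⟩ h1 h2
  have h123 : IsPreconnected (R1 ∪ R2 ∪ R3) :=
    IsPreconnected.union (b', d') (Or.inl ⟨⟨hb', hbb⟩, hd'⟩) ⟨hb', hd', hdd⟩ h12 h3
  have h1234 : IsPreconnected (R1 ∪ R2 ∪ R3 ∪ R4) := by
    rcases (I ∩ Iio a).eq_empty_or_nonempty with h | ⟨a', ha', haa⟩
    · rw [hR4, h, empty_prod, union_empty]; exact h123
    · exact IsPreconnected.union (a', c') (Or.inl (Or.inr ⟨ha', hc', hcc⟩)) ⟨⟨ha', haa⟩, hc'⟩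
        h123 h4
  have heq : (I ×ˢ J) \ (Icc a b ×ˢ Icc c d) = R1 ∪ R2 ∪ R3 ∪ R4 := by
    ext ⟨x, y⟩
    simp only [hR1, hR2, hR3, hR4, Set.mem_sdiff, mem_prod, mem_union, mem_inter_iff, mem_Ioi, mem_Iio,
      mem_Icc]
    constructor
    · rintro ⟨⟨hx, hy⟩, hn⟩
      by_cases e1 : b < x
      · exact Or.inl (Or.inl (Or.inl ⟨⟨hx, e1⟩, hy⟩))
      · by_cases e2 : y < c
        · exact Or.inl (Or.inl (Or.inr ⟨hx, hy, e2⟩))
        · by_cases e3 : d < y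
          · exact Or.inl (Or.inr ⟨hx, hy, e3⟩)
          · by_cases e4 : x < a
            · exact Or.inr ⟨⟨hx, e4⟩, hy⟩
            · exact absurd ⟨⟨not_lt.1 e4, not_lt.1 e1⟩, not_lt.1 e2, not_lt.1 e3⟩ hn
    · rintro (((⟨⟨hx, e⟩, hy⟩ | ⟨hx, hy, e⟩) | ⟨hx, hy, e⟩) | ⟨⟨hx, e⟩, hy⟩)
      · exact ⟨⟨hx, hy⟩, fun h => absurd h.1.2 (not_le.2 e)⟩
      · exact ⟨⟨hx, hy⟩, fun h => absurd h.2.1 (not_le.2 e)⟩
      · exact ⟨⟨hx, hy⟩, fun h => absurd h.2.2 (not_le.2 e)⟩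
      · exact ⟨⟨hx, hy⟩, fun h => absurd h.1.1 (not_le.2 e)⟩
  rw [heq]; exact h1234

theorem disk_rect {I J : Set ℝ} (hI : Convex ℝ I) (hJ : Convex ℝ J) (hne : (I ×ˢ J).Nonempty)
    (hI1 : ∀ x ∈ I, ∃ y ∈ I, x < y) (hJ1 : ∀ x ∈ J, ∃ y ∈ J, x < y)
    (hJ2 : ∀ x ∈ J, ∃ y ∈ J, y < x) : Disk ↥(I ×ˢ J) := by
  have hC : Convex ℝ (I ×ˢ J) := hI.prod hJ
  have : ContractibleSpace ↥(I ×ˢ J) := hC.contractibleSpace hne
  have : LocallyPathConnectedSpace ↥(I ×ˢ J) := hC.locallyPathConnectedSpace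
  refine ⟨isPreconnected_univ, fun A hA hA' => isPreconnected_frontier hA hA', fun K hK => ?_⟩
  obtain ⟨z₀, hz₀⟩ := hne
  set K₁ : Set ↥(I ×ˢ J) := insert ⟨z₀, hz₀⟩ K with hK₁
  have hK₁c : IsCompact K₁ := hK.insert _
  have hK₁n : K₁.Nonempty := ⟨_, mem_insert _ _⟩
  have hf1 : Continuous fun z : ↥(I ×ˢ J) => z.1.1 := continuous_fst.comp continuous_subtype_val
  have hf2 : Continuous fun z : ↥(I ×ˢ J) => z.1.2 := continuous_snd.comp continuous_subtype_val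
  obtain ⟨za, -, hza⟩ := hK₁c.exists_isMinOn hK₁n hf1.continuousOn
  obtain ⟨zb, -, hzb⟩ := hK₁c.exists_isMaxOn hK₁n hf1.continuousOn
  obtain ⟨zc, -, hzc⟩ := hK₁c.exists_isMinOn hK₁n hf2.continuousOn
  obtain ⟨zd, -, hzd⟩ := hK₁c.exists_isMaxOn hK₁n hf2.continuousOn
  set Q : Set (ℝ × ℝ) := Icc za.1.1 zb.1.1 ×ˢ Icc zc.1.2 zd.1.2 with hQ
  have hQc : IsCompact Q := isCompact_Icc.prod isCompact_Icc
  have hQsub : Q ⊆ I ×ˢ J := prod_mono (hI.ordConnected.out za.2.1 zb.2.1)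
    (hJ.ordConnected.out zc.2.2 zd.2.2)
  have himg : (Subtype.val '' ((Subtype.val : ↥(I ×ˢ J) → ℝ × ℝ) ⁻¹' Q)ᶜ) = (I ×ˢ J) \ Q := by
    ext z; constructor
    · rintro ⟨w, hw, rfl⟩; exact ⟨w.2, hw⟩
    · rintro ⟨h1, h2⟩; exact ⟨⟨z, h1⟩, h2, rfl⟩
  refine ⟨Subtype.val ⁻¹' Q, ?_, ?_, ?_, ?_⟩
  · exact Topology.IsInducing.subtypeVal.isCompact_preimage' hQc (by
      rw [Subtype.range_coe_subtype]; exact hQsub)
  · intro z hz
    have hz' : z ∈ K₁ := mem_insert_of_mem _ hz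
    exact ⟨⟨hza hz', hzb hz'⟩, ⟨hzc hz', hzd hz'⟩⟩
  · rw [← Topology.IsInducing.subtypeVal.isPreconnected_image, himg]
    exact isPreconnected_rect_diff hI hJ (hI1 _ zb.2.1) (hJ2 _ zc.2.2) (hJ1 _ zd.2.2)
  · obtain ⟨y, hy, hy'⟩ := hI1 _ zb.2.1
    refine ⟨⟨(y, z₀.2), hy, hz₀.2⟩, fun h => ?_⟩
    exact absurd h.1.2 (not_le.2 hy')


/-- Coordinates on the half plane. -/
def halfCoord (z : EuclideanHalfSpace 2) : ℝ × ℝ := (z.1 0, z.1 1)

theorem isEmbedding_halfCoord : Topology.IsEmbedding halfCoord := by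
  have hg : Continuous fun q : ℝ × ℝ =>
      (⟨!₂[max q.1 0, q.2], by simp⟩ : EuclideanHalfSpace 2) := by
    refine Continuous.subtype_mk ?_ _
    fun_prop
  have hc : Continuous halfCoord := by
    unfold halfCoord
    fun_prop
  refine Function.LeftInverse.isEmbedding (f := fun q : ℝ × ℝ =>
      (⟨!₂[max q.1 0, q.2], by simp⟩ : EuclideanHalfSpace 2)) (fun z => ?_) hg hc
  apply Subtype.ext
  ext i
  fin_cases i
  · exact max_eq_left z.2
  · rfl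

theorem range_halfCoord : range halfCoord = Ici 0 ×ˢ univ := by
  ext ⟨a, b⟩
  constructor
  · rintro ⟨z, hz⟩
    have : z.1 0 = a := congrArg Prod.fst hz
    exact ⟨this ▸ z.2, mem_univ _⟩
  · rintro ⟨ha, -⟩
    exact ⟨⟨!₂[a, b], ha⟩, rfl⟩

theorem exists_disk_half (z : EuclideanHalfSpace 2) {O : Set (EuclideanHalfSpace 2)}
    (hO : IsOpen O) (hz : z ∈ O) : ∃ R, IsOpen R ∧ z ∈ R ∧ R ⊆ O ∧ Disk ↥R := by
  have h1 : O ∈ 𝓝 z := hO.mem_nhds hz
  rw [isEmbedding_halfCoord.isInducing.nhds_eq_comap] at h1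
  obtain ⟨s, hs, hsub⟩ := (Metric.nhds_basis_ball.comap _).mem_iff.1 h1
  have hball : Metric.ball (halfCoord z) s = Ioo (z.1 0 - s) (z.1 0 + s) ×ˢ
      Ioo (z.1 1 - s) (z.1 1 + s) := by
    rw [← ball_prod_same, Real.ball_eq_Ioo, Real.ball_eq_Ioo]
    rfl
  refine ⟨halfCoord ⁻¹' Metric.ball (halfCoord z) s,
    Metric.isOpen_ball.preimage isEmbedding_halfCoord.continuous, Metric.mem_ball_self hs, hsub, ?_⟩
  have himg : halfCoord '' (halfCoord ⁻¹' Metric.ball (halfCoord z) s) =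
      (Ici 0 ∩ Ioo (z.1 0 - s) (z.1 0 + s)) ×ˢ Ioo (z.1 1 - s) (z.1 1 + s) := by
    rw [image_preimage_eq_inter_range, hball, range_halfCoord, prod_inter_prod, inter_univ,
      inter_comm (Ioo _ _) (Ici 0)]
  refine Disk.of_homeo (isEmbedding_halfCoord.homeomorphImage _) ?_
  rw [himg]
  refine disk_rect ((convex_Ici 0).inter (convex_Ioo _ _)) (convex_Ioo _ _) ?_ ?_ ?_ ?_
  · exact ⟨(z.1 0, z.1 1), ⟨z.2, by linarith, by linarith⟩, by linarith, by linarith⟩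
  · rintro x ⟨hx, hx1, hx2⟩
    obtain ⟨y, hy1, hy2⟩ := exists_between hx2
    exact ⟨y, ⟨le_trans hx hy1.le, hx1.trans hy1, hy2⟩, hy1⟩
  · rintro x ⟨hx1, hx2⟩
    obtain ⟨y, hy1, hy2⟩ := exists_between hx2
    exact ⟨y, ⟨hx1.trans hy1, hy2⟩, hy1⟩
  · rintro x ⟨hx1, hx2⟩
    obtain ⟨y, hy1, hy2⟩ := exists_between hx1
    exact ⟨y, ⟨hy1, hy2.trans hx2⟩, hy2⟩

/-- Small coordinate patches on a surface. -/
theorem exists_disk {X : Type*} [TopologicalSpace X] [ChartedSpace (EuclideanHalfSpace 2) X]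
    (x : X) {O : Set X} (hO : IsOpen O) (hx : x ∈ O) :
    ∃ N, IsOpen N ∧ x ∈ N ∧ N ⊆ O ∧ Disk ↥N := by
  set e := chartAt (EuclideanHalfSpace 2) x with he
  have hxs : x ∈ e.source := mem_chart_source _ x
  have h1 : IsOpen (e.target ∩ e.symm ⁻¹' O) := e.symm.isOpen_inter_preimage hO
  have h2 : e x ∈ e.target ∩ e.symm ⁻¹' O := ⟨e.map_source hxs, by
    rw [mem_preimage, e.left_inv hxs]; exact hx⟩
  obtain ⟨R, hR, hzR, hRO, hRd⟩ := exists_disk_half _ h1 h2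
  have hRt : R ⊆ e.target := hRO.trans inter_subset_left
  refine ⟨e.symm '' R, e.symm.isOpen_image_of_subset_source hR hRt, ⟨e x, hzR, e.left_inv hxs⟩, ?_,
    ?_⟩
  · rintro _ ⟨w, hw, rfl⟩
    exact (hRO hw).2
  · exact Disk.of_homeo (e.symm.homeomorphOfImageSubsetSource hRt rfl).symm hRd

end Pool.Agent.QCS
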