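import Mathlib

/-!
# General lemmas on connected components
-/

open Set Topology

namespace Pool.Agent.QCS

set_option linter.unusedSectionVars false

variable {X : Type*} [TopologicalSpace X]

theorem meets_frontier {s U : Set X} (hs : IsPreconnected s) (h₁ : (s ∩ U).Nonempty)
    (h₂ : (s ∩ Uᶜ).Nonempty) : (s ∩ frontier U).Nonempty := by
  by_contra hcon
  have hsub : s ⊆ interior U ∪ (closure U)ᶜ := by
    intro x hx
    by_cases h : x ∈ closure U
    · refine Or.inl ?_
      by_contra hi
      exact hcon ⟨x, hx, h, hi⟩
    · exact Or.inr h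
  obtain ⟨x, hxs, hxU⟩ := h₁
  have hxi : x ∈ interior U := by
    rcases hsub hxs with h | h
    · exact h
    · exact absurd (subset_closure hxU) h
  have h3 := hs.subset_left_of_subset_union isOpen_interior isClosed_closure.isOpen_compl
    (disjoint_compl_right.mono_left (interior_subset.trans subset_closure)) hsub ⟨x, hxs, hxi⟩
  obtain ⟨y, hys, hyU⟩ := h₂
  exact hyU (interior_subset (h3 hys))

/-- A preconnected set missing the frontier of an open set is inside it or disjoint from it. -/
theorem subset_or_disjoint_of_frontier {s U : Set X} (hs : IsPreconnected s)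
    (h : Disjoint s (frontier U)) : s ⊆ U ∨ Disjoint s U := by
  by_contra hcon
  push Not at hcon
  obtain ⟨h1, h2⟩ := hcon
  obtain ⟨x, hx, hxU⟩ := not_subset.1 h1
  obtain ⟨y, hy, hyU⟩ := not_disjoint_iff.1 h2
  obtain ⟨z, hz, hzU⟩ := meets_frontier hs ⟨y, hy, hyU⟩ ⟨x, hx, hxU⟩
  exact disjoint_left.1 h hz hzU

theorem isClosed_component {F : Set X} (hF : IsClosed F) (x : X) :
    IsClosed (connectedComponentIn F x) := by
  by_cases hx : x ∈ F
  · have h1 : closure (connectedComponentIn F x) ⊆ connectedComponentIn F x := by
      refine (isPreconnected_connectedComponentIn.closure).subset_connectedComponentIn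
        (subset_closure (mem_connectedComponentIn hx)) ?_
      exact (closure_mono (connectedComponentIn_subset F x)).trans hF.closure_subset
    exact isClosed_of_closure_subset h1
  · rw [connectedComponentIn_eq_empty hx]; exact isClosed_empty

variable [LocallyConnectedSpace X]

theorem exists_conn_nhd {U : Set X} (hU : IsOpen U) {x : X} (hx : x ∈ U) :
    ∃ N, IsOpen N ∧ IsPreconnected N ∧ x ∈ N ∧ N ⊆ U :=
  ⟨connectedComponentIn U x, hU.connectedComponentIn, isPreconnected_connectedComponentIn,
    mem_connectedComponentIn hx, connectedComponentIn_subset U x⟩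

theorem mem_component_of_closure {U : Set X} (hU : IsOpen U) {x y : X}
    (hy : y ∈ closure (connectedComponentIn U x)) (hyU : y ∈ U) :
    y ∈ connectedComponentIn U x := by
  obtain ⟨N, hN, hNc, hyN, hNU⟩ := exists_conn_nhd hU hyU
  obtain ⟨z, hzN, hz⟩ := mem_closure_iff.1 hy N hN hyN
  rw [connectedComponentIn_eq hz]
  exact hNc.subset_connectedComponentIn hzN hNU hyN

theorem frontier_component_disjoint {U : Set X} (hU : IsOpen U) {x y : X}
    (hy : y ∈ frontier (connectedComponentIn U x)) : y ∉ U := by
  intro hyU
  have h1 := mem_component_of_closure hU (frontier_subset_closure hy) hyU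
  exact hy.2 (by rw [hU.connectedComponentIn.interior_eq]; exact h1)

/-- The frontier of a component of the complement of an open set `A` is in the frontier of `A`. -/
theorem frontier_compl_component {A : Set X} (hA : IsOpen A) (e : X) :
    frontier (connectedComponentIn Aᶜ e) ⊆ frontier A := by
  intro y hy
  have hcl := isClosed_component hA.isClosed_compl e
  have hyO : y ∈ connectedComponentIn Aᶜ e := hcl.frontier_subset hy
  have hyA : y ∉ A := connectedComponentIn_subset _ _ hyO
  refine ⟨?_, fun h => hyA (interior_subset h)⟩
  by_contra hcl2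
  obtain ⟨N, hN, hNc, hyN, hNU⟩ := exists_conn_nhd isClosed_closure.isOpen_compl hcl2
  have h1 : N ⊆ connectedComponentIn Aᶜ e := by
    rw [connectedComponentIn_eq hyO]
    exact hNc.subset_connectedComponentIn hyN (hNU.trans (compl_subset_compl.2 subset_closure))
  exact hy.2 (mem_interior.2 ⟨N, h1, hN, hyN⟩)

variable [ConnectedSpace X]

/-- If `A` is a nonempty open connected set and `O` a component of its complement then `Oᶜ` is
connected. -/
theorem isPreconnected_compl_component {A : Set X} (hA : IsOpen A) (hAc : IsConnected A)
    (e : X) : IsPreconnected (connectedComponentIn Aᶜ e)ᶜ := by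
  set O := connectedComponentIn Aᶜ e with hO
  obtain ⟨a, ha⟩ := hAc.nonempty
  have hAO : A ⊆ Oᶜ := fun x hx hxO => connectedComponentIn_subset _ _ hxO hx
  refine isPreconnected_of_forall a fun y hy => ?_
  by_cases hyA : y ∈ A
  · exact ⟨A, hAO, ha, hyA, hAc.isPreconnected⟩
  · set D := connectedComponentIn Aᶜ y with hD
    have hyD : y ∈ D := mem_connectedComponentIn hyA
    have hDO : D ⊆ Oᶜ := by
      intro z hz hzO
      have h1 : D = connectedComponentIn Aᶜ z := connectedComponentIn_eq hz
      have h2 : O = connectedComponentIn Aᶜ z := connectedComponentIn_eq hzO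
      exact hy (h2 ▸ h1 ▸ hyD)
    have hmeet : (D ∩ closure A).Nonempty := by
      by_contra hcon
      have hDsub : D ⊆ (closure A)ᶜ := fun z hz hzA => hcon ⟨z, hz, hzA⟩
      have h1 : D = connectedComponentIn (closure A)ᶜ y := by
        refine Subset.antisymm (isPreconnected_connectedComponentIn.subset_connectedComponentIn
          hyD hDsub) ?_
        exact connectedComponentIn_mono y (compl_subset_compl.2 subset_closure)
      have h2 : IsOpen D := h1 ▸ isClosed_closure.isOpen_compl.connectedComponentIn
      have h3 : IsClosed D := isClosed_component hA.isClosed_compl y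
      have h4 : D = univ := (IsClopen.eq_univ ⟨h3, h2⟩ ⟨y, hyD⟩)
      exact (connectedComponentIn_subset Aᶜ y (h4 ▸ mem_univ a : a ∈ D)) ha
    obtain ⟨z, hzD, hzA⟩ := hmeet
    refine ⟨insert z A ∪ D, ?_, Or.inl (Or.inr ha), Or.inr hyD, ?_⟩
    · refine union_subset (insert_subset (hDO hzD) hAO) hDO
    · exact IsPreconnected.union z (mem_insert _ _) hzD
        (hAc.isPreconnected.subset_closure (subset_insert _ _)
          (insert_subset hzA subset_closure)) isPreconnected_connectedComponentIn

end Pool.Agent.QCS
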