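import Pool.Agent.Lib.MP_811d89_an.Cont
import Pool.Agent.Lib.MP_811d89_an.Topo

/-!
# Skeleta, the distance to the skeleton and hairs
-/

open MeasureTheory Set Metric Topology Filter
open scoped ENNReal NNReal

namespace Pool.Agent.QCS

set_option linter.unusedSectionVars false

/-- A skeleton of a metric surface: a closed connected set of locally finite length whose
complementary components are small, together with the topological facts on the surface which are
used in the construction. -/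
structure Skel (X : Type*) [MetricSpace X] [MeasurableSpace X] [BorelSpace X] where
  /-- the skeleton -/
  E : Set X
  closed : IsClosed E
  conn : IsConnected E
  nontriv : E.Nontrivial
  /-- the pieces of the skeleton -/
  pieces : Set (Set X)
  E_eq : E = ⋃₀ pieces
  piece_compact : ∀ F ∈ pieces, IsCompact F
  piece_conn : ∀ F ∈ pieces, IsConnected F
  piece_fin : ∀ F ∈ pieces, μH[1] F ≠ ∞
  locfin : ∀ x, ∃ U ∈ 𝓝 x, {F ∈ pieces | (F ∩ U).Nonempty}.Finite
  cells : ∀ K, IsCompact K → ∃ K', IsCompact K' ∧ K ⊆ K' ∧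
    ∀ y ∈ K, y ∉ E → closure (connectedComponentIn Eᶜ y) ⊆ K'
  unic : ∀ x ∉ E, ∀ W, IsOpen W → IsConnected W → W ⊆ connectedComponentIn Eᶜ x → ∀ e ∈ E,
    IsPreconnected (frontier (connectedComponentIn Wᶜ e))
  small : ∀ x : X, ∀ r > 0, ∃ N, IsOpen N ∧ x ∈ N ∧ N ⊆ ball x r ∧ IsPreconnected Nᶜ
  fin : ∀ x : X, ∃ U ∈ 𝓝 x, μH[2] U < ∞

variable {X : Type*} [MetricSpace X] [MeasurableSpace X] [BorelSpace X]

/-- A point of a closed set almost realising the length distance realises it. -/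
theorem exists_LC_of_iInf {K F : Set X} (hK : IsCompact K) (hF : IsClosed F) {z : X} {r : ℝ}
    (hr : 0 ≤ r) (h : ⨅ e ∈ F, dl K e z ≤ ENNReal.ofReal r) : ∃ e ∈ F, LC K e z r := by
  have h1 : ∀ n : ℕ, ∃ e ∈ F, LC K e z (r + 1 / (n + 1 : ℝ)) := by
    intro n
    have hpos : (0 : ℝ) < 1 / (n + 1 : ℝ) := by positivity
    have h2 : ⨅ e ∈ F, dl K e z < ENNReal.ofReal (r + 1 / (n + 1 : ℝ)) :=
      h.trans_lt ((ENNReal.ofReal_lt_ofReal_iff (by linarith)).2 (by linarith))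
    simp only [iInf_lt_iff] at h2
    obtain ⟨e, he, h3⟩ := h2
    obtain ⟨L, hL, hL'⟩ := exists_LC_of_dl_lt h3
    exact ⟨e, he, hL.mono_length ((ENNReal.ofReal_lt_ofReal_iff (by linarith)).1 hL').le⟩
  choose e he hLC using h1
  obtain ⟨e₀, he₀, φ, hφ, hlim⟩ := hK.tendsto_subseq (x := e) fun n => (hLC n).left_mem
  refine ⟨e₀, hF.mem_of_tendsto hlim (Eventually.of_forall fun n => he _), ?_⟩
  refine LC.limit hK (fun n => hLC (φ n)) hlim tendsto_const_nhds ?_
  have := tendsto_one_div_add_atTop_nhds_zero_nat (𝕜 := ℝ)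
  simpa using tendsto_const_nhds.add (this.comp hφ.tendsto_atTop)

namespace Skel

variable (S : Skel X)

/-- The length distance to the skeleton. -/
noncomputable def v (z : X) : ℝ≥0∞ := ⨅ e ∈ S.E, dl univ e z

/-- The cell of a point. -/
def cell (z : X) : Set X := connectedComponentIn S.Eᶜ z

/-- The component of `{v > t}` containing `z`. -/
def hair (t : ℝ) (z : X) : Set X := connectedComponentIn {y | ENNReal.ofReal t < S.v y} z

/-- The closed cell. -/
def cc (z : X) : Set X := closure (S.cell z)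

/-- The length diameter of the boundary of a hair. -/
noncomputable def Lh (t : ℝ) (z : X) : ℝ≥0∞ :=
  ⨆ (a : X) (_ : a ∈ frontier (S.hair t z)) (b : X) (_ : b ∈ frontier (S.hair t z)),
    dl (S.cc z) a b

theorem v_le_of_LC {e z : X} (he : e ∈ S.E) {L : ℝ} (h : LC univ e z L) :
    S.v z ≤ ENNReal.ofReal L := (iInf₂_le e he).trans h.dl_le

theorem v_zero {z : X} (hz : z ∈ S.E) : S.v z = 0 := by
  have := S.v_le_of_LC hz (LC.refl (mem_univ z))
  simpa using this

theorem v_le_add_dl (y z : X) : S.v z ≤ S.v y + dl univ y z := by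
  simp only [v, ENNReal.iInf_add]
  refine le_iInf₂ fun e he => ?_
  exact (iInf₂_le e he).trans (dl_triangle _ _ _ _)

theorem v_le_add_LC {y z : X} {L : ℝ} (h : LC univ y z L) : S.v z ≤ S.v y + ENNReal.ofReal L :=
  (S.v_le_add_dl y z).trans (add_le_add le_rfl h.dl_le)

theorem LC_univ {c : ℝ → X} (hc : LipschitzWith 1 c) {a b : ℝ} (hab : a ≤ b) :
    LC univ (c a) (c b) (b - a) := LC.of_curve hc hab fun _ _ => mem_univ _

theorem v_lip {c : ℝ → X} (hc : LipschitzWith 1 c) (a b : ℝ) :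
    S.v (c b) ≤ S.v (c a) + ENNReal.ofReal |a - b| := by
  rcases le_total a b with h | h
  · rw [abs_sub_comm, abs_of_nonneg (sub_nonneg.2 h)]
    exact S.v_le_add_LC (LC_univ hc h)
  · rw [abs_of_nonneg (sub_nonneg.2 h)]
    exact S.v_le_add_LC (LC_univ hc h).symm

variable [LocallyConnectedSpace X] [ConnectedSpace X]

theorem isOpen_cell (z : X) : IsOpen (S.cell z) := S.closed.isOpen_compl.connectedComponentIn

theorem mem_cell {z : X} (hz : z ∉ S.E) : z ∈ S.cell z := mem_connectedComponentIn hz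

theorem cell_disj {y z : X} (hy : y ∈ S.cell z) : y ∉ S.E := connectedComponentIn_subset _ _ hy

theorem cell_eq {y z : X} (hy : y ∈ S.cell z) : S.cell y = S.cell z :=
  (connectedComponentIn_eq hy).symm

theorem cell_conn (z : X) : IsPreconnected (S.cell z) := isPreconnected_connectedComponentIn

theorem cc_eq {y z : X} (hy : y ∈ S.cell z) : S.cc y = S.cc z := by rw [cc, S.cell_eq hy, cc]

theorem cell_sub_cc (z : X) : S.cell z ⊆ S.cc z := subset_closure

theorem cc_compact (z : X) (hz : z ∉ S.E) : IsCompact (S.cc z) := by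
  obtain ⟨K', h1, h2, h3⟩ := S.cells {z} isCompact_singleton
  exact h1.of_isClosed_subset isClosed_closure (h3 z rfl hz)

theorem mem_cell_of_cc {y z : X} (hy : y ∈ S.cc z) (hyE : y ∉ S.E) : y ∈ S.cell z :=
  mem_component_of_closure S.closed.isOpen_compl hy hyE

/-- First hitting of the skeleton. -/
theorem exists_first_hit {c : ℝ → X} (hc : LipschitzWith 1 c) {L : ℝ} (hL : 0 ≤ L)
    (h0 : c 0 ∉ S.E) (hE : c L ∈ S.E) : ∃ M, 0 ≤ M ∧ M ≤ L ∧ c M ∈ S.E ∧
      ∀ s ∈ Icc 0 M, c s ∈ S.cc (c 0) := by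
  let A : Set ℝ := {s | s ∈ Icc 0 L ∧ c s ∈ S.E}
  have hAc : IsCompact A := by
    have : A = Icc 0 L ∩ c ⁻¹' S.E := rfl
    rw [this]
    exact isCompact_Icc.inter_right (S.closed.preimage hc.continuous)
  have hAne : A.Nonempty := ⟨L, ⟨hL, le_rfl⟩, hE⟩
  obtain ⟨M, hM, hmin⟩ := hAc.exists_isLeast hAne
  refine ⟨M, hM.1.1, hM.1.2, hM.2, ?_⟩
  have h1 : ∀ s ∈ Ico 0 M, c s ∉ S.E := by
    intro s hs hsE
    exact absurd (hmin ⟨⟨hs.1, hs.2.le.trans hM.1.2⟩, hsE⟩) (not_le.2 hs.2)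
  have hM0 : 0 < M := by
    rcases hM.1.1.eq_or_lt with h | h
    · exact absurd (h ▸ hM.2) h0
    · exact h
  have h2 : c '' Ico 0 M ⊆ S.cell (c 0) := by
    refine ((isPreconnected_Ico).image c hc.continuous.continuousOn).subset_connectedComponentIn
      ⟨0, ⟨le_rfl, hM0⟩, rfl⟩ ?_
    rintro _ ⟨s, hs, rfl⟩
    exact h1 s hs
  intro s hs
  have h3 : s ∈ closure (Ico 0 M) := by rw [closure_Ico hM0.ne]; exact hs
  exact closure_mono h2 (image_closure_subset_closure_image hc.continuous ⟨s, h3, rfl⟩)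

/-- `v` is computed inside the closed cell. -/
theorem v_eq {z : X} (hz : z ∉ S.E) : S.v z = ⨅ e ∈ S.E, dl (S.cc z) e z := by
  refine le_antisymm ?_ ?_
  · exact iInf₂_mono fun e _ => dl_anti (subset_univ _) _ _
  · refine le_iInf₂ fun e he => le_iInf₂ fun L hL => ?_
    obtain ⟨h0, c, hc, -, ha, hb⟩ := hL.symm
    obtain ⟨M, hM0, hML, hME, hM⟩ := S.exists_first_hit hc h0 (ha ▸ hz) (hb ▸ he)
    rw [ha] at hM
    have h1 : LC (S.cc z) (c 0) (c M) (M - 0) := LC.of_curve hc hM0 hM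
    rw [ha, sub_zero] at h1
    calc ⨅ e ∈ S.E, dl (S.cc z) e z ≤ dl (S.cc z) (c M) z := iInf₂_le _ hME
      _ ≤ ENNReal.ofReal M := h1.symm.dl_le
      _ ≤ ENNReal.ofReal L := ENNReal.ofReal_le_ofReal hML

/-- Geodesics to the skeleton. -/
theorem exists_geod {z : X} (hz : z ∉ S.E) (hv : S.v z ≠ ∞) :
    ∃ c : ℝ → X, LipschitzWith 1 c ∧ (∀ s, c s ∈ S.cc z) ∧ c 0 ∈ S.E ∧ c (S.v z).toReal = z ∧
      ∀ τ ∈ Icc 0 (S.v z).toReal, S.v (c τ) = ENNReal.ofReal τ := by
  have h1 : ⨅ e ∈ S.E, dl (S.cc z) e z ≤ ENNReal.ofReal (S.v z).toReal := by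
    rw [← S.v_eq hz, ENNReal.ofReal_toReal hv]
  obtain ⟨e, he, h0, c, hc, hcK, hc0, hcV⟩ := exists_LC_of_iInf (S.cc_compact z hz) S.closed
    ENNReal.toReal_nonneg h1
  refine ⟨c, hc, hcK, hc0 ▸ he, hcV, fun τ hτ => ?_⟩
  have h2 : S.v (c τ) ≤ ENNReal.ofReal τ := by
    have := S.v_lip hc 0 τ
    rwa [hc0, S.v_zero he, zero_add, zero_sub, abs_neg, abs_of_nonneg hτ.1] at this
  refine le_antisymm h2 ?_
  have h3 := S.v_lip hc τ (S.v z).toReal
  rw [hcV, abs_sub_comm, abs_of_nonneg (sub_nonneg.2 hτ.2)] at h3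
  have h4 : ENNReal.ofReal τ + ENNReal.ofReal ((S.v z).toReal - τ) ≤
      S.v (c τ) + ENNReal.ofReal ((S.v z).toReal - τ) := by
    rw [← ENNReal.ofReal_add hτ.1 (sub_nonneg.2 hτ.2), add_sub_cancel, ENNReal.ofReal_toReal hv]
    exact h3
  exact (ENNReal.add_le_add_iff_right ENNReal.ofReal_ne_top).1 h4

/-- The chain distance to the skeleton in the closed cell of `z`. -/
noncomputable def f (z : X) (T : ℝ) (n : ℕ) : X → ℝ := cd (S.cc z) S.E T (1 / (n + 1 : ℝ))

theorem f_le_v {z y : X} (hy : y ∈ S.cell z) (hv : S.v y ≠ ∞) (T : ℝ) (n : ℕ) :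
    S.f z T n y ≤ (S.v y).toReal := by
  have hyE := S.cell_disj hy
  obtain ⟨c, hc, hcK, hc0, hcV, -⟩ := S.exists_geod hyE hv
  refine cd_le_LC (by positivity) hc0 ⟨ENNReal.toReal_nonneg, c, hc, fun s => ?_, rfl, hcV⟩
  rw [← S.cc_eq hy]; exact hcK s

theorem exists_f_gt {z y : X} (hy : y ∈ S.cell z) {t T : ℝ} (ht : 0 ≤ t) (hT : t < T)
    (hv : ENNReal.ofReal t < S.v y) : ∃ n, t < S.f z T n y := by
  by_contra hcon
  push Not at hcon
  have hyE := S.cell_disj hy
  have hK : IsCompact (S.cc z) := by rw [← S.cc_eq hy]; exact S.cc_compact y hyE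
  obtain ⟨e, he, hLC⟩ := LC_of_cd_le hK S.closed ht hT hcon
  exact absurd (S.v_le_of_LC he (hLC.mono (subset_univ _))) (not_le.2 hv)

theorem f_mono {z : X} {T : ℝ} {n m : ℕ} (h : n ≤ m) (y : X) : S.f z T n y ≤ S.f z T m y :=
  cd_anti (by
    have : (n : ℝ) ≤ m := by exact_mod_cast h
    gcongr) y

theorem f_cont (z : X) (T : ℝ) (n : ℕ) : ContinuousOn (S.f z T n) (S.cc z) :=
  cd_continuousOn (by positivity)

theorem isOpen_vgt (t : ℝ) : IsOpen {y | ENNReal.ofReal t < S.v y} := by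
  rw [isOpen_iff_mem_nhds]
  intro y hy
  have hyE : y ∉ S.E := fun h => by
    have h1 : ENNReal.ofReal t < S.v y := hy
    rw [S.v_zero h] at h1; exact not_lt_zero h1
  -- reduce to `0 ≤ t`
  have hmax : ENNReal.ofReal t = ENNReal.ofReal (max t 0) := by
    rcases le_total t 0 with h | h
    · rw [max_eq_right h, ENNReal.ofReal_of_nonpos h, ENNReal.ofReal_zero]
    · rw [max_eq_left h]
  have hy' : ENNReal.ofReal (max t 0) < S.v y := hmax ▸ hy
  obtain ⟨n, hn⟩ := S.exists_f_gt (S.mem_cell hyE) (le_max_right t 0)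
    (lt_add_one (max t 0)) hy'
  have h1 : ∀ᶠ y' in 𝓝 y, y' ∈ S.cell y := (S.isOpen_cell y).mem_nhds (S.mem_cell hyE)
  have h2 : ContinuousAt (S.f y (max t 0 + 1) n) y :=
    (S.f_cont y _ n).continuousAt (mem_of_superset h1 (S.cell_sub_cc y))
  filter_upwards [h1, h2.eventually_const_lt hn] with y' h3 h4
  rw [hmax]
  by_contra hcon
  push Not at hcon
  have h5 : S.v y' ≠ ∞ := (hcon.trans_lt ENNReal.ofReal_lt_top).ne
  have h6 := S.f_le_v h3 h5 (max t 0 + 1) n
  have h7 : (S.v y').toReal ≤ max t 0 := by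
    rw [← ENNReal.toReal_ofReal (le_max_right t 0)]
    exact ENNReal.toReal_mono ENNReal.ofReal_ne_top hcon
  linarith

theorem v_lsc : LowerSemicontinuous S.v := by
  rw [lowerSemicontinuous_iff_isOpen_preimage]
  intro r
  rcases eq_or_ne r ∞ with rfl | hr
  · simp
  · have := S.isOpen_vgt r.toReal
    rw [ENNReal.ofReal_toReal hr] at this
    exact this

theorem notMem_E {z : X} {t : ℝ} (h : ENNReal.ofReal t < S.v z) : z ∉ S.E := fun hE => by
  rw [S.v_zero hE] at h; exact not_lt_zero h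

theorem v_pos {z : X} (hz : z ∉ S.E) : 0 < S.v z := by
  by_contra hcon
  push Not at hcon
  have h0 : S.v z = 0 := le_antisymm hcon zero_le
  have h1 : ⨅ e ∈ S.E, dl (S.cc z) e z ≤ ENNReal.ofReal 0 := by rw [← S.v_eq hz, h0]; simp
  obtain ⟨e, he, hLC⟩ := exists_LC_of_iInf (S.cc_compact z hz) S.closed le_rfl h1
  have := hLC.dist_le
  exact hz ((dist_le_zero.1 this) ▸ he)

/-! ### Hairs -/

theorem isOpen_hair (t : ℝ) (z : X) : IsOpen (S.hair t z) := (S.isOpen_vgt t).connectedComponentIn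

theorem hair_conn (t : ℝ) (z : X) : IsPreconnected (S.hair t z) :=
  isPreconnected_connectedComponentIn

theorem mem_hair {t : ℝ} {z : X} (h : ENNReal.ofReal t < S.v z) : z ∈ S.hair t z :=
  mem_connectedComponentIn h

theorem v_gt_of_hair {t : ℝ} {y z : X} (h : y ∈ S.hair t z) : ENNReal.ofReal t < S.v y :=
  connectedComponentIn_subset {y | ENNReal.ofReal t < S.v y} z h

theorem hair_eq {t : ℝ} {y z : X} (h : y ∈ S.hair t z) : S.hair t y = S.hair t z :=
  (connectedComponentIn_eq h).symm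

theorem hair_sub_cell (t : ℝ) (z : X) : S.hair t z ⊆ S.cell z := by
  by_cases h : ENNReal.ofReal t < S.v z
  · exact (S.hair_conn t z).subset_connectedComponentIn (S.mem_hair h)
      fun y hy => S.notMem_E (S.v_gt_of_hair hy)
  · rw [hair, connectedComponentIn_eq_empty (F := {y | ENNReal.ofReal t < S.v y}) h]
    exact empty_subset _

theorem hair_anti {t t' : ℝ} (h : t ≤ t') (z : X) : S.hair t' z ⊆ S.hair t z :=
  connectedComponentIn_mono z fun _ hy => lt_of_le_of_lt (ENNReal.ofReal_le_ofReal h) hy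

theorem v_le_of_frontier {t : ℝ} {y z : X} (h : y ∈ frontier (S.hair t z)) :
    S.v y ≤ ENNReal.ofReal t := not_lt.1 (frontier_component_disjoint (S.isOpen_vgt t) h)

theorem closure_hair_sub_cc (t : ℝ) (z : X) : closure (S.hair t z) ⊆ S.cc z :=
  closure_mono (S.hair_sub_cell t z)

theorem frontier_hair_sub_cc (t : ℝ) (z : X) : frontier (S.hair t z) ⊆ S.cc z :=
  frontier_subset_closure.trans (S.closure_hair_sub_cc t z)

theorem frontier_hair_nonempty {t : ℝ} {z : X} (h : ENNReal.ofReal t < S.v z) :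
    (frontier (S.hair t z)).Nonempty := by
  rw [nonempty_frontier_iff]
  refine ⟨⟨z, S.mem_hair h⟩, fun hu => ?_⟩
  obtain ⟨e, he⟩ := S.conn.nonempty
  have := S.v_gt_of_hair (hu ▸ mem_univ e : e ∈ S.hair t z)
  rw [S.v_zero he] at this
  exact not_lt_zero this

theorem Lh_eq {t : ℝ} {y z : X} (h : y ∈ S.hair t z) : S.Lh t y = S.Lh t z := by
  unfold Lh
  rw [S.hair_eq h, S.cc_eq (S.hair_sub_cell t z h)]

theorem dl_le_Lh {t : ℝ} {a b z : X} (ha : a ∈ frontier (S.hair t z))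
    (hb : b ∈ frontier (S.hair t z)) : dl (S.cc z) a b ≤ S.Lh t z :=
  le_iSup₂_of_le a ha (le_iSup₂_of_le b hb le_rfl)

theorem Lh_le {t : ℝ} {z : X} {r : ℝ≥0∞} (h : ∀ a ∈ frontier (S.hair t z),
    ∀ b ∈ frontier (S.hair t z), dl (S.cc z) a b ≤ r) : S.Lh t z ≤ r :=
  iSup₂_le fun a ha => iSup₂_le fun b hb => h a ha b hb

/-- A connected set meeting a hair and contained in `{v > t}` is in the hair. -/
theorem subset_hair {t : ℝ} {s : Set X} {z : X} (hs : IsPreconnected s)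
    (hsv : ∀ y ∈ s, ENNReal.ofReal t < S.v y) {y : X} (hy : y ∈ s) (hyz : y ∈ S.hair t z) :
    s ⊆ S.hair t z := by
  rw [← S.hair_eq hyz]
  exact hs.subset_connectedComponentIn hy hsv

/-- The upper part of a geodesic is in the hair. -/
theorem geod_mem_hair {z : X} {c : ℝ → X} (hc : LipschitzWith 1 c)
    (hcV : c (S.v z).toReal = z) (hcv : ∀ τ ∈ Icc 0 (S.v z).toReal, S.v (c τ) = ENNReal.ofReal τ)
    {t : ℝ} (ht : 0 ≤ t) {τ : ℝ} (hτ : τ ∈ Ioc t (S.v z).toReal) : c τ ∈ S.hair t z := by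
  have hV : t < (S.v z).toReal := hτ.1.trans_le hτ.2
  have hV0 : (0 : ℝ) ≤ (S.v z).toReal := ht.trans hV.le
  have hvz : ENNReal.ofReal t < S.v z := by
    have := hcv _ ⟨hV0, le_rfl⟩
    rw [hcV] at this
    rw [this]
    exact (ENNReal.ofReal_lt_ofReal_iff (ht.trans_lt hV)).2 hV
  refine S.subset_hair (s := c '' Icc τ (S.v z).toReal)
    (isPreconnected_Icc.image c hc.continuous.continuousOn) ?_ ⟨_, ⟨hτ.2, le_rfl⟩, hcV⟩
    (S.mem_hair hvz) ⟨τ, ⟨le_rfl, hτ.2⟩, rfl⟩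
  rintro _ ⟨s, hs, rfl⟩
  rw [hcv s ⟨ht.trans (hτ.1.le.trans hs.1), hs.2⟩]
  exact (ENNReal.ofReal_lt_ofReal_iff (ht.trans_lt (hτ.1.trans_le hs.1))).2 (hτ.1.trans_le hs.1)

theorem geod_mem_frontier {z : X} {c : ℝ → X} (hc : LipschitzWith 1 c)
    (hcV : c (S.v z).toReal = z) (hcv : ∀ τ ∈ Icc 0 (S.v z).toReal, S.v (c τ) = ENNReal.ofReal τ)
    {t : ℝ} (ht : 0 ≤ t) (hV : t < (S.v z).toReal) : c t ∈ frontier (S.hair t z) := by
  refine ⟨?_, fun h => ?_⟩
  · have h1 : c '' Ioc t (S.v z).toReal ⊆ S.hair t z := by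
      rintro _ ⟨τ, hτ, rfl⟩
      exact S.geod_mem_hair hc hcV hcv ht hτ
    refine closure_mono h1 (image_closure_subset_closure_image hc.continuous ⟨t, ?_, rfl⟩)
    rw [closure_Ioc hV.ne]
    exact ⟨le_rfl, hV.le⟩
  · have h2 := S.v_gt_of_hair (interior_subset h)
    rw [hcv t ⟨ht, hV.le⟩] at h2
    exact lt_irrefl _ h2

end Skel

end Pool.Agent.QCS
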