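import Pool.Agent.Lib.MP_811d89_an.Patch
import Pool.Agent.Lib.MP_811d89_an.Setup

/-!
# Existence of a skeleton
-/

open MeasureTheory Set Metric Topology Filter
open scoped ENNReal NNReal

namespace Pool.Agent.QCS

set_option linter.unusedSectionVars false

variable {X : Type*} [MetricSpace X] [MeasurableSpace X] [BorelSpace X]
variable [LocallyConnectedSpace X] [ConnectedSpace X] [LocallyCompactSpace X]
variable [ChartedSpace (EuclideanHalfSpace 2) X]

/-- A locally finite family of small nice sets without inclusions. -/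
structure Family (X : Type*) [MetricSpace X] [MeasurableSpace X] [BorelSpace X] where
  𝓜 : Set (Set X)
  δ : ℝ
  p : X
  q : X
  pq : 2 * δ < dist p q
  nice : ∀ B ∈ 𝓜, Nice B
  ne : ∀ B ∈ 𝓜, B.Nonempty
  small : ∀ B ∈ 𝓜, ∀ x ∈ B, ∀ y ∈ B, dist x y < δ
  fin : ∀ K, IsCompact K → {B ∈ 𝓜 | (B ∩ K).Nonempty}.Finite
  cover : ∀ x, ∃ B ∈ 𝓜, x ∈ interior B
  max : ∀ B ∈ 𝓜, ∀ B' ∈ 𝓜, ¬ B ⊆ interior B'

theorem Nice.ne_univ {B : Set X} (h : Nice B) : B ≠ univ := by
  obtain ⟨N, -, -, -, y, -, hy⟩ := h.patch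
  intro h'
  exact hy (h' ▸ mem_univ y)

theorem Nice.frontier_nonempty {B : Set X} (h : Nice B) (hne : B.Nonempty) :
    (frontier B).Nonempty := by
  rw [nonempty_iff_ne_empty]
  intro h1
  rcases isClopen_iff.1 (isClopen_iff_frontier_eq_empty.2 h1) with h2 | h2
  · exact hne.ne_empty h2
  · exact h.ne_univ h2

theorem Nice.not_subset_interior {B : Set X} (h : Nice B) (hne : B.Nonempty) :
    ¬ B ⊆ interior B := by
  intro h1
  obtain ⟨y, hy⟩ := h.frontier_nonempty hne
  exact hy.2 (h1 (h.compact.isClosed.frontier_subset hy))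

theorem exists_pair : ∃ p q : X, p ≠ q := by
  obtain ⟨x⟩ := (inferInstance : Nonempty X)
  obtain ⟨N, hN, hxN, -⟩ := exists_patch x isOpen_univ (mem_univ x)
  obtain ⟨K', -, -, hK', -, z, -, hz⟩ := hN.shell {x} (singleton_subset_iff.2 hxN)
    isCompact_singleton
  exact ⟨x, z, fun h => hz (h ▸ hK' rfl)⟩

theorem exists_family [SecondCountableTopology X] (hfin : ∀ x : X, ∃ U ∈ 𝓝 x, μH[2] U < ∞) :
    Nonempty (Family X) := by
  obtain ⟨p, q, hpq⟩ := exists_pair (X := X)
  have hd : 0 < dist p q := dist_pos.2 hpq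
  set δ := dist p q / 3 with hδ
  have hδ0 : 0 < δ := by positivity
  have hbasis : ∀ x : X, (𝓝 x).HasBasis
      (fun B : Set X => Nice B ∧ x ∈ interior B ∧ B ⊆ ball x (δ / 2)) (fun B => interior B) := by
    intro x
    refine ⟨fun t => ⟨fun ht => ?_, ?_⟩⟩
    · obtain ⟨B, h1, h2, h3⟩ := exists_nice hfin x (isOpen_interior.inter isOpen_ball)
        (show x ∈ interior t ∩ ball x (δ / 2) from
          ⟨mem_interior_iff_mem_nhds.2 ht, mem_ball_self (by positivity)⟩)
      exact ⟨B, ⟨h1, h2, h3.trans inter_subset_right⟩,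
        interior_subset.trans (h3.trans (inter_subset_left.trans interior_subset))⟩
    · rintro ⟨B, ⟨-, h2, -⟩, h3⟩
      exact mem_of_superset (isOpen_interior.mem_nhds h2) h3
  obtain ⟨α, c, r, hr, hcov, hlf⟩ :=
    refinement_of_locallyCompact_sigmaCompact_of_nhds_basis (ι := fun _ => Set X) hbasis
  have hlf' : LocallyFinite r := hlf.closure.subset fun a => (hr a).1.reg
  set 𝓑 : Set (Set X) := range r with h𝓑
  have hnice : ∀ B ∈ 𝓑, Nice B := by rintro _ ⟨a, rfl⟩; exact (hr a).1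
  have hne : ∀ B ∈ 𝓑, B.Nonempty := by rintro _ ⟨a, rfl⟩; exact ⟨c a, interior_subset (hr a).2.1⟩
  have hsmall : ∀ B ∈ 𝓑, ∀ x ∈ B, ∀ y ∈ B, dist x y < δ := by
    rintro _ ⟨a, rfl⟩ x hx y hy
    have h1 := mem_ball.1 ((hr a).2.2 hx)
    have h2 := mem_ball.1 ((hr a).2.2 hy)
    calc dist x y ≤ dist x (c a) + dist y (c a) := dist_triangle_right _ _ _
      _ < δ := by linarith
  have hfin' : ∀ K, IsCompact K → {B ∈ 𝓑 | (B ∩ K).Nonempty}.Finite := by
    intro K hK
    refine ((hlf'.finite_nonempty_inter_compact hK).image r).subset ?_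
    rintro _ ⟨⟨a, rfl⟩, h⟩
    exact ⟨a, h, rfl⟩
  have hcov' : ∀ x, ∃ B ∈ 𝓑, x ∈ interior B := by
    intro x
    have : x ∈ ⋃ a, interior (r a) := hcov ▸ mem_univ x
    obtain ⟨a, ha⟩ := mem_iUnion.1 this
    exact ⟨r a, ⟨a, rfl⟩, ha⟩
  have hmax : ∀ B ∈ 𝓑, ∃ M ∈ 𝓑, B ⊆ M ∧ ∀ B' ∈ 𝓑, ¬ M ⊆ interior B' := by
    intro B hB
    have hS : {B' ∈ 𝓑 | B ⊆ B'}.Finite := by
      refine (hfin' B (hnice B hB).compact).subset ?_
      rintro B' ⟨h1, h2⟩
      exact ⟨h1, by rw [inter_eq_right.2 h2]; exact hne B hB⟩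
    obtain ⟨M, -, hM⟩ := hS.exists_le_maximal (show B ∈ {B' ∈ 𝓑 | B ⊆ B'} from ⟨hB, Subset.rfl⟩)
    refine ⟨M, hM.1.1, hM.1.2, fun B' hB' hsub => ?_⟩
    have h1 : M ⊆ B' := hsub.trans interior_subset
    have h2 : B' ⊆ M := hM.2 ⟨hB', hM.1.2.trans h1⟩ h1
    have h3 : M = B' := Subset.antisymm h1 h2
    subst h3
    exact (hnice M hM.1.1).not_subset_interior (hne M hM.1.1) hsub
  refine ⟨⟨{M ∈ 𝓑 | ∀ B' ∈ 𝓑, ¬ M ⊆ interior B'}, δ, p, q, by rw [hδ]; linarith,
    fun B hB => hnice B hB.1, fun B hB => hne B hB.1, fun B hB => hsmall B hB.1, fun K hK => ?_,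
    fun x => ?_, fun B hB B' hB' => hB.2 B' hB'.1⟩⟩
  · refine (hfin' K hK).subset ?_
    rintro B ⟨h1, h2⟩
    exact ⟨h1.1, h2⟩
  · obtain ⟨B, hB, hx⟩ := hcov' x
    obtain ⟨M, hM, hBM, hM'⟩ := hmax B hB
    exact ⟨M, ⟨hM, hM'⟩, interior_mono hBM hx⟩

namespace Family

variable (F : Family X)

/-- The skeleton of a family. -/
def E : Set X := ⋃ B ∈ F.𝓜, frontier B

theorem front_sub {B : Set X} (hB : B ∈ F.𝓜) : frontier B ⊆ F.E :=
  fun _ hy => mem_biUnion hB hy

theorem dist_lt {x y z : X} {B B' : Set X} (hB : B ∈ F.𝓜) (hB' : B' ∈ F.𝓜) (hx : x ∈ B)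
    (hz : z ∈ B) (hz' : z ∈ B') (hy : y ∈ B') : dist x y < 2 * F.δ := by
  have h1 := F.small B hB x hx z hz
  have h2 := F.small B' hB' z hz' y hy
  linarith [dist_triangle x z y]

/-- Intersecting members have intersecting frontiers. -/
theorem meet {B B' : Set X} (hB : B ∈ F.𝓜) (hB' : B' ∈ F.𝓜) (h : (B ∩ B').Nonempty) :
    (frontier B ∩ frontier B').Nonempty := by
  by_contra hcon
  rw [not_nonempty_iff_eq_empty, ← disjoint_iff_inter_eq_empty] at hcon
  have hn := F.nice B hB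
  have hn' := F.nice B' hB'
  have hfs : frontier B ⊆ B := hn.compact.isClosed.frontier_subset
  have hfs' : frontier B' ⊆ B' := hn'.compact.isClosed.frontier_subset
  obtain ⟨y, hy⟩ := hn.frontier_nonempty (F.ne B hB)
  obtain ⟨y', hy'⟩ := hn'.frontier_nonempty (F.ne B' hB')
  obtain ⟨z, hz, hz'⟩ := h
  have hsub : ∀ {s u : Set X}, IsClosed u → s ⊆ u → Disjoint s (frontier u) → s ⊆ interior u := by
    intro s u hu h1 h2 x hx
    by_contra h3
    exact disjoint_left.1 h2 hx ⟨subset_closure (h1 hx), h3⟩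
  rcases subset_or_disjoint_of_frontier hn.front hcon with h1 | h1 <;>
    rcases subset_or_disjoint_of_frontier hn'.front hcon.symm with h2 | h2
  · rcases subset_or_disjoint_of_frontier hn.compl
      (disjoint_left.2 fun x hx hx' => hx (h2 hx') : Disjoint Bᶜ (frontier B')) with h3 | h3
    · have hcov : ∀ x : X, x ∈ B ∨ x ∈ B' := fun x => (em (x ∈ B)).imp_right fun h => h3 h
      have key : ∀ x : X, dist x z < F.δ := by
        intro x
        rcases hcov x with h | h
        · exact F.small B hB x h z hz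
        · exact F.small B' hB' x h z hz'
      linarith [key F.p, key F.q, dist_triangle_right F.p F.q z, F.pq]
    · have h4 : B' ⊆ B := fun x hx => by_contra fun h => disjoint_left.1 h3 h hx
      have h5 : frontier B ⊆ interior B' := hsub hn'.compact.isClosed h1 hcon
      exact hy.2 (interior_mono h4 (h5 hy))
  · rcases subset_or_disjoint_of_frontier hn.conn h2.symm with h3 | h3
    · exact F.max B hB B' hB' (hsub hn'.compact.isClosed h3 h2.symm)
    · exact disjoint_left.1 h3 hz hz'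
  · rcases subset_or_disjoint_of_frontier hn'.conn h1.symm with h3 | h3
    · exact F.max B' hB' B hB (hsub hn.compact.isClosed h3 h1.symm)
    · exact disjoint_left.1 h3 hz' hz
  · rcases subset_or_disjoint_of_frontier hn'.conn h1.symm with h3 | h3
    · exact disjoint_left.1 h2 hy' (h3 (hfs' hy'))
    · exact disjoint_left.1 h3 hz' hz

theorem isClosed_union {𝓐 : Set (Set X)} (h𝓐 : 𝓐 ⊆ F.𝓜) {g : Set X → Set X}
    (hg : ∀ B ∈ 𝓐, IsClosed (g B)) (hgB : ∀ B ∈ 𝓐, g B ⊆ B) : IsClosed (⋃ B ∈ 𝓐, g B) := by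
  rw [biUnion_eq_iUnion]
  refine LocallyFinite.isClosed_iUnion ?_ fun B => hg B.1 B.2
  intro x
  obtain ⟨K, hK, hKx⟩ := exists_compact_mem_nhds x
  refine ⟨K, hKx, ?_⟩
  refine Set.Finite.of_finite_image (f := Subtype.val) ((F.fin K hK).subset ?_)
    Subtype.val_injective.injOn
  rintro _ ⟨B, hB, rfl⟩
  exact ⟨h𝓐 B.2, hB.mono (inter_subset_inter_left _ (hgB B.1 B.2))⟩

theorem isClosed_E : IsClosed F.E :=
  F.isClosed_union Subset.rfl (fun _ _ => isClosed_frontier)
    fun B hB => (F.nice B hB).compact.isClosed.frontier_subset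

theorem isPreconnected_E : IsPreconnected F.E := by
  rw [isPreconnected_iff_subset_of_disjoint]
  intro u v hu hv hcov hdis
  have hdis' := eq_empty_iff_forall_notMem.1 hdis
  have h1 : ∀ B ∈ F.𝓜, frontier B ⊆ u ∨ frontier B ⊆ v := by
    intro B hB
    exact isPreconnected_iff_subset_of_disjoint.1 (F.nice B hB).front u v hu hv
      ((F.front_sub hB).trans hcov) (subset_eq_empty (inter_subset_inter_left _ (F.front_sub hB))
        hdis)
  set M₁ : Set (Set X) := {B ∈ F.𝓜 | frontier B ⊆ u} with hM₁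
  set M₂ : Set (Set X) := {B ∈ F.𝓜 | frontier B ⊆ v} with hM₂
  by_contra hcon
  push Not at hcon
  obtain ⟨hnu, hnv⟩ := hcon
  have hB₂ : ∃ B ∈ F.𝓜, ¬ frontier B ⊆ u := by
    by_contra h
    push Not at h
    exact hnu (iUnion₂_subset h)
  have hB₁ : ∃ B ∈ F.𝓜, ¬ frontier B ⊆ v := by
    by_contra h
    push Not at h
    exact hnv (iUnion₂_subset h)
  obtain ⟨B₁, hB₁, hB₁'⟩ := hB₁
  obtain ⟨B₂, hB₂, hB₂'⟩ := hB₂
  have hm₁ : B₁ ∈ M₁ := ⟨hB₁, (h1 B₁ hB₁).resolve_right hB₁'⟩
  have hm₂ : B₂ ∈ M₂ := ⟨hB₂, (h1 B₂ hB₂).resolve_left hB₂'⟩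
  have hc₁ : IsClosed (⋃ B ∈ M₁, id B) := F.isClosed_union (fun B hB => hB.1)
    (fun B hB => (F.nice B hB.1).compact.isClosed) fun B _ => Subset.rfl
  have hc₂ : IsClosed (⋃ B ∈ M₂, id B) := F.isClosed_union (fun B hB => hB.1)
    (fun B hB => (F.nice B hB.1).compact.isClosed) fun B _ => Subset.rfl
  obtain ⟨b₁, hb₁⟩ := F.ne B₁ hB₁
  obtain ⟨b₂, hb₂⟩ := F.ne B₂ hB₂
  obtain ⟨z, -, hz₁, hz₂⟩ := isPreconnected_closed_iff.1 (isPreconnected_univ (α := X)) _ _ hc₁ hc₂
    (fun x _ => by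
      obtain ⟨B, hB, hx⟩ := F.cover x
      rcases h1 B hB with h | h
      · exact Or.inl (mem_biUnion (show B ∈ M₁ from ⟨hB, h⟩) (interior_subset hx))
      · exact Or.inr (mem_biUnion (show B ∈ M₂ from ⟨hB, h⟩) (interior_subset hx)))
    ⟨b₁, mem_univ _, mem_biUnion hm₁ hb₁⟩ ⟨b₂, mem_univ _, mem_biUnion hm₂ hb₂⟩
  obtain ⟨B, hB, hzB⟩ := mem_iUnion₂.1 hz₁
  obtain ⟨B', hB', hzB'⟩ := mem_iUnion₂.1 hz₂
  obtain ⟨y, hy, hy'⟩ := F.meet hB.1 hB'.1 ⟨z, hzB, hzB'⟩
  exact hdis' y ⟨F.front_sub hB.1 hy, hB.2 hy, hB'.2 hy'⟩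

theorem nonempty_E : F.E.Nonempty := by
  obtain ⟨B, hB, -⟩ := F.cover F.p
  obtain ⟨y, hy⟩ := (F.nice B hB).frontier_nonempty (F.ne B hB)
  exact ⟨y, F.front_sub hB hy⟩

/-- Every cell is inside the interior of a member. -/
theorem cell_sub {y : X} (hy : y ∉ F.E) :
    ∃ B ∈ F.𝓜, y ∈ interior B ∧ connectedComponentIn F.Eᶜ y ⊆ interior B := by
  obtain ⟨B, hB, hyB⟩ := F.cover y
  refine ⟨B, hB, hyB, ?_⟩
  have hd : Disjoint (connectedComponentIn F.Eᶜ y) (frontier B) :=
    disjoint_left.2 fun x hx hx' => connectedComponentIn_subset _ _ hx (F.front_sub hB hx')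
  rcases subset_or_disjoint_of_frontier isPreconnected_connectedComponentIn hd with h | h
  · intro x hx
    by_contra h3
    exact disjoint_left.1 hd hx ⟨subset_closure (h hx), h3⟩
  · exact absurd (interior_subset hyB) (disjoint_left.1 h (mem_connectedComponentIn hy))

theorem delta_pos : 0 < F.δ := by
  obtain ⟨B, hB, hx⟩ := F.cover F.p
  have := F.small B hB _ (interior_subset hx) _ (interior_subset hx)
  rwa [dist_self] at this

theorem nontrivial_E : F.E.Nontrivial := by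
  by_contra hcon
  rw [not_nontrivial_iff] at hcon
  obtain ⟨e, he⟩ := F.nonempty_E
  have key : ∀ x : X, dist x e < F.δ := by
    intro x
    by_cases hx : x ∈ F.E
    · rw [hcon hx he, dist_self]; exact F.delta_pos
    · obtain ⟨B, hB, hxB, hsub⟩ := F.cell_sub hx
      have ho : IsOpen (connectedComponentIn F.Eᶜ x) :=
        F.isClosed_E.isOpen_compl.connectedComponentIn
      have hxm : x ∈ connectedComponentIn F.Eᶜ x := mem_connectedComponentIn hx
      have hfn : (frontier (connectedComponentIn F.Eᶜ x)).Nonempty := by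
        rw [nonempty_iff_ne_empty]
        intro h1
        rcases isClopen_iff.1 (isClopen_iff_frontier_eq_empty.2 h1) with h2 | h2
        · exact (h2 ▸ hxm : x ∈ (∅ : Set X))
        · exact connectedComponentIn_subset _ _ (h2 ▸ mem_univ e :
            e ∈ connectedComponentIn F.Eᶜ x) he
      obtain ⟨y, hy⟩ := hfn
      have hyE : y ∈ F.E := by
        have := frontier_component_disjoint F.isClosed_E.isOpen_compl hy
        rwa [notMem_compl_iff] at this
      have hye : y = e := hcon hyE he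
      have h3 : e ∈ B := by
        rw [← hye]
        exact closure_minimal (hsub.trans interior_subset) (F.nice B hB).compact.isClosed
          (frontier_subset_closure hy)
      exact F.small B hB x (interior_subset hxB) e h3
  linarith [key F.p, key F.q, dist_triangle_right F.p F.q e, F.pq]

theorem cells (K : Set X) (hK : IsCompact K) : ∃ K', IsCompact K' ∧ K ⊆ K' ∧
    ∀ y ∈ K, y ∉ F.E → closure (connectedComponentIn F.Eᶜ y) ⊆ K' := by
  refine ⟨K ∪ ⋃ B ∈ {B ∈ F.𝓜 | (B ∩ K).Nonempty}, B, hK.union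
    ((F.fin K hK).isCompact_biUnion fun B hB => (F.nice B hB.1).compact), subset_union_left, ?_⟩
  intro y hy hyE
  obtain ⟨B, hB, hyB, hsub⟩ := F.cell_sub hyE
  refine Subset.trans ?_ (Subset.trans (subset_biUnion_of_mem (u := fun B => B)
    (show B ∈ {B ∈ F.𝓜 | (B ∩ K).Nonempty} from ⟨hB, y, interior_subset hyB, hy⟩))
    subset_union_right)
  exact closure_minimal (hsub.trans interior_subset) (F.nice B hB).compact.isClosed

theorem unic {x : X} (hx : x ∉ F.E) {W : Set X} (hW : IsOpen W) (hWc : IsConnected W)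
    (hWx : W ⊆ connectedComponentIn F.Eᶜ x) {e : X} (he : e ∈ F.E) :
    IsPreconnected (frontier (connectedComponentIn Wᶜ e)) := by
  obtain ⟨B, hB, hxB, hsub⟩ := F.cell_sub hx
  have hn := F.nice B hB
  obtain ⟨N, hN, hBN, hNBc, z, hzN, hzB⟩ := hn.patch
  have hWB : W ⊆ interior B := hWx.trans hsub
  have hWN : W ⊆ N := hWB.trans (interior_subset.trans hBN)
  have hWE : ∀ y ∈ W, y ∉ F.E := fun y hy => connectedComponentIn_subset _ _ (hWx hy)
  set Q := connectedComponentIn Wᶜ e with hQ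
  have hQsub : Q ⊆ Wᶜ := connectedComponentIn_subset _ _
  have hEQ : F.E ⊆ Q := F.isPreconnected_E.subset_connectedComponentIn he
    fun y hy hyW => hWE y hyW hy
  have hBQ : closure Bᶜ ⊆ Q := by
    obtain ⟨y, hy⟩ := hn.frontier_nonempty (F.ne B hB)
    have hy1 : y ∈ closure Bᶜ := by
      rw [frontier_eq_closure_inter_closure] at hy; exact hy.2
    have hy2 : Q = connectedComponentIn Wᶜ y := connectedComponentIn_eq (hEQ (F.front_sub hB hy))
    rw [hy2]
    refine hn.compl.closure.subset_connectedComponentIn hy1 ?_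
    rw [closure_compl]
    exact compl_subset_compl.2 hWB
  have hNB : N \ B ⊆ Q ∩ N := fun y hy => ⟨hBQ (subset_closure hy.2), hy.1⟩
  have hQN : IsPreconnected (Q ∩ N) := by
    have hQc : IsPreconnected Q := isPreconnected_connectedComponentIn
    rw [isPreconnected_iff_subset_of_disjoint] at hQc hNBc ⊢
    have key : ∀ u v, IsOpen u → IsOpen v → Q ∩ N ⊆ u ∪ v → (Q ∩ N) ∩ (u ∩ v) = ∅ →
        N \ B ⊆ u → Q ∩ N ⊆ u := by
      intro u v hu hv hcov hdis hsu
      have hdis' := eq_empty_iff_forall_notMem.1 hdis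
      rcases hQc (u ∪ Bᶜ) (v ∩ N) (hu.union hn.compact.isClosed.isOpen_compl)
        (hv.inter hN.isOpen) (fun y hy => by
          by_cases hyN : y ∈ N
          · rcases hcov ⟨hy, hyN⟩ with h | h
            · exact Or.inl (Or.inl h)
            · exact Or.inr ⟨h, hyN⟩
          · exact Or.inl (Or.inr fun h => hyN (hBN h))) (by
          rw [eq_empty_iff_forall_notMem]
          rintro y ⟨hy, hyu | hyu, hyv, hyN⟩
          · exact hdis' y ⟨⟨hy, hyN⟩, hyu, hyv⟩
          · exact hdis' y ⟨⟨hy, hyN⟩, hsu ⟨hyN, hyu⟩, hyv⟩) with h | h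
      · rintro y ⟨hy, hyN⟩
        rcases h hy with h' | h'
        · exact h'
        · exact hsu ⟨hyN, h'⟩
      · have h2 := h (hNB ⟨hzN, hzB⟩).1
        exact absurd ⟨hNB ⟨hzN, hzB⟩, hsu ⟨hzN, hzB⟩, h2.1⟩ (hdis' z)
    intro u v hu hv hcov hdis
    rcases hNBc u v hu hv (hNB.trans hcov)
      (subset_eq_empty (inter_subset_inter_left _ hNB) hdis) with h | h
    · exact Or.inl (key u v hu hv hcov hdis h)
    · exact Or.inr (key v u hv hu (by rwa [union_comm]) (by rwa [inter_comm v u]) h)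
  have hzW : z ∈ N \ W := ⟨hzN, fun h => hzB (interior_subset (hWB h))⟩
  have hzQ : z ∈ Q := (hNB ⟨hzN, hzB⟩).1
  have hQeq : Q ∩ N = connectedComponentIn (N \ W) z := by
    refine Subset.antisymm (hQN.subset_connectedComponentIn ⟨hzQ, hzN⟩
      fun y hy => ⟨hy.2, hQsub hy.1⟩) fun y hy => ⟨?_, (connectedComponentIn_subset _ _ hy).1⟩
    rw [hQ, connectedComponentIn_eq hzQ]
    exact isPreconnected_connectedComponentIn.subset_connectedComponentIn
      (mem_connectedComponentIn hzW)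
      ((connectedComponentIn_subset _ _).trans fun w hw => hw.2) hy
  have h1 := hN.frontier_component hWN hWc.isPreconnected hzW
  rw [← hQeq, frontier_inter_open_inter hN.isOpen] at h1
  have h2 : frontier Q ⊆ N := by
    refine (frontier_compl_component hW e).trans (frontier_subset_closure.trans ?_)
    exact (closure_minimal (hWB.trans interior_subset) hn.compact.isClosed).trans hBN
  rwa [inter_eq_left.2 h2] at h1

/-- The skeleton of a family. -/
def skel (hfin : ∀ x : X, ∃ U ∈ 𝓝 x, μH[2] U < ∞) : Skel X where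
  E := F.E
  closed := F.isClosed_E
  conn := ⟨F.nonempty_E, F.isPreconnected_E⟩
  nontriv := F.nontrivial_E
  pieces := frontier '' F.𝓜
  E_eq := by rw [sUnion_image]; rfl
  piece_compact := by
    rintro _ ⟨B, hB, rfl⟩
    exact (F.nice B hB).compact.of_isClosed_subset isClosed_frontier
      (F.nice B hB).compact.isClosed.frontier_subset
  piece_conn := by
    rintro _ ⟨B, hB, rfl⟩
    exact ⟨(F.nice B hB).frontier_nonempty (F.ne B hB), (F.nice B hB).front⟩
  piece_fin := by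
    rintro _ ⟨B, hB, rfl⟩
    exact (F.nice B hB).fin
  locfin := by
    intro x
    obtain ⟨K, hK, hKx⟩ := exists_compact_mem_nhds x
    refine ⟨K, hKx, ((F.fin K hK).image frontier).subset ?_⟩
    rintro _ ⟨⟨B, hB, rfl⟩, h⟩
    exact ⟨B, ⟨hB, h.mono (inter_subset_inter_left _
      (F.nice B hB).compact.isClosed.frontier_subset)⟩, rfl⟩
  cells := F.cells
  unic := fun x hx W hW hWc hWx e he => F.unic hx hW hWc hWx he
  small := by
    intro x r hr
    obtain ⟨B, h1, h2, h3⟩ := exists_nice hfin x isOpen_ball (mem_ball_self hr)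
    refine ⟨interior B, isOpen_interior, h2, interior_subset.trans h3, ?_⟩
    rw [← closure_compl]
    exact h1.compl.closure
  fin := hfin

end Family

theorem exists_skel [SecondCountableTopology X] (hfin : ∀ x : X, ∃ U ∈ 𝓝 x, μH[2] U < ∞) :
    Nonempty (Skel X) :=
  (exists_family hfin).elim fun F => ⟨F.skel hfin⟩

end Pool.Agent.QCS
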