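import Mathlib

/-!
# Connected locally separable metric spaces are second countable
-/

open Set Metric Topology Filter

namespace Pool.Agent.QCS

theorem secondCountable_of_locally {X : Type*} [MetricSpace X] [ConnectedSpace X]
    (h : ∀ x : X, ∃ U ∈ 𝓝 x, TopologicalSpace.IsSeparable U) : SecondCountableTopology X := by
  set R : X → Set ℝ := fun x => {r | r ≤ 1 ∧ TopologicalSpace.IsSeparable (ball x r)} with hR
  have hbdd : ∀ x, BddAbove (R x) := fun x => ⟨1, fun r hr => hr.1⟩
  have hne : ∀ x, (R x).Nonempty := fun x => ⟨0, zero_le_one, by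
    rw [ball_zero]; exact countable_empty.isSeparable⟩
  set ρ : X → ℝ := fun x => sSup (R x) with hρ
  have hpos : ∀ x, 0 < ρ x := by
    intro x
    obtain ⟨U, hU, hUs⟩ := h x
    obtain ⟨ε, hε, hsub⟩ := Metric.mem_nhds_iff.1 hU
    have h1 : min ε 1 ∈ R x := ⟨min_le_right _ _,
      hUs.mono ((ball_subset_ball (min_le_left _ _)).trans hsub)⟩
    exact (lt_min hε one_pos).trans_le (le_csSup (hbdd x) h1)
  have hsep : ∀ x r, r < ρ x → TopologicalSpace.IsSeparable (ball x r) := by
    intro x r hr
    obtain ⟨r', hr', hlt⟩ := exists_lt_of_lt_csSup (hne x) hr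
    exact hr'.2.mono (ball_subset_ball hlt.le)
  have hlip : ∀ x y, ρ x - dist x y ≤ ρ y := by
    intro x y
    by_contra hcon
    push Not at hcon
    obtain ⟨r, hr, hlt⟩ := exists_lt_of_lt_csSup (hne x) (show ρ y + dist x y < ρ x by linarith)
    have h1 : r - dist x y ∈ R y := by
      refine ⟨by linarith [hr.1, dist_nonneg (x := x) (y := y)], hr.2.mono fun z hz => ?_⟩
      rw [mem_ball] at hz ⊢
      linarith [dist_triangle z y x, dist_comm x y]
    have h2 := le_csSup (hbdd y) h1
    change r - dist x y ≤ ρ y at h2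
    linarith
  have hc : ∀ x, ∃ c : Set X, c.Countable ∧ ball x (ρ x / 2) ⊆ closure c := fun x =>
    hsep x (ρ x / 2) (by linarith [hpos x])
  choose c hcc hcs using hc
  obtain ⟨x₀⟩ := (inferInstance : Nonempty X)
  set D : ℕ → Set X := fun n => Nat.rec {x₀} (fun _ S => S ∪ ⋃ x ∈ S, c x) n with hD
  have hD0 : D 0 = {x₀} := rfl
  have hDs : ∀ n, D (n + 1) = D n ∪ ⋃ x ∈ D n, c x := fun n => rfl
  have hDc : ∀ n, (D n).Countable := by
    intro n
    induction n with
    | zero => rw [hD0]; exact countable_singleton _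
    | succ n ih => rw [hDs]; exact ih.union (ih.biUnion fun x _ => hcc x)
  set T : Set X := ⋃ n, D n with hT
  have hTc : T.Countable := countable_iUnion hDc
  have hTcl : ∀ x ∈ T, c x ⊆ T := by
    intro x hx
    obtain ⟨n, hn⟩ := mem_iUnion.1 hx
    intro y hy
    refine mem_iUnion.2 ⟨n + 1, ?_⟩
    rw [hDs]
    exact Or.inr (mem_biUnion hn hy)
  have hopen : IsOpen (closure T) := by
    rw [Metric.isOpen_iff]
    intro y hy
    obtain ⟨x, hx, hxy⟩ := Metric.mem_closure_iff.1 hy (ρ y / 4) (by linarith [hpos y])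
    refine ⟨ρ y / 8, by linarith [hpos y], fun z hz => ?_⟩
    have h1 := hlip y x
    have h2 : z ∈ ball x (ρ x / 2) := by
      rw [mem_ball] at hz ⊢
      linarith [dist_triangle z y x]
    exact closure_mono (hTcl x hx) (hcs x h2)
  have huniv : closure T = univ := by
    rcases isClopen_iff.1 ⟨isClosed_closure, hopen⟩ with h | h
    · exact absurd (subset_closure (mem_iUnion.2 ⟨0, rfl⟩ : x₀ ∈ T)) (h ▸ notMem_empty x₀)
    · exact h
  have : TopologicalSpace.SeparableSpace X := ⟨T, hTc, dense_iff_closure_eq.2 huniv⟩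
  exact UniformSpace.secondCountable_of_separable X

end Pool.Agent.QCS
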