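import Pool.Agent.Lib.MP_811d89_an.Defs
import Pool.Agent.Lib.MP_811d89_an.SecCount

/-!
# Charts and countability of surfaces
-/

open Set Metric Topology Filter

namespace Pool.Agent.QCS

universe u

/-- A translated open half plane inside the closed half plane. -/
noncomputable def halfMap (t : ℝ) :
    OpenPartialHomeomorph (EuclideanSpace ℝ (Fin 2)) (EuclideanHalfSpace 2) where
  toFun w := ⟨!₂[|w 0 + t|, w 1], abs_nonneg _⟩
  invFun z := !₂[z.1 0 - t, z.1 1]
  source := {w | 0 < w 0 + t}
  target := {z | 0 < z.1 0}
  map_source' := fun w hw => by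
    show 0 < |w 0 + t|
    exact abs_pos.2 (ne_of_gt hw)
  map_target' := fun z hz => by
    show 0 < z.1 0 - t + t
    rw [sub_add_cancel]; exact hz
  left_inv' := fun w hw => by
    have hw' : |w 0 + t| = w 0 + t := abs_of_pos hw
    ext i
    fin_cases i
    · show |w 0 + t| - t = w 0
      rw [hw']; ring
    · rfl
  right_inv' := fun z hz => by
    apply Subtype.ext
    ext i
    fin_cases i
    · show |z.1 0 - t + t| = z.1 0
      rw [sub_add_cancel]; exact abs_of_pos hz
    · rfl
  open_source := isOpen_lt continuous_const (by fun_prop)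
  open_target := isOpen_lt continuous_const (by fun_prop)
  continuousOn_toFun := by
    refine Continuous.continuousOn (Continuous.subtype_mk ?_ _)
    fun_prop
  continuousOn_invFun := by
    refine Continuous.continuousOn ?_
    fun_prop

theorem IsSurface.exists_chart {X : Type u} [TopologicalSpace X] (hX : IsSurface X) (x : X) :
    ∃ e : OpenPartialHomeomorph X (EuclideanHalfSpace 2), x ∈ e.source := by
  rcases hX x with ⟨e, he⟩ | h
  · refine ⟨e.trans (halfMap (1 - (e x) 0)), ?_⟩
    rw [OpenPartialHomeomorph.trans_source]
    refine ⟨he, ?_⟩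
    show 0 < (e x) 0 + (1 - (e x) 0)
    linarith
  · exact h

theorem IsSurface.nonempty_chartedSpace {X : Type u} [TopologicalSpace X] (hX : IsSurface X) :
    Nonempty (ChartedSpace (EuclideanHalfSpace 2) X) := by
  choose c hc using hX.exists_chart
  exact ⟨⟨univ, c, hc, fun _ => mem_univ _⟩⟩

theorem IsSurface.secondCountable {X : Type u} [MetricSpace X] [ConnectedSpace X]
    (hX : IsSurface X) : SecondCountableTopology X := by
  refine secondCountable_of_locally fun x => ?_
  obtain ⟨e, he⟩ := hX.exists_chart x
  have h0 : SecondCountableTopology (EuclideanHalfSpace 2) :=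
    Topology.IsEmbedding.subtypeVal.secondCountableTopology
  have h1 : SecondCountableTopology e.source := e.secondCountableTopology_source
  exact ⟨e.source, e.open_source.mem_nhds he, TopologicalSpace.IsSeparable.of_subtype e.source⟩

end Pool.Agent.QCS
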