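import Pool.Agent.Lib.MP_811d89_an.Asm
import Pool.Agent.Lib.MP_811d89_an.Skeleton
import Pool.Agent.Lib.MP_811d89_an.Surface

/-!
# The theorem for metric surfaces
-/

open MeasureTheory Set Metric Topology Filter
open scoped ENNReal NNReal Manifold

namespace Pool.Agent.QCS

universe u

theorem concl_of_charted (X : Type u) [MetricSpace X] [ConnectedSpace X]
    [SecondCountableTopology X] [ChartedSpace (EuclideanHalfSpace 2) X] (hX : LocFinH2 X) :
    Concl X C₂.toNNReal := by
  have h1 : LocallyConnectedSpace X :=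
    ChartedSpace.locallyConnectedSpace (EuclideanHalfSpace 2) X
  have hc : LocallyCompactSpace (EuclideanHalfSpace 2) := (𝓡∂ 2).locallyCompactSpace
  have h2 : LocallyCompactSpace X := ChartedSpace.locallyCompactSpace (EuclideanHalfSpace 2) X
  let m : MeasurableSpace X := borel X
  have hm : BorelSpace X := ⟨rfl⟩
  obtain ⟨S⟩ := exists_skel (X := X) (fun x => hX x)
  exact concl_of_skel S

theorem main : ∃ K : ℝ≥0, 1 ≤ K ∧ ∀ (X : Type u) [MetricSpace X] [ConnectedSpace X],
    IsSurface X → LocFinH2 X → ∃ (Y : Type u) (_ : MetricSpace Y),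
      IsLengthSpace Y ∧ LocFinH2 Y ∧ ∃ f : X ≃ₜ Y, IsQCWith K f := by
  refine ⟨C₂.toNNReal, ?_, fun X _ _ hs hX => ?_⟩
  · have h1 : ((1 : ℝ≥0) : ℝ≥0∞) ≤ (C₂.toNNReal : ℝ≥0∞) := by
      rw [ENNReal.coe_toNNReal C₂_ne_top]
      exact le_trans (by norm_num) C₂_ge
    exact_mod_cast h1
  · have h1 : SecondCountableTopology X := hs.secondCountable
    obtain ⟨c⟩ := hs.nonempty_chartedSpace
    exact concl_of_charted X hX

end Pool.Agent.QCS
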