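import Pool.Agent.Lib.MP_811d89_an.Meas

/-!
# The good set
-/

open MeasureTheory Set Metric Topology Filter
open scoped ENNReal NNReal

namespace Pool.Agent.QCS

set_option linter.unusedSectionVars false

universe u

variable {X : Type u} [MetricSpace X] [MeasurableSpace X] [BorelSpace X]
variable {Y : Type u} [MetricSpace Y] [MeasurableSpace Y] [BorelSpace Y]

/-- The supremum of the weight on balls of `Y`. -/
noncomputable def lam (S : Skel X) [LocallyConnectedSpace X] [ConnectedSpace X] (f : X ≃ₜ Y)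
    (x : X) (s : ℝ) : ℝ≥0∞ := ⨆ (y : X) (_ : dist (f x) (f y) < s), S.w y

/-- The mass of balls of `Y`, measured in `X`. -/
noncomputable def mass (f : X ≃ₜ Y) (x : X) (s : ℝ) : ℝ≥0∞ := μH[2] (f ⁻¹' ball (f x) s)

/-- The good set. -/
def Good (S : Skel X) [LocallyConnectedSpace X] [ConnectedSpace X] (f : X ≃ₜ Y) (c₀ : ℝ) : Set X :=
  {x | ∀ᶠ k : ℕ in atTop, ENNReal.ofReal (c₀ * ((1 / 2) ^ k) ^ 2) ≤
    mass f x ((1 / 2) ^ k) * lam S f x ((1 / 2) ^ k) ^ 2}

variable {S : Skel X} [LocallyConnectedSpace X] [ConnectedSpace X]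
variable {f : X ≃ₜ Y}

theorem w_le_lam {x y : X} {s : ℝ} (h : dist (f x) (f y) < s) : S.w y ≤ lam S f x s :=
  le_iSup₂_of_le y h le_rfl

theorem lam_le_one (x : X) (s : ℝ) : lam S f x s ≤ 1 := iSup₂_le fun y _ => S.w_le_one y

theorem lam_le {x : X} {s : ℝ} {r : ℝ≥0∞} (h : ∀ y, dist (f x) (f y) < s → S.w y ≤ r) :
    lam S f x s ≤ r := iSup₂_le h

theorem measurable_lam (s : ℝ) : Measurable fun x => lam S f x s := by
  refine measurable_of_Ioi fun a => ?_
  have : (fun x => lam S f x s) ⁻¹' Ioi a = {x | ∃ y, dist (f x) (f y) < s ∧ a < S.w y} := by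
    ext x
    simp only [lam, mem_preimage, mem_Ioi, lt_iSup_iff, exists_prop, mem_ofPred_eq]
  rw [this]
  refine IsOpen.measurableSet ?_
  have h2 : {x | ∃ y, dist (f x) (f y) < s ∧ a < S.w y} =
      ⋃ (y : X) (_ : a < S.w y), {x | dist (f x) (f y) < s} := by
    ext x; simp only [mem_ofPred_eq, mem_iUnion, exists_prop]; constructor
    · rintro ⟨y, h1, h2⟩; exact ⟨y, h2, h1⟩
    · rintro ⟨y, h1, h2⟩; exact ⟨y, h2, h1⟩
  rw [h2]
  exact isOpen_iUnion fun y => isOpen_iUnion fun _ =>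
    isOpen_lt (f.continuous.dist continuous_const) continuous_const

theorem measurable_mass (f : X ≃ₜ Y) (s : ℝ) : Measurable fun x => mass f x s := by
  refine measurable_of_Ioi fun a => ?_
  have : (fun x => mass f x s) ⁻¹' Ioi a = ⋃ n : ℕ, {x | a < mass f x (s - 1 / (n + 1 : ℝ))} := by
    ext x
    simp only [mem_preimage, mem_Ioi, mem_iUnion, mem_ofPred_eq]
    constructor
    · intro h
      have h1 : f ⁻¹' ball (f x) s = ⋃ n : ℕ, f ⁻¹' ball (f x) (s - 1 / (n + 1 : ℝ)) := by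
        rw [← preimage_iUnion]
        congr 1
        refine Subset.antisymm (fun y hy => ?_) (iUnion_subset fun n => ball_subset_ball (by
          have : (0 : ℝ) < 1 / (n + 1 : ℝ) := by positivity
          linarith))
        rw [mem_ball] at hy
        obtain ⟨n, hn⟩ := exists_nat_one_div_lt (sub_pos.2 hy)
        exact mem_iUnion.2 ⟨n, by rw [mem_ball]; linarith⟩
      have hmono : Monotone fun n : ℕ => f ⁻¹' ball (f x) (s - 1 / (n + 1 : ℝ)) := by
        intro n m hnm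
        refine preimage_mono (ball_subset_ball ?_)
        have : (n : ℝ) ≤ m := by exact_mod_cast hnm
        gcongr
      rw [mass, h1, hmono.measure_iUnion] at h
      exact lt_iSup_iff.1 h
    · rintro ⟨n, hn⟩
      refine hn.trans_le (measure_mono (preimage_mono (ball_subset_ball ?_)))
      have : (0 : ℝ) < 1 / (n + 1 : ℝ) := by positivity
      linarith
  -- the set is open
  refine IsOpen.measurableSet ?_
  rw [isOpen_iff_mem_nhds]
  intro x hx
  rw [this] at hx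
  obtain ⟨n, hn⟩ := mem_iUnion.1 hx
  have h1 : ∀ᶠ x' in 𝓝 x, dist (f x) (f x') < 1 / (n + 1 : ℝ) := by
    have hc : Continuous fun x' => dist (f x) (f x') := continuous_const.dist f.continuous
    exact hc.continuousAt.eventually_lt_const (by
      show dist (f x) (f x) < _
      rw [dist_self]; positivity)
  filter_upwards [h1] with x' hx'
  have hn' : a < mass f x (s - 1 / (n + 1 : ℝ)) := hn
  refine hn'.trans_le (measure_mono (preimage_mono (ball_subset_ball' ?_)))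
  linarith

theorem measurableSet_Good (c₀ : ℝ) : MeasurableSet (Good S f c₀) := by
  have : Good S f c₀ = ⋃ n : ℕ, ⋂ k : ℕ, ⋂ (_ : n ≤ k),
      {x | ENNReal.ofReal (c₀ * ((1 / 2) ^ k) ^ 2) ≤
        mass f x ((1 / 2) ^ k) * lam S f x ((1 / 2) ^ k) ^ 2} := by
    ext x
    simp only [Good, eventually_atTop, mem_ofPred_eq, mem_iUnion, mem_iInter]
  rw [this]
  exact MeasurableSet.iUnion fun n => MeasurableSet.iInter fun k => MeasurableSet.iInter fun _ =>
    measurableSet_le measurable_const ((measurable_mass f _).mul ((measurable_lam _).pow_const 2))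

variable [LocallyCompactSpace X]

theorem H2_good_aux [SecondCountableTopology X] (_hf : Trim S f) {c₀ : ℝ} (hc₀ : 0 < c₀)
    {A : Set X} (hAG : A ⊆ Good S f c₀) {a : ℝ≥0} (hA : ∀ x ∈ A, S.w x < a) :
    μH[2] (f '' A) ≤ 100 * ((a : ℝ≥0∞) ^ 2 / ENNReal.ofReal c₀) * μH[2] A := by
  have := S.locfin_measure
  have : Measure.Regular (μH[2] : Measure X) :=
    Measure.Regular.of_sigmaCompactSpace_of_isLocallyFiniteMeasure _
  have : SecondCountableTopology Y := f.symm.isEmbedding.secondCountableTopology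
  have hc₀' : ENNReal.ofReal c₀ ≠ 0 := by simpa using hc₀
  have hCfin : 100 * ((a : ℝ≥0∞) ^ 2 / ENNReal.ofReal c₀) ≠ ∞ :=
    ENNReal.mul_ne_top (by norm_num) (ENNReal.div_ne_top (by finiteness) hc₀')
  have key : ∀ V : Set X, IsOpen V → A ⊆ V →
      μH[2] (f '' A) ≤ 100 * ((a : ℝ≥0∞) ^ 2 / ENNReal.ofReal c₀) * μH[2] V := by
    intro V hV hAV
    have h1 := vitali_H2 (Measure.map f μH[2]) (A := f '' A) (U := f '' V)
      (C := (a : ℝ≥0∞) ^ 2 / ENNReal.ofReal c₀) (by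
      rintro _ ⟨x, hx, rfl⟩ r₀ hr₀
      have hfV : IsOpen (f '' V) := f.isOpenMap _ hV
      obtain ⟨r₁, hr₁, hsub⟩ := Metric.nhds_basis_closedBall.mem_iff.1
        (hfV.mem_nhds ⟨x, hAV hx, rfl⟩)
      have hwo : IsOpen (f '' {z | S.w z < a}) := f.isOpenMap _ (S.isOpen_w_lt _)
      obtain ⟨r₂, hr₂, hsub₂⟩ := Metric.nhds_basis_closedBall.mem_iff.1
        (hwo.mem_nhds ⟨x, hA x hx, rfl⟩)
      have hpow : ∀ᶠ k : ℕ in atTop, (1 / 2 : ℝ) ^ k < min (min r₀ r₁) r₂ :=
        (tendsto_pow_atTop_nhds_zero_of_lt_one (by norm_num) (by norm_num)).eventually_lt_const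
          (by positivity)
      obtain ⟨k, hk, hG⟩ := (hpow.and (hAG hx)).exists
      set r : ℝ := (1 / 2) ^ k with hr
      have hr0 : 0 < r := by positivity
      have hrr₀ : r < r₀ := hk.trans_le ((min_le_left _ _).trans (min_le_left _ _))
      have hrr₁ : r ≤ r₁ := (hk.trans_le ((min_le_left _ _).trans (min_le_right _ _))).le
      have hrr₂ : r ≤ r₂ := (hk.trans_le (min_le_right _ _)).le
      refine ⟨r, hr0, hrr₀, (closedBall_subset_closedBall hrr₁).trans hsub, ?_⟩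
      have hlam : lam S f x r ≤ a := by
        refine lam_le fun y hy => ?_
        obtain ⟨y', hy', hyy⟩ := hsub₂ (show f y ∈ closedBall (f x) r₂ by
          rw [mem_closedBall, dist_comm]; exact hy.le.trans hrr₂)
        rw [← f.injective hyy]
        exact (show S.w y' < a from hy').le
      have hmass : mass f x r ≤ Measure.map f μH[2] (closedBall (f x) r) := by
        rw [f.measurableEmbedding.map_apply]
        exact measure_mono (preimage_mono ball_subset_closedBall)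
      have h2 : ENNReal.ofReal c₀ * ENNReal.ofReal (r ^ 2) ≤
          Measure.map f μH[2] (closedBall (f x) r) * (a : ℝ≥0∞) ^ 2 := by
        rw [← ENNReal.ofReal_mul hc₀.le]
        refine hG.trans ?_
        gcongr
      calc ENNReal.ofReal (r ^ 2)
          = (ENNReal.ofReal c₀ * ENNReal.ofReal (r ^ 2)) / ENNReal.ofReal c₀ := by
            rw [mul_comm, ENNReal.mul_div_cancel_right hc₀' ENNReal.ofReal_ne_top]
        _ ≤ (Measure.map f μH[2] (closedBall (f x) r) * (a : ℝ≥0∞) ^ 2) / ENNReal.ofReal c₀ := by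
            gcongr
        _ = _ := by simp only [div_eq_mul_inv]; ring)
    rw [f.measurableEmbedding.map_apply, preimage_image_eq _ f.injective, ← mul_assoc] at h1
    exact h1
  rw [A.measure_eq_iInf_isOpen μH[2]]
  have e : ∀ g : Set X → ℝ≥0∞, 100 * ((a : ℝ≥0∞) ^ 2 / ENNReal.ofReal c₀) *
      (⨅ V, ⨅ (_ : A ⊆ V), ⨅ (_ : IsOpen V), g V) =
      ⨅ V, ⨅ (_ : A ⊆ V), ⨅ (_ : IsOpen V), 100 * ((a : ℝ≥0∞) ^ 2 / ENNReal.ofReal c₀) * g V := by
    intro g
    by_cases h0 : 100 * ((a : ℝ≥0∞) ^ 2 / ENNReal.ofReal c₀) = 0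
    · rw [h0]
      simp only [zero_mul]
      refine le_antisymm zero_le ?_
      exact iInf_le_of_le univ (iInf_le_of_le (subset_univ _) (iInf_le _ isOpen_univ))
    · rw [ENNReal.mul_iInf_of_ne h0 hCfin]
      refine iInf_congr fun V => ?_
      rw [ENNReal.mul_iInf_of_ne h0 hCfin]
      refine iInf_congr fun _ => ?_
      rw [ENNReal.mul_iInf_of_ne h0 hCfin]
  rw [e]
  exact le_iInf fun V => le_iInf fun hAV => le_iInf fun hV => key V hV hAV

theorem H2_good_zero [SecondCountableTopology X] (hf : Trim S f) {c₀ : ℝ} (hc₀ : 0 < c₀)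
    {A : Set X} (hAG : A ⊆ Good S f c₀) (hA : ∀ x ∈ A, S.w x = 0) : μH[2] (f '' A) = 0 := by
  have hc₀' : ENNReal.ofReal c₀ ≠ 0 := by simpa using hc₀
  have h1 : f '' A = ⋃ n, f '' (A ∩ compactCovering X n) := by
    rw [← image_iUnion, ← inter_iUnion, iUnion_compactCovering, inter_univ]
  rw [h1, measure_iUnion_null_iff]
  intro n
  set K := compactCovering X n
  have hKfin : μH[2] K ≠ ∞ := (S.compact_lt_top (isCompact_compactCovering X n)).ne
  refine le_antisymm ?_ zero_le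
  have h2 : ∀ j : ℕ, μH[2] (f '' (A ∩ K)) ≤
      100 * ((((1 / 2 : ℝ≥0) ^ j : ℝ≥0) : ℝ≥0∞) ^ 2 / ENNReal.ofReal c₀) * μH[2] K := by
    intro j
    refine (H2_good_aux hf hc₀ (inter_subset_left.trans hAG) (a := (1 / 2) ^ j)
      (fun x hx => ?_)).trans ?_
    · rw [hA x hx.1]
      have : (0 : ℝ≥0) < (1 / 2) ^ j := by positivity
      exact_mod_cast this
    · gcongr
      exact inter_subset_right
  have h3 : Tendsto (fun j : ℕ => 100 * ((((1 / 2 : ℝ≥0) ^ j : ℝ≥0) : ℝ≥0∞) ^ 2 /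
      ENNReal.ofReal c₀) * μH[2] K) atTop
      (𝓝 (100 * (((0 : ℝ≥0) : ℝ≥0∞) ^ 2 / ENNReal.ofReal c₀) * μH[2] K)) := by
    refine ENNReal.Tendsto.mul_const ?_ (Or.inr hKfin)
    refine ENNReal.Tendsto.const_mul ?_ (Or.inr (by norm_num))
    refine ENNReal.Tendsto.div_const ?_ (Or.inr hc₀')
    refine ENNReal.Tendsto.pow ?_
    rw [ENNReal.tendsto_coe]
    exact NNReal.tendsto_pow_atTop_nhds_zero_of_lt_one (by norm_num)
  have h4 := ge_of_tendsto' h3 h2
  simpa using h4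

theorem H2_good [SecondCountableTopology X] (hf : Trim S f) {c₀ : ℝ} (hc₀ : 0 < c₀)
    {A : Set X} (hAm : MeasurableSet A) (hAG : A ⊆ Good S f c₀) :
    μH[2] (f '' A) ≤ 400 / ENNReal.ofReal c₀ * ∫⁻ z in A, S.w z ^ 2 ∂μH[2] := by
  have hc₀' : ENNReal.ofReal c₀ ≠ 0 := by simpa using hc₀
  let P : ℕ → Set X := fun i => A ∩ {z | (((1 / 2 : ℝ≥0) ^ i : ℝ≥0) : ℝ≥0∞) ≤ S.w z ∧
    S.w z < ((2 * (1 / 2 : ℝ≥0) ^ i : ℝ≥0) : ℝ≥0∞)}
  have hPm : ∀ i, MeasurableSet (P i) := fun i => hAm.inter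
    ((measurableSet_le measurable_const S.measurable_w).inter
      (measurableSet_lt S.measurable_w measurable_const))
  have hpow : ∀ i j : ℕ, i < j → 2 * (1 / 2 : ℝ≥0) ^ j ≤ (1 / 2) ^ i := by
    intro i j hij
    obtain ⟨k, rfl⟩ := Nat.exists_eq_add_of_lt hij
    rw [pow_succ, pow_add]
    have h1 : (1 / 2 : ℝ≥0) ^ k ≤ 1 := pow_le_one₀ (by positivity) (by norm_num)
    calc 2 * ((1 / 2 : ℝ≥0) ^ i * (1 / 2) ^ k * (1 / 2)) = (1 / 2) ^ i * (1 / 2) ^ k := by ring
      _ ≤ (1 / 2) ^ i * 1 := by gcongr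
      _ = _ := mul_one _
  have hPd : Pairwise (Function.onFun Disjoint P) := by
    have key : ∀ i j, i < j → Disjoint (P i) (P j) := by
      intro i j hij
      rw [Set.disjoint_left]
      rintro z hz hz'
      have h1 : S.w z < ((2 * (1 / 2 : ℝ≥0) ^ j : ℝ≥0) : ℝ≥0∞) := hz'.2.2
      have h2 : (((1 / 2 : ℝ≥0) ^ i : ℝ≥0) : ℝ≥0∞) ≤ S.w z := hz.2.1
      have h3 := h2.trans_lt h1
      exact absurd (by exact_mod_cast h3) (not_lt.2 (hpow i j hij))
    intro i j hij
    rcases lt_or_gt_of_ne hij with h | h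
    · exact key i j h
    · exact (key j i h).symm
  have hcover : A ⊆ (A ∩ {z | S.w z = 0}) ∪ ⋃ i, P i := by
    intro z hz
    by_cases h0 : S.w z = 0
    · exact Or.inl ⟨hz, h0⟩
    · refine Or.inr ?_
      have hex : ∃ i : ℕ, (((1 / 2 : ℝ≥0) ^ i : ℝ≥0) : ℝ≥0∞) ≤ S.w z := by
        have h3 : Tendsto (fun j : ℕ => (((1 / 2 : ℝ≥0) ^ j : ℝ≥0) : ℝ≥0∞)) atTop
            (𝓝 ((0 : ℝ≥0) : ℝ≥0∞)) := by
          rw [ENNReal.tendsto_coe]
          exact NNReal.tendsto_pow_atTop_nhds_zero_of_lt_one (by norm_num)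
        have h4 := h3.eventually_lt_const (u := S.w z) (by
          rw [ENNReal.coe_zero]; exact pos_iff_ne_zero.2 h0)
        obtain ⟨i, hi⟩ := h4.exists
        exact ⟨i, hi.le⟩
      classical
      refine mem_iUnion.2 ⟨Nat.find hex, hz, Nat.find_spec hex, ?_⟩
      rcases Nat.eq_zero_or_pos (Nat.find hex) with h | h
      · rw [h]
        refine (S.w_le_one z).trans_lt ?_
        norm_num
      · obtain ⟨k, hk⟩ := Nat.exists_eq_succ_of_ne_zero h.ne'
        have h5 := Nat.find_min hex (m := k) (by omega)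
        rw [not_le] at h5
        rw [hk]
        have h6 : 2 * (1 / 2 : ℝ≥0) ^ (k.succ) = (1 / 2) ^ k := by rw [pow_succ]; ring
        rw [h6]; exact h5
  have h1 : μH[2] (f '' A) ≤ 0 + ∑' i, μH[2] (f '' P i) := by
    calc μH[2] (f '' A) ≤ μH[2] (f '' (A ∩ {z | S.w z = 0}) ∪ ⋃ i, f '' P i) := by
          refine measure_mono ?_
          rw [← image_iUnion, ← image_union]
          exact image_mono hcover
      _ ≤ μH[2] (f '' (A ∩ {z | S.w z = 0})) + μH[2] (⋃ i, f '' P i) := measure_union_le _ _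
      _ ≤ 0 + ∑' i, μH[2] (f '' P i) := by
          refine add_le_add ?_ (measure_iUnion_le _)
          exact (H2_good_zero hf hc₀ (inter_subset_left.trans hAG) fun x hx => hx.2).le
  rw [zero_add] at h1
  refine h1.trans ?_
  have h2 : ∀ i, μH[2] (f '' P i) ≤ 400 / ENNReal.ofReal c₀ * ∫⁻ z in P i, S.w z ^ 2 ∂μH[2] := by
    intro i
    set b : ℝ≥0 := (1 / 2) ^ i with hb
    have h3 := H2_good_aux hf hc₀ (A := P i) (inter_subset_left.trans hAG) (a := 2 * b)
      (fun x hx => hx.2.2)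
    refine h3.trans ?_
    have h4 : ((b : ℝ≥0) : ℝ≥0∞) ^ 2 * μH[2] (P i) ≤ ∫⁻ z in P i, S.w z ^ 2 ∂μH[2] := by
      rw [← setLIntegral_const]
      refine setLIntegral_mono' (hPm i) fun z hz => ?_
      gcongr
      exact hz.2.1
    calc 100 * (((2 * b : ℝ≥0) : ℝ≥0∞) ^ 2 / ENNReal.ofReal c₀) * μH[2] (P i)
        = 400 / ENNReal.ofReal c₀ * (((b : ℝ≥0) : ℝ≥0∞) ^ 2 * μH[2] (P i)) := by
          rw [← mul_assoc]
          congr 1
          rw [ENNReal.coe_mul, mul_pow, div_eq_mul_inv, div_eq_mul_inv]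
          have : (100 : ℝ≥0∞) * (((2 : ℝ≥0) : ℝ≥0∞) ^ 2) = 400 := by norm_num
          rw [← this]; ring
      _ ≤ _ := by gcongr
  calc ∑' i, μH[2] (f '' P i) ≤ ∑' i, 400 / ENNReal.ofReal c₀ * ∫⁻ z in P i, S.w z ^ 2 ∂μH[2] :=
        ENNReal.tsum_le_tsum h2
    _ = 400 / ENNReal.ofReal c₀ * ∑' i, ∫⁻ z in P i, S.w z ^ 2 ∂μH[2] := ENNReal.tsum_mul_left
    _ = 400 / ENNReal.ofReal c₀ * ∫⁻ z in ⋃ i, P i, S.w z ^ 2 ∂μH[2] := by
        rw [lintegral_iUnion hPm hPd]
    _ ≤ _ := by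
        gcongr
        exact iUnion_subset fun i => inter_subset_left

end Pool.Agent.QCS
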