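import Pool.Agent.Lib.MP_811d89_an.YCon
import Pool.Agent.Lib.MP_811d89_an.Defs

/-!
# The trimmed space is a length space
-/

open MeasureTheory Set Metric Topology Filter
open scoped ENNReal NNReal

namespace Pool.Agent.QCS

set_option linter.unusedSectionVars false

universe u

theorem LC_reparam {Y : Type*} [MetricSpace Y] {g : ℝ → Y} {φ : ℝ → ℝ} {L : ℝ} (hL : 0 ≤ L)
    (hφ : ContinuousOn φ (Icc 0 L)) (h0 : φ 0 = 0)
    (hg : ∀ s ∈ Icc 0 L, ∀ t ∈ Icc 0 L, s ≤ t → dist (g s) (g t) ≤ φ t - φ s) :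
    LC univ (g 0) (g L) (φ L) := by
  have hmono : ∀ s ∈ Icc 0 L, ∀ t ∈ Icc 0 L, s ≤ t → φ s ≤ φ t := fun s hs t ht hst =>
    sub_nonneg.1 (dist_nonneg.trans (hg s hs t ht hst))
  have hL0 : (0 : ℝ) ∈ Icc 0 L := ⟨le_rfl, hL⟩
  have hLL : L ∈ Icc 0 L := ⟨hL, le_rfl⟩
  have hM : 0 ≤ φ L := by rw [← h0]; exact hmono 0 hL0 L hLL hL
  have hex : ∀ u ∈ Icc 0 (φ L), ∃ s ∈ Icc 0 L, φ s = u := by
    intro u hu
    obtain ⟨s, hs, hsu⟩ := intermediate_value_Icc hL hφ (show u ∈ Icc (φ 0) (φ L) by rwa [h0])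
    exact ⟨s, hs, hsu⟩
  choose! σ hσ hσφ using hex
  have hd : ∀ s ∈ Icc 0 L, ∀ t ∈ Icc 0 L, dist (g s) (g t) ≤ |φ s - φ t| := by
    intro s hs t ht
    rcases le_total s t with h | h
    · rw [abs_sub_comm, abs_of_nonneg (sub_nonneg.2 (hmono s hs t ht h))]; exact hg s hs t ht h
    · rw [abs_of_nonneg (sub_nonneg.2 (hmono t ht s hs h)), dist_comm]; exact hg t ht s hs h
  set p : ℝ → ℝ := fun u => max 0 (min (φ L) u) with hp
  have hpr : ∀ u, p u ∈ Icc 0 (φ L) := fun u => ⟨le_max_left _ _, max_le hM (min_le_left _ _)⟩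
  have hpl : ∀ u v, |p u - p v| ≤ |u - v| := by
    intro u v
    calc |max 0 (min (φ L) u) - max 0 (min (φ L) v)| ≤ |min (φ L) u - min (φ L) v| := by
          have := abs_max_sub_max_le_abs (min (φ L) u) (min (φ L) v) 0
          rwa [max_comm, max_comm (min (φ L) v)] at this
      _ ≤ |u - v| := by simpa using abs_min_sub_min_le_max (φ L) u (φ L) v
  refine ⟨hM, fun u => g (σ (p u)), ?_, fun _ => mem_univ _, ?_, ?_⟩
  · refine LipschitzWith.of_dist_le_mul fun u v => ?_
    simp only [NNReal.coe_one, one_mul, Real.dist_eq]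
    refine (hd _ (hσ _ (hpr u)) _ (hσ _ (hpr v))).trans ?_
    rw [hσφ _ (hpr u), hσφ _ (hpr v)]
    exact hpl u v
  · have h1 : p 0 = 0 := by simp [hp, hM]
    refine dist_le_zero.1 ((hd _ (hσ _ (hpr 0)) 0 hL0).trans ?_)
    rw [hσφ _ (hpr 0), h1, h0]; simp
  · have h1 : p (φ L) = φ L := by simp [hp, hM]
    refine dist_le_zero.1 ((hd _ (hσ _ (hpr (φ L))) L hLL).trans ?_)
    rw [hσφ _ (hpr _), h1]; simp

theorem LC.exists_path {Y : Type*} [MetricSpace Y] {K : Set Y} {a b : Y} {L : ℝ}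
    (h : LC K a b L) : ∃ γ : Path a b, eVariationOn γ univ ≤ ENNReal.ofReal L := by
  obtain ⟨h0, c, hc, hK, ha, hb⟩ := h
  let γ : Path a b :=
    { toFun := fun t => c (L * t)
      continuous_toFun := hc.continuous.comp (continuous_const.mul continuous_subtype_val)
      source' := by simpa using ha
      target' := by simpa using hb }
  refine ⟨γ, ?_⟩
  let g : unitInterval → ℝ := fun t => L * t
  have h1 : eVariationOn (c ∘ g) univ ≤ (1 : ℝ≥0) * eVariationOn g univ :=
    (hc.lipschitzOnWith (s := univ)).comp_eVariationOn_le (mapsTo_univ _ _)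
  have hmono : MonotoneOn g univ := fun s _ t _ hst =>
    mul_le_mul_of_nonneg_left (show (s : ℝ) ≤ t from hst) h0
  have h2 := (hmono.eVariationOn_eq (mem_univ (0 : unitInterval)) (mem_univ 1)).le
  have h3 : (univ : Set unitInterval) ∩ Icc 0 1 = univ := by
    rw [univ_inter]
    ext t
    simp only [mem_Icc, mem_univ, iff_true]
    exact ⟨t.2.1, t.2.2⟩
  rw [h3] at h2
  have h4 : g 1 - g 0 = L := by simp [g]
  rw [h4] at h2
  have h5 : eVariationOn γ univ = eVariationOn (c ∘ g) univ := rfl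
  rw [h5]
  refine h1.trans ?_
  simpa using h2

variable {X : Type u} [MetricSpace X] [MeasurableSpace X] [BorelSpace X]
variable {Y : Type u} [MetricSpace Y]

/-- The defining property of the trimmed space. -/
structure Trim (S : Skel X) (f : X ≃ₜ Y) : Prop where
  edist_eq : ∀ x y, S.v x ≠ ∞ → S.v y ≠ ∞ → edist (f x) (f y) = cost S.w x y

variable {S : Skel X} [LocallyConnectedSpace X] [ConnectedSpace X] [LocallyCompactSpace X]

/-- Non-constant rectifiable curves consist of reachable points. -/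
theorem reach_of_curve {c : ℝ → X} (hc : LipschitzWith 1 c) {a b : ℝ} (hab : a ≤ b)
    (hne : c a ≠ c b) (s : ℝ) : S.v (c s) ≠ ∞ := by
  obtain ⟨κ, hκ, hκ1, h⟩ := S.exists_not_deep (isCompact_Icc.image hc.continuous (s := Icc a b))
    (dist_pos.2 hne)
  obtain ⟨z, ⟨u, hu, rfl⟩, hz⟩ := h _ Subset.rfl (isCompact_Icc.image hc.continuous)
    (isPreconnected_Icc.image c hc.continuous.continuousOn)
    ⟨c a, ⟨a, ⟨le_rfl, hab⟩, rfl⟩, c b, ⟨b, ⟨hab, le_rfl⟩, rfl⟩, le_rfl⟩
  have h1 := S.v_ne_top_of_not_deep hκ hz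
  rcases le_total u s with h2 | h2
  · exact S.v_ne_top_of_LC (Skel.LC_univ hc h2) h1
  · exact S.v_ne_top_of_LC (Skel.LC_univ hc h2).symm h1

variable {f : X ≃ₜ Y}

theorem Trim.edist_curve (hf : Trim S f) {c : ℝ → X} (hc : LipschitzWith 1 c) {a b : ℝ}
    (hab : a ≤ b) : edist (f (c a)) (f (c b)) ≤ ∫⁻ s in Icc a b, S.w (c s) := by
  by_cases h : c a = c b
  · rw [h, edist_self]; exact zero_le
  · rw [hf.edist_eq _ _ (reach_of_curve hc hab h a) (reach_of_curve hc hab h b)]
    exact cost_le_of_curve hc hab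

theorem Trim.edist_le_dl (hf : Trim S f) (K : Set X) (x y : X) :
    edist (f x) (f y) ≤ dl K x y := by
  refine le_iInf₂ fun L hL => ?_
  obtain ⟨h0, c, hc, -, rfl, rfl⟩ := hL
  refine (hf.edist_curve hc h0).trans ?_
  calc ∫⁻ s in Icc 0 L, S.w (c s) ≤ ∫⁻ _ in Icc 0 L, 1 := lintegral_mono fun s => S.w_le_one _
    _ = ENNReal.ofReal L := by simp

/-- Curves in the trimmed space between reachable points. -/
theorem Trim.LC_of_lt (hf : Trim S f) {x y : X} (hx : S.v x ≠ ∞) (hy : S.v y ≠ ∞) {r : ℝ}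
    (h : dist (f x) (f y) < r) : LC univ (f x) (f y) r := by
  have h1 : cost S.w x y < ENNReal.ofReal r := by
    rw [← hf.edist_eq x y hx hy, edist_dist]
    exact (ENNReal.ofReal_lt_ofReal_iff (dist_nonneg.trans_lt h)).2 h
  obtain ⟨L, c, hL, hc, rfl, rfl, hint⟩ := exists_of_cost_lt h1
  set F : ℝ → ℝ≥0∞ := fun s => ∫⁻ u in Icc 0 s, S.w (c u) with hF
  have hfin : ∀ s, F s ≠ ∞ := by
    intro s
    have h1 : F s ≤ ∫⁻ _ in Icc 0 s, 1 := lintegral_mono fun τ => S.w_le_one _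
    refine (h1.trans_lt ?_).ne
    rw [setLIntegral_const, Real.volume_Icc]
    finiteness
  have hadd : ∀ s t, 0 ≤ s → s ≤ t → F s + ∫⁻ u in Icc s t, S.w (c u) = F t := by
    intro s t hs hst
    rw [hF]; dsimp only
    rw [← restrict_Ico_eq_restrict_Icc (a := 0) (b := s),
      ← lintegral_union measurableSet_Icc, Ico_union_Icc_eq_Icc hs hst]
    rw [Set.disjoint_left]
    exact fun u hu hu' => absurd hu.2 (not_lt.2 hu'.1)
  have hpiece : ∀ s t, s ≤ t → ∫⁻ u in Icc s t, S.w (c u) ≤ ENNReal.ofReal (t - s) := by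
    intro s t hst
    calc ∫⁻ u in Icc s t, S.w (c u) ≤ ∫⁻ _ in Icc s t, 1 := lintegral_mono fun s => S.w_le_one _
      _ = ENNReal.ofReal (t - s) := by simp
  set φ : ℝ → ℝ := fun s => (F s).toReal with hφ
  have hsub : ∀ s t, 0 ≤ s → s ≤ t → φ t - φ s = (∫⁻ u in Icc s t, S.w (c u)).toReal := by
    intro s t hs hst
    have h2 := hadd s t hs hst
    have h3 : (∫⁻ u in Icc s t, S.w (c u)) ≠ ∞ :=
      ((hpiece s t hst).trans_lt ENNReal.ofReal_lt_top).ne
    rw [hφ]; dsimp only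
    rw [← h2, ENNReal.toReal_add (hfin s) h3]; ring
  have hcont : ContinuousOn φ (Icc 0 L) := by
    have : LipschitzOnWith 1 φ (Icc 0 L) := by
      refine LipschitzOnWith.of_dist_le_mul fun s hs t ht => ?_
      simp only [NNReal.coe_one, one_mul, Real.dist_eq]
      have key : ∀ s t, 0 ≤ s → s ≤ t → |φ t - φ s| ≤ t - s := by
        intro s t hs hst
        rw [hsub s t hs hst, abs_of_nonneg ENNReal.toReal_nonneg]
        have := ENNReal.toReal_mono ENNReal.ofReal_ne_top (hpiece s t hst)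
        rwa [ENNReal.toReal_ofReal (sub_nonneg.2 hst)] at this
      rcases le_total s t with h | h
      · rw [abs_sub_comm, abs_sub_comm s t, abs_of_nonneg (sub_nonneg.2 h)]; exact key s t hs.1 h
      · rw [abs_of_nonneg (sub_nonneg.2 h)]; exact key t s ht.1 h
    exact this.continuousOn
  have h2 := LC_reparam (g := fun s => f (c s)) hL hcont (by
      rw [hφ, hF]; dsimp only; rw [Icc_self]; simp) (fun s hs t ht hst => by
    rw [hsub s t hs.1 hst]
    have h3 := ENNReal.toReal_mono ((hpiece s t hst).trans_lt ENNReal.ofReal_lt_top).ne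
      (hf.edist_curve hc hst)
    rwa [edist_dist, ENNReal.toReal_ofReal dist_nonneg] at h3)
  refine h2.mono_length ?_
  have h3 := ENNReal.toReal_mono ENNReal.ofReal_ne_top hint.le
  rwa [ENNReal.toReal_ofReal (dist_nonneg.trans_lt h).le] at h3

/-- Reachable points near a given point of `Y`. -/
theorem Trim.exists_near (f : X ≃ₜ Y) (S : Skel X) (y : Y) {ε : ℝ} (hε : 0 < ε) :
    ∃ x, S.v x ≠ ∞ ∧ dist (f x) y < ε := by
  obtain ⟨x, rfl⟩ := f.surjective y
  obtain ⟨r, hr, h⟩ := Metric.continuous_iff.1 f.continuous x ε hε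
  obtain ⟨z, hz, hzv⟩ := S.dense_reach x hr
  exact ⟨z, hzv, h z (by rwa [dist_comm])⟩

/-- Every point of `Y` is joined to reachable points by short curves. -/
theorem Trim.exists_LC (hf : Trim S f) (y : Y) {ε : ℝ} (hε : 0 < ε) :
    ∃ x, S.v x ≠ ∞ ∧ LC univ (f x) y ε := by
  have : LocallyCompactSpace Y := f.symm.isOpenEmbedding.locallyCompactSpace
  obtain ⟨ρ, hρ, hcpt⟩ : ∃ ρ > 0, IsCompact (closedBall y ρ) := by
    obtain ⟨K, hK, hyK⟩ := exists_compact_mem_nhds y
    obtain ⟨ρ₁, hρ₁, hsub⟩ := Metric.nhds_basis_closedBall.mem_iff.1 hyK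
    exact ⟨ρ₁, hρ₁, hK.of_isClosed_subset isClosed_closedBall hsub⟩
  set θ := min ε (ρ / 2) with hθ
  have hθ0 : 0 < θ := lt_min hε (half_pos hρ)
  obtain ⟨x, hx, hxy⟩ := Trim.exists_near f S y (half_pos hθ0)
  refine ⟨x, hx, ?_⟩
  choose z hz hzy using fun n : ℕ => Trim.exists_near f S y
    (ε := min (θ / 2) (1 / (n + 1 : ℝ))) (by positivity)
  have hLC : ∀ n, LC (closedBall y ρ) (f x) (f (z n)) θ := by
    intro n
    have h1 : dist (f x) (f (z n)) < θ := by
      have h2 := dist_triangle_right (f x) (f (z n)) y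
      have h3 := (hzy n).trans_le (min_le_left _ _)
      linarith
    obtain ⟨h0, c, hc, -, hc0, hcL⟩ := hf.LC_of_lt hx (hz n) h1
    have h2 : LC (closedBall y ρ) (c 0) (c θ) (θ - 0) := by
      refine LC.of_curve hc h0 fun s hs => ?_
      rw [mem_closedBall]
      have h3 := lip_dist hc s 0
      rw [sub_zero, abs_of_nonneg hs.1, hc0] at h3
      have h4 := dist_triangle (c s) (f x) y
      have h5 : θ ≤ ρ / 2 := min_le_right _ _
      linarith [hs.2]
    rwa [hc0, hcL, sub_zero] at h2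
  have hlim : Tendsto (fun n => f (z n)) atTop (𝓝 y) := by
    rw [tendsto_iff_dist_tendsto_zero]
    exact squeeze_zero (fun _ => dist_nonneg) (fun n => (hzy n).le.trans (min_le_right _ _))
      tendsto_one_div_add_atTop_nhds_zero_nat
  have h3 := LC.limit hcpt hLC tendsto_const_nhds hlim tendsto_const_nhds
  exact (h3.mono (subset_univ _)).mono_length (min_le_left _ _)

theorem Trim.LC_all (hf : Trim S f) (a b : Y) {r : ℝ} (h : dist a b < r) : LC univ a b r := by
  set ε := (r - dist a b) / 5 with hε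
  have hε0 : 0 < ε := by rw [hε]; linarith
  obtain ⟨x, hx, hxa⟩ := hf.exists_LC a hε0
  obtain ⟨y, hy, hyb⟩ := hf.exists_LC b hε0
  have h1 := hxa.dist_le
  have h2 := hyb.dist_le
  have h3 : dist (f x) (f y) < dist a b + 3 * ε := by
    have h4 := dist_triangle4 (f x) a b (f y)
    rw [dist_comm b] at h4
    linarith
  have h5 := (hxa.symm.trans (hf.LC_of_lt hx hy h3)).trans hyb
  refine h5.mono_length (le_of_eq ?_)
  rw [hε]; ring

theorem Trim.isLengthSpace (hf : Trim S f) : IsLengthSpace Y := by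
  intro a b
  refine le_antisymm (le_iInf fun γ => ?_) ?_
  · have := eVariationOn.edist_le γ (mem_univ (0 : unitInterval)) (mem_univ 1)
    simpa using this
  · refine ENNReal.le_of_forall_pos_le_add fun ε hε _ => ?_
    have hε' : (0 : ℝ) < ε := by exact_mod_cast hε
    obtain ⟨γ, hγ⟩ := (hf.LC_all a b (lt_add_of_pos_right _ hε')).exists_path
    refine (iInf_le _ γ).trans (hγ.trans (le_of_eq ?_))
    rw [ENNReal.ofReal_add dist_nonneg hε'.le, ENNReal.ofReal_coe_nnreal, edist_dist]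

end Pool.Agent.QCS
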