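import Pool.Agent.Lib.MP_811d89_an.Len

/-!
# Comparison of the Hausdorff measures
-/

open MeasureTheory Set Metric Topology Filter
open scoped ENNReal NNReal

namespace Pool.Agent.QCS

set_option linter.unusedSectionVars false

universe u

open Measure in
/-- A Vitali covering bound for the Hausdorff `2`-measure. -/
theorem vitali_H2 {Y : Type*} [MetricSpace Y] [MeasurableSpace Y] [BorelSpace Y]
    [SecondCountableTopology Y] (ν : Measure Y) {A U : Set Y} {C : ℝ≥0∞}
    (h : ∀ x ∈ A, ∀ r₀ > 0, ∃ r, 0 < r ∧ r < r₀ ∧ closedBall x r ⊆ U ∧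
      ENNReal.ofReal (r ^ 2) ≤ C * ν (closedBall x r)) :
    μH[2] A ≤ 100 * (C * ν U) := by
  let ρ : ℕ → ℝ := fun n => 1 / (n + 1 : ℝ)
  have hρ : ∀ n, 0 < ρ n := fun n => by positivity
  have hcov : ∀ n : ℕ, ∃ u : Set (Y × ℝ), u.Countable ∧
      (∀ b ∈ u, 0 < b.2 ∧ b.2 < ρ n ∧ closedBall b.1 b.2 ⊆ U ∧
        ENNReal.ofReal (b.2 ^ 2) ≤ C * ν (closedBall b.1 b.2)) ∧
      (u.PairwiseDisjoint fun b => closedBall b.1 b.2) ∧
      A ⊆ ⋃ b : u, closedBall b.1.1 (5 * b.1.2) := by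
    intro n
    obtain ⟨u, hut, hdisj, hcover⟩ := Vitali.exists_disjoint_subfamily_covering_enlargement_closedBall
      {b : Y × ℝ | 0 < b.2 ∧ b.2 < ρ n ∧ closedBall b.1 b.2 ⊆ U ∧
        ENNReal.ofReal (b.2 ^ 2) ≤ C * ν (closedBall b.1 b.2)} Prod.fst Prod.snd (ρ n)
      (fun b hb => hb.2.1.le) 5 (by norm_num)
    refine ⟨u, ?_, fun b hb => hut hb, hdisj, fun x hx => ?_⟩
    · refine hdisj.countable_of_nonempty_interior fun b hb => ⟨b.1, ?_⟩
      exact ball_subset_interior_closedBall (mem_ball_self (hut hb).1)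
    · obtain ⟨r, h1, h2, h3, h4⟩ := h x hx (ρ n) (hρ n)
      obtain ⟨b, hb, hsub⟩ := hcover (x, r) ⟨h1, h2, h3, h4⟩
      exact mem_iUnion.2 ⟨⟨b, hb⟩, hsub (mem_closedBall_self h1.le)⟩
  choose u hcount hu hdisj hA using hcov
  have : ∀ n, Countable (u n) := fun n => (hcount n).to_subtype
  have hdiam : ∀ n, ∀ b : u n, ediam (closedBall b.1.1 (5 * b.1.2)) ≤
      ENNReal.ofReal (10 * b.1.2) := by
    intro n b
    refine ediam_le fun x hx y hy => ?_
    rw [edist_dist]
    refine ENNReal.ofReal_le_ofReal ?_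
    rw [mem_closedBall] at hx hy
    have := dist_triangle_right x y b.1.1
    linarith
  have key := hausdorffMeasure_le_liminf_tsum (d := 2) A (l := atTop)
    (r := fun n : ℕ => ENNReal.ofReal (10 * ρ n)) (ι := fun n => u n) (by
      have h1 : Tendsto (fun n : ℕ => 10 * ρ n) atTop (𝓝 (10 * 0)) :=
        tendsto_one_div_add_atTop_nhds_zero_nat.const_mul _
      rw [mul_zero] at h1
      simpa using ENNReal.tendsto_ofReal h1)
    (fun n b => closedBall b.1.1 (5 * b.1.2))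
    (Eventually.of_forall fun n b => (hdiam n b).trans (ENNReal.ofReal_le_ofReal
      (by linarith [(hu n b.1 b.2).2.1])))
    (Eventually.of_forall hA)
  refine key.trans ?_
  have hbound : ∀ n, ∑' b : u n, ediam (closedBall b.1.1 (5 * b.1.2)) ^ (2 : ℝ) ≤
      100 * (C * ν U) := by
    intro n
    calc ∑' b : u n, ediam (closedBall b.1.1 (5 * b.1.2)) ^ (2 : ℝ)
        ≤ ∑' b : u n, 100 * (C * ν (closedBall b.1.1 b.1.2)) := by
          refine ENNReal.tsum_le_tsum fun b => ?_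
          obtain ⟨h1, -, -, h4⟩ := hu n b.1 b.2
          calc ediam (closedBall b.1.1 (5 * b.1.2)) ^ (2 : ℝ)
              ≤ ENNReal.ofReal (10 * b.1.2) ^ (2 : ℝ) := by
                gcongr
                exact hdiam n b
            _ = 100 * ENNReal.ofReal (b.1.2 ^ 2) := by
                rw [ENNReal.rpow_two, ← ENNReal.ofReal_pow (by positivity), mul_pow,
                  ENNReal.ofReal_mul (by norm_num)]
                norm_num
            _ ≤ 100 * (C * ν (closedBall b.1.1 b.1.2)) := by gcongr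
      _ = 100 * (C * ∑' b : u n, ν (closedBall b.1.1 b.1.2)) := by
          rw [ENNReal.tsum_mul_left, ENNReal.tsum_mul_left]
      _ = 100 * (C * ν (⋃ b : u n, closedBall b.1.1 b.1.2)) := by
          rw [measure_iUnion]
          · intro a b hab
            exact hdisj n a.2 b.2 (fun h => hab (Subtype.ext h))
          · exact fun b => isClosed_closedBall.measurableSet
      _ ≤ 100 * (C * ν U) := by
          gcongr
          exact iUnion_subset fun b => (hu n b.1 b.2).2.2.1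
  refine (liminf_le_liminf (Eventually.of_forall hbound)).trans ?_
  simp

variable {X : Type u} [MetricSpace X] [MeasurableSpace X] [BorelSpace X]
variable {Y : Type u} [MetricSpace Y] [MeasurableSpace Y] [BorelSpace Y]
variable {S : Skel X} [LocallyConnectedSpace X] [ConnectedSpace X] [LocallyCompactSpace X]
variable {f : X ≃ₜ Y}

theorem Skel.locfin_measure (S : Skel X) : IsLocallyFiniteMeasure (μH[2] : Measure X) :=
  ⟨fun x => S.fin x⟩

theorem measurableSet_image_homeo (f : X ≃ₜ Y) {A : Set X} (hA : MeasurableSet A) :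
    MeasurableSet (f '' A) := f.measurableEmbedding.measurableSet_image.2 hA

/-! ### The weighted measure is bounded by the measure of `Y` -/

/-- Dyadic depth classes. -/
def Skel.Q (S : Skel X) : ℕ → Set X
  | 0 => {z | ∀ j : ℕ, S.deep ((1 / 2) ^ j) z}
  | (j + 1) => {z | ¬ S.deep ((1 / 2) ^ j) z ∧ ∀ i < j, S.deep ((1 / 2) ^ i) z}

theorem Skel.measurableSet_Q (S : Skel X) (j : ℕ) : MeasurableSet (S.Q j) := by
  cases j with
  | zero =>
    have : S.Q 0 = ⋂ j : ℕ, {z | S.deep ((1 / 2) ^ j) z} := by ext z; simp [Q]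
    rw [this]
    exact MeasurableSet.iInter fun j => (S.isOpen_deep _).measurableSet
  | succ j =>
    have : S.Q (j + 1) = {z | S.deep ((1 / 2) ^ j) z}ᶜ ∩
        ⋂ i : ℕ, ⋂ (_ : i < j), {z | S.deep ((1 / 2) ^ i) z} := by
      ext z; simp [Q]
    rw [this]
    exact (S.isOpen_deep _).measurableSet.compl.inter
      (MeasurableSet.iInter fun i => MeasurableSet.iInter fun _ => (S.isOpen_deep _).measurableSet)

theorem Skel.iUnion_Q (S : Skel X) : ⋃ j, S.Q j = univ := by
  classical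
  refine eq_univ_of_forall fun z => ?_
  by_cases h : ∀ j : ℕ, S.deep ((1 / 2) ^ j) z
  · exact mem_iUnion.2 ⟨0, h⟩
  · push Not at h
    exact mem_iUnion.2 ⟨Nat.find h + 1, Nat.find_spec h, fun i hi => by
      have := Nat.find_min h hi
      push Not at this
      exact this⟩

theorem Skel.Q_disjoint (S : Skel X) : Pairwise (Function.onFun Disjoint S.Q) := by
  have key : ∀ i j, i < j → Disjoint (S.Q (i + 1)) (S.Q (j + 1)) := by
    intro i j hij
    rw [Set.disjoint_left]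
    rintro z hz hz'
    exact hz.1 (hz'.2 i hij)
  have key0 : ∀ j, Disjoint (S.Q 0) (S.Q (j + 1)) := by
    intro j
    rw [Set.disjoint_left]
    rintro z hz hz'
    exact hz'.1 (hz j)
  intro i j hij
  show Disjoint (S.Q i) (S.Q j)
  cases i with
  | zero =>
    cases j with
    | zero => exact absurd rfl hij
    | succ j => exact key0 j
  | succ i =>
    cases j with
    | zero => exact (key0 i).symm
    | succ j =>
      rcases lt_or_gt_of_ne (fun h => hij (by rw [h]) : i ≠ j) with h | h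
      · exact key i j h
      · exact (key j i h).symm

theorem Skel.w_Q_zero (S : Skel X) {z : X} (hz : z ∈ S.Q 0) : S.w z = 0 := by
  refine le_antisymm ?_ zero_le
  have h1 : ∀ j : ℕ, S.w z ≤ 16 * (((1 / 2 : ℝ≥0) ^ j : ℝ≥0) : ℝ≥0∞) ^ 2 := fun j =>
    S.w_le_of_deep (hz j)
  have h2 : Tendsto (fun j : ℕ => 16 * (((1 / 2 : ℝ≥0) ^ j : ℝ≥0) : ℝ≥0∞) ^ 2) atTop
      (𝓝 (16 * ((0 : ℝ≥0) : ℝ≥0∞) ^ 2)) := by
    refine ENNReal.Tendsto.const_mul ?_ (Or.inr (by finiteness))
    refine ENNReal.Tendsto.pow ?_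
    rw [ENNReal.tendsto_coe]
    exact NNReal.tendsto_pow_atTop_nhds_zero_of_lt_one (by norm_num)
  have h3 := ge_of_tendsto' h2 h1
  simpa using h3

theorem Skel.w_Q_succ (S : Skel X) {j : ℕ} {z : X} (hz : z ∈ S.Q (j + 1)) :
    S.w z ≤ 64 * (((1 / 2 : ℝ≥0) ^ j : ℝ≥0) : ℝ≥0∞) ^ 2 := by
  cases j with
  | zero => refine (S.w_le_one z).trans ?_; norm_num
  | succ j =>
    refine (S.w_le_of_deep (hz.2 j (Nat.lt_succ_self j))).trans (le_of_eq ?_)
    have : (16 : ℝ≥0) * ((1 / 2) ^ j) ^ 2 = 64 * ((1 / 2) ^ (j + 1)) ^ 2 := by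
      rw [pow_succ (1 / 2 : ℝ≥0) j, mul_pow]
      have : (64 : ℝ≥0) * (1 / 2) ^ 2 = 16 := by norm_num
      rw [← this]; ring
    exact_mod_cast this

/-- Lower bound of the distance of `Y` on non-deep points. -/
theorem Trim.edist_le_of_not_deep (hf : Trim S f) {κ : ℝ≥0} (hκ : 0 < κ) (hκ1 : κ ≤ 1) {x y : X}
    (hx : ¬ S.deep κ x) (hy : ¬ S.deep κ y) :
    edist x y ≤ ((κ ^ 2)⁻¹ : ℝ≥0) * edist (f x) (f y) := by
  have h1 := S.dl_le_cost hκ hκ1 hx hy
  rw [← hf.edist_eq x y (S.v_ne_top_of_not_deep hκ hx) (S.v_ne_top_of_not_deep hκ hy)] at h1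
  have h2 := _root_.Pool.Agent.QCS.edist_le_dl univ x y
  have hne : ((κ ^ 2 : ℝ≥0) : ℝ≥0∞) ≠ 0 := by
    have : (0 : ℝ≥0) < κ ^ 2 := by positivity
    exact_mod_cast this.ne'
  calc edist x y ≤ dl univ x y := h2
    _ = ((κ ^ 2)⁻¹ : ℝ≥0) * ((κ : ℝ≥0∞) ^ 2 * dl univ x y) := by
        rw [← mul_assoc, ENNReal.coe_inv (by positivity), ← ENNReal.coe_pow,
          ENNReal.inv_mul_cancel hne ENNReal.coe_ne_top, one_mul]
    _ ≤ ((κ ^ 2)⁻¹ : ℝ≥0) * edist (f x) (f y) := by gcongr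

open Measure in
theorem Trim.w2_le (hf : Trim S f) {A : Set X} (hA : MeasurableSet A) :
    ∫⁻ z in A, S.w z ^ 2 ∂μH[2] ≤ 4096 * μH[2] (f '' A) := by
  have hpiece : ∀ j, ∫⁻ z in A ∩ S.Q j, S.w z ^ 2 ∂μH[2] ≤ 4096 * μH[2] (f '' (A ∩ S.Q j)) := by
    intro j
    cases j with
    | zero =>
      have : ∫⁻ z in A ∩ S.Q 0, S.w z ^ 2 ∂μH[2] = 0 := by
        rw [setLIntegral_congr_fun (hA.inter (S.measurableSet_Q 0))
          (fun z hz => by rw [S.w_Q_zero hz.2])]
        simp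
      rw [this]; exact zero_le
    | succ j =>
      set κ : ℝ≥0 := (1 / 2) ^ j with hκ
      have hκ0 : 0 < κ := by positivity
      have hκ1 : κ ≤ 1 := pow_le_one₀ (by positivity) (by norm_num)
      have hlip : LipschitzOnWith (κ ^ 2)⁻¹ f.symm (f '' (A ∩ S.Q (j + 1))) := by
        rintro _ ⟨x, hx, rfl⟩ _ ⟨y, hy, rfl⟩
        rw [f.symm_apply_apply, f.symm_apply_apply]
        exact hf.edist_le_of_not_deep hκ0 hκ1 hx.2.1 hy.2.1
      have h1 := hlip.hausdorffMeasure_image_le (d := 2) (by norm_num)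
      rw [← image_comp, show (f.symm ∘ f : X → X) = id by ext; simp, image_id] at h1
      calc ∫⁻ z in A ∩ S.Q (j + 1), S.w z ^ 2 ∂μH[2]
          ≤ ∫⁻ _ in A ∩ S.Q (j + 1), (64 * (κ : ℝ≥0∞) ^ 2) ^ 2 ∂μH[2] := by
            refine setLIntegral_mono' (hA.inter (S.measurableSet_Q _)) fun z hz => ?_
            gcongr
            exact S.w_Q_succ hz.2
        _ = (64 * (κ : ℝ≥0∞) ^ 2) ^ 2 * μH[2] (A ∩ S.Q (j + 1)) := by rw [setLIntegral_const]
        _ ≤ (64 * (κ : ℝ≥0∞) ^ 2) ^ 2 *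
            ((((κ ^ 2)⁻¹ : ℝ≥0) : ℝ≥0∞) ^ (2 : ℝ) * μH[2] (f '' (A ∩ S.Q (j + 1)))) := by gcongr
        _ = 4096 * μH[2] (f '' (A ∩ S.Q (j + 1))) := by
            rw [← mul_assoc, ENNReal.rpow_two]
            congr 1
            have : (64 * κ ^ 2) ^ 2 * ((κ ^ 2)⁻¹) ^ 2 = (4096 : ℝ≥0) := by
              field_simp; norm_num
            exact_mod_cast this
  have hAU : A = ⋃ j, A ∩ S.Q j := by rw [← inter_iUnion, S.iUnion_Q, inter_univ]
  have hdisj : Pairwise (Function.onFun Disjoint fun j => A ∩ S.Q j) := fun i j hij =>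
    (S.Q_disjoint hij).mono inter_subset_right inter_subset_right
  have hm : ∀ j, MeasurableSet (A ∩ S.Q j) := fun j => hA.inter (S.measurableSet_Q j)
  calc ∫⁻ z in A, S.w z ^ 2 ∂μH[2] = ∫⁻ z in ⋃ j, A ∩ S.Q j, S.w z ^ 2 ∂μH[2] := by rw [← hAU]
    _ = ∑' j, ∫⁻ z in A ∩ S.Q j, S.w z ^ 2 ∂μH[2] := lintegral_iUnion hm hdisj _
    _ ≤ ∑' j, 4096 * μH[2] (f '' (A ∩ S.Q j)) := ENNReal.tsum_le_tsum hpiece
    _ = 4096 * ∑' j, μH[2] (f '' (A ∩ S.Q j)) := ENNReal.tsum_mul_left
    _ = 4096 * μH[2] (⋃ j, f '' (A ∩ S.Q j)) := by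
        rw [measure_iUnion]
        · intro i j hij
          exact (disjoint_image_iff f.injective).2 (hdisj hij)
        · exact fun j => measurableSet_image_homeo f (hm j)
    _ = 4096 * μH[2] (f '' A) := by rw [← image_iUnion, ← hAU]

/-! ### The image of the skeleton is null -/

open Measure in
theorem Trim.H2_E_compact (hf : Trim S f) {K : Set X} (hK : IsCompact K) :
    μH[2] (f '' (S.E ∩ K)) = 0 := by
  obtain ⟨C, hC, hnet⟩ := S.exists_net_E hK
  have hn : ∀ n : ℕ, ∃ t : Finset X, (t.card : ℝ) * (1 / (n + 1 : ℝ)) ≤ C ∧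
      ∀ y ∈ K, y ∈ S.E → ∃ p ∈ t, dl univ p y ≤ ENNReal.ofReal (2 * (1 / (n + 1 : ℝ))) := by
    intro n
    obtain ⟨t, -, h1, h2⟩ := hnet (1 / (n + 1 : ℝ)) (by positivity) (by
      rw [div_le_one (by positivity)]
      have : (0 : ℝ) ≤ n := by positivity
      linarith)
    exact ⟨t, h1, h2⟩
  choose t ht1 ht2 using hn
  have hinv : Tendsto (fun n : ℕ => 1 / ((n : ℝ) + 1)) atTop (𝓝 0) :=
    tendsto_one_div_add_atTop_nhds_zero_nat
  have hdiam : ∀ n, ∀ p : t n, ediam {z : Y | ∃ y ∈ K, y ∈ S.E ∧ f y = z ∧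
      dl univ p.1 y ≤ ENNReal.ofReal (2 * (1 / (n + 1 : ℝ)))} ≤
      ENNReal.ofReal (4 * (1 / (n + 1 : ℝ))) := by
    intro n p
    refine ediam_le ?_
    rintro _ ⟨y, -, -, rfl, hy⟩ _ ⟨y', -, -, rfl, hy'⟩
    calc edist (f y) (f y') ≤ dl univ y y' := hf.edist_le_dl _ _ _
      _ ≤ dl univ y p.1 + dl univ p.1 y' := dl_triangle _ _ _ _
      _ ≤ ENNReal.ofReal (2 * (1 / (n + 1 : ℝ))) + ENNReal.ofReal (2 * (1 / (n + 1 : ℝ))) := by
          rw [dl_comm univ y]; gcongr
      _ = ENNReal.ofReal (4 * (1 / (n + 1 : ℝ))) := by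
          rw [← ENNReal.ofReal_add (by positivity) (by positivity)]; congr 1; ring
  have key := hausdorffMeasure_le_liminf_sum (d := 2) (f '' (S.E ∩ K)) (l := atTop)
    (r := fun n : ℕ => ENNReal.ofReal (4 * (1 / (n + 1 : ℝ)))) (ι := fun n => t n) (by
      have h1 := hinv.const_mul 4
      rw [mul_zero] at h1
      simpa using ENNReal.tendsto_ofReal h1)
    (fun n p => {z : Y | ∃ y ∈ K, y ∈ S.E ∧ f y = z ∧
      dl univ p.1 y ≤ ENNReal.ofReal (2 * (1 / (n + 1 : ℝ)))})
    (Eventually.of_forall hdiam)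
    (Eventually.of_forall fun n => by
      rintro _ ⟨y, ⟨hyE, hyK⟩, rfl⟩
      obtain ⟨p, hp, hpy⟩ := ht2 n y hyK hyE
      exact mem_iUnion.2 ⟨⟨p, hp⟩, y, hyK, hyE, rfl, hpy⟩)
  refine le_antisymm (key.trans ?_) zero_le
  have hbound : ∀ n, ∑ p : t n, ediam {z : Y | ∃ y ∈ K, y ∈ S.E ∧ f y = z ∧
      dl univ p.1 y ≤ ENNReal.ofReal (2 * (1 / (n + 1 : ℝ)))} ^ (2 : ℝ) ≤
      ENNReal.ofReal (16 * C * (1 / (n + 1 : ℝ))) := by
    intro n
    calc ∑ p : t n, ediam {z : Y | ∃ y ∈ K, y ∈ S.E ∧ f y = z ∧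
          dl univ p.1 y ≤ ENNReal.ofReal (2 * (1 / (n + 1 : ℝ)))} ^ (2 : ℝ)
        ≤ ∑ _p : t n, ENNReal.ofReal (16 * (1 / (n + 1 : ℝ)) ^ 2) := by
          refine Finset.sum_le_sum fun p _ => ?_
          calc _ ≤ ENNReal.ofReal (4 * (1 / (n + 1 : ℝ))) ^ (2 : ℝ) := by
                gcongr
                exact hdiam n p
            _ = _ := by
                rw [ENNReal.rpow_two, ← ENNReal.ofReal_pow (by positivity)]
                congr 1; ring
      _ = ENNReal.ofReal ((t n).card * (16 * (1 / (n + 1 : ℝ)) ^ 2)) := by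
          rw [Finset.sum_const, nsmul_eq_mul, Finset.card_univ, Fintype.card_coe,
            ENNReal.ofReal_mul (p := ((t n).card : ℝ)) (by positivity), ENNReal.ofReal_natCast]
      _ ≤ _ := by
          refine ENNReal.ofReal_le_ofReal ?_
          have h1 := ht1 n
          have h2 : (0 : ℝ) ≤ 16 * (1 / (n + 1 : ℝ)) := by positivity
          calc ((t n).card : ℝ) * (16 * (1 / (n + 1 : ℝ)) ^ 2)
              = ((t n).card * (1 / (n + 1 : ℝ))) * (16 * (1 / (n + 1 : ℝ))) := by ring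
            _ ≤ C * (16 * (1 / (n + 1 : ℝ))) := by gcongr
            _ = _ := by ring
  refine (liminf_le_liminf (Eventually.of_forall hbound)).trans ?_
  have h1 : Tendsto (fun n : ℕ => ENNReal.ofReal (16 * C * (1 / (n + 1 : ℝ)))) atTop (𝓝 0) := by
    have h1 := hinv.const_mul (16 * C)
    rw [mul_zero] at h1
    simpa using ENNReal.tendsto_ofReal h1
  rw [h1.liminf_eq]

theorem Trim.H2_E [SigmaCompactSpace X] (hf : Trim S f) : μH[2] (f '' S.E) = 0 := by
  have h1 : f '' S.E = ⋃ n, f '' (S.E ∩ compactCovering X n) := by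
    rw [← image_iUnion, ← inter_iUnion, iUnion_compactCovering, inter_univ]
  rw [h1, measure_iUnion_null_iff]
  exact fun n => hf.H2_E_compact (isCompact_compactCovering X n)

/-! ### The measure of `Y` off the skeleton -/

theorem Trim.edist_region_le (hf : Trim S f) {z : X} {c : ℝ → X} (hc : S.Geod z c) {a ρ : ℝ}
    {r : ℝ≥0∞} {b : ℝ} (hb : b ≤ (S.v z).toReal)
    (hr : ∫⁻ τ in Icc a (S.v z).toReal, S.w (c τ) ≤ r) {y : X}
    (hy : y ∈ S.region z c a b ρ) : edist (f z) (f y) ≤ r + ENNReal.ofReal ρ := by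
  obtain ⟨-, σ, hσ, hd⟩ := hy
  calc edist (f z) (f y) ≤ edist (f z) (f (c σ)) + edist (f (c σ)) (f y) := edist_triangle _ _ _
    _ ≤ r + ENNReal.ofReal ρ := by
      refine add_le_add ?_ ((hf.edist_le_dl _ _ _).trans hd)
      rw [edist_comm]
      have h1 := hf.edist_curve hc.lip (hσ.2.trans hb)
      rw [hc.top] at h1
      exact h1.trans ((lintegral_mono_set (Icc_subset_Icc hσ.1 le_rfl)).trans hr)

theorem Trim.mass_ge (hf : Trim S f) {x : X} {s : ℝ} (hs : 0 < s)
    (hE : ∀ e ∈ S.E, s ≤ dist (f x) (f e)) :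
    ENNReal.ofReal (s ^ 2 / 576) ≤ μH[2] (f ⁻¹' closedBall (f x) s) := by
  obtain ⟨z, hz, hzx⟩ := Trim.exists_near f S (f x) (ε := s / 4) (by positivity)
  have hzE : z ∉ S.E := fun h => by
    have := hE z h
    rw [dist_comm] at this
    linarith
  obtain ⟨c, hc⟩ := S.exists_Geod hzE hz
  have hV0 : (0 : ℝ) ≤ (S.v z).toReal := ENNReal.toReal_nonneg
  have h1 : ENNReal.ofReal (s / 4) ≤ ∫⁻ τ in Icc 0 (S.v z).toReal, S.w (c τ) := by
    have h2 := hf.edist_curve hc.lip hV0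
    rw [hc.top] at h2
    refine le_trans ?_ h2
    rw [edist_dist]
    refine ENNReal.ofReal_le_ofReal ?_
    have h3 := hE (c 0) hc.zero
    have h4 := dist_triangle (f x) (f z) (f (c 0))
    rw [dist_comm (f x) (f z), dist_comm (f z) (f (c 0))] at h4
    linarith
  obtain ⟨a, ha, hae⟩ := Skel.exists_psi (S := S) hV0 (by positivity) h1
  refine (S.area_ge hzE hc ha.1 hs hae.ge).trans (measure_mono fun y hy => ?_)
  have h2 := hf.edist_region_le hc le_rfl hae.le hy
  rw [← ENNReal.ofReal_add (by positivity) (by positivity), edist_dist] at h2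
  have h3 := (ENNReal.ofReal_le_ofReal_iff (by positivity)).1 h2
  rw [mem_preimage, mem_closedBall]
  have h4 := dist_triangle_left (f y) (f x) (f z)
  linarith

theorem Trim.H2_le_off_E [SecondCountableTopology X] (hf : Trim S f) {A : Set X}
    (hAE : A ⊆ S.Eᶜ) : μH[2] (f '' A) ≤ 57600 * μH[2] A := by
  have := S.locfin_measure
  have : Measure.Regular (μH[2] : Measure X) :=
    Measure.Regular.of_sigmaCompactSpace_of_isLocallyFiniteMeasure _
  have : SecondCountableTopology Y := f.symm.isEmbedding.secondCountableTopology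
  have key : ∀ V : Set X, IsOpen V → A ⊆ V → μH[2] (f '' A) ≤ 57600 * μH[2] V := by
    intro V hV hAV
    set V' := V ∩ S.Eᶜ with hV'
    have hV'o : IsOpen V' := hV.inter S.closed.isOpen_compl
    have h1 := vitali_H2 (Measure.map f μH[2]) (A := f '' A) (U := f '' V') (C := 576) (by
      rintro _ ⟨x, hx, rfl⟩ r₀ hr₀
      have hfV : IsOpen (f '' V') := f.isOpenMap _ hV'o
      obtain ⟨r₁, hr₁, hsub⟩ := Metric.nhds_basis_closedBall.mem_iff.1
        (hfV.mem_nhds ⟨x, ⟨hAV hx, hAE hx⟩, rfl⟩)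
      set r := min r₁ (r₀ / 2) with hr
      have hr0 : 0 < r := by positivity
      have hsub' : closedBall (f x) r ⊆ f '' V' :=
        (closedBall_subset_closedBall (min_le_left _ _)).trans hsub
      refine ⟨r, hr0, (min_le_right _ _).trans_lt (by linarith), hsub', ?_⟩
      have h2 := hf.mass_ge hr0 (x := x) (fun e he => by
        by_contra hcon
        push Not at hcon
        obtain ⟨e', he', hee⟩ := hsub' (show f e ∈ closedBall (f x) r by
          rw [mem_closedBall, dist_comm]; exact hcon.le)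
        rw [f.injective hee] at he'
        exact he'.2 he)
      rw [f.measurableEmbedding.map_apply]
      calc ENNReal.ofReal (r ^ 2) = 576 * ENNReal.ofReal (r ^ 2 / 576) := by
            rw [← ENNReal.ofReal_ofNat 576, ← ENNReal.ofReal_mul (by norm_num)]
            congr 1; ring
        _ ≤ _ := by gcongr)
    rw [f.measurableEmbedding.map_apply, preimage_image_eq _ f.injective] at h1
    refine h1.trans ?_
    rw [← mul_assoc]
    norm_num
    gcongr
    exact inter_subset_left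
  rw [A.measure_eq_iInf_isOpen μH[2], ENNReal.mul_iInf_of_ne (by norm_num) (by norm_num)]
  refine le_iInf fun V => ?_
  rw [ENNReal.mul_iInf_of_ne (by norm_num) (by norm_num)]
  refine le_iInf fun hAV => ?_
  rw [ENNReal.mul_iInf_of_ne (by norm_num) (by norm_num)]
  exact le_iInf fun hV => key V hV hAV

theorem Trim.locfin [SecondCountableTopology X] (hf : Trim S f) (y : Y) :
    ∃ U ∈ 𝓝 y, μH[2] U < ∞ := by
  obtain ⟨x, rfl⟩ := f.surjective y
  obtain ⟨U, hU, hfin⟩ := S.fin x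
  refine ⟨f '' U, f.isOpenMap.image_mem_nhds hU, ?_⟩
  have h1 : f '' U ⊆ f '' S.E ∪ f '' (U ∩ S.Eᶜ) := by
    rw [← image_union]
    refine image_mono fun z hz => ?_
    by_cases h : z ∈ S.E
    · exact Or.inl h
    · exact Or.inr ⟨hz, h⟩
  calc μH[2] (f '' U) ≤ μH[2] (f '' S.E) + μH[2] (f '' (U ∩ S.Eᶜ)) :=
        (measure_mono h1).trans (measure_union_le _ _)
    _ ≤ 0 + 57600 * μH[2] U := by
        refine add_le_add hf.H2_E.le ((hf.H2_le_off_E inter_subset_right).trans ?_)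
        gcongr
        exact inter_subset_left
    _ < ∞ := by
        rw [zero_add]
        exact ENNReal.mul_lt_top (by norm_num) hfin

end Pool.Agent.QCS
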