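import Pool.Agent.Lib.MP_811d89_an.Setup

/-!
# Necks: the coarea inequalities for the boundaries of hairs
-/

open MeasureTheory Set Metric Topology Filter
open scoped ENNReal NNReal

namespace Pool.Agent.QCS

set_option linter.unusedSectionVars false

variable {X : Type*} [MetricSpace X] [MeasurableSpace X] [BorelSpace X]

namespace Skel

variable (S : Skel X) [LocallyConnectedSpace X] [ConnectedSpace X]

include S in
theorem compact_lt_top {K : Set X} (hK : IsCompact K) : μH[2] K < ∞ := by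
  obtain ⟨V, hV, hVf⟩ := hK.exists_open_superset_measure_lt_top' (μ := μH[2]) fun x _ => by
    obtain ⟨U, hU, hUf⟩ := S.fin x
    exact ⟨U, hU, hUf⟩
  exact (measure_mono hV).trans_lt hVf.2

/-- A base point of the skeleton. -/
noncomputable def e0 : X := S.conn.nonempty.some

theorem e0_mem : S.e0 ∈ S.E := S.conn.nonempty.some_mem

/-- The superlevel set of the chain distance. -/
def sup (z : X) (T t : ℝ) (n : ℕ) : Set X := S.cell z ∩ S.f z T n ⁻¹' Ioi t

/-- The component of the superlevel set of the chain distance. -/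
def W (z : X) (T t : ℝ) (n : ℕ) : Set X := connectedComponentIn (S.sup z T t n) z

/-- The filled component. -/
noncomputable def H (z : X) (T t : ℝ) (n : ℕ) : Set X :=
  (connectedComponentIn (S.W z T t n)ᶜ S.e0)ᶜ

variable {z : X} {T t : ℝ} {n : ℕ}

theorem isOpen_sup : IsOpen (S.sup z T t n) :=
  ((S.f_cont z T n).mono (S.cell_sub_cc z)).isOpen_inter_preimage (S.isOpen_cell z) isOpen_Ioi

theorem isOpen_W : IsOpen (S.W z T t n) := S.isOpen_sup.connectedComponentIn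

theorem W_sub_sup : S.W z T t n ⊆ S.sup z T t n := connectedComponentIn_subset _ _

theorem W_sub_cell : S.W z T t n ⊆ S.cell z := S.W_sub_sup.trans inter_subset_left

theorem z_mem_W (hz : z ∉ S.E) (hn : t < S.f z T n z) : z ∈ S.W z T t n :=
  mem_connectedComponentIn ⟨S.mem_cell hz, hn⟩

theorem W_conn (hz : z ∉ S.E) (hn : t < S.f z T n z) : IsConnected (S.W z T t n) :=
  ⟨⟨z, S.z_mem_W hz hn⟩, isPreconnected_connectedComponentIn⟩

theorem E_sub_Wc : S.E ⊆ (S.W z T t n)ᶜ := fun _ he hW => S.cell_disj (S.W_sub_cell hW) he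

theorem E_sub_Hc : S.E ⊆ (S.H z T t n)ᶜ := by
  rw [H, compl_compl]
  exact S.conn.isPreconnected.subset_connectedComponentIn S.e0_mem S.E_sub_Wc

theorem isOpen_H : IsOpen (S.H z T t n) :=
  (isClosed_component S.isOpen_W.isClosed_compl _).isOpen_compl

theorem W_sub_H : S.W z T t n ⊆ S.H z T t n := fun _ hx hO =>
  connectedComponentIn_subset _ _ hO hx

theorem H_conn (hz : z ∉ S.E) (hn : t < S.f z T n z) : IsPreconnected (S.H z T t n) :=
  isPreconnected_compl_component S.isOpen_W (S.W_conn hz hn) _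

theorem frontier_H_conn (hz : z ∉ S.E) (hn : t < S.f z T n z) :
    IsPreconnected (frontier (S.H z T t n)) := by
  rw [H, frontier_compl]
  exact S.unic z hz _ S.isOpen_W (S.W_conn hz hn) S.W_sub_cell _ S.e0_mem

theorem frontier_H_sub_W : frontier (S.H z T t n) ⊆ frontier (S.W z T t n) := by
  rw [H, frontier_compl]
  exact frontier_compl_component S.isOpen_W _

theorem frontier_H_sub_cc : frontier (S.H z T t n) ⊆ S.cc z :=
  S.frontier_H_sub_W.trans (frontier_subset_closure.trans (closure_mono S.W_sub_cell))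

theorem f_eq_zero (hT : 0 ≤ T) {y : X} (hy : y ∈ S.cc z) (hyE : y ∈ S.E) : S.f z T n y = 0 :=
  cd_zero hT hyE hy

theorem f_eq_of_frontier (ht : 0 < t) (hT : 0 ≤ T) {y : X} (hy : y ∈ frontier (S.W z T t n)) :
    S.f z T n y = t := by
  have hcc : y ∈ S.cc z := frontier_subset_closure.trans (closure_mono S.W_sub_cell) hy
  have h1 : t ≤ S.f z T n y := by
    have h2 : ContinuousWithinAt (S.f z T n) (S.cc z) y := S.f_cont z T n y hcc
    have h3 : ContinuousWithinAt (S.f z T n) (S.W z T t n) y :=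
      h2.mono (S.W_sub_cell.trans (S.cell_sub_cc z))
    have h4 : (𝓝[S.W z T t n] y).NeBot := mem_closure_iff_nhdsWithin_neBot.1
      (frontier_subset_closure hy)
    refine ge_of_tendsto h3 ?_
    filter_upwards [self_mem_nhdsWithin] with y' hy'
    exact (S.W_sub_sup hy').2.le
  have hyE : y ∉ S.E := fun h => by
    rw [S.f_eq_zero hT hcc h] at h1; linarith
  have hcell := S.mem_cell_of_cc hcc hyE
  refine le_antisymm ?_ h1
  by_contra hcon
  push Not at hcon
  exact frontier_component_disjoint S.isOpen_sup hy ⟨hcell, hcon⟩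

theorem f_eq_of_frontier_H (ht : 0 < t) (hT : 0 ≤ T) {y : X}
    (hy : y ∈ frontier (S.H z T t n)) : S.f z T n y = t :=
  S.f_eq_of_frontier ht hT (S.frontier_H_sub_W hy)

theorem H_sub_vgt (ht : 0 ≤ t) {y : X} (hy : y ∈ S.H z T t n) : ENNReal.ofReal t < S.v y := by
  by_contra hcon
  push Not at hcon
  have hyE : y ∉ S.E := fun h => S.E_sub_Hc h hy
  have hv : S.v y ≠ ∞ := (hcon.trans_lt ENNReal.ofReal_lt_top).ne
  have hVt : (S.v y).toReal ≤ t := by
    rw [← ENNReal.toReal_ofReal ht]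
    exact ENNReal.toReal_mono ENNReal.ofReal_ne_top hcon
  obtain ⟨c, hc, hcK, hc0, hcV, hcv⟩ := S.exists_geod hyE hv
  have h1 : c '' Icc 0 (S.v y).toReal ⊆ (S.W z T t n)ᶜ := by
    rintro _ ⟨τ, hτ, rfl⟩ hW
    have h2 := (S.W_sub_sup hW).2
    have h3 := S.f_le_v (S.W_sub_cell hW) (by rw [hcv τ hτ]; exact ENNReal.ofReal_ne_top) T n
    rw [hcv τ hτ, ENNReal.toReal_ofReal hτ.1] at h3
    have h4 : t < S.f z T n (c τ) := h2
    linarith [hτ.2]
  have h2 : c 0 ∈ connectedComponentIn (S.W z T t n)ᶜ S.e0 := by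
    have := S.E_sub_Hc (z := z) (T := T) (t := t) (n := n) hc0
    rwa [H, compl_compl] at this
  have h3 : c '' Icc 0 (S.v y).toReal ⊆ connectedComponentIn (S.W z T t n)ᶜ S.e0 := by
    rw [connectedComponentIn_eq h2]
    exact (isPreconnected_Icc.image c hc.continuous.continuousOn).subset_connectedComponentIn
      ⟨0, ⟨le_rfl, ENNReal.toReal_nonneg⟩, rfl⟩ h1
  exact hy (h3 ⟨_, ⟨ENNReal.toReal_nonneg, le_rfl⟩, hcV⟩)

theorem sup_mono {m : ℕ} (h : n ≤ m) : S.sup z T t n ⊆ S.sup z T t m := fun y hy =>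
  ⟨hy.1, lt_of_lt_of_le hy.2 (S.f_mono h y)⟩

theorem W_mono {m : ℕ} (h : n ≤ m) : S.W z T t n ⊆ S.W z T t m :=
  connectedComponentIn_mono z (S.sup_mono h)

theorem H_mono {m : ℕ} (h : n ≤ m) : S.H z T t n ⊆ S.H z T t m :=
  compl_subset_compl.2 (connectedComponentIn_mono _ (compl_subset_compl.2 (S.W_mono h)))

/-- The filled components exhaust the hair. -/
theorem exists_mem_H (hz : z ∉ S.E) (ht : 0 ≤ t) (hT : t < T) (hv : ENNReal.ofReal t < S.v z)
    {y : X} (hy : y ∈ S.hair t z) : ∃ n, t < S.f z T n z ∧ y ∈ S.H z T t n := by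
  obtain ⟨n₀, hn₀⟩ := S.exists_f_gt (S.mem_cell hz) ht hT hv
  let G : Set X := ⋃ n, S.H z T t (n₀ + n)
  have hGo : IsOpen G := isOpen_iUnion fun n => S.isOpen_H
  have hfz : ∀ n, t < S.f z T (n₀ + n) z := fun n => hn₀.trans_le (S.f_mono (Nat.le_add_right _ _) z)
  have hsub : S.hair t z ⊆ G := by
    refine (S.hair_conn t z).subset_of_closure_inter_subset hGo
      ⟨z, S.mem_hair hv, mem_iUnion.2 ⟨0, S.W_sub_H (S.z_mem_W hz (hfz 0))⟩⟩ ?_
    rintro y ⟨hyG, hyh⟩
    have hycell := S.hair_sub_cell t z hyh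
    obtain ⟨n₁, hn₁⟩ := S.exists_f_gt hycell ht hT (S.v_gt_of_hair hyh)
    obtain ⟨N, hN, hNc, hyN, hNU⟩ := exists_conn_nhd (S.isOpen_sup (z := z) (T := T) (t := t)
      (n := n₁)) ⟨hycell, hn₁⟩
    obtain ⟨p, hpN, hpG⟩ := mem_closure_iff.1 hyG N hN hyN
    obtain ⟨m, hm⟩ := mem_iUnion.1 hpG
    set m' := max m n₁ with hm'
    have hpH : p ∈ S.H z T t (n₀ + m') := S.H_mono (by omega) hm
    have hNsup : N ⊆ S.sup z T t (n₀ + m') := hNU.trans (S.sup_mono (by omega))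
    refine mem_iUnion.2 ⟨m', ?_⟩
    by_cases hmeet : (N ∩ S.W z T t (n₀ + m')).Nonempty
    · obtain ⟨x, hxN, hxW⟩ := hmeet
      have : N ⊆ S.W z T t (n₀ + m') := by
        rw [W, connectedComponentIn_eq hxW]
        exact hNc.subset_connectedComponentIn hxN hNsup
      exact S.W_sub_H (this hyN)
    · have hNW : N ⊆ (S.W z T t (n₀ + m'))ᶜ := fun x hx hW => hmeet ⟨x, hx, hW⟩
      intro hyO
      have : N ⊆ connectedComponentIn (S.W z T t (n₀ + m'))ᶜ S.e0 := by
        rw [connectedComponentIn_eq hyO]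
        exact hNc.subset_connectedComponentIn hyN hNW
      exact hpH (this hpN)
  obtain ⟨n, hn⟩ := mem_iUnion.1 (hsub hy)
  exact ⟨_, hfz n, hn⟩

theorem H_sub_hair (hz : z ∉ S.E) (ht : 0 ≤ t) (hn : t < S.f z T n z) :
    S.H z T t n ⊆ S.hair t z := by
  have hzH : z ∈ S.H z T t n := S.W_sub_H (S.z_mem_W hz hn)
  exact S.subset_hair (S.H_conn hz hn) (fun y hy => S.H_sub_vgt ht hy) hzH
    (S.mem_hair (S.H_sub_vgt ht hzH))

/-- The length diameter of the neck is bounded by the `H¹` measure of the approximate necks. -/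
theorem Lh_le_of_frequently (hz : z ∉ S.E) (ht : 0 < t) (hT : t < T)
    (hv : ENNReal.ofReal t < S.v z) {r : ℝ≥0∞}
    (hr : ∃ᶠ n in atTop, μH[1] (frontier (S.H z T t n)) ≤ r) : S.Lh t z ≤ r := by
  have hcc := S.cc_compact z hz
  refine S.Lh_le fun a ha b hb => ?_
  have hnot : ∀ a ∈ frontier (S.hair t z), a ∉ S.hair t z := fun a ha h =>
    ha.2 (by rw [(S.isOpen_hair t z).interior_eq]; exact h)
  have hpt : ∀ a ∈ frontier (S.hair t z), ∀ r > 0, ∃ n, t < S.f z T n z ∧ ∀ m ≥ n,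
      ∃ a' ∈ frontier (S.H z T t m), dist a' a < r := by
    intro a ha r hr
    obtain ⟨N, hN, hNc, haN, hNU⟩ := exists_conn_nhd (isOpen_ball (x := a) (ε := r))
      (mem_ball_self hr)
    obtain ⟨y, hyN, hyh⟩ := mem_closure_iff.1 (frontier_subset_closure ha) N hN haN
    obtain ⟨n, hn, hyH⟩ := S.exists_mem_H hz ht.le hT hv hyh
    refine ⟨n, hn, fun m hm => ?_⟩
    have hfm : t < S.f z T m z := hn.trans_le (S.f_mono hm z)
    obtain ⟨x, hxN, hx⟩ := meets_frontier (U := S.H z T t m) hNc ⟨y, hyN, S.H_mono hm hyH⟩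
      ⟨a, haN, fun h => hnot a ha (S.H_sub_hair hz ht.le hfm h)⟩
    exact ⟨x, hx, hNU hxN⟩
  have hseq : ∀ j : ℕ, ∃ a' b', dist a' a < 1 / (j + 1 : ℝ) ∧ dist b' b < 1 / (j + 1 : ℝ) ∧
      dl (S.cc z) a' b' ≤ r := by
    intro j
    have hj : (0 : ℝ) < 1 / (j + 1 : ℝ) := by positivity
    obtain ⟨n₁, hn₁, h₁⟩ := hpt a ha _ hj
    obtain ⟨n₂, hn₂, h₂⟩ := hpt b hb _ hj
    obtain ⟨m, hm, hmr⟩ := (frequently_atTop.1 hr) (max n₁ n₂)
    obtain ⟨a', ha', had⟩ := h₁ m ((le_max_left _ _).trans hm)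
    obtain ⟨b', hb', hbd⟩ := h₂ m ((le_max_right _ _).trans hm)
    have hfm : t < S.f z T m z := hn₁.trans_le (S.f_mono ((le_max_left _ _).trans hm) z)
    refine ⟨a', b', had, hbd, (dl_le_H1 (S.frontier_H_conn hz hfm) ?_ S.frontier_H_sub_cc hcc
      ha' hb').trans hmr⟩
    exact hcc.of_isClosed_subset isClosed_frontier S.frontier_H_sub_cc
  choose a' b' ha' hb' hab using hseq
  have hlim : Tendsto (fun j : ℕ => 1 / ((j : ℝ) + 1)) atTop (𝓝 0) :=
    tendsto_one_div_add_atTop_nhds_zero_nat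
  refine dl_le_of_tendsto hcc (a := a') (b := b') ?_ ?_ hab
  · rw [tendsto_iff_dist_tendsto_zero]
    exact squeeze_zero (fun _ => dist_nonneg) (fun j => (ha' j).le) hlim
  · rw [tendsto_iff_dist_tendsto_zero]
    exact squeeze_zero (fun _ => dist_nonneg) (fun j => (hb' j).le) hlim

/-- Coarea inequality for necks. -/
theorem neck_coarea (hz : z ∉ S.E) {a b : ℝ} (ha : 0 ≤ a) (hb : ENNReal.ofReal b ≤ S.v z) :
    ∃ h : ℝ → ℝ≥0∞, Measurable h ∧ (∀ t ∈ Ioo a b, S.Lh t z ≤ h t) ∧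
      ∫⁻ t, h t ≤ μH[2] (S.hair a z) := by
  set T := |b| + 1 with hTdef
  have hT0 : 0 ≤ T := by positivity
  have hex : ∀ n : ℕ, ∃ h : ℝ → ℝ≥0∞, Measurable h ∧
      (∀ t, μH[1] (S.hair a z ∩ S.f z T n ⁻¹' {t}) ≤ h t) ∧ ∫⁻ t, h t ≤ μH[2] (S.hair a z) := by
    intro n
    refine eilenberg (S.hair a z) (S.f z T n) (r := ENNReal.ofReal (1 / (n + 1 : ℝ)))
      (by rw [ENNReal.ofReal_pos]; positivity) fun x hx y hy hxy => ?_
    exact cd_edist (S.cell_sub_cc z (S.hair_sub_cell a z hx))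
      (S.cell_sub_cc z (S.hair_sub_cell a z hy)) hxy
  choose h hm hle hint using hex
  refine ⟨fun t => liminf (fun n => h n t) atTop, Measurable.liminf hm, fun t ht => ?_, ?_⟩
  · have ht0 : 0 < t := ha.trans_lt ht.1
    have hv : ENNReal.ofReal t < S.v z :=
      ((ENNReal.ofReal_lt_ofReal_iff (ht0.trans ht.2)).2 ht.2).trans_le hb
    have htT : t < T := by rw [hTdef]; linarith [ht.2, le_abs_self b]
    refine le_of_forall_gt_imp_ge_of_dense fun r hr => ?_
    refine S.Lh_le_of_frequently hz ht0 htT hv ?_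
    have hfr : ∃ᶠ n in atTop, h n t < r := frequently_lt_of_liminf_lt (by isBoundedDefault) hr
    obtain ⟨n₀, hn₀⟩ := S.exists_f_gt (S.mem_cell hz) ht0.le htT hv
    refine (hfr.and_eventually (eventually_ge_atTop n₀)).mono fun n hn => ?_
    have hfn : t < S.f z T n z := hn₀.trans_le (S.f_mono hn.2 z)
    refine le_trans (measure_mono fun y hy => ?_) ((hle n t).trans hn.1.le)
    have hfy := S.f_eq_of_frontier_H ht0 hT0 hy
    have hycc := S.frontier_H_sub_cc hy
    have hyE : y ∉ S.E := fun hE => by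
      rw [S.f_eq_zero hT0 hycc hE] at hfy; linarith
    have hycell := S.mem_cell_of_cc hycc hyE
    have hvy : ENNReal.ofReal a < S.v y := by
      by_contra hcon
      push Not at hcon
      have h1 := S.f_le_v hycell (hcon.trans_lt ENNReal.ofReal_lt_top).ne T n
      have h2 : (S.v y).toReal ≤ a := by
        rw [← ENNReal.toReal_ofReal ha]
        exact ENNReal.toReal_mono ENNReal.ofReal_ne_top hcon
      linarith [ht.1]
    refine ⟨mem_component_of_closure (S.isOpen_vgt a) ?_ hvy, hfy⟩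
    have h3 : S.H z T t n ⊆ S.hair a z :=
      (S.H_sub_hair hz ht0.le hfn).trans (S.hair_anti ht.1.le z)
    exact closure_mono h3 (frontier_subset_closure hy)
  · refine (lintegral_liminf_le hm).trans ?_
    refine (liminf_le_liminf (Eventually.of_forall hint)).trans ?_
    simp

/-- Local coarea inequality for necks. -/
theorem neck_coarea_local (hz : z ∉ S.E) {c : ℝ → X} (hc : LipschitzWith 1 c) (hcV : c (S.v z).toReal = z)
    (hcv : ∀ τ ∈ Icc 0 (S.v z).toReal, S.v (c τ) = ENNReal.ofReal τ) {a b : ℝ} (ha : 0 ≤ a)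
    (hb : b ≤ (S.v z).toReal) {ρ : ℝ} (hρ : 0 < ρ) :
    ∃ h : ℝ → ℝ≥0∞, Measurable h ∧ (∀ t ∈ Ioo a b, min (S.Lh t z) (ENNReal.ofReal ρ) ≤ h t) ∧
      ∫⁻ t, h t ≤ μH[2] {y | y ∈ S.cc z ∧ ∃ s ∈ Icc a b, dl (S.cc z) (c s) y ≤ ENNReal.ofReal ρ} := by
  have hcc := S.cc_compact z hz
  set T := |b| + 1 with hTdef
  have hT0 : 0 ≤ T := by positivity
  set Γ : Set X := c '' Icc a b with hΓ
  have hΓc : IsClosed Γ := (isCompact_Icc.image hc.continuous).isClosed
  set g : ℕ → X → ℝ := fun m => cd (S.cc z) Γ (ρ + 1) (1 / (m + 1 : ℝ)) with hg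
  set A : ℕ → Set X := fun m => S.cc z ∩ {y | g m y < ρ} with hA
  have hAmeas : ∀ m, MeasurableSet (A m) := by
    intro m
    have h1 : ContinuousOn (g m) (S.cc z) := cd_continuousOn (by positivity)
    obtain ⟨U, hU, hUe⟩ := (_root_.continuousOn_iff'.1 h1) (Iio ρ) isOpen_Iio
    have : A m = U ∩ S.cc z := by
      rw [← hUe, hA]; ext y; exact ⟨fun h => ⟨h.2, h.1⟩, fun h => ⟨h.2, h.1⟩⟩
    rw [this]
    exact hU.measurableSet.inter isClosed_closure.measurableSet
  have hfinK : μH[2] (S.cc z) ≠ ∞ := (S.compact_lt_top hcc).ne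
  have hex : ∀ m n : ℕ, ∃ h : ℝ → ℝ≥0∞, Measurable h ∧
      (∀ t, μH[1] (A m ∩ S.f z T n ⁻¹' {t}) ≤ h t) ∧ ∫⁻ t, h t ≤ μH[2] (A m) := by
    intro m n
    refine eilenberg (A m) (S.f z T n) (r := ENNReal.ofReal (1 / (n + 1 : ℝ)))
      (by rw [ENNReal.ofReal_pos]; positivity) fun x hx y hy hxy => ?_
    exact cd_edist hx.1 hy.1 hxy
  choose h hm hle hint using hex
  refine ⟨fun t => liminf (fun m => liminf (fun n => h m n t) atTop) atTop,
    Measurable.liminf fun m => Measurable.liminf (hm m), fun t ht => ?_, ?_⟩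
  · have ht0 : 0 < t := ha.trans_lt ht.1
    have htV : t < (S.v z).toReal := ht.2.trans_le hb
    have hv : ENNReal.ofReal t < S.v z := by
      have h1 := hcv _ ⟨ht0.le.trans htV.le, le_rfl⟩
      rw [hcV] at h1
      rw [h1]; exact (ENNReal.ofReal_lt_ofReal_iff (ht0.trans htV)).2 htV
    have htT : t < T := by rw [hTdef]; linarith [ht.2, le_abs_self b]
    obtain ⟨n₁, hn₁, hbH⟩ := S.exists_mem_H (T := T) hz ht0.le htT hv
      (S.geod_mem_hair hc hcV hcv ht0.le ⟨ht.2, hb⟩)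
    have hkey : ∀ m, min (S.Lh t z) (ENNReal.ofReal ρ) ≤ liminf (fun n => h m n t) atTop := by
      intro m
      refine le_of_forall_gt_imp_ge_of_dense fun r hr => ?_
      by_cases hrρ : ENNReal.ofReal ρ ≤ r
      · exact (min_le_right _ _).trans hrρ
      push Not at hrρ
      refine (min_le_left _ _).trans (S.Lh_le_of_frequently hz ht0 htT hv ?_)
      have hfr : ∃ᶠ n in atTop, h m n t < r := frequently_lt_of_liminf_lt (by isBoundedDefault) hr
      refine (hfr.and_eventually (eventually_ge_atTop n₁)).mono fun n hn => ?_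
      have hfn : t < S.f z T n z := hn₁.trans_le (S.f_mono hn.2 z)
      -- the approximate neck meets `Γ`
      obtain ⟨p, ⟨s, hs, hsp⟩, hpF⟩ := meets_frontier (U := S.H z T t n)
        ((isPreconnected_Icc (a := t) (b := b)).image c hc.continuous.continuousOn)
        ⟨c b, ⟨b, ⟨ht.2.le, le_rfl⟩, rfl⟩, S.H_mono hn.2 hbH⟩
        ⟨c t, ⟨t, ⟨le_rfl, ht.2.le⟩, rfl⟩, fun hH => by
          have h2 := S.H_sub_vgt ht0.le hH
          rw [hcv t ⟨ht0.le, htV.le⟩] at h2
          exact lt_irrefl _ h2⟩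
      have hpΓ : p ∈ Γ := ⟨s, ⟨ht.1.le.trans hs.1, hs.2⟩, hsp⟩
      have hpcc := S.frontier_H_sub_cc hpF
      have hgp : g m p ≤ 0 := (cd_zero (by positivity) hpΓ hpcc).le
      have hFsub : ∀ y ∈ frontier (S.H z T t n), g m y < ρ →
          y ∈ A m ∩ S.f z T n ⁻¹' {t} := fun y hy hgy =>
        ⟨⟨S.frontier_H_sub_cc hy, hgy⟩, S.f_eq_of_frontier_H ht0 hT0 hy⟩
      by_cases hall : ∀ y ∈ frontier (S.H z T t n), g m y < ρ
      · exact (measure_mono fun y hy => hFsub y hy (hall y hy)).trans ((hle m n t).trans hn.1.le)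
      · push Not at hall
        obtain ⟨y₁, hy₁, hgy₁⟩ := hall
        have h3 := H1_ge_of_connected (S.frontier_H_conn hz hfn) (f := g m)
          (r := ENNReal.ofReal (1 / (m + 1 : ℝ))) (by rw [ENNReal.ofReal_pos]; positivity)
          (fun x hx y hy hxy => cd_edist (S.frontier_H_sub_cc hx) (S.frontier_H_sub_cc hy) hxy)
          hpF hy₁ hgp hgy₁
        have h4 : ENNReal.ofReal ρ ≤ h m n t := h3.trans
          ((measure_mono fun y hy => hFsub y hy.1 hy.2).trans (hle m n t))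
        exact absurd (h4.trans_lt hn.1) (not_lt.2 hrρ.le)
    exact le_liminf_of_le (by isBoundedDefault) (Eventually.of_forall hkey)
  · refine (lintegral_liminf_le fun m => Measurable.liminf (hm m)).trans ?_
    have h1 : ∀ m, ∫⁻ t, liminf (fun n => h m n t) atTop ≤ μH[2] (A m) := by
      intro m
      refine (lintegral_liminf_le (hm m)).trans ?_
      refine (liminf_le_liminf (Eventually.of_forall (hint m))).trans ?_
      simp
    have hanti : Antitone A := by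
      intro m m' hmm y hy
      refine ⟨hy.1, lt_of_le_of_lt (cd_anti ?_ y) hy.2⟩
      have : (m : ℝ) ≤ m' := by exact_mod_cast hmm
      gcongr
    have h2 : Tendsto (fun m => μH[2] (A m)) atTop (𝓝 (μH[2] (⋂ m, A m))) :=
      tendsto_measure_iInter_atTop (fun m => (hAmeas m).nullMeasurableSet) hanti
        ⟨0, ((measure_mono inter_subset_left).trans_lt (lt_top_iff_ne_top.2 hfinK)).ne⟩
    have h3 : (⋂ m, A m) ⊆ {y | y ∈ S.cc z ∧ ∃ s ∈ Icc a b,
        dl (S.cc z) (c s) y ≤ ENNReal.ofReal ρ} := by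
      intro y hy
      have hy' : ∀ m, y ∈ A m := fun m => mem_iInter.1 hy m
      obtain ⟨e, ⟨s, hs, rfl⟩, hLC⟩ := LC_of_cd_le hcc hΓc hρ.le (lt_add_one ρ)
        fun m => (hy' m).2.le
      exact ⟨(hy' 0).1, s, hs, hLC.dl_le⟩
    calc liminf (fun m => ∫⁻ t, liminf (fun n => h m n t) atTop) atTop
        ≤ liminf (fun m => μH[2] (A m)) atTop := liminf_le_liminf (Eventually.of_forall h1)
      _ = μH[2] (⋂ m, A m) := h2.liminf_eq
      _ ≤ _ := measure_mono h3

/-- The hairs are exhausted by the hairs of higher level. -/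
theorem exists_mem_hair_right (ht : 0 ≤ t) (hv : ENNReal.ofReal t < S.v z) {y : X}
    (hy : y ∈ S.hair t z) : ∃ η > 0, ∀ t' ∈ Ico t (t + η), y ∈ S.hair t' z := by
  let G : Set X := ⋃ (t' : ℝ) (_ : t < t' ∧ ENNReal.ofReal t' < S.v z), S.hair t' z
  have hGo : IsOpen G := isOpen_iUnion fun t' => isOpen_iUnion fun _ => S.isOpen_hair t' z
  have hreal : ∀ x : X, ENNReal.ofReal t < S.v x → ∃ t', t < t' ∧ ENNReal.ofReal t' < S.v x := by
    intro x hx
    obtain ⟨r, hr1, hr2⟩ := exists_between hx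
    refine ⟨r.toReal, ?_, ?_⟩
    · rw [← ENNReal.toReal_ofReal ht]
      exact (ENNReal.toReal_lt_toReal ENNReal.ofReal_ne_top (hr2.trans_le le_top).ne).2 hr1
    · rwa [ENNReal.ofReal_toReal (hr2.trans_le le_top).ne]
  have hsub : S.hair t z ⊆ G := by
    obtain ⟨t₁, ht₁, ht₁v⟩ := hreal z hv
    refine (S.hair_conn t z).subset_of_closure_inter_subset hGo
      ⟨z, S.mem_hair hv, mem_iUnion₂.2 ⟨t₁, ⟨ht₁, ht₁v⟩, S.mem_hair ht₁v⟩⟩ ?_
    rintro y ⟨hyG, hyh⟩
    obtain ⟨t₂, ht₂, ht₂v⟩ := hreal y (S.v_gt_of_hair hyh)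
    obtain ⟨N, hN, hNc, hyN, hNU⟩ := exists_conn_nhd (S.isOpen_vgt t₂) ht₂v
    obtain ⟨p, hpN, hpG⟩ := mem_closure_iff.1 hyG N hN hyN
    obtain ⟨t₃, ⟨ht₃, ht₃v⟩, hp⟩ := mem_iUnion₂.1 hpG
    refine mem_iUnion₂.2 ⟨min t₂ t₃, ⟨lt_min ht₂ ht₃, ?_⟩, ?_⟩
    · exact (ENNReal.ofReal_le_ofReal (min_le_right _ _)).trans_lt ht₃v
    · refine S.subset_hair hNc (fun x hx => ?_) hpN (S.hair_anti (min_le_right _ _) z hp) hyN
      exact (ENNReal.ofReal_le_ofReal (min_le_left _ _)).trans_lt (hNU hx)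
  obtain ⟨t', ⟨ht', -⟩, hyt⟩ := mem_iUnion₂.1 (hsub hy)
  exact ⟨t' - t, sub_pos.2 ht', fun s hs => S.hair_anti (by linarith [hs.2]) z hyt⟩

/-- Lower semicontinuity of the neck size from the right. -/
theorem Lh_le_of_right (hz : z ∉ S.E) (ht : 0 ≤ t) (hv : ENNReal.ofReal t < S.v z) {r : ℝ≥0∞}
    (h : ∀ η > 0, ∃ t' ∈ Ico t (t + η), S.Lh t' z ≤ r) : S.Lh t z ≤ r := by
  have hcc := S.cc_compact z hz
  refine S.Lh_le fun a ha b hb => ?_
  have hnot : ∀ a ∈ frontier (S.hair t z), a ∉ S.hair t z := fun a ha h =>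
    ha.2 (by rw [(S.isOpen_hair t z).interior_eq]; exact h)
  have hpt : ∀ a ∈ frontier (S.hair t z), ∀ r > 0, ∃ η > 0, ∀ t' ∈ Ico t (t + η),
      ∃ a' ∈ frontier (S.hair t' z), dist a' a < r := by
    intro a ha r hr
    obtain ⟨N, hN, hNc, haN, hNU⟩ := exists_conn_nhd (isOpen_ball (x := a) (ε := r))
      (mem_ball_self hr)
    obtain ⟨y, hyN, hyh⟩ := mem_closure_iff.1 (frontier_subset_closure ha) N hN haN
    obtain ⟨η, hη, hyH⟩ := S.exists_mem_hair_right ht hv hyh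
    refine ⟨η, hη, fun t' ht' => ?_⟩
    obtain ⟨x, hxN, hx⟩ := meets_frontier (U := S.hair t' z) hNc ⟨y, hyN, hyH t' ht'⟩
      ⟨a, haN, fun h => hnot a ha (S.hair_anti ht'.1 z h)⟩
    exact ⟨x, hx, hNU hxN⟩
  have hseq : ∀ j : ℕ, ∃ a' b', dist a' a < 1 / (j + 1 : ℝ) ∧ dist b' b < 1 / (j + 1 : ℝ) ∧
      dl (S.cc z) a' b' ≤ r := by
    intro j
    have hj : (0 : ℝ) < 1 / (j + 1 : ℝ) := by positivity
    obtain ⟨n₁, hn₁, h₁⟩ := hpt a ha _ hj
    obtain ⟨n₂, hn₂, h₂⟩ := hpt b hb _ hj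
    obtain ⟨t', ht', hr'⟩ := h (min n₁ n₂) (lt_min hn₁ hn₂)
    obtain ⟨a', ha', had⟩ := h₁ t' ⟨ht'.1, ht'.2.trans_le (by gcongr; exact min_le_left _ _)⟩
    obtain ⟨b', hb', hbd⟩ := h₂ t' ⟨ht'.1, ht'.2.trans_le (by gcongr; exact min_le_right _ _)⟩
    exact ⟨a', b', had, hbd, (S.dl_le_Lh ha' hb').trans hr'⟩
  choose a' b' ha' hb' hab using hseq
  have hlim : Tendsto (fun j : ℕ => 1 / ((j : ℝ) + 1)) atTop (𝓝 0) :=
    tendsto_one_div_add_atTop_nhds_zero_nat
  refine dl_le_of_tendsto hcc (a := a') (b := b') ?_ ?_ hab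
  · rw [tendsto_iff_dist_tendsto_zero]
    exact squeeze_zero (fun _ => dist_nonneg) (fun j => (ha' j).le) hlim
  · rw [tendsto_iff_dist_tendsto_zero]
    exact squeeze_zero (fun _ => dist_nonneg) (fun j => (hb' j).le) hlim

end Skel

end Pool.Agent.QCS
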