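import Pool.Agent.Lib.MP_811d89_an.TB

/-!
# The oscillation lemma
-/

open MeasureTheory Set Metric Topology Filter
open scoped ENNReal NNReal

namespace Pool.Agent.QCS

set_option linter.unusedSectionVars false

variable {X : Type*} [MetricSpace X] [MeasurableSpace X] [BorelSpace X]

namespace Skel

variable (S : Skel X) [LocallyConnectedSpace X] [ConnectedSpace X]

include S in
/-- Small balls have small measure. -/
theorem exists_small_measure (x : X) {ε : ℝ} (hε : 0 < ε) :
    ∃ ρ > 0, μH[2] (closedBall x ρ) < ENNReal.ofReal ε := by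
  obtain ⟨U, hU, hfin⟩ := S.fin x
  obtain ⟨ρ₁, hρ₁, hsub⟩ := Metric.nhds_basis_closedBall.mem_iff.1 hU
  set s : ℕ → Set X := fun n => closedBall x (ρ₁ / (n + 1)) with hs
  have hanti : Antitone s := by
    intro n m hnm
    refine closedBall_subset_closedBall ?_
    have : (n : ℝ) ≤ m := by exact_mod_cast hnm
    gcongr
  have h1 := tendsto_measure_iInter_atTop (μ := μH[2]) (s := s)
    (fun n => isClosed_closedBall.measurableSet.nullMeasurableSet) hanti
    ⟨0, by
      refine ((measure_mono ?_).trans_lt hfin).ne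
      rw [hs]; simpa using hsub⟩
  have h2 : (⋂ n, s n) = {x} := by
    refine Subset.antisymm (fun y hy => ?_) (singleton_subset_iff.2 (mem_iInter.2 fun n =>
      mem_closedBall_self (by positivity)))
    have h3 : ∀ n : ℕ, dist y x ≤ ρ₁ / (n + 1) := fun n => mem_closedBall.1 (mem_iInter.1 hy n)
    have h4 : Tendsto (fun n : ℕ => ρ₁ / ((n : ℝ) + 1)) atTop (𝓝 0) := by
      have := (tendsto_one_div_add_atTop_nhds_zero_nat (𝕜 := ℝ)).const_mul ρ₁
      simpa [div_eq_mul_inv] using this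
    have h5 : dist y x ≤ 0 := ge_of_tendsto' h4 h3
    exact mem_singleton_iff.2 (dist_le_zero.1 h5)
  haveI := Measure.nullSingletonClass_hausdorff X (d := 2) (by norm_num)
  rw [h2, measure_singleton] at h1
  obtain ⟨n, hn⟩ := (h1.eventually_lt_const (show (0 : ℝ≥0∞) < ENNReal.ofReal ε by
    simpa using hε)).exists
  exact ⟨ρ₁ / (n + 1), by positivity, hn⟩

/-- Weighted distance to the neck. -/
theorem cost_neck_le {z : X} {t : ℝ} (ht : 0 ≤ t) (htv : ENNReal.ofReal t < S.v z)
    (hv : S.v z ≠ ∞) : ∃ q ∈ frontier (S.hair t z),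
      cost S.w z q ≤ ENNReal.ofReal (6 * √(μH[2] (S.hair t z)).toReal) := by
  have hz := S.notMem_E htv
  obtain ⟨c, hc⟩ := S.exists_Geod hz hv
  have htV : t < (S.v z).toReal := by
    rw [← ENNReal.toReal_ofReal ht]
    exact (ENNReal.toReal_lt_toReal ENNReal.ofReal_ne_top hv).2 htv
  refine ⟨c t, hc.mem_frontier ht htV, ?_⟩
  rw [cost_comm]
  exact (cost_geod_le hc htV.le).trans (S.depth_le hz hc ht)

/-- Points in deep connected sets are in a common hair with small neck. -/
theorem exists_common_hair {κ : ℝ≥0} {A : Set X} (hA : IsPreconnected A)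
    (hdeep : ∀ z ∈ A, S.deep κ z) {y : X} (hy : y ∈ A) :
    ∃ t, 0 ≤ t ∧ ENNReal.ofReal t < S.v y ∧
      S.Lh t y ≤ κ * (S.v y - ENNReal.ofReal t) ∧ A ⊆ S.hair t y := by
  set T : Set ℝ := {t | 0 ≤ t ∧ ENNReal.ofReal t < S.v y ∧
    S.Lh t y < κ * (S.v y - ENNReal.ofReal t)} with hT
  have hTne : T.Nonempty := hdeep y hy
  have hTb : BddBelow T := ⟨0, fun t ht => ht.1⟩
  set t₀ := sInf T with ht₀
  have h0 : 0 ≤ t₀ := le_csInf hTne fun t ht => ht.1
  obtain ⟨t₁, ht₁⟩ := hTne
  have hlt : ENNReal.ofReal t₀ < S.v y :=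
    (ENNReal.ofReal_le_ofReal (csInf_le hTb ht₁)).trans_lt ht₁.2.1
  have hyE := S.notMem_E hlt
  refine ⟨t₀, h0, hlt, S.Lh_le_of_right hyE h0 hlt (fun η hη => ?_), ?_⟩
  · obtain ⟨t', ht', hlt'⟩ := exists_lt_of_csInf_lt ⟨t₁, ht₁⟩ (lt_add_of_pos_right t₀ hη)
    refine ⟨t', ⟨csInf_le hTb ht', hlt'⟩, ht'.2.2.le.trans ?_⟩
    have : t₀ ≤ t' := csInf_le hTb ht'
    gcongr
  · by_contra hcon
    obtain ⟨x, hxA, hx⟩ := not_subset.1 hcon
    obtain ⟨p, hpA, hpF⟩ := meets_frontier (U := S.hair t₀ y) hA ⟨y, hy, S.mem_hair hlt⟩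
      ⟨x, hxA, hx⟩
    have hvp := S.v_le_of_frontier hpF
    obtain ⟨tp, h0p, hltp, hLp⟩ := hdeep p hpA
    have h1 : tp < t₀ := by
      have := hltp.trans_le hvp
      rcases h0.eq_or_lt with h | h
      · rw [← h, ENNReal.ofReal_zero] at this; exact absurd this not_lt_zero
      · exact (ENNReal.ofReal_lt_ofReal_iff h).1 this
    have h2 : p ∈ S.hair tp y := by
      have h3 : IsPreconnected (insert p (S.hair t₀ y)) :=
        (S.hair_conn t₀ y).subset_closure (subset_insert _ _)
          (insert_subset (frontier_subset_closure hpF) subset_closure)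
      have h4 : ENNReal.ofReal tp < ENNReal.ofReal t₀ :=
        (ENNReal.ofReal_lt_ofReal_iff (h0p.trans_lt h1)).2 h1
      refine S.subset_hair h3 ?_ (mem_insert_of_mem _ (S.mem_hair hlt))
        (S.mem_hair (h4.trans hlt)) (mem_insert _ _)
      rintro z (rfl | hz)
      · exact hltp
      · exact h4.trans (S.v_gt_of_hair hz)
    have h5 : tp ∈ T := by
      refine ⟨h0p, ((ENNReal.ofReal_le_ofReal h1.le).trans_lt hlt), ?_⟩
      rw [← S.Lh_eq h2]
      refine hLp.trans_le ?_
      have : S.v p ≤ S.v y := hvp.trans hlt.le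
      gcongr
    exact absurd (csInf_le hTb h5) (not_le.2 h1)

/-- The thick case: necks around `x` are bounded below. -/
def Thick (x : X) : Prop := ∃ l > 0, ∀ t, 0 ≤ t → ENNReal.ofReal t < S.v x →
  ENNReal.ofReal l ≤ S.Lh t x

theorem Thick.v_ne_top {x : X} (h : S.Thick x) : S.v x ≠ ∞ := by
  obtain ⟨l, hl, h⟩ := h
  intro hv
  have hx : x ∉ S.E := fun hE => by rw [S.v_zero hE] at hv; exact ENNReal.zero_ne_top hv
  set m := (μH[2] (S.hair 0 x)).toReal
  have hm : 0 ≤ m := ENNReal.toReal_nonneg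
  obtain ⟨t, ht, hL⟩ := S.exists_Lh_le hx (a := 0) (b := (m + 1) / l) le_rfl (by positivity)
    (by rw [hv]; exact le_top)
  have h1 := (h t ht.1.le (by rw [hv]; exact ENNReal.ofReal_lt_top)).trans hL
  rw [sub_zero] at h1
  have h2 := (ENNReal.ofReal_le_ofReal_iff (by positivity)).1 h1
  have h3 : m / ((m + 1) / l) < l := by
    rw [div_lt_iff₀ (by positivity)]
    have : l * ((m + 1) / l) = m + 1 := by field_simp
    linarith
  exact absurd h2 (not_le.2 h3)

theorem measure_hair_le {x y : X} {t ρ : ℝ} (hx : x ∈ closure (S.hair t y))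
    (hd : ∀ a ∈ S.hair t y, ∀ b ∈ S.hair t y, dist a b < ρ) :
    μH[2] (S.hair t y) ≤ μH[2] (closedBall x ρ) := by
  refine measure_mono fun a ha => ?_
  have h1 : closure (S.hair t y) ⊆ closedBall a ρ :=
    closure_minimal (fun b hb => by rw [mem_closedBall]; exact (hd b hb a ha).le)
      isClosed_closedBall
  have h2 := h1 hx
  rw [mem_closedBall] at h2 ⊢
  rwa [dist_comm]

theorem sqrt_measure_le {A : Set X} {ε : ℝ} (hε : 0 < ε) (h : μH[2] A ≤ ENNReal.ofReal (ε ^ 2)) :
    6 * √(μH[2] A).toReal ≤ 6 * ε := by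
  have h1 := ENNReal.toReal_mono ENNReal.ofReal_ne_top h
  rw [ENNReal.toReal_ofReal (by positivity)] at h1
  have h2 := Real.sqrt_le_sqrt h1
  rw [Real.sqrt_sq hε.le] at h2
  linarith

/-- The key step: Cauchy sequences converging to a thick point converge in the weighted sense. -/
theorem cauchy_thick [LocallyCompactSpace X] {x : X} (hx : S.Thick x) {z : ℕ → X}
    (hz : ∀ n, S.v (z n) ≠ ∞) (hlim : Tendsto z atTop (𝓝 x))
    (hc : ∀ n, cost S.w (z n) (z (n + 1)) < ENNReal.ofReal ((1 / 2) ^ n)) {ε : ℝ} (hε : 0 < ε)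
    (N₀ : ℕ) : ∃ n ≥ N₀, cost S.w (z n) x ≤ ENNReal.ofReal ε := by
  have hvx := hx.v_ne_top
  obtain ⟨l, hl, hthick⟩ := hx
  choose L c hL hlip hc0 hcL hint using fun n => exists_of_cost_lt (hc n)
  -- the curves become small
  have hsmall : ∀ ρ > 0, ∃ N, ∀ n ≥ N, ∀ s ∈ Icc 0 (L n), dist x (c n s) < ρ := by
    intro ρ hρ
    obtain ⟨η, hη, r, hr, hps⟩ := S.path_small x hρ
    have h1 : ∀ᶠ n in atTop, dist x (z n) < r := by
      have := (tendsto_iff_dist_tendsto_zero.1 hlim).eventually_lt_const hr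
      filter_upwards [this] with n hn
      rwa [dist_comm]
    have h2 : ∀ᶠ n : ℕ in atTop, (1 / 2 : ℝ) ^ n < η :=
      (tendsto_pow_atTop_nhds_zero_of_lt_one (by norm_num) (by norm_num)).eventually_lt_const hη
    obtain ⟨N, hN⟩ := eventually_atTop.1 (h1.and h2)
    refine ⟨N, fun n hn s hs => hps (c n) (L n) (hlip n) (by rw [hc0]; exact (hN n hn).1) ?_ s hs⟩
    exact (hint n).trans ((ENNReal.ofReal_lt_ofReal_iff hη).2 (hN n hn).2)
  have hvc : ∀ n, ∀ s ∈ Icc 0 (L n), S.v (c n s) ≠ ∞ := by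
    intro n s hs
    refine S.v_ne_top_of_LC (y := z n) (L := s - 0) ?_ (hz n)
    rw [← hc0 n]
    exact LC_univ (hlip n) hs.1
  set A : ℕ → Set X := fun N => ⋃ n : ℕ, c (N + n) '' Icc 0 (L (N + n)) with hA
  have hAconn : ∀ N, IsPreconnected (A N) := by
    intro N
    refine IsPreconnected.iUnion_of_chain (fun n => isPreconnected_Icc.image _
      (hlip _).continuous.continuousOn) fun n => ?_
    refine ⟨z (N + n + 1), ⟨L (N + n), ⟨hL _, le_rfl⟩, hcL _⟩, ⟨0, ⟨le_rfl, hL _⟩, ?_⟩⟩
    exact hc0 (N + n + 1)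
  have hzA : ∀ N n, N ≤ n → z n ∈ A N := by
    intro N n hn
    obtain ⟨k, rfl⟩ := Nat.exists_eq_add_of_le hn
    exact mem_iUnion.2 ⟨k, 0, ⟨le_rfl, hL _⟩, hc0 _⟩
  have hxcl : ∀ N, x ∈ closure (A N) := fun N =>
    mem_closure_of_tendsto hlim (eventually_atTop.2 ⟨N, fun n hn => hzA N n hn⟩)
  have hvA : ∀ N, ∀ y ∈ A N, S.v y ≠ ∞ := by
    rintro N y hy
    obtain ⟨n, s, hs, rfl⟩ := mem_iUnion.1 hy
    exact hvc _ s hs
  -- first alternative: non-deep points infinitely often
  by_cases halt : ∃ κ : ℝ≥0, 0 < κ ∧ κ ≤ 1 ∧ ∀ N, ∃ n ≥ N, ∃ s ∈ Icc 0 (L n),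
      ¬ S.deep κ (c n s)
  · obtain ⟨κ, hκ, hκ1, hnd⟩ := halt
    have hκr : (0 : ℝ) < κ := by exact_mod_cast hκ
    obtain ⟨K, hKc, hxK⟩ := exists_compact_mem_nhds x
    -- weighted distances along the tail
    have htail : ∀ n m, n ≤ m → ∀ s ∈ Icc 0 (L n), ∀ s' ∈ Icc 0 (L m),
        cost S.w (c n s) (c m s') ≤ ENNReal.ofReal (4 * (1 / 2) ^ n) := by
      intro n m hnm s hs s' hs'
      have h1 : cost S.w (c n s) (z n) ≤ ENNReal.ofReal ((1 / 2) ^ n) := by
        rw [cost_comm, ← hc0 n]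
        exact (cost_le_of_curve (hlip n) hs.1).trans
          ((lintegral_mono_set (Icc_subset_Icc le_rfl hs.2)).trans (hint n).le)
      have h2 : cost S.w (z m) (c m s') ≤ ENNReal.ofReal ((1 / 2) ^ m) := by
        rw [← hc0 m]
        exact (cost_le_of_curve (hlip m) hs'.1).trans
          ((lintegral_mono_set (Icc_subset_Icc le_rfl hs'.2)).trans (hint m).le)
      have h3 : ∀ k, cost S.w (z n) (z (n + k)) ≤
          ENNReal.ofReal (2 * (1 / 2) ^ n - 2 * (1 / 2) ^ (n + k)) := by
        intro k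
        induction k with
        | zero => rw [add_zero, cost_self]; exact zero_le
        | succ k ih =>
          have h4 : (0 : ℝ) ≤ 2 * (1 / 2) ^ n - 2 * (1 / 2) ^ (n + k) := by
            rw [pow_add]
            have : (1 / 2 : ℝ) ^ k ≤ 1 := pow_le_one₀ (by norm_num) (by norm_num)
            have h5 : (0 : ℝ) < (1 / 2) ^ n := by positivity
            nlinarith
          calc cost S.w (z n) (z (n + (k + 1)))
              ≤ cost S.w (z n) (z (n + k)) + cost S.w (z (n + k)) (z (n + k + 1)) :=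
                cost_triangle _ _ _ _
            _ ≤ ENNReal.ofReal (2 * (1 / 2) ^ n - 2 * (1 / 2) ^ (n + k)) +
                ENNReal.ofReal ((1 / 2) ^ (n + k)) := add_le_add ih (hc _).le
            _ = ENNReal.ofReal (2 * (1 / 2) ^ n - 2 * (1 / 2) ^ (n + (k + 1))) := by
                rw [← ENNReal.ofReal_add h4 (by positivity)]
                congr 1
                rw [← add_assoc, pow_succ (1 / 2 : ℝ) (n + k)]
                ring
      obtain ⟨k, rfl⟩ := Nat.exists_eq_add_of_le hnm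
      have hk := h3 k
      have h5 : (0 : ℝ) ≤ 2 * (1 / 2) ^ n - 2 * (1 / 2) ^ (n + k) := by
        rw [pow_add]
        have : (1 / 2 : ℝ) ^ k ≤ 1 := pow_le_one₀ (by norm_num) (by norm_num)
        have h5 : (0 : ℝ) < (1 / 2) ^ n := by positivity
        nlinarith
      calc cost S.w (c n s) (c (n + k) s')
          ≤ cost S.w (c n s) (z n) + cost S.w (z n) (z (n + k)) +
            cost S.w (z (n + k)) (c (n + k) s') :=
            (cost_triangle _ _ (z (n + k)) _).trans
              (add_le_add (cost_triangle _ _ _ _) le_rfl)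
        _ ≤ ENNReal.ofReal ((1 / 2) ^ n) + ENNReal.ofReal (2 * (1 / 2) ^ n - 2 * (1 / 2) ^ (n + k)) +
            ENNReal.ofReal ((1 / 2) ^ (n + k)) := by gcongr
        _ ≤ ENNReal.ofReal (4 * (1 / 2) ^ n) := by
            rw [← ENNReal.ofReal_add (by positivity) h5,
              ← ENNReal.ofReal_add (by positivity) (by positivity)]
            refine ENNReal.ofReal_le_ofReal ?_
            have : (0 : ℝ) < (1 / 2) ^ (n + k) := by positivity
            have h6 : (0 : ℝ) < (1 / 2) ^ n := by positivity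
            linarith
    -- choose the points
    choose φ hφ s hs hsd using hnd
    -- length distances between the non-deep points
    have hdl : ∀ i j, φ i ≤ φ j → dl univ (c (φ i) (s i)) (c (φ j) (s j)) ≤
        ENNReal.ofReal (4 * (1 / 2) ^ (φ i) / κ ^ 2) := by
      intro i j hij
      have h1 := (S.dl_le_cost hκ hκ1 (hsd i) (hsd j)).trans (htail _ _ hij _ (hs i) _ (hs j))
      rw [ENNReal.ofReal_div_of_pos (by positivity), ENNReal.ofReal_pow hκr.le,
        ENNReal.ofReal_coe_nnreal, ENNReal.le_div_iff_mul_le (Or.inl (by positivity))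
        (Or.inl (by finiteness)), mul_comm]
      exact h1
    -- a small compact ball
    obtain ⟨ρ₁, hρ₁, hcpt⟩ : ∃ ρ₁ > 0, IsCompact (closedBall x ρ₁) := by
      obtain ⟨ρ₁, hρ₁, hsub⟩ := Metric.nhds_basis_closedBall.mem_iff.1 hxK
      exact ⟨ρ₁, hρ₁, hKc.of_isClosed_subset isClosed_closedBall hsub⟩
    obtain ⟨N₁, hN₁⟩ := hsmall (ρ₁ / 2) (half_pos hρ₁)
    -- the target accuracy
    set θ := min ε (ρ₁ / 2) with hθ
    have hθ0 : 0 < θ := lt_min hε (half_pos hρ₁)
    have hpow : ∀ᶠ n : ℕ in atTop, 4 * (1 / 2 : ℝ) ^ n / (κ : ℝ) ^ 2 < θ / 2 := by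
      have : Tendsto (fun n : ℕ => 4 * (1 / 2 : ℝ) ^ n / (κ : ℝ) ^ 2) atTop
          (𝓝 (4 * 0 / (κ : ℝ) ^ 2)) :=
        ((tendsto_pow_atTop_nhds_zero_of_lt_one (by norm_num) (by norm_num)).const_mul 4).div_const _
      rw [mul_zero, zero_div] at this
      exact this.eventually_lt_const (half_pos hθ0)
    have hpow2 : ∀ᶠ n : ℕ in atTop, 4 * (1 / 2 : ℝ) ^ n < ε / 2 := by
      have : Tendsto (fun n : ℕ => 4 * (1 / 2 : ℝ) ^ n) atTop (𝓝 (4 * 0)) :=
        (tendsto_pow_atTop_nhds_zero_of_lt_one (by norm_num) (by norm_num)).const_mul 4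
      rw [mul_zero] at this
      exact this.eventually_lt_const (half_pos hε)
    obtain ⟨N₂, hN₂⟩ := eventually_atTop.1 (hpow.and hpow2)
    set i := max N₀ (max N₁ N₂) with hi
    have hφi : i ≤ φ i := hφ i
    have hi0 : N₀ ≤ φ i := (le_max_left _ _).trans hφi
    have hi1 : N₁ ≤ φ i := ((le_max_left _ _).trans (le_max_right _ _)).trans hφi
    have hi2 : N₂ ≤ φ i := ((le_max_right _ _).trans (le_max_right _ _)).trans hφi
    -- curves to far away points of the sequence stay in the compact ball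
    have hLC : ∀ j, LC (closedBall x ρ₁) (c (φ i) (s i)) (c (φ (max j (φ i))) (s (max j (φ i))))
        (θ / 2) := by
      intro j
      have h1 := hdl i (max j (φ i)) ((le_max_right _ _).trans (hφ _))
      have h2 := h1.trans_lt ((ENNReal.ofReal_lt_ofReal_iff (half_pos hθ0)).2 (hN₂ _ hi2).1)
      obtain ⟨M, hM, hM'⟩ := exists_LC_of_dl_lt h2
      have hM'' := (ENNReal.ofReal_lt_ofReal_iff (half_pos hθ0)).1 hM'
      obtain ⟨hM0, g, hg, -, hga, hgb⟩ := hM
      have h3 : LC (closedBall x ρ₁) (g 0) (g M) (M - 0) := by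
        refine LC.of_curve hg hM0 fun u hu => ?_
        rw [mem_closedBall, dist_comm]
        have h4 := hN₁ (φ i) hi1 (s i) (hs i)
        have h5 := lip_dist hg 0 u
        rw [hga, zero_sub, abs_neg, abs_of_nonneg hu.1] at h5
        have h6 := dist_triangle x (c (φ i) (s i)) (g u)
        have h7 : θ ≤ ρ₁ / 2 := min_le_right _ _
        linarith [hu.2]
      rw [hga, hgb, sub_zero] at h3
      exact h3.mono_length hM''.le
    have hlim2 : Tendsto (fun j => c (φ (max j (φ i))) (s (max j (φ i)))) atTop (𝓝 x) := by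
      rw [Metric.tendsto_atTop]
      intro ρ hρ
      obtain ⟨N, hN⟩ := hsmall ρ hρ
      refine ⟨N, fun j hj => ?_⟩
      rw [dist_comm]
      exact hN _ ((hj.trans (le_max_left _ _)).trans (hφ _)) _ (hs _)
    have h8 := LC.limit hcpt hLC tendsto_const_nhds hlim2 tendsto_const_nhds
    refine ⟨φ i, hi0, ?_⟩
    calc cost S.w (z (φ i)) x ≤ cost S.w (z (φ i)) (c (φ i) (s i)) + cost S.w (c (φ i) (s i)) x :=
          cost_triangle _ _ _ _
      _ ≤ ENNReal.ofReal (ε / 2) + ENNReal.ofReal (θ / 2) := by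
          refine add_le_add ?_ ((cost_le_dl S.w_le_one _ _ _).trans h8.dl_le)
          have h9 := htail (φ i) (φ i) le_rfl 0 ⟨le_rfl, hL _⟩ (s i) (hs i)
          rw [hc0] at h9
          exact h9.trans (ENNReal.ofReal_le_ofReal (hN₂ _ hi2).2.le)
      _ ≤ ENNReal.ofReal ε := by
          rw [← ENNReal.ofReal_add (by positivity) (by positivity)]
          refine ENNReal.ofReal_le_ofReal ?_
          have : θ ≤ ε := min_le_left _ _
          linarith
  · push Not at halt
    have hdeepA : ∀ κ : ℝ≥0, 0 < κ → ∃ N, ∀ n ≥ N, ∀ y ∈ A n, S.deep κ y := by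
      intro κ hκ
      obtain ⟨N, hN⟩ := halt (min κ 1) (lt_min hκ one_pos) (min_le_right _ _)
      refine ⟨N, fun n hn y hy => ?_⟩
      obtain ⟨k, u, hu, rfl⟩ := mem_iUnion.1 hy
      exact S.deep_mono (min_le_left _ _) (hN (n + k) (by omega) u hu)
    -- the common hairs
    have hstar : ∀ ε' > 0, ∀ N, ∃ n ≥ N, ∃ y ∈ A n, ∃ t, 0 ≤ t ∧ A n ⊆ S.hair t y ∧
        x ∈ frontier (S.hair t y) ∧ S.Lh t y < ENNReal.ofReal ε' := by
      intro ε' hε' N
      have hfr : ∀ n t y, A n ⊆ S.hair t y → x ∉ S.hair t y → x ∈ frontier (S.hair t y) := by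
        intro n t y hsub hx
        exact ⟨closure_mono hsub (hxcl n), fun h => hx (interior_subset h)⟩
      by_cases hb : ∃ T : ℝ, 0 < T ∧ ∀ N, ∃ n ≥ N, ∃ y ∈ A n, S.v y ≤ ENNReal.ofReal T
      · obtain ⟨T, hT, hb⟩ := hb
        set δ := min (ε' / 2) (l / 2) with hδ
        have hδ0 : 0 < δ := by positivity
        obtain ⟨N₁, hN₁⟩ := hdeepA (δ / T).toNNReal (Real.toNNReal_pos.2 (by positivity))
        obtain ⟨n, hn, y, hy, hvy⟩ := hb (max N N₁)
        obtain ⟨t, h0, hlt, hLt, hsub⟩ := S.exists_common_hair (hAconn n)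
          (hN₁ n ((le_max_right _ _).trans hn)) hy
        have hLδ : S.Lh t y ≤ ENNReal.ofReal δ := by
          refine hLt.trans ?_
          calc ((δ / T).toNNReal : ℝ≥0∞) * (S.v y - ENNReal.ofReal t)
              ≤ ENNReal.ofReal (δ / T) * ENNReal.ofReal T :=
                mul_le_mul' le_rfl (tsub_le_self.trans hvy)
            _ = ENNReal.ofReal δ := by
                rw [← ENNReal.ofReal_mul (by positivity)]; congr 1; field_simp
        refine ⟨n, (le_max_left _ _).trans hn, y, hy, t, h0, hsub, hfr n t y hsub ?_, ?_⟩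
        · intro hxh
          have h1 := hthick t h0 (S.v_gt_of_hair hxh)
          rw [S.Lh_eq hxh] at h1
          have h2 := (ENNReal.ofReal_le_ofReal_iff hδ0.le).1 (h1.trans hLδ)
          have : δ ≤ l / 2 := min_le_right _ _
          linarith
        · refine hLδ.trans_lt ((ENNReal.ofReal_lt_ofReal_iff hε').2 ?_)
          have : δ ≤ ε' / 2 := min_le_left _ _
          linarith
      · push Not at hb
        set V₀ := (S.v x).toReal with hV₀
        have hV₀0 : 0 ≤ V₀ := ENNReal.toReal_nonneg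
        obtain ⟨K, hKc, hxK⟩ := exists_compact_mem_nhds x
        obtain ⟨K', hK', hKK', hcells⟩ := S.cells K hKc
        set m := (μH[2] K').toReal with hm
        have hm0 : 0 ≤ m := ENNReal.toReal_nonneg
        have hmfin : μH[2] K' ≠ ∞ := (S.compact_lt_top hK').ne
        set T := V₀ + (m + 1) / ε' with hT
        have hTV : V₀ < T := by
          have : 0 < (m + 1) / ε' := by positivity
          linarith
        obtain ⟨N₁, hN₁⟩ := hb T (by linarith)
        obtain ⟨N₂, hN₂⟩ := eventually_atTop.1 (hlim.eventually_mem hxK)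
        set n := max N (max N₁ N₂) with hn
        have hzn : z n ∈ A n := hzA n n le_rfl
        have hvn := hN₁ n ((le_max_left _ _).trans (le_max_right _ _))
        have hvz := hvn (z n) hzn
        have hzE := S.notMem_E hvz
        obtain ⟨t, ht, hLt⟩ := S.exists_Lh_le hzE hV₀0 hTV hvz.le
        have htv : ENNReal.ofReal t < ENNReal.ofReal T :=
          (ENNReal.ofReal_lt_ofReal_iff (by linarith)).2 ht.2
        refine ⟨n, le_max_left _ _, z n, hzn, t, by linarith [ht.1], ?_, ?_, ?_⟩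
        · exact S.subset_hair (hAconn n) (fun y hy => htv.trans (hvn y hy)) hzn
            (S.mem_hair (htv.trans hvz))
        · refine hfr n t (z n) (S.subset_hair (hAconn n) (fun y hy => htv.trans (hvn y hy)) hzn
            (S.mem_hair (htv.trans hvz))) fun hxh => ?_
          have h1 := S.v_gt_of_hair hxh
          rw [← ENNReal.ofReal_toReal hvx] at h1
          exact absurd ((ENNReal.ofReal_lt_ofReal_iff_of_nonneg (by linarith [ht.1])).1 h1)
            (not_lt.2 ht.1.le)
        · refine hLt.trans_lt ((ENNReal.ofReal_lt_ofReal_iff hε').2 ?_)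
          have h2 : (μH[2] (S.hair V₀ (z n))).toReal ≤ m := ENNReal.toReal_mono hmfin
            (measure_mono ((S.hair_sub_cell _ _).trans ((S.cell_sub_cc _).trans
              (hcells (z n) (hN₂ n ((le_max_right _ _).trans (le_max_right _ _))) hzE))))
          rw [div_lt_iff₀ (by linarith), hT]
          have : ε' * (V₀ + (m + 1) / ε' - V₀) = m + 1 := by field_simp; ring
          linarith
    -- conclusion
    obtain ⟨ρ, hρ, hμ⟩ := S.exists_small_measure x (ε := (ε / 12) ^ 2) (by positivity)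
    obtain ⟨K, hKc, hxK⟩ := exists_compact_mem_nhds x
    obtain ⟨ε₀, hε₀, hsm⟩ := S.small_hair' hKc hρ
    obtain ⟨N₂, hN₂⟩ := eventually_atTop.1 (hlim.eventually_mem hxK)
    obtain ⟨n, hn, y, hy, t, h0, hsub, hfr, hLt⟩ := hstar (min ε₀ (ε / 2)) (by positivity)
      (max N₀ N₂)
    have hzn : z n ∈ A n := hzA n n le_rfl
    have hzh : z n ∈ S.hair t y := hsub hzn
    have hheq := S.hair_eq hzh
    have hzv := S.v_gt_of_hair hzh
    have hzE := S.notMem_E hzv
    have hLz : S.Lh t (z n) < ENNReal.ofReal (min ε₀ (ε / 2)) := by rwa [S.Lh_eq hzh]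
    have hdiam := hsm (z n) (hN₂ n ((le_max_right _ _).trans hn)) hzE t
      (hLz.trans_le (ENNReal.ofReal_le_ofReal (min_le_left _ _)))
    have hxfr : x ∈ frontier (S.hair t (z n)) := by rw [hheq]; exact hfr
    have hμh := S.measure_hair_le (frontier_subset_closure hxfr) hdiam
    obtain ⟨q, hq, hqc⟩ := S.cost_neck_le h0 hzv (hz n)
    refine ⟨n, (le_max_left _ _).trans hn, ?_⟩
    calc cost S.w (z n) x ≤ cost S.w (z n) q + cost S.w q x := cost_triangle _ _ _ _
      _ ≤ ENNReal.ofReal (6 * (ε / 12)) + ENNReal.ofReal (ε / 2) := by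
          refine add_le_add (hqc.trans (ENNReal.ofReal_le_ofReal
            (sqrt_measure_le (by positivity) (hμh.trans hμ.le)))) ?_
          exact (cost_le_dl S.w_le_one _ _ _).trans ((S.dl_le_Lh hq hxfr).trans
            (hLz.le.trans (ENNReal.ofReal_le_ofReal (min_le_right _ _))))
      _ = ENNReal.ofReal ε := by
          rw [← ENNReal.ofReal_add (by positivity) (by positivity)]; congr 1; ring

end Skel

end Pool.Agent.QCS
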