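import Pool.Agent.Lib.MP_811d89_an.Disk
import Pool.Agent.Lib.MP_811d89_an.Topo
import Pool.Agent.Lib.MP_811d89_an.Eil

/-!
# Small compact sets with connected frontier of finite length
-/

open MeasureTheory Set Metric Topology Filter
open scoped ENNReal NNReal

namespace Pool.Agent.QCS

set_option linter.unusedSectionVars false

section Top

variable {X : Type*} [TopologicalSpace X]

/-- If `N` and `W ⊆ N` are connected, and `C` is a component of `N \ W`, then `N \ C` is
connected. -/
theorem isPreconnected_diff_component {N W : Set X} (hN : IsPreconnected N) (hWN : W ⊆ N)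
    (hW : IsPreconnected W) {z : X} (hz : z ∈ N \ W) :
    IsPreconnected (N \ connectedComponentIn (N \ W) z) := by
  set C := connectedComponentIn (N \ W) z with hC
  have hzC : z ∈ C := mem_connectedComponentIn hz
  have hCsub : C ⊆ N \ W := connectedComponentIn_subset _ _
  have hCc : IsPreconnected C := isPreconnected_connectedComponentIn
  have hWC : W ⊆ N \ C := fun w hw => ⟨hWN hw, fun h => (hCsub h).2 hw⟩
  rw [isPreconnected_iff_subset_of_disjoint] at hN hCc hW ⊢
  have key : ∀ u v, IsOpen u → IsOpen v → N \ C ⊆ u ∪ v → (N \ C) ∩ (u ∩ v) = ∅ → W ⊆ u →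
      N \ C ⊆ u := by
    intro u v hu hv hcov hdis hWu
    set T := C ∪ ((N \ C) ∩ v) with hT
    have hTsub : T ⊆ N \ W := by
      refine union_subset hCsub ?_
      rintro y ⟨⟨hyN, hyC⟩, hyv⟩
      refine ⟨hyN, fun hyW => ?_⟩
      exact (eq_empty_iff_forall_notMem.1 hdis) y ⟨⟨hyN, hyC⟩, hWu hyW, hyv⟩
    have inner : ∀ u' v', IsOpen u' → IsOpen v' → T ⊆ u' ∪ v' → T ∩ (u' ∩ v') = ∅ → C ⊆ u' →
        T ⊆ u' := by
      intro u' v' hu' hv' hcov' hdis' hCu'
      have h1 : N ⊆ (u ∪ u') ∪ (v ∩ v') := by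
        intro y hy
        by_cases hyC : y ∈ C
        · exact Or.inl (Or.inr (hCu' hyC))
        · rcases hcov ⟨hy, hyC⟩ with h | h
          · exact Or.inl (Or.inl h)
          · rcases hcov' (Or.inr ⟨⟨hy, hyC⟩, h⟩) with h' | h'
            · exact Or.inl (Or.inr h')
            · exact Or.inr ⟨h, h'⟩
      have h2 : N ∩ ((u ∪ u') ∩ (v ∩ v')) = ∅ := by
        rw [eq_empty_iff_forall_notMem]
        rintro y ⟨hy, hyu, hyv, hyv'⟩
        have hyC : y ∉ C := fun h =>
          (eq_empty_iff_forall_notMem.1 hdis') y ⟨Or.inl h, hCu' h, hyv'⟩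
        rcases hyu with h | h
        · exact (eq_empty_iff_forall_notMem.1 hdis) y ⟨⟨hy, hyC⟩, h, hyv⟩
        · exact (eq_empty_iff_forall_notMem.1 hdis') y ⟨Or.inr ⟨⟨hy, hyC⟩, hyv⟩, h, hyv'⟩
      rcases hN _ _ (hu.union hu') (hv.inter hv') h1 h2 with h | h
      · rintro y (hy | ⟨⟨hyN, hyC⟩, hyv⟩)
        · exact hCu' hy
        · rcases h hyN with h' | h'
          · exact absurd ⟨⟨hyN, hyC⟩, h', hyv⟩ ((eq_empty_iff_forall_notMem.1 hdis) y)
          · exact h'
      · exact absurd ⟨Or.inl hzC, hCu' hzC, (h (hCsub hzC).1).2⟩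
          ((eq_empty_iff_forall_notMem.1 hdis') z)
    have hTc : IsPreconnected T := by
      rw [isPreconnected_iff_subset_of_disjoint]
      intro u' v' hu' hv' hcov' hdis'
      rcases hCc u' v' hu' hv' (subset_union_left.trans hcov')
        (subset_eq_empty (inter_subset_inter_left _ subset_union_left) hdis') with h | h
      · exact Or.inl (inner u' v' hu' hv' hcov' hdis' h)
      · exact Or.inr (inner v' u' hv' hu' (by rwa [union_comm]) (by rwa [inter_comm v' u']) h)
    have hTC : T ⊆ C := hTc.subset_connectedComponentIn (Or.inl hzC) hTsub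
    intro y hy
    rcases hcov hy with h | h
    · exact h
    · exact absurd (hTC (Or.inr ⟨hy, h⟩)) hy.2
  intro u v hu hv hcov hdis
  rcases hW u v hu hv (hWC.trans hcov)
    (subset_eq_empty (inter_subset_inter_left _ hWC) hdis) with h | h
  · exact Or.inl (key u v hu hv hcov hdis h)
  · exact Or.inr (key v u hv hu (by rwa [union_comm]) (by rwa [inter_comm v u]) h)

/-- A set with the topological properties of a coordinate patch. -/
structure Patch (N : Set X) : Prop where
  isOpen : IsOpen N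
  conn : IsPreconnected N
  uni : ∀ A ⊆ N, IsPreconnected A → IsPreconnected (N \ A) → IsPreconnected (frontier A ∩ N)
  shell : ∀ K ⊆ N, IsCompact K → ∃ K' ⊆ N, IsCompact K' ∧ K ⊆ K' ∧ IsPreconnected (N \ K') ∧
    (N \ K').Nonempty

theorem image_val_compl {N A : Set X} :
    (Subtype.val '' ((Subtype.val : ↥N → X) ⁻¹' A)ᶜ) = N \ A := by
  ext z; constructor
  · rintro ⟨w, hw, rfl⟩; exact ⟨w.2, hw⟩
  · rintro ⟨h1, h2⟩; exact ⟨⟨z, h1⟩, h2, rfl⟩

theorem Patch.of_disk {N : Set X} (hN : IsOpen N) (h : Disk ↥N) : Patch N := by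
  have hval : Topology.IsInducing (Subtype.val : ↥N → X) := Topology.IsInducing.subtypeVal
  refine ⟨hN, ?_, fun A hAN hA hA' => ?_, fun K hKN hK => ?_⟩
  · have := h.conn.image Subtype.val continuous_subtype_val.continuousOn
    rwa [image_univ, Subtype.range_coe_subtype] at this
  · have h1 : IsPreconnected ((Subtype.val : ↥N → X) ⁻¹' A) := by
      rw [← hval.isPreconnected_image, Subtype.image_preimage_coe, inter_eq_right.2 hAN]
      exact hA
    have h2 : IsPreconnected ((Subtype.val : ↥N → X) ⁻¹' A)ᶜ := by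
      rw [← hval.isPreconnected_image, image_val_compl]
      exact hA'
    have h3 := (h.uni _ h1 h2).image Subtype.val continuous_subtype_val.continuousOn
    rw [← hN.isOpenMap_subtype_val.preimage_frontier_eq_frontier_preimage continuous_subtype_val,
      Subtype.image_preimage_coe, inter_comm] at h3
    exact h3
  · have h1 : IsCompact ((Subtype.val : ↥N → X) ⁻¹' K) :=
      hval.isCompact_preimage' hK (by rw [Subtype.range_coe_subtype]; exact hKN)
    obtain ⟨K', e1, e2, e3, e4⟩ := h.shell _ h1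
    have himg : N \ (Subtype.val '' K') = Subtype.val '' K'ᶜ := by
      rw [image_compl_eq_range_sdiff_image Subtype.val_injective, Subtype.range_coe_subtype]
      rfl
    refine ⟨Subtype.val '' K', ?_, e1.image continuous_subtype_val, ?_, ?_, ?_⟩
    · rintro _ ⟨w, -, rfl⟩; exact w.2
    · intro x hx
      exact ⟨⟨x, hKN hx⟩, e2 hx, rfl⟩
    · rw [himg]; exact e3.image _ continuous_subtype_val.continuousOn
    · rw [himg]; exact e4.image _

theorem exists_patch [ChartedSpace (EuclideanHalfSpace 2) X]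
    (x : X) {O : Set X} (hO : IsOpen O) (hx : x ∈ O) : ∃ N, Patch N ∧ x ∈ N ∧ N ⊆ O := by
  obtain ⟨N, h1, h2, h3, h4⟩ := exists_disk x hO hx
  exact ⟨N, Patch.of_disk h1 h4, h2, h3⟩

/-- The frontier of a component of the complement of a connected set in a patch. -/
theorem Patch.frontier_component {N : Set X} (hN : Patch N) {W : Set X} (hWN : W ⊆ N)
    (hW : IsPreconnected W) {z : X} (hz : z ∈ N \ W) :
    IsPreconnected (frontier (connectedComponentIn (N \ W) z) ∩ N) :=
  hN.uni _ ((connectedComponentIn_subset _ _).trans sdiff_subset)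
    isPreconnected_connectedComponentIn (isPreconnected_diff_component hN.conn hWN hW hz)

end Top

/-- The complement of a compact set which does not separate a neighbourhood is connected. -/
theorem isPreconnected_compl_of_diff {X : Type*} [TopologicalSpace X] [ConnectedSpace X]
    {N B : Set X} (hN : IsOpen N) (hB : IsClosed B) (hBN : B ⊆ N) (hc : IsPreconnected (N \ B))
    (hne : (N \ B).Nonempty) : IsPreconnected Bᶜ := by
  rw [isPreconnected_iff_subset_of_disjoint] at hc ⊢
  have key : ∀ u v, IsOpen u → IsOpen v → Bᶜ ⊆ u ∪ v → Bᶜ ∩ (u ∩ v) = ∅ → N \ B ⊆ u → Bᶜ ⊆ u := by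
    intro u v hu hv hcov hdis hsub
    have hdis' := eq_empty_iff_forall_notMem.1 hdis
    have h1 : (Bᶜ ∩ v)ᶜ = N ∪ (Bᶜ ∩ u) := by
      ext y; constructor
      · intro hy
        by_cases hyB : y ∈ B
        · exact Or.inl (hBN hyB)
        · rcases hcov hyB with h | h
          · exact Or.inr ⟨hyB, h⟩
          · exact absurd ⟨hyB, h⟩ hy
      · rintro (hy | ⟨hyB, hyu⟩) ⟨h2, h3⟩
        · exact hdis' y ⟨h2, hsub ⟨hy, h2⟩, h3⟩
        · exact hdis' y ⟨h2, hyu, h3⟩
    have h2 : IsClopen (Bᶜ ∩ v) := by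
      refine ⟨⟨?_⟩, hB.isOpen_compl.inter hv⟩
      rw [h1]
      exact hN.union (hB.isOpen_compl.inter hu)
    rcases isClopen_iff.1 h2 with h | h
    · intro y hy
      rcases hcov hy with h' | h'
      · exact h'
      · exact absurd ⟨hy, h'⟩ (eq_empty_iff_forall_notMem.1 h y)
    · obtain ⟨y, hy⟩ := hne
      have h3 : y ∈ Bᶜ ∩ v := h ▸ mem_univ y
      exact absurd ⟨h3.1, hsub hy, h3.2⟩ (hdis' y)
  intro u v hu hv hcov hdis
  have hsub : N \ B ⊆ Bᶜ := fun y hy => hy.2
  rcases hc u v hu hv (hsub.trans hcov)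
    (subset_eq_empty (inter_subset_inter_left _ hsub) hdis) with h | h
  · exact Or.inl (key u v hu hv hcov hdis h)
  · exact Or.inr (key v u hv hu (by rwa [union_comm]) (by rwa [inter_comm v u]) h)

section Nice

variable {X : Type*} [MetricSpace X] [MeasurableSpace X] [BorelSpace X]

/-- Compact neighbourhoods with connected frontier of finite length in coordinate patches. -/
structure Nice (B : Set X) : Prop where
  compact : IsCompact B
  conn : IsPreconnected B
  compl : IsPreconnected Bᶜ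
  reg : B ⊆ closure (interior B)
  front : IsPreconnected (frontier B)
  fin : μH[1] (frontier B) ≠ ∞
  patch : ∃ N, Patch N ∧ B ⊆ N ∧ IsPreconnected (N \ B) ∧ (N \ B).Nonempty

variable [LocallyConnectedSpace X] [ConnectedSpace X] [LocallyCompactSpace X]
variable [ChartedSpace (EuclideanHalfSpace 2) X]

theorem exists_nice (hfin : ∀ x : X, ∃ U ∈ 𝓝 x, μH[2] U < ∞) (x : X) {O : Set X} (hO : IsOpen O)
    (hx : x ∈ O) : ∃ B, Nice B ∧ x ∈ interior B ∧ B ⊆ O := by
  obtain ⟨N, hN, hxN, hNO⟩ := exists_patch x hO hx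
  obtain ⟨U₀, hU₀, hU₀f⟩ := hfin x
  obtain ⟨K₀, hK₀, hK₀sub, hK₀c⟩ := local_compact_nhds
    (Filter.inter_mem (hN.isOpen.mem_nhds hxN) hU₀)
  obtain ⟨R, hR, hRsub⟩ := Metric.nhds_basis_closedBall.mem_iff.1 hK₀
  have hRc : IsCompact (closedBall x R) := hK₀c.of_isClosed_subset isClosed_closedBall hRsub
  have hRN : closedBall x R ⊆ N := fun y hy => (hK₀sub (hRsub hy)).1
  have hRf : μH[2] (closedBall x R) ≠ ∞ :=
    ((measure_mono fun y hy => (hK₀sub (hRsub hy)).2).trans_lt hU₀f).ne
  obtain ⟨t, ht, htf⟩ := exists_level_lt_top (closedBall x R) hRf (fun y => dist y x)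
    (r := 1) one_pos (fun y _ z _ _ => by
      rw [edist_dist, edist_dist]
      refine ENNReal.ofReal_le_ofReal ?_
      rw [Real.dist_eq]
      exact abs_dist_sub_le y z x) hR
  set U := connectedComponentIn (ball x t) x with hU
  have hUo : IsOpen U := isOpen_ball.connectedComponentIn
  have hxU : x ∈ U := mem_connectedComponentIn (mem_ball_self ht.1)
  have hUb : U ⊆ ball x t := connectedComponentIn_subset _ _
  set F := closure U with hF
  have hFt : F ⊆ closedBall x t := closure_minimal (hUb.trans ball_subset_closedBall)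
    isClosed_closedBall
  have hFR : F ⊆ closedBall x R := hFt.trans (closedBall_subset_closedBall ht.2.le)
  have hFN : F ⊆ N := hFR.trans hRN
  have hFc : IsPreconnected F := isPreconnected_connectedComponentIn.closure
  obtain ⟨K', hK'N, hK'c, hRK', hK'p, z, hzN, hzK'⟩ := hN.shell _ hRN hRc
  have hzF : z ∈ N \ F := ⟨hzN, fun h => hzK' (hRK' (hFR h))⟩
  set V := connectedComponentIn (N \ F) z with hV
  have hNFo : IsOpen (N \ F) := hN.isOpen.sdiff isClosed_closure
  have hVo : IsOpen V := hNFo.connectedComponentIn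
  have hVsub : V ⊆ N \ F := connectedComponentIn_subset _ _
  have hK'V : N \ K' ⊆ V := hK'p.subset_connectedComponentIn ⟨hzN, hzK'⟩
    fun y hy => ⟨hy.1, fun h => hy.2 (hRK' (hFR h))⟩
  set B := N \ V with hB
  have hBN : B ⊆ N := sdiff_subset
  have hBK' : B ⊆ K' := by
    rintro y ⟨hy, hyV⟩
    by_contra h
    exact hyV (hK'V ⟨hy, h⟩)
  have hBeq : B = K' \ V := by
    ext y; exact ⟨fun h => ⟨hBK' h, h.2⟩, fun h => ⟨hK'N h.1, h.2⟩⟩
  have hBc : IsCompact B := hBeq ▸ hK'c.diff hVo
  have hNB : N \ B = V := by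
    ext y; constructor
    · rintro ⟨h1, h2⟩
      by_contra h
      exact h2 ⟨h1, h⟩
    · intro h
      exact ⟨(hVsub h).1, fun h' => h'.2 h⟩
  have hUB : U ⊆ interior B := by
    refine interior_maximal ?_ hUo
    intro y hy
    exact ⟨hFN (subset_closure hy), fun h => (hVsub h).2 (subset_closure hy)⟩
  have hfrV : ∀ y ∈ frontier B, y ∈ closure V ∧ y ∈ N ∧ y ∉ V := by
    intro y hy
    have hyB : y ∈ B := hBc.isClosed.frontier_subset hy
    refine ⟨?_, hyB.1, hyB.2⟩
    rw [frontier_eq_closure_inter_closure] at hy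
    rw [_root_.mem_closure_iff]
    intro o ho hyo
    obtain ⟨w, ⟨hwo, hwN⟩, hwB⟩ := _root_.mem_closure_iff.1 hy.2 (o ∩ N) (ho.inter hN.isOpen)
      ⟨hyo, hyB.1⟩
    exact ⟨w, hwo, hNB ▸ ⟨hwN, hwB⟩⟩
  have hfrF : ∀ y ∈ frontier B, y ∈ F := by
    intro y hy
    obtain ⟨h1, h2, h3⟩ := hfrV y hy
    by_contra h
    exact h3 (mem_component_of_closure hNFo h1 ⟨h2, h⟩)
  have hfrt : frontier B ⊆ closedBall x R ∩ (fun y => dist y x) ⁻¹' {t} := by
    intro y hy
    have h1 := hfrF y hy
    have h2 : y ∉ U := fun h => hy.2 (hUB h)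
    have h3 : y ∉ ball x t := fun h => h2 (mem_component_of_closure isOpen_ball h1 h)
    refine ⟨hFR h1, le_antisymm (mem_closedBall.1 (hFt h1)) ?_⟩
    exact not_lt.1 fun h => h3 (mem_ball.2 h)
  refine ⟨B, ⟨hBc, ?_, ?_, ?_, ?_, ?_, N, hN, hBN, ?_, ?_⟩, hUB hxU, hBN.trans hNO⟩
  · exact isPreconnected_diff_component hN.conn hFN hFc hzF
  · refine isPreconnected_compl_of_diff hN.isOpen hBc.isClosed hBN ?_ ?_
    · rw [hNB]; exact isPreconnected_connectedComponentIn
    · rw [hNB]; exact ⟨z, mem_connectedComponentIn hzF⟩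
  · intro y hy
    by_cases h : y ∈ interior B
    · exact subset_closure h
    · exact closure_mono hUB (hfrF y ⟨subset_closure hy, h⟩)
  · have h1 := hN.frontier_component hFN hFc hzF
    have h2 : frontier B = frontier V ∩ N := by
      ext y; constructor
      · intro hy
        obtain ⟨h1, h2, h3⟩ := hfrV y hy
        exact ⟨⟨h1, fun h => h3 (interior_subset h)⟩, h2⟩
      · rintro ⟨hy, hyN⟩
        rw [hVo.frontier_eq] at hy
        refine ⟨subset_closure ⟨hyN, hy.2⟩, fun h => ?_⟩
        obtain ⟨w, hw1, hw2⟩ := _root_.mem_closure_iff.1 hy.1 _ isOpen_interior h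
        exact (interior_subset hw1).2 hw2
    rw [h2]; exact h1
  · exact ((measure_mono hfrt).trans_lt htf).ne
  · rw [hNB]; exact isPreconnected_connectedComponentIn
  · rw [hNB]; exact ⟨z, mem_connectedComponentIn hzF⟩

end Nice

end Pool.Agent.QCS
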