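import Pool.Agent.Lib.MP_811d89_an.Bad
import Pool.Agent.Lib.MP_811d89_an.ArcL

/-!
# Quasiconformality of the trimming homeomorphism
-/

open MeasureTheory Set Metric Topology Filter
open scoped ENNReal NNReal

namespace Pool.Agent.QCS

set_option linter.unusedSectionVars false

universe u

variable {X : Type u} [MetricSpace X] [MeasurableSpace X] [BorelSpace X]
variable {Y : Type u} [MetricSpace Y] [MeasurableSpace Y] [BorelSpace Y]
variable {S : Skel X} [LocallyConnectedSpace X] [ConnectedSpace X] [LocallyCompactSpace X]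
variable {f : X ≃ₜ Y}

/-! ### Distances of `X` along curves of `Y` -/

theorem Trim.edist_le_inv_aux (hf : Trim S f) {Φ : ℝ → Y} (hΦ : LipschitzWith 1 Φ) {a b : ℝ}
    (hab : a ≤ b) {j : ℕ} (ha : ¬ S.deep ((1 / 2) ^ j) (f.symm (Φ a)))
    (hb : ¬ S.deep ((1 / 2) ^ j) (f.symm (Φ b))) :
    edist (f.symm (Φ a)) (f.symm (Φ b)) ≤
      64 * ∫⁻ τ in Icc a b, (S.w (f.symm (Φ τ)))⁻¹ := by
  set γ : ℝ → X := fun τ => f.symm (Φ τ) with hγ
  have hγc : Continuous γ := f.symm.continuous.comp hΦ.continuous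
  set G : ℝ → ℝ≥0∞ := fun τ => 64 * (S.w (γ τ))⁻¹ with hG
  have hκ0 : ∀ i : ℕ, (0 : ℝ≥0) < (1 / 2) ^ i := fun i => by positivity
  have hκ1 : ∀ i : ℕ, ((1 / 2 : ℝ≥0)) ^ i ≤ 1 := fun i => pow_le_one₀ (by positivity) (by norm_num)
  set u : ℝ → ℝ := fun τ => dist (γ a) (γ τ) with hu
  -- Lipschitz bounds on non-deep times
  have hlip : ∀ i : ℕ, LipschitzOnWith ((((1 / 2 : ℝ≥0) ^ i) ^ 2)⁻¹) u
      {τ | ¬ S.deep ((1 / 2) ^ i) (γ τ)} := by
    intro i s hs t ht
    have h1 : edist (u s) (u t) ≤ edist (γ s) (γ t) := by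
      have h2 : LipschitzWith 1 fun z : X => dist (γ a) z := LipschitzWith.dist_right (γ a)
      simpa using h2 (γ s) (γ t)
    have h3 := hf.edist_le_of_not_deep (hκ0 i) (hκ1 i) hs ht
    have h4 : edist (f (γ s)) (f (γ t)) ≤ edist s t := by
      simp only [hγ, f.apply_symm_apply]
      simpa using hΦ s t
    calc edist (u s) (u t) ≤ edist (γ s) (γ t) := h1
      _ ≤ _ := h3
      _ ≤ _ := by gcongr
  set T : Set ℝ := {τ | ¬ S.deep ((1 / 2) ^ j) (γ τ)} with hT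
  obtain ⟨U, hUlip, hUeq⟩ := (hlip j).extend_real
  have hvol : ∀ {g : ℝ → ℝ} {K : ℝ≥0} {A : Set ℝ}, LipschitzOnWith K g A →
      volume (g '' A) ≤ K * volume A := fun h => volume_image_le h
  -- the pieces
  set A : ℕ → Set ℝ := fun i => Icc a b ∩ γ ⁻¹' S.Q (i + 1) with hA
  set R : Set ℝ := Icc a b ∩ γ ⁻¹' {z | S.deep ((1 / 2) ^ j) z} with hR
  have hAm : ∀ i, MeasurableSet (A i) := fun i =>
    measurableSet_Icc.inter (hγc.measurable (S.measurableSet_Q _))
  have hRm : MeasurableSet R :=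
    measurableSet_Icc.inter (hγc.measurable (S.isOpen_deep _).measurableSet)
  have hAT : ∀ i ≤ j, A i ⊆ T := by
    intro i hi τ hτ hd
    refine hτ.2.1 (S.deep_mono ?_ hd)
    exact pow_le_pow_of_le_one (by positivity) (by norm_num) hi
  have hcover : Icc a b ⊆ (⋃ i ∈ Finset.range (j + 1), A i) ∪ R := by
    intro τ hτ
    by_cases hd : S.deep ((1 / 2) ^ j) (γ τ)
    · exact Or.inr ⟨hτ, hd⟩
    · have h1 : γ τ ∈ ⋃ j, S.Q j := by rw [S.iUnion_Q]; exact mem_univ _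
      obtain ⟨i, hi⟩ := mem_iUnion.1 h1
      cases i with
      | zero => exact absurd (hi j) hd
      | succ i =>
        have hij : i ≤ j := by
          by_contra hcon
          push Not at hcon
          exact hd (hi.2 j hcon)
        exact Or.inl (mem_iUnion₂.2 ⟨i, Finset.mem_range.2 (by omega), hτ, hi⟩)
  have hpA : ∀ i ≤ j, volume (U '' A i) ≤ ∫⁻ τ in A i, G τ := by
    intro i hi
    have h1 : U '' A i = u '' A i := image_congr fun τ hτ => (hUeq (hAT i hi hτ)).symm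
    have h2 : LipschitzOnWith ((((1 / 2 : ℝ≥0) ^ i) ^ 2)⁻¹) u (A i) :=
      (hlip i).mono fun τ hτ => hτ.2.1
    rw [h1]
    refine (hvol h2).trans ?_
    rw [← setLIntegral_const]
    refine setLIntegral_mono' (hAm i) fun τ hτ => ?_
    have h3 := S.w_Q_succ hτ.2
    have h4 : (S.w (γ τ))⁻¹ ≥ (64 * (((1 / 2 : ℝ≥0) ^ i : ℝ≥0) : ℝ≥0∞) ^ 2)⁻¹ :=
      ENNReal.inv_le_inv.2 h3
    show _ ≤ 64 * (S.w (γ τ))⁻¹
    refine le_trans (le_of_eq ?_) (mul_le_mul' le_rfl h4)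
    rw [ENNReal.mul_inv (Or.inl (by norm_num)) (Or.inl (by norm_num)), ← mul_assoc,
      ENNReal.mul_inv_cancel (by norm_num) (by norm_num), one_mul,
      ENNReal.coe_inv (pow_ne_zero _ (hκ0 i).ne'), ENNReal.coe_pow]
  have hpR : volume (U '' R) ≤ ∫⁻ τ in R, G τ := by
    refine (hvol (hUlip.lipschitzOnWith (s := R))).trans ?_
    rw [← setLIntegral_const]
    refine setLIntegral_mono' hRm fun τ hτ => ?_
    have h3 := S.w_le_of_deep hτ.2
    have h4 : (S.w (γ τ))⁻¹ ≥ (16 * (((1 / 2 : ℝ≥0) ^ j : ℝ≥0) : ℝ≥0∞) ^ 2)⁻¹ :=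
      ENNReal.inv_le_inv.2 h3
    show _ ≤ 64 * (S.w (γ τ))⁻¹
    refine le_trans ?_ (mul_le_mul' le_rfl h4)
    rw [ENNReal.mul_inv (Or.inl (by norm_num)) (Or.inl (by norm_num)), ← mul_assoc,
      ENNReal.coe_inv (pow_ne_zero _ (hκ0 j).ne'), ENNReal.coe_pow]
    have h5 : (1 : ℝ≥0∞) ≤ 64 * 16⁻¹ := by
      rw [← div_eq_mul_inv, ENNReal.le_div_iff_mul_le (Or.inl (by norm_num))
        (Or.inl (by norm_num))]
      norm_num
    calc ((((1 / 2 : ℝ≥0) ^ j : ℝ≥0) : ℝ≥0∞) ^ 2)⁻¹ = 1 * ((((1 / 2 : ℝ≥0) ^ j : ℝ≥0) : ℝ≥0∞) ^ 2)⁻¹ :=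
          (one_mul _).symm
      _ ≤ _ := by gcongr
  -- the total
  have hUc : Continuous U := hUlip.continuous
  have hends : ENNReal.ofReal (dist (γ a) (γ b)) ≤ volume (U '' Icc a b) := by
    have h1 : U a = 0 := by rw [← hUeq ha]; simp [hu]
    have h2 : U b = dist (γ a) (γ b) := by rw [← hUeq hb]
    have h3 : Icc (U a) (U b) ⊆ U '' Icc a b := intermediate_value_Icc hab hUc.continuousOn
    calc ENNReal.ofReal (dist (γ a) (γ b)) = volume (Icc (U a) (U b)) := by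
          rw [Real.volume_Icc, h1, h2, sub_zero]
      _ ≤ _ := measure_mono h3
  rw [edist_dist]
  refine hends.trans ?_
  have hRA : Disjoint (⋃ i ∈ Finset.range (j + 1), A i) R := by
    rw [Set.disjoint_left]
    intro τ hτ hτ'
    obtain ⟨i, hi, hτi⟩ := mem_iUnion₂.1 hτ
    exact hAT i (by have := Finset.mem_range.1 hi; omega) hτi hτ'.2
  have hAd : (↑(Finset.range (j + 1)) : Set ℕ).PairwiseDisjoint A := by
    intro i _ i' _ hii
    show Disjoint (A i) (A i')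
    rw [Set.disjoint_left]
    intro τ hτ hτ'
    have := S.Q_disjoint (i := i + 1) (j := i' + 1) (by omega)
    exact Set.disjoint_left.1 this hτ.2 hτ'.2
  calc volume (U '' Icc a b) ≤ volume ((⋃ i ∈ Finset.range (j + 1), U '' A i) ∪ U '' R) := by
        refine measure_mono ((image_mono hcover).trans ?_)
        rw [image_union, image_iUnion₂]
    _ ≤ (∑ i ∈ Finset.range (j + 1), volume (U '' A i)) + volume (U '' R) :=
        (measure_union_le _ _).trans (add_le_add (measure_biUnion_finset_le _ _) le_rfl)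
    _ ≤ (∑ i ∈ Finset.range (j + 1), ∫⁻ τ in A i, G τ) + ∫⁻ τ in R, G τ := by
        refine add_le_add (Finset.sum_le_sum fun i hi => hpA i ?_) hpR
        have := Finset.mem_range.1 hi; omega
    _ = (∫⁻ τ in ⋃ i ∈ Finset.range (j + 1), A i, G τ) + ∫⁻ τ in R, G τ := by
        rw [lintegral_biUnion_finset hAd (fun i _ => hAm i)]
    _ = ∫⁻ τ in (⋃ i ∈ Finset.range (j + 1), A i) ∪ R, G τ := (lintegral_union hRm hRA).symm
    _ ≤ ∫⁻ τ in Icc a b, G τ := lintegral_mono_set (union_subset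
        (iUnion₂_subset fun i _ => inter_subset_left) inter_subset_left)
    _ = 64 * ∫⁻ τ in Icc a b, (S.w (γ τ))⁻¹ := by
        rw [hG, lintegral_const_mul' _ _ (by norm_num)]

theorem Trim.edist_le_inv (hf : Trim S f) {Φ : ℝ → Y} (hΦ : LipschitzWith 1 Φ) {a b : ℝ}
    (hab : a ≤ b) :
    edist (f.symm (Φ a)) (f.symm (Φ b)) ≤
      64 * ∫⁻ τ in Icc a b, (S.w (f.symm (Φ τ)))⁻¹ := by
  rcases hab.eq_or_lt with rfl | hab
  · rw [edist_self]; exact zero_le
  set γ : ℝ → X := fun τ => f.symm (Φ τ) with hγ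
  have hγc : Continuous γ := f.symm.continuous.comp hΦ.continuous
  set I := ∫⁻ τ in Icc a b, (S.w (γ τ))⁻¹ with hI
  rcases eq_or_ne I ∞ with h | hfin
  · rw [h, ENNReal.mul_top (by norm_num)]; exact le_top
  have hm : Measurable fun τ => (S.w (γ τ))⁻¹ := (S.measurable_w.comp hγc.measurable).inv
  have hae : ∀ᵐ τ ∂(volume.restrict (Icc a b)), ∃ j : ℕ, ¬ S.deep ((1 / 2) ^ j) (γ τ) := by
    filter_upwards [ae_lt_top hm hfin] with τ hτ
    by_contra hcon
    push Not at hcon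
    have h1 : S.w (γ τ) = 0 := S.w_Q_zero hcon
    rw [h1, ENNReal.inv_zero] at hτ
    exact absurd hτ (lt_irrefl _)
  have hex : ∀ c d, a ≤ c → c < d → d ≤ b → ∃ τ ∈ Ioo c d, ∃ j : ℕ,
      ¬ S.deep ((1 / 2) ^ j) (γ τ) := by
    intro c d hac hcd hdb
    by_contra hcon
    push Not at hcon
    have h1 : volume (Ioo c d) = 0 := by
      rw [ae_restrict_iff' measurableSet_Icc, ae_iff] at hae
      refine measure_mono_null (fun τ hτ => ?_) hae
      simp only [mem_ofPred_eq, Classical.not_imp, not_exists, not_not]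
      exact ⟨⟨hac.trans hτ.1.le, hτ.2.le.trans hdb⟩, hcon τ hτ⟩
    rw [Real.volume_Ioo] at h1
    have := ENNReal.ofReal_eq_zero.1 h1
    linarith
  have hseq : ∀ n : ℕ, ∃ c d, a < c ∧ c < a + (b - a) / 2 / (n + 1) ∧
      b - (b - a) / 2 / (n + 1) < d ∧ d < b ∧ edist (γ c) (γ d) ≤ 64 * I := by
    intro n
    have hpos : 0 < (b - a) / 2 / (n + 1) := by
      have : 0 < b - a := by linarith
      positivity
    have hle : (b - a) / 2 / (n + 1) ≤ (b - a) / 2 := by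
      refine div_le_self (by linarith) ?_
      have : (0 : ℝ) ≤ n := by positivity
      linarith
    obtain ⟨c, hc, i, hi⟩ := hex a (a + (b - a) / 2 / (n + 1)) le_rfl (by linarith) (by linarith)
    obtain ⟨d, hd, j, hj⟩ := hex (b - (b - a) / 2 / (n + 1)) b (by linarith) (by linarith) le_rfl
    refine ⟨c, d, hc.1, hc.2, hd.1, hd.2, ?_⟩
    have hcd : c ≤ d := by linarith [hc.2, hd.1]
    have h1 := hf.edist_le_inv_aux hΦ hcd (j := max i j)
      (fun h => hi (S.deep_mono (pow_le_pow_of_le_one (by positivity) (by norm_num)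
        (le_max_left _ _)) h))
      (fun h => hj (S.deep_mono (pow_le_pow_of_le_one (by positivity) (by norm_num)
        (le_max_right _ _)) h))
    exact h1.trans (mul_le_mul' le_rfl (lintegral_mono_set (Icc_subset_Icc hc.1.le hd.2.le)))
  choose c d hc1 hc2 hd1 hd2 hcd using hseq
  have hlim0 : Tendsto (fun n : ℕ => (b - a) / 2 / ((n : ℝ) + 1)) atTop (𝓝 0) := by
    have := (tendsto_one_div_add_atTop_nhds_zero_nat (𝕜 := ℝ)).const_mul ((b - a) / 2)
    rw [mul_zero] at this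
    refine this.congr fun n => ?_
    ring
  have hlc : Tendsto c atTop (𝓝 a) := by
    refine tendsto_of_tendsto_of_tendsto_of_le_of_le tendsto_const_nhds ?_ (fun n => (hc1 n).le)
      (fun n => (hc2 n).le)
    simpa using tendsto_const_nhds.add hlim0
  have hld : Tendsto d atTop (𝓝 b) := by
    refine tendsto_of_tendsto_of_tendsto_of_le_of_le ?_ tendsto_const_nhds (fun n => (hd1 n).le)
      (fun n => (hd2 n).le)
    simpa using tendsto_const_nhds.sub hlim0
  have h1 : Tendsto (fun n => edist (γ (c n)) (γ (d n))) atTop (𝓝 (edist (γ a) (γ b))) :=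
    ((hγc.tendsto a).comp hlc).edist ((hγc.tendsto b).comp hld)
  exact le_of_tendsto' h1 hcd

/-! ### Variations and integrals -/

theorem variation_le {Z : Type*} [PseudoEMetricSpace Z] {g : ℝ → Z} {σ : ℝ → ℝ} {F : ℝ → ℝ≥0∞}
    {a b : ℝ} (hσ : MonotoneOn σ (Icc a b))
    (h : ∀ t ∈ Icc a b, ∀ t' ∈ Icc a b, t ≤ t' →
      edist (g t) (g t') ≤ ∫⁻ u in Ioc (σ t) (σ t'), F u) {c d : ℝ} (hc : c ∈ Icc a b)
    (hd : d ∈ Icc a b) : eVariationOn g (Icc c d) ≤ ∫⁻ u in Ioc (σ c) (σ d), F u := by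
  refine iSup_le fun p => ?_
  obtain ⟨n, u, hu, hus⟩ := p
  have hus' : ∀ i, u i ∈ Icc a b := fun i =>
    ⟨hc.1.trans (hus i).1, (hus i).2.trans hd.2⟩
  have key : ∀ m : ℕ, ∑ i ∈ Finset.range m, edist (g (u (i + 1))) (g (u i)) ≤
      ∫⁻ x in Ioc (σ (u 0)) (σ (u m)), F x := by
    intro m
    induction m with
    | zero => simp
    | succ m ih =>
      rw [Finset.sum_range_succ]
      have h1 := h (u m) (hus' m) (u (m + 1)) (hus' (m + 1)) (hu (Nat.le_succ m))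
      rw [edist_comm] at h1
      calc _ ≤ (∫⁻ x in Ioc (σ (u 0)) (σ (u m)), F x) +
            ∫⁻ x in Ioc (σ (u m)) (σ (u (m + 1))), F x := add_le_add ih h1
        _ = ∫⁻ x in Ioc (σ (u 0)) (σ (u (m + 1))), F x := by
            rw [← Ioc_union_Ioc_eq_Ioc (hσ (hus' 0) (hus' m) (hu (Nat.zero_le m)))
              (hσ (hus' m) (hus' (m + 1)) (hu (Nat.le_succ m))),
              lintegral_union measurableSet_Ioc]
            exact Ioc_disjoint_Ioc_of_le le_rfl
  exact (key n).trans (lintegral_mono_set (Ioc_subset_Ioc (hσ hc (hus' 0) (hus 0).1)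
    (hσ (hus' n) hd (hus n).2)))

theorem lineInt_le {Z₁ Z₂ : Type u} [MetricSpace Z₁] [MetricSpace Z₂] {ρ₁ : Z₁ → ℝ≥0∞}
    {ρ₂ : Z₂ → ℝ≥0∞} {γ₁ : Curve Z₁} {γ₂ : Curve Z₂} (hI : γ₁.I = γ₂.I)
    (h : ∀ a ∈ γ₂.I, ∀ b ∈ γ₂.I, a ≤ b →
      ∫⁻ s in Icc 0 (variationOnFromTo γ₁.toFun γ₁.I a b),
        ρ₁ (naturalParameterization γ₁.toFun γ₁.I a s) ≤
      ∫⁻ s in Icc 0 (variationOnFromTo γ₂.toFun γ₂.I a b),
        ρ₂ (naturalParameterization γ₂.toFun γ₂.I a s)) : lineInt ρ₁ γ₁ ≤ lineInt ρ₂ γ₂ := by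
  unfold lineInt
  refine iSup_le fun a => iSup_le fun b => iSup_le fun ha => iSup_le fun hb => iSup_le fun hab => ?_
  refine (h a (hI ▸ ha) b (hI ▸ hb) hab).trans ?_
  exact le_iSup_of_le a (le_iSup_of_le b (le_iSup_of_le (hI ▸ ha) (le_iSup_of_le (hI ▸ hb)
    (le_iSup_of_le hab le_rfl))))

theorem piece_le_lineInt {Z : Type u} [MetricSpace Z] (ρ : Z → ℝ≥0∞) (γ : Curve Z) {a b : ℝ}
    (ha : a ∈ γ.I) (hb : b ∈ γ.I) (hab : a ≤ b) :
    ∫⁻ s in Icc 0 (variationOnFromTo γ.toFun γ.I a b),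
        ρ (naturalParameterization γ.toFun γ.I a s) ≤ lineInt ρ γ :=
  le_iSup_of_le a (le_iSup_of_le b (le_iSup_of_le ha (le_iSup_of_le hb (le_iSup_of_le hab le_rfl))))

theorem locBV_of {Z : Type*} [PseudoEMetricSpace Z] {g : ℝ → Z} {I : Set ℝ}
    (h : ∀ a ∈ I, ∀ b ∈ I, a ≤ b → eVariationOn g (Icc a b) ≠ ∞) :
    LocallyBoundedVariationOn g I := by
  intro a b ha hb
  rcases le_or_gt a b with hab | hab
  · exact ((eVariationOn.mono g inter_subset_right).trans_lt (h a ha b hb hab).lt_top).ne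
  · rw [Icc_eq_empty (not_le.2 hab), inter_empty]
    exact BoundedVariationOn.of_subsingleton subsingleton_empty

/-! ### First inequality -/

theorem Trim.qc1 (hf : Trim S f) {Γ : Set (Curve X)} {ρ : Y → ℝ≥0∞} (hρ : Measurable ρ)
    (hadm : ∀ γ ∈ Curve.map f '' Γ, LocRect γ → 1 ≤ lineInt ρ γ) :
    ∃ ρ' : X → ℝ≥0∞, Measurable ρ' ∧ (∀ γ ∈ Γ, LocRect γ → 1 ≤ lineInt ρ' γ) ∧
      ∫⁻ x, ρ' x ^ 2 ∂μH[2] ≤ 4096 * ∫⁻ y, ρ y ^ 2 ∂μH[2] := by
  refine ⟨fun x => S.w x * ρ (f x), S.measurable_w.mul (hρ.comp f.continuous.measurable), ?_, ?_⟩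
  · intro γ hγ hrect
    have hpiece : ∀ a ∈ γ.I, ∀ b ∈ γ.I, a ≤ b → ∃ Φ : ℝ → X,
        Arc γ.toFun a b (variationOnFromTo γ.toFun γ.I a) Φ ∧
        (∀ s ∈ Icc 0 (variationOnFromTo γ.toFun γ.I a b),
          Φ s = naturalParameterization γ.toFun γ.I a s) ∧
        ∀ c ∈ Icc a b, ∀ d ∈ Icc a b,
          eVariationOn (fun t => f (γ.toFun t)) (Icc c d) ≤
            ∫⁻ u in Ioc (variationOnFromTo γ.toFun γ.I a c) (variationOnFromTo γ.toFun γ.I a d),
              S.w (Φ u) := by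
      intro a ha b hb hab
      obtain ⟨Φ, hΦ, hΦN⟩ := exists_arc γ.ordConnected γ.cont hrect ha hb hab
      refine ⟨Φ, hΦ, hΦN, fun c hc d hd => variation_le hΦ.mono (fun t ht t' ht' htt => ?_) hc hd⟩
      rw [← hΦ.eq t ht, ← hΦ.eq t' ht', restrict_Ioc_eq_restrict_Icc]
      exact hf.edist_curve hΦ.lip (hΦ.mono ht ht' htt)
    have hwfin : ∀ (Φ : ℝ → X) (c d : ℝ), ∫⁻ u in Ioc c d, S.w (Φ u) ≠ ∞ := by
      intro Φ c d
      have h1 : ∫⁻ u in Ioc c d, S.w (Φ u) ≤ ∫⁻ _ in Ioc c d, 1 :=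
        lintegral_mono fun u => S.w_le_one _
      refine (h1.trans_lt ?_).ne
      rw [setLIntegral_const, Real.volume_Ioc]
      finiteness
    have hrect' : LocRect (Curve.map f γ) := by
      refine locBV_of fun a ha b hb hab => ?_
      obtain ⟨Φ, hΦ, -, hvar⟩ := hpiece a ha b hb hab
      exact ((hvar a ⟨le_rfl, hab⟩ b ⟨hab, le_rfl⟩).trans_lt (hwfin _ _ _).lt_top).ne
    refine (hadm _ ⟨γ, hγ, rfl⟩ hrect').trans (lineInt_le rfl fun a ha b hb hab => ?_)
    obtain ⟨Φ, hΦ, hΦN, hvar⟩ := hpiece a ha b hb hab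
    obtain ⟨Ψ, hΨ, hΨN⟩ := exists_arc γ.ordConnected (Curve.map f γ).cont hrect' ha hb hab
    have h1 := hΨ.comparison hΦ hab (F := fun u => S.w (Φ u))
      (S.measurable_w.comp hΦ.lip.continuous.measurable) (hwfin _ _ _)
      (fun t ht t' ht' htt => by
        rw [← hΨ.var t ht t' ht' htt]
        exact hvar t ht t' ht')
      hρ (R₂ := fun x => ρ (f x)) (fun t _ => rfl)
    rw [restrict_Ioc_eq_restrict_Icc, restrict_Ioc_eq_restrict_Icc] at h1
    calc ∫⁻ s in Icc 0 (variationOnFromTo (Curve.map f γ).toFun (Curve.map f γ).I a b),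
          ρ (naturalParameterization (Curve.map f γ).toFun (Curve.map f γ).I a s)
        = ∫⁻ s in Icc 0 (variationOnFromTo (Curve.map f γ).toFun (Curve.map f γ).I a b),
          ρ (Ψ s) := setLIntegral_congr_fun measurableSet_Icc fun s hs => by
            have := hΨN s hs
            show ρ _ = ρ _
            rw [this]; rfl
      _ ≤ _ := h1
      _ = _ := setLIntegral_congr_fun measurableSet_Icc fun s hs => by
            show S.w (Φ s) * ρ (f (Φ s)) = _
            rw [hΦN s hs]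
  · set ν : Measure X := (μH[2] : Measure Y).map f.symm with hν
    have hνA : ∀ A, ν A = μH[2] (f '' A) := by
      intro A
      rw [hν, f.symm.measurableEmbedding.map_apply, ← f.image_eq_preimage_symm]
    have h1 : (μH[2] : Measure X).withDensity (fun x => S.w x ^ 2) ≤ (4096 : ℝ≥0∞) • ν := by
      refine Measure.le_iff.2 fun A hA => ?_
      rw [withDensity_apply _ hA, Measure.smul_apply, hνA, smul_eq_mul]
      exact hf.w2_le hA
    have hρf : Measurable fun x => ρ (f x) ^ 2 := (hρ.comp f.continuous.measurable).pow_const 2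
    calc ∫⁻ x, (S.w x * ρ (f x)) ^ 2 ∂μH[2] = ∫⁻ x, S.w x ^ 2 * ρ (f x) ^ 2 ∂μH[2] := by
          simp only [mul_pow]
      _ = ∫⁻ x, ρ (f x) ^ 2 ∂((μH[2] : Measure X).withDensity (fun x => S.w x ^ 2)) := by
          have := lintegral_withDensity_eq_lintegral_mul (μH[2] : Measure X)
            (S.measurable_w.pow_const 2) hρf
          rw [this]; rfl
      _ ≤ ∫⁻ x, ρ (f x) ^ 2 ∂((4096 : ℝ≥0∞) • ν) := lintegral_mono' h1 le_rfl
      _ = 4096 * ∫⁻ x, ρ (f x) ^ 2 ∂ν := by rw [lintegral_smul_measure, smul_eq_mul]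
      _ = 4096 * ∫⁻ y, ρ y ^ 2 ∂μH[2] := by
          rw [hν, lintegral_map hρf f.symm.continuous.measurable]
          simp only [f.apply_symm_apply]

end Pool.Agent.QCS
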