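import Pool.Agent.Lib.MP_811d89_an.QC

/-!
# Second modulus inequality
-/

open MeasureTheory Set Metric Topology Filter
open scoped ENNReal NNReal

namespace Pool.Agent.QCS

set_option linter.unusedSectionVars false

universe u

variable {X : Type u} [MetricSpace X] [MeasurableSpace X] [BorelSpace X]
variable {Y : Type u} [MetricSpace Y] [MeasurableSpace Y] [BorelSpace Y]

/-- A positive function with finite mass, bounded below on compact sets. -/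
theorem exists_rho0 {Z : Type*} [TopologicalSpace Z] [T2Space Z] [MeasurableSpace Z]
    [BorelSpace Z] [WeaklyLocallyCompactSpace Z] [SigmaCompactSpace Z] (μ : Measure Z) :
    ∃ ρ₀ : Z → ℝ≥0∞, Measurable ρ₀ ∧ ∫⁻ x, ρ₀ x ^ 2 ∂μ ≤ 1 ∧ ((∀ K, IsCompact K → μ K < ∞) →
      ∀ K, IsCompact K → ∃ c : ℝ≥0∞, c ≠ 0 ∧ ∀ x ∈ K, c ≤ ρ₀ x) := by
  let K := CompactExhaustion.choice Z
  set a : ℕ → ℝ≥0∞ := fun n => 2⁻¹ ^ (n + 1) * (1 + μ (K n))⁻¹ with ha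
  have hK : ∀ n, MeasurableSet (K n) := fun n => (K.isCompact n).measurableSet
  have hgeom : ∑' n : ℕ, (2⁻¹ : ℝ≥0∞) ^ (n + 1) = 1 := by
    rw [ENNReal.tsum_geometric_add_one, ENNReal.one_sub_inv_two, inv_inv]
    exact ENNReal.inv_mul_cancel (by norm_num) (by norm_num)
  have ha1 : ∀ n, a n ≤ 2⁻¹ ^ (n + 1) := by
    intro n
    calc a n ≤ 2⁻¹ ^ (n + 1) * 1 := by
          rw [ha]; dsimp only
          gcongr
          rw [ENNReal.inv_le_one]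
          exact le_self_add
      _ = _ := mul_one _
  have ha2 : ∀ n, a n * μ (K n) ≤ 2⁻¹ ^ (n + 1) := by
    intro n
    rw [ha]; dsimp only
    rw [mul_assoc]
    calc 2⁻¹ ^ (n + 1) * ((1 + μ (K n))⁻¹ * μ (K n)) ≤ 2⁻¹ ^ (n + 1) * 1 := by
          gcongr
          calc (1 + μ (K n))⁻¹ * μ (K n) ≤ (1 + μ (K n))⁻¹ * (1 + μ (K n)) := by
                gcongr; exact le_add_self
            _ ≤ 1 := ENNReal.inv_mul_le_one _
      _ = _ := mul_one _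
  set ρ₀ : Z → ℝ≥0∞ := fun x => ∑' n, (K n).indicator (fun _ => a n) x with hρ₀
  have hle1 : ∀ x, ρ₀ x ≤ 1 := by
    intro x
    rw [← hgeom]
    refine ENNReal.tsum_le_tsum fun n => ?_
    exact (indicator_le_self' (f := fun _ => a n) (fun _ _ => zero_le) x).trans (ha1 n)
  refine ⟨ρ₀, Measurable.tsum fun n => measurable_const.indicator (hK n), ?_, fun hfin C hC => ?_⟩
  · calc ∫⁻ x, ρ₀ x ^ 2 ∂μ ≤ ∫⁻ x, ρ₀ x ∂μ := by
          refine lintegral_mono fun x => ?_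
          show ρ₀ x ^ 2 ≤ ρ₀ x
          rw [sq]
          calc ρ₀ x * ρ₀ x ≤ ρ₀ x * 1 := by gcongr; exact hle1 x
            _ = _ := mul_one _
      _ = ∑' n, ∫⁻ x, (K n).indicator (fun _ => a n) x ∂μ :=
          lintegral_tsum fun n => (measurable_const.indicator (hK n)).aemeasurable
      _ = ∑' n, a n * μ (K n) := by
          congr 1; ext n
          rw [lintegral_indicator (hK n), setLIntegral_const]
      _ ≤ ∑' n : ℕ, (2⁻¹ : ℝ≥0∞) ^ (n + 1) := ENNReal.tsum_le_tsum ha2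
      _ = 1 := hgeom
  · obtain ⟨n, hn⟩ := K.exists_superset_of_isCompact hC
    refine ⟨a n, ?_, fun x hx => ?_⟩
    · refine mul_ne_zero (pow_ne_zero _ (by norm_num)) (ENNReal.inv_ne_zero.2 ?_)
      exact ENNReal.add_ne_top.2 ⟨by norm_num, (hfin _ (K.isCompact n)).ne⟩
    · calc a n = (K n).indicator (fun _ => a n) x := (indicator_of_mem (hn hx) (fun _ => a n)).symm
        _ ≤ ρ₀ x := ENNReal.le_tsum n

theorem add_sq_le (x y : ℝ≥0∞) : (x + y) ^ 2 ≤ 4 * (x ^ 2 + y ^ 2) := by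
  have key : ∀ x y : ℝ≥0∞, x ≤ y → (x + y) ^ 2 ≤ 4 * (x ^ 2 + y ^ 2) := by
    intro x y h
    calc (x + y) ^ 2 ≤ (y + y) ^ 2 := by gcongr
      _ = 4 * y ^ 2 := by rw [← two_mul, mul_pow]; norm_num
      _ ≤ 4 * (x ^ 2 + y ^ 2) := by gcongr; exact le_add_self
  rcases le_total x y with h | h
  · exact key x y h
  · rw [add_comm x y, add_comm (x ^ 2)]; exact key y x h

variable {S : Skel X} [LocallyConnectedSpace X] [ConnectedSpace X] [LocallyCompactSpace X]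
variable {f : X ≃ₜ Y}

/-- The constant of the second inequality. -/
noncomputable def C₂ : ℝ≥0∞ := 400 / ENNReal.ofReal (1 / 1024) * (4096 * 4)

/-- The good set together with the skeleton. -/
def GE (S : Skel X) (f : X ≃ₜ Y) : Set X :=
  Good S f (1 / 1024) ∪ S.E

/-- The density on `Y`, read on `X`. -/
noncomputable def dens (S : Skel X) (f : X ≃ₜ Y) (ρ ρ₀ : X → ℝ≥0∞) (ε : ℝ≥0∞) : X → ℝ≥0∞ :=
  (GE S f).indicator fun x => 64 * (ρ x + ε * ρ₀ x) * (S.w x)⁻¹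

theorem dens_of_mem {ρ ρ₀ : X → ℝ≥0∞} {ε : ℝ≥0∞} {x : X} (hx : x ∈ GE S f) :
    dens S f ρ ρ₀ ε x = 64 * (ρ x + ε * ρ₀ x) * (S.w x)⁻¹ := indicator_of_mem hx _

theorem measurableSet_GE : MeasurableSet (GE S f) :=
  (measurableSet_Good _).union S.closed.measurableSet

theorem measurable_inv_w {Φ : ℝ → Y} (hΦ : Continuous Φ) :
    Measurable fun u => 64 * (S.w (f.symm (Φ u)))⁻¹ :=
  ((S.measurable_w.comp ((f.symm.continuous.comp hΦ).measurable)).inv).const_mul 64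

/-- Finiteness of the inverse weight along curves with finite integral. -/
theorem Trim.inv_w_fin [SecondCountableTopology X] (hf : Trim S f) {ρ ρ₀ : X → ℝ≥0∞}
    {ε : ℝ≥0∞} (hε : ε ≠ 0)
    (hρ₀K : ∀ K, IsCompact K → ∃ c : ℝ≥0∞, c ≠ 0 ∧ ∀ x ∈ K, c ≤ ρ₀ x) {Φ : ℝ → Y}
    (hΦ : LipschitzWith 1 Φ) {l : ℝ} (hlen : ENNReal.ofReal l ≤ eVariationOn Φ (Icc 0 l))
    (hfin : ∫⁻ u in Ioc 0 l, dens S f ρ ρ₀ ε (f.symm (Φ u)) < ∞) :
    ∫⁻ u in Ioc 0 l, 64 * (S.w (f.symm (Φ u)))⁻¹ ≠ ∞ := by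
  have hGood : ∀ᵐ u ∂(volume.restrict (Ioc 0 l)), f.symm (Φ u) ∈ GE S f := by
    have := hf.ae_good hΦ hlen
    rwa [← restrict_Ioc_eq_restrict_Icc] at this
  have hK : IsCompact (f.symm '' (Φ '' Icc 0 l)) :=
    (isCompact_Icc.image hΦ.continuous).image f.symm.continuous
  obtain ⟨c, hc0, hc⟩ := hρ₀K _ hK
  intro htop
  have h1 : ε * c * ∫⁻ u in Ioc 0 l, 64 * (S.w (f.symm (Φ u)))⁻¹ ≤
      ∫⁻ u in Ioc 0 l, dens S f ρ ρ₀ ε (f.symm (Φ u)) := by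
    rw [← lintegral_const_mul _ (measurable_inv_w hΦ.continuous)]
    refine lintegral_mono_ae ?_
    filter_upwards [hGood, self_mem_ae_restrict measurableSet_Ioc] with u hu hul
    have h2 : c ≤ ρ₀ (f.symm (Φ u)) :=
      hc _ ⟨Φ u, ⟨u, ⟨hul.1.le, hul.2⟩, rfl⟩, rfl⟩
    rw [dens_of_mem hu]
    calc ε * c * (64 * (S.w (f.symm (Φ u)))⁻¹) = 64 * (ε * c) * (S.w (f.symm (Φ u)))⁻¹ := by ring
      _ ≤ 64 * (ρ (f.symm (Φ u)) + ε * ρ₀ (f.symm (Φ u))) * (S.w (f.symm (Φ u)))⁻¹ := by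
          gcongr
          exact (mul_le_mul' le_rfl h2).trans le_add_self
  rw [htop, ENNReal.mul_top (mul_ne_zero hε hc0)] at h1
  exact absurd hfin (not_lt.2 h1)

/-- Variations in `X` along an arclength parametrised curve of `Y`. -/
theorem Trim.var_le (hf : Trim S f) {g : ℝ → X} {a b : ℝ} {σ : ℝ → ℝ} {Φ : ℝ → Y}
    (hΦ : Arc (fun t => f (g t)) a b σ Φ) {c d : ℝ} (hc : c ∈ Icc a b) (hd : d ∈ Icc a b) :
    eVariationOn g (Icc c d) ≤ ∫⁻ u in Ioc (σ c) (σ d), 64 * (S.w (f.symm (Φ u)))⁻¹ := by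
  refine variation_le hΦ.mono (fun t ht t' ht' htt => ?_) hc hd
  have h1 := hf.edist_le_inv hΦ.lip (hΦ.mono ht ht' htt)
  rw [hΦ.eq t ht, hΦ.eq t' ht', ← restrict_Ioc_eq_restrict_Icc,
    ← lintegral_const_mul' _ _ (by norm_num), f.symm_apply_apply, f.symm_apply_apply] at h1
  exact h1

/-- The integral inequality on one piece. -/
theorem Trim.piece_le [SecondCountableTopology X] (hf : Trim S f) {ρ ρ₀ : X → ℝ≥0∞}
    (hρ : Measurable ρ) {ε : ℝ≥0∞} {g : ℝ → X} {a b : ℝ} (hab : a ≤ b) {σ σ' : ℝ → ℝ}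
    {Φ : ℝ → Y} {Ψ : ℝ → X} (hΦ : Arc (fun t => f (g t)) a b σ Φ) (hΨ : Arc g a b σ' Ψ)
    (hfin : ∫⁻ u in Ioc 0 (σ b), 64 * (S.w (f.symm (Φ u)))⁻¹ ≠ ∞) :
    ∫⁻ s in Ioc 0 (σ' b), ρ (Ψ s) ≤ ∫⁻ u in Ioc 0 (σ b), dens S f ρ ρ₀ ε (f.symm (Φ u)) := by
  have hGood : ∀ᵐ u ∂(volume.restrict (Ioc 0 (σ b))), f.symm (Φ u) ∈ GE S f := by
    have := hf.ae_good hΦ.lip hΦ.len
    rwa [← restrict_Ioc_eq_restrict_Icc] at this
  have h1 := hΨ.comparison hΦ hab (F := fun u => 64 * (S.w (f.symm (Φ u)))⁻¹)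
    (measurable_inv_w hΦ.lip.continuous) hfin
    (fun t ht t' ht' htt => by
      rw [← hΨ.var t ht t' ht' htt]
      exact hf.var_le hΦ ht ht')
    hρ (R₂ := fun y => ρ (f.symm y)) (fun t _ => by
      show _ = ρ (f.symm (f (g t)))
      rw [f.symm_apply_apply])
  refine h1.trans (lintegral_mono_ae ?_)
  filter_upwards [hGood] with u hu
  rw [dens_of_mem hu]
  calc 64 * (S.w (f.symm (Φ u)))⁻¹ * ρ (f.symm (Φ u))
      = 64 * ρ (f.symm (Φ u)) * (S.w (f.symm (Φ u)))⁻¹ := by ring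
    _ ≤ _ := by gcongr; exact le_self_add

theorem lineInt_piece {Z : Type u} [MetricSpace Z] (ρ : Z → ℝ≥0∞) {g : ℝ → Z} {I : Set ℝ}
    {a b : ℝ} {Φ : ℝ → Z} (hN : ∀ s ∈ Icc 0 (variationOnFromTo g I a b),
      Φ s = naturalParameterization g I a s) :
    ∫⁻ s in Icc 0 (variationOnFromTo g I a b), ρ (naturalParameterization g I a s) =
      ∫⁻ s in Ioc 0 (variationOnFromTo g I a b), ρ (Φ s) := by
  rw [restrict_Ioc_eq_restrict_Icc]
  refine setLIntegral_congr_fun measurableSet_Icc fun s hs => ?_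
  show ρ _ = ρ _
  rw [hN s hs]

theorem Trim.admissible_aux1 [SecondCountableTopology X] (hf : Trim S f) {ρ ρ₀ : X → ℝ≥0∞}
    {ε : ℝ≥0∞} (hε : ε ≠ 0)
    (hρ₀K : ∀ K, IsCompact K → ∃ c : ℝ≥0∞, c ≠ 0 ∧ ∀ x ∈ K, c ≤ ρ₀ x) {γ : Curve X}
    (hrect : LocRect (Curve.map f γ))
    (hcon : lineInt (fun y => dens S f ρ ρ₀ ε (f.symm y)) (Curve.map f γ) < ∞) :
    ∀ a ∈ γ.I, ∀ b ∈ γ.I, a ≤ b → ∃ Φ : ℝ → Y,
      Arc (fun t => f (γ.toFun t)) a b (variationOnFromTo (fun t => f (γ.toFun t)) γ.I a) Φ ∧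
      (∀ s ∈ Icc 0 (variationOnFromTo (fun t => f (γ.toFun t)) γ.I a b),
        Φ s = naturalParameterization (fun t => f (γ.toFun t)) γ.I a s) ∧
      ∫⁻ u in Ioc 0 (variationOnFromTo (fun t => f (γ.toFun t)) γ.I a b),
        64 * (S.w (f.symm (Φ u)))⁻¹ ≠ ∞ := by
  intro a ha b hb hab
  obtain ⟨Φ, hΦ, hΦN⟩ := exists_arc γ.ordConnected (Curve.map f γ).cont hrect ha hb hab
  refine ⟨Φ, hΦ, hΦN, ?_⟩
  have h1 := piece_le_lineInt (fun y => dens S f ρ ρ₀ ε (f.symm y)) (Curve.map f γ) ha hb hab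
  have h2 := lineInt_piece (fun y => dens S f ρ ρ₀ ε (f.symm y)) hΦN
  have h3 : ∫⁻ u in Ioc 0 (variationOnFromTo (fun t => f (γ.toFun t)) γ.I a b),
    dens S f ρ ρ₀ ε (f.symm (Φ u)) < ∞ := by
    refine lt_of_le_of_lt ?_ hcon
    refine h2.symm.le.trans ?_
    exact h1
  exact hf.inv_w_fin hε hρ₀K hΦ.lip hΦ.len h3

theorem lineInt_le' {Z₁ Z₂ : Type u} [MetricSpace Z₁] [MetricSpace Z₂] {ρ₁ : Z₁ → ℝ≥0∞}
    {ρ₂ : Z₂ → ℝ≥0∞} {γ₁ : Curve Z₁} {γ₂ : Curve Z₂} (hI : γ₁.I = γ₂.I) {g : ℝ → Z₂}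
    (hg : γ₂.toFun = g)
    (h : ∀ a ∈ γ₂.I, ∀ b ∈ γ₂.I, a ≤ b →
      ∫⁻ s in Icc 0 (variationOnFromTo γ₁.toFun γ₁.I a b),
        ρ₁ (naturalParameterization γ₁.toFun γ₁.I a s) ≤
      ∫⁻ s in Icc 0 (variationOnFromTo g γ₂.I a b),
        ρ₂ (naturalParameterization g γ₂.I a s)) : lineInt ρ₁ γ₁ ≤ lineInt ρ₂ γ₂ := by
  subst hg
  exact lineInt_le hI h

theorem Trim.admissible_aux [SecondCountableTopology X] (hf : Trim S f) {ρ ρ₀ : X → ℝ≥0∞}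
    (hρ : Measurable ρ) {ε : ℝ≥0∞} (hε : ε ≠ 0)
    (hρ₀K : ∀ K, IsCompact K → ∃ c : ℝ≥0∞, c ≠ 0 ∧ ∀ x ∈ K, c ≤ ρ₀ x) {γ : Curve X}
    (hadm : LocRect γ → 1 ≤ lineInt ρ γ) (hrect : LocRect (Curve.map f γ))
    (hcon : lineInt (fun y => dens S f ρ ρ₀ ε (f.symm y)) (Curve.map f γ) < ∞) :
    1 ≤ lineInt (fun y => dens S f ρ ρ₀ ε (f.symm y)) (Curve.map f γ) := by
  have hpiece := hf.admissible_aux1 hε hρ₀K hrect hcon
  have hrect' : LocRect γ := by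
    refine locBV_of fun a ha b hb hab => ?_
    obtain ⟨Φ, hΦ, -, hfin⟩ := hpiece a ha b hb hab
    have h1 := hf.var_le hΦ ⟨le_rfl, hab⟩ ⟨hab, le_rfl⟩
    rw [hΦ.zero] at h1
    exact (h1.trans_lt hfin.lt_top).ne
  refine (hadm hrect').trans
    (lineInt_le' rfl (g := fun t => f (γ.toFun t)) rfl fun a ha b hb hab => ?_)
  obtain ⟨Φ, hΦ, hΦN, hfin⟩ := hpiece a ha b hb hab
  obtain ⟨Ψ, hΨ, hΨN⟩ := exists_arc γ.ordConnected γ.cont hrect' ha hb hab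
  have h1 := hf.piece_le (ρ₀ := ρ₀) (ε := ε) hρ hab hΦ hΨ hfin
  have h2 := lineInt_piece (fun y => dens S f ρ ρ₀ ε (f.symm y)) hΦN
  have h3 := lineInt_piece ρ hΨN
  exact h3.le.trans (h1.trans h2.symm.le)

/-- Admissibility of the density. -/
theorem Trim.admissible [SecondCountableTopology X] (hf : Trim S f) {ρ ρ₀ : X → ℝ≥0∞}
    (hρ : Measurable ρ) {ε : ℝ≥0∞} (hε : ε ≠ 0)
    (hρ₀K : ∀ K, IsCompact K → ∃ c : ℝ≥0∞, c ≠ 0 ∧ ∀ x ∈ K, c ≤ ρ₀ x) {γ : Curve X}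
    (hadm : LocRect γ → 1 ≤ lineInt ρ γ) (hrect : LocRect (Curve.map f γ)) :
    1 ≤ lineInt (fun y => dens S f ρ ρ₀ ε (f.symm y)) (Curve.map f γ) := by
  by_cases hcon : lineInt (fun y => dens S f ρ ρ₀ ε (f.symm y)) (Curve.map f γ) < ∞
  · exact hf.admissible_aux hρ hε hρ₀K hadm hrect hcon
  · rw [not_lt, top_le_iff] at hcon
    rw [hcon]; exact le_top

/-- The mass of the density. -/
theorem Trim.mass_dens [SecondCountableTopology X] (hf : Trim S f) {ρ ρ₀ : X → ℝ≥0∞}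
    (hρ : Measurable ρ) (hρ₀ : Measurable ρ₀) {ε : ℝ≥0∞} :
    ∫⁻ y, dens S f ρ ρ₀ ε (f.symm y) ^ 2 ∂μH[2] ≤
      C₂ * (∫⁻ x, ρ x ^ 2 ∂μH[2] + ε ^ 2 * ∫⁻ x, ρ₀ x ^ 2 ∂μH[2]) := by
  set h : X → ℝ≥0∞ := fun x => 64 * (ρ x + ε * ρ₀ x) * (S.w x)⁻¹ with hh
  have hhm : Measurable h := ((hρ.add (hρ₀.const_mul ε)).const_mul 64).mul S.measurable_w.inv
  have hdm : Measurable (dens S f ρ ρ₀ ε) := hhm.indicator measurableSet_GE
  set ν : Measure X := (μH[2] : Measure Y).map f.symm with hν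
  have hνA : ∀ A, ν A = μH[2] (f '' A) := by
    intro A
    rw [hν, f.symm.measurableEmbedding.map_apply, ← f.image_eq_preimage_symm]
  set C₀ : ℝ≥0∞ := 400 / ENNReal.ofReal (1 / 1024) with hC₀
  have h1 : ν.restrict (Good S f (1 / 1024)) ≤
      C₀ • (μH[2] : Measure X).withDensity (fun x => S.w x ^ 2) := by
    refine Measure.le_iff.2 fun A hA => ?_
    rw [Measure.smul_apply, withDensity_apply _ hA, Measure.restrict_apply hA, hνA, smul_eq_mul]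
    refine (H2_good hf (by norm_num) (hA.inter (measurableSet_Good _)) inter_subset_right).trans ?_
    gcongr
    exact inter_subset_left
  have hE : ν S.E = 0 := by rw [hνA]; exact hf.H2_E
  have e0 : ∀ x, dens S f ρ ρ₀ ε x ^ 2 = (GE S f).indicator (fun x => h x ^ 2) x := by
    intro x
    by_cases hx : x ∈ GE S f
    · rw [dens_of_mem hx, indicator_of_mem hx]
    · rw [dens, indicator_of_notMem hx, indicator_of_notMem hx]; simp
  calc ∫⁻ y, dens S f ρ ρ₀ ε (f.symm y) ^ 2 ∂μH[2] = ∫⁻ x, dens S f ρ ρ₀ ε x ^ 2 ∂ν := by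
        rw [hν, lintegral_map (hdm.pow_const 2) f.symm.continuous.measurable]
    _ = ∫⁻ x in GE S f, h x ^ 2 ∂ν := by
        simp only [e0]
        exact lintegral_indicator measurableSet_GE _
    _ ≤ (∫⁻ x in Good S f (1 / 1024), h x ^ 2 ∂ν) + ∫⁻ x in S.E, h x ^ 2 ∂ν :=
        lintegral_union_le _ _ _
    _ = ∫⁻ x in Good S f (1 / 1024), h x ^ 2 ∂ν := by
        rw [setLIntegral_measure_zero _ _ hE, add_zero]
    _ ≤ ∫⁻ x, h x ^ 2 ∂(C₀ • (μH[2] : Measure X).withDensity (fun x => S.w x ^ 2)) :=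
        lintegral_mono' h1 le_rfl
    _ = C₀ * ∫⁻ x, S.w x ^ 2 * h x ^ 2 ∂μH[2] := by
        rw [lintegral_smul_measure, smul_eq_mul]
        congr 1
        exact lintegral_withDensity_eq_lintegral_mul (μH[2] : Measure X)
          (S.measurable_w.pow_const 2) (hhm.pow_const 2)
    _ ≤ C₀ * ∫⁻ x, 4096 * 4 * (ρ x ^ 2 + ε ^ 2 * ρ₀ x ^ 2) ∂μH[2] := by
        refine mul_le_mul' le_rfl (lintegral_mono fun x => ?_)
        have h2 : S.w x * h x ≤ 64 * (ρ x + ε * ρ₀ x) := by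
          calc S.w x * h x = 64 * (ρ x + ε * ρ₀ x) * (S.w x * (S.w x)⁻¹) := by
                rw [hh]; ring
            _ ≤ 64 * (ρ x + ε * ρ₀ x) * 1 := by
                gcongr
                rw [mul_comm]; exact ENNReal.inv_mul_le_one _
            _ = _ := mul_one _
        calc S.w x ^ 2 * h x ^ 2 = (S.w x * h x) ^ 2 := (mul_pow _ _ 2).symm
          _ ≤ (64 * (ρ x + ε * ρ₀ x)) ^ 2 := by gcongr
          _ = 4096 * (ρ x + ε * ρ₀ x) ^ 2 := by rw [mul_pow]; norm_num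
          _ ≤ 4096 * (4 * (ρ x ^ 2 + (ε * ρ₀ x) ^ 2)) := by gcongr; exact add_sq_le _ _
          _ = _ := by rw [mul_pow]; ring
    _ = C₂ * (∫⁻ x, ρ x ^ 2 ∂μH[2] + ε ^ 2 * ∫⁻ x, ρ₀ x ^ 2 ∂μH[2]) := by
        have hm1 : Measurable fun x => ρ x ^ 2 := hρ.pow_const 2
        have hm2 : Measurable fun x => ρ₀ x ^ 2 := hρ₀.pow_const 2
        have hm3 : Measurable fun x => ρ x ^ 2 + ε ^ 2 * ρ₀ x ^ 2 := hm1.add (hm2.const_mul _)
        rw [lintegral_const_mul _ hm3, lintegral_add_left hm1,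
          lintegral_const_mul _ hm2, ← mul_assoc]
        rfl

theorem Trim.qc2 [SecondCountableTopology X] (hf : Trim S f) {Γ : Set (Curve X)} {ρ : X → ℝ≥0∞}
    (hρ : Measurable ρ) (hadm : ∀ γ ∈ Γ, LocRect γ → 1 ≤ lineInt ρ γ) {ε : ℝ≥0∞} (hε : ε ≠ 0) :
    ∃ ρ' : Y → ℝ≥0∞, Measurable ρ' ∧ (∀ γ ∈ Curve.map f '' Γ, LocRect γ → 1 ≤ lineInt ρ' γ) ∧
      ∫⁻ y, ρ' y ^ 2 ∂μH[2] ≤ C₂ * (∫⁻ x, ρ x ^ 2 ∂μH[2] + ε ^ 2) := by
  obtain ⟨ρ₀, hρ₀m, hρ₀1, hρ₀K⟩ := exists_rho0 (μH[2] : Measure X)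
  have hρ₀K := hρ₀K fun K hK => S.compact_lt_top hK
  have hhm : Measurable fun x => 64 * (ρ x + ε * ρ₀ x) * (S.w x)⁻¹ :=
    ((hρ.add (hρ₀m.const_mul ε)).const_mul 64).mul S.measurable_w.inv
  have hdm : Measurable (dens S f ρ ρ₀ ε) := hhm.indicator measurableSet_GE
  refine ⟨fun y => dens S f ρ ρ₀ ε (f.symm y), hdm.comp f.symm.continuous.measurable, ?_, ?_⟩
  · rintro _ ⟨γ, hγ, rfl⟩ hrect
    exact hf.admissible hρ hε hρ₀K (hadm γ hγ) hrect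
  · refine (hf.mass_dens hρ hρ₀m).trans ?_
    gcongr
    calc ε ^ 2 * ∫⁻ x, ρ₀ x ^ 2 ∂μH[2] ≤ ε ^ 2 * 1 := by gcongr
      _ = _ := mul_one _

end Pool.Agent.QCS
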