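import Pool.Agent.Lib.MP_811d89_an.Weight

/-!
# The shortcut lemma
-/

open MeasureTheory Set Metric Topology Filter
open scoped ENNReal NNReal

namespace Pool.Agent.QCS

set_option linter.unusedSectionVars false

variable {X : Type*} [MetricSpace X] [MeasurableSpace X] [BorelSpace X]

/-- Reversal of time in an integral over an interval. -/
theorem lintegral_rev (F : ℝ → ℝ≥0∞) (L a b : ℝ) :
    ∫⁻ s in Icc a b, F (L - s) = ∫⁻ s in Icc (L - b) (L - a), F s := by
  have hpre : (fun s => L - s) ⁻¹' Icc (L - b) (L - a) = Icc a b := by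
    ext s; simp only [mem_preimage, mem_Icc]; constructor <;> rintro ⟨h1, h2⟩ <;>
      constructor <;> linarith
  have hmp : MeasurePreserving (fun s : ℝ => L - s) volume volume :=
    Measure.measurePreserving_sub_left volume L
  have hme : MeasurableEmbedding (fun s : ℝ => L - s) := measurableEmbedding_subLeft L
  have h3 := hmp.setLIntegral_comp_preimage_emb hme F (Icc (L - b) (L - a))
  rw [hpre] at h3
  exact h3

namespace Skel

variable (S : Skel X) [LocallyConnectedSpace X] [ConnectedSpace X]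

theorem deep_of_mem_D {κ : ℝ≥0} (hκ : 0 < κ) {p : X × ℝ} (hp : S.Valid p) {z : X}
    (hz : z ∈ S.D κ p) : S.deep (κ / 4) z := by
  have hκr : (0 : ℝ) < κ := by exact_mod_cast hκ
  refine ⟨p.2, hp.1, S.v_gt_of_hair hz.1, ?_⟩
  rw [S.Lh_eq hz.1]
  have h1 : ENNReal.ofReal (4 * (S.Lh p.2 p.1).toReal / κ) < S.v z - ENNReal.ofReal p.2 := by
    rw [lt_tsub_iff_left, ← ENNReal.ofReal_add hp.1 (by positivity)]
    exact hz.2
  have h2 : S.Lh p.2 p.1 = (κ / 4 : ℝ≥0) * ENNReal.ofReal (4 * (S.Lh p.2 p.1).toReal / κ) := by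
    rw [← ENNReal.ofReal_coe_nnreal, ← ENNReal.ofReal_mul (by positivity)]
    rw [show ((κ / 4 : ℝ≥0) : ℝ) * (4 * (S.Lh p.2 p.1).toReal / κ) = (S.Lh p.2 p.1).toReal by
      push_cast; field_simp]
    rw [ENNReal.ofReal_toReal hp.2.2]
  calc S.Lh p.2 p.1 = (κ / 4 : ℝ≥0) * ENNReal.ofReal (4 * (S.Lh p.2 p.1).toReal / κ) := h2
    _ < (κ / 4 : ℝ≥0) * (S.v z - ENNReal.ofReal p.2) := by
      refine (ENNReal.mul_lt_mul_iff_right ?_ ENNReal.coe_ne_top).2 h1
      have : (0 : ℝ≥0) < κ / 4 := by positivity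
      exact_mod_cast this.ne'

theorem exists_D_of_deep {κ : ℝ≥0} (hκ : 0 < κ) {z : X} (hz : S.deep (κ / 4) z) :
    ∃ p, S.Valid p ∧ z ∈ S.D κ p := by
  have hκr : (0 : ℝ) < κ := by exact_mod_cast hκ
  obtain ⟨t, h0, ht, hL⟩ := hz
  have hfin : S.Lh t z ≠ ∞ := (hL.trans_le le_top).ne
  refine ⟨(z, t), ⟨h0, ht, hfin⟩, S.mem_hair ht, ?_⟩
  show ENNReal.ofReal (t + 4 * (S.Lh t z).toReal / κ) < S.v z
  rw [ENNReal.ofReal_add h0 (by positivity), ← lt_tsub_iff_left]
  have h2 : ENNReal.ofReal (4 * (S.Lh t z).toReal / κ) = S.Lh t z / (κ / 4 : ℝ≥0) := by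
    rw [← ENNReal.ofReal_toReal hfin, ← ENNReal.ofReal_coe_nnreal,
      ← ENNReal.ofReal_div_of_pos (by positivity), ENNReal.ofReal_toReal hfin]
    congr 1
    push_cast
    field_simp
  have hne : ((κ / 4 : ℝ≥0) : ℝ≥0∞) ≠ 0 := by
    have : (0 : ℝ≥0) < κ / 4 := by positivity
    exact_mod_cast this.ne'
  rw [h2]
  refine ENNReal.div_lt_of_lt_mul' ?_
  rw [mul_comm] at hL ⊢
  rwa [mul_comm] at hL ⊢

/-- The finite shortcut lemma. -/
theorem shortcut_fin {κ : ℝ≥0} (hκ : 0 < κ) (hκ1 : κ ≤ 1) (s : Finset (X × ℝ))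
    (hs : ∀ p ∈ s, S.Valid p) {x y : X} (hx : ¬ S.deep κ x) (hy : ¬ S.deep κ y) :
    dl univ x y ≤ cost ((S.P κ s).indicator fun _ => 1) x y := by
  classical
  induction hn : s.card generalizing s with
  | zero =>
    have hs0 : s = ∅ := Finset.card_eq_zero.1 hn
    subst hs0
    have : (S.P κ (∅ : Finset (X × ℝ))).indicator (fun _ => (1 : ℝ≥0∞)) = fun _ => 1 := by
      ext z; rw [indicator_of_mem]; simp [P]
    rw [this, cost_one]
  | succ n ih =>
    have hne : s.Nonempty := Finset.card_pos.1 (by omega)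
    obtain ⟨p, hp, hmax⟩ := s.exists_max_image (fun q => q.2) hne
    set s' := s.erase p with hs'
    have hcard : s'.card = n := by rw [hs', Finset.card_erase_of_mem hp, hn]; rfl
    have hval' : ∀ q ∈ s', S.Valid q := fun q hq => hs q (Finset.mem_of_mem_erase hq)
    have hih := ih s' hval' hcard
    have hPs : S.P κ s = S.P κ s' ∩ (S.D κ p)ᶜ := by
      ext z
      simp only [P, mem_ofPred_eq, mem_inter_iff, mem_compl_iff]
      constructor
      · exact fun h => ⟨fun q hq => h q (Finset.mem_of_mem_erase hq), h p hp⟩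
      · rintro ⟨h1, h2⟩ q hq
        rcases eq_or_ne q p with rfl | hqp
        · exact h2
        · exact h1 q (Finset.mem_erase.2 ⟨hqp, hq⟩)
    by_cases hA : ∃ q ∈ s', S.D κ p ⊆ S.D κ q
    · obtain ⟨q, hq, hsub⟩ := hA
      have : S.P κ s = S.P κ s' := by
        rw [hPs]
        refine inter_eq_left.2 fun z hz hzp => hz q hq (hsub hzp)
      rw [this]; exact hih
    push Not at hA
    have hB : S.hair p.2 p.1 ∩ (S.D κ p)ᶜ ⊆ S.P κ s' := by
      rintro z ⟨hz1, hz2⟩ q hq hzq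
      refine hA q hq fun z' hz' => ?_
      have hqp : q.2 ≤ p.2 := hmax q (Finset.mem_of_mem_erase hq)
      have hvz : S.v z ≤ ENNReal.ofReal (p.2 + 4 * (S.Lh p.2 p.1).toReal / κ) := by
        by_contra hcon
        exact hz2 ⟨hz1, not_le.1 hcon⟩
      refine ⟨?_, hzq.2.trans_le (hvz.trans hz'.2.le)⟩
      have h1 : S.hair p.2 p.1 ⊆ S.hair q.2 q.1 := by
        rw [← S.hair_eq hz1, ← S.hair_eq hzq.1]
        exact S.hair_anti hqp z
      exact h1 hz'.1
    have hpv := hs p hp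
    rw [hPs]
    refine hih.trans ?_
    refine le_iInf fun L => le_iInf₂ fun c hc => ?_
    obtain ⟨hL, hlip, hc0, hcL⟩ := hc
    by_cases hhit : ∃ r ∈ Icc 0 L, c r ∈ S.D κ p
    · -- times of hitting
      set T : Set ℝ := {r | r ∈ Icc 0 L ∧ c r ∈ S.D κ p} with hT
      have hTne : T.Nonempty := by obtain ⟨r, h1, h2⟩ := hhit; exact ⟨r, h1, h2⟩
      have hTb : BddBelow T := ⟨0, fun r hr => hr.1.1⟩
      have hTa : BddAbove T := ⟨L, fun r hr => hr.1.2⟩
      set M₀ := sInf T with hM₀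
      set M₁ := sSup T with hM₁
      have h01 : M₀ ≤ M₁ := csInf_le_csSup hTne hTb hTa
      have hM0 : 0 ≤ M₀ := le_csInf hTne fun r hr => hr.1.1
      have hM1 : M₁ ≤ L := csSup_le hTne fun r hr => hr.1.2
      obtain ⟨qa, hqa, hLa⟩ := S.left_half hκ hpv hB hx hlip hc0 hM0
        (fun r hr hrD => absurd (csInf_le hTb ⟨⟨hr.1, hr.2.le.trans (h01.trans hM1)⟩, hrD⟩)
          (not_le.2 hr.2))
        (fun ε hε => by
          obtain ⟨r, hr, hlt⟩ := exists_lt_of_csInf_lt hTne (lt_add_of_pos_right M₀ hε)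
          exact ⟨r, ⟨csInf_le hTb hr, hlt⟩, hr.2⟩)
      obtain ⟨qb, hqb, hLb⟩ := S.left_half hκ hpv hB hy (lip_rev hlip L)
        (by simpa using hcL) (M := L - M₁) (sub_nonneg.2 hM1)
        (fun r hr hrD => absurd (le_csSup hTa (show L - r ∈ T from
          ⟨⟨by linarith [hr.2, hr.1, hM0, h01], by linarith [hr.1]⟩, hrD⟩))
          (by linarith [hr.2]))
        (fun ε hε => by
          obtain ⟨r, hr, hlt⟩ := exists_lt_of_lt_csSup hTne (sub_lt_self M₁ hε)
          refine ⟨L - r, ⟨by linarith [le_csSup hTa hr], by linarith⟩, ?_⟩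
          simpa using hr.2)
      rw [lintegral_rev (fun u => (S.P κ s' ∩ (S.D κ p)ᶜ).indicator (fun _ => (1 : ℝ≥0∞)) (c u))]
        at hLb
      rw [show L - (L - M₁) = M₁ by ring, sub_zero] at hLb
      have hmid : cost ((S.P κ s').indicator fun _ => 1) qa qb ≤ 4 * (S.Lh p.2 p.1 / κ) := by
        have h1 : cost ((S.P κ s').indicator fun _ => 1) qa qb ≤ dl (S.cc p.1) qa qb :=
          cost_le_dl (fun z => indicator_le_self' (f := fun _ => (1 : ℝ≥0∞))
            (fun _ _ => zero_le) z) _ _ _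
        refine h1.trans ((S.dl_le_Lh hqa hqb).trans ?_)
        have h2 : S.Lh p.2 p.1 ≤ S.Lh p.2 p.1 / κ := by
          rw [ENNReal.le_div_iff_mul_le (Or.inl (by exact_mod_cast hκ.ne'))
            (Or.inl ENNReal.coe_ne_top)]
          calc S.Lh p.2 p.1 * κ ≤ S.Lh p.2 p.1 * 1 := by gcongr; exact_mod_cast hκ1
            _ = _ := mul_one _
        refine h2.trans ?_
        calc S.Lh p.2 p.1 / κ = 1 * (S.Lh p.2 p.1 / κ) := (one_mul _).symm
          _ ≤ 4 * (S.Lh p.2 p.1 / κ) := by gcongr; norm_num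
      set W' : X → ℝ≥0∞ := (S.P κ s').indicator fun _ => 1 with hW'
      set J : ℝ → ℝ≥0∞ := fun r => (S.P κ s' ∩ (S.D κ p)ᶜ).indicator (fun _ => 1) (c r) with hJ
      set ℓ := S.Lh p.2 p.1 / κ with hℓ
      calc cost W' x y ≤ cost W' x qa + cost W' qa qb + cost W' qb y :=
            (cost_triangle W' x qb y).trans (add_le_add (cost_triangle W' x qa qb) le_rfl)
        _ ≤ cost W' x qa + 4 * ℓ + cost W' y qb := by
            rw [cost_comm W' qb y]; gcongr
        _ = (cost W' x qa + 2 * ℓ) + (cost W' y qb + 2 * ℓ) := by ring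
        _ ≤ (∫⁻ r in Icc 0 M₀, J r) + ∫⁻ r in Icc M₁ L, J r := add_le_add hLa hLb
        _ = (∫⁻ r in Ico 0 M₀, J r) + ∫⁻ r in Icc M₁ L, J r := by
            rw [restrict_Ico_eq_restrict_Icc]
        _ = ∫⁻ r in Ico 0 M₀ ∪ Icc M₁ L, J r := by
            rw [lintegral_union measurableSet_Icc]
            rw [Set.disjoint_left]
            intro r hr hr'
            exact absurd (hr.2.trans_le h01) (not_lt.2 hr'.1)
        _ ≤ ∫⁻ r in Icc 0 L, J r := by
            refine lintegral_mono_set (union_subset ?_ ?_)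
            · exact fun r hr => ⟨hr.1, hr.2.le.trans (h01.trans hM1)⟩
            · exact fun r hr => ⟨hM0.trans (h01.trans hr.1), hr.2⟩
    · push Not at hhit
      refine (cost_le hL hlip hc0 hcL).trans (le_of_eq ?_)
      refine setLIntegral_congr_fun measurableSet_Icc fun r hr => ?_
      have h1 := hhit r hr
      by_cases h2 : c r ∈ S.P κ s'
      · have hmem : c r ∈ S.P κ s' ∩ (S.D κ p)ᶜ := ⟨h2, h1⟩
        rw [indicator_of_mem h2, indicator_of_mem hmem]
      · have hmem : c r ∉ S.P κ s' ∩ (S.D κ p)ᶜ := fun h => h2 h.1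
        rw [indicator_of_notMem h2, indicator_of_notMem hmem]

/-- The shortcut lemma. -/
theorem shortcut {κ : ℝ≥0} (hκ : 0 < κ) (hκ1 : κ ≤ 1) {x y : X} (hx : ¬ S.deep κ x)
    (hy : ¬ S.deep κ y) {L : ℝ} (hL : 0 ≤ L) {c : ℝ → X} (hc : LipschitzWith 1 c) (hc0 : c 0 = x)
    (hcL : c L = y) :
    dl univ x y ≤ ∫⁻ r in Icc 0 L, {z | S.deep (κ / 4) z}ᶜ.indicator (fun _ => 1) (c r) := by
  classical
  set O : Set X := {z | S.deep (κ / 4) z} with hO
  have hOo : IsOpen O := S.isOpen_deep _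
  set A : Set ℝ := Icc 0 L ∩ c ⁻¹' O with hA
  have hAm : MeasurableSet A := measurableSet_Icc.inter (hOo.preimage hc.continuous).measurableSet
  have hvol : volume (Icc 0 L) ≠ ∞ := by simp
  have hint : ∫⁻ r in Icc 0 L, Oᶜ.indicator (fun _ => 1) (c r) = volume (Icc 0 L \ A) := by
    have h1 : ∀ r, Oᶜ.indicator (fun _ => (1 : ℝ≥0∞)) (c r) =
        (c ⁻¹' Oᶜ).indicator (fun _ => 1) r := fun r => rfl
    simp only [h1]
    rw [lintegral_indicator (hOo.isClosed_compl.preimage hc.continuous).measurableSet,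
      Measure.restrict_restrict (hOo.isClosed_compl.preimage hc.continuous).measurableSet]
    simp only [lintegral_const, MeasurableSet.univ, Measure.restrict_apply, univ_inter, one_mul]
    congr 1
    ext r; simp only [hA, mem_inter_iff, mem_preimage, mem_compl_iff, Set.mem_sdiff]; tauto
  rw [hint]
  refine ENNReal.le_of_forall_pos_le_add fun ε hε _ => ?_
  have hAfin : volume A ≠ ∞ := ((measure_mono inter_subset_left).trans_lt hvol.lt_top).ne
  obtain ⟨K, hKA, hKc, hKv⟩ := hAm.exists_isCompact_lt_add hAfin (ε := (ε : ℝ≥0∞)) (by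
    exact_mod_cast hε.ne')
  -- finitely many deep parts cover the compact set
  have hcov : ∀ r ∈ K, ∃ p, S.Valid p ∧ c r ∈ S.D κ p := fun r hr =>
    S.exists_D_of_deep hκ (hKA hr).2
  choose! p hpv hpD using hcov
  obtain ⟨t, htK, ht⟩ := hKc.elim_nhds_subcover (fun r => c ⁻¹' S.D κ (p r))
    fun r hr => ((S.isOpen_D κ (p r)).preimage hc.continuous).mem_nhds (hpD r hr)
  have h1 := S.shortcut_fin hκ hκ1 (t.image p) (fun q hq => by
    obtain ⟨r, hr, rfl⟩ := Finset.mem_image.1 hq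
    exact hpv r (htK r hr)) hx hy
  refine h1.trans ((cost_le hL hc hc0 hcL).trans ?_)
  have h2 : ∫⁻ r in Icc 0 L, (S.P κ (t.image p)).indicator (fun _ => 1) (c r) ≤
      volume (Icc 0 L \ K) := by
    have hPm : MeasurableSet (c ⁻¹' S.P κ (t.image p)) :=
      ((S.isClosed_P κ _).preimage hc.continuous).measurableSet
    have h3 : ∀ r, (S.P κ (t.image p)).indicator (fun _ => (1 : ℝ≥0∞)) (c r) =
        (c ⁻¹' S.P κ (t.image p)).indicator (fun _ => 1) r := fun r => rfl
    simp only [h3]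
    rw [lintegral_indicator hPm, Measure.restrict_restrict hPm]
    simp only [lintegral_const, MeasurableSet.univ, Measure.restrict_apply, univ_inter, one_mul]
    refine measure_mono fun r hr => ⟨hr.2, fun hrK => ?_⟩
    obtain ⟨i, hi, hri⟩ := mem_iUnion₂.1 (ht hrK)
    exact hr.1 (p i) (Finset.mem_image_of_mem p hi) hri
  refine h2.trans ?_
  have h4 : volume (Icc 0 L \ K) = volume (Icc 0 L) - volume K :=
    measure_sdiff (hKA.trans inter_subset_left) hKc.isClosed.measurableSet.nullMeasurableSet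
      ((measure_mono (hKA.trans inter_subset_left)).trans_lt hvol.lt_top).ne
  have h5 : volume (Icc 0 L \ A) = volume (Icc 0 L) - volume A :=
    measure_sdiff inter_subset_left hAm.nullMeasurableSet hAfin
  rw [h4, h5, tsub_le_iff_right]
  have h6 : volume A ≤ volume (Icc (0 : ℝ) L) := measure_mono inter_subset_left
  calc volume (Icc 0 L) = (volume (Icc 0 L) - volume A) + volume A := (tsub_add_cancel_of_le h6).symm
    _ ≤ (volume (Icc 0 L) - volume A) + (volume K + ε) := by gcongr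
    _ = _ := by ring

/-- Lower bound of the weighted cost by the length distance. -/
theorem dl_le_cost {κ : ℝ≥0} (hκ : 0 < κ) (hκ1 : κ ≤ 1) {x y : X} (hx : ¬ S.deep κ x)
    (hy : ¬ S.deep κ y) : (κ : ℝ≥0∞) ^ 2 * dl univ x y ≤ cost S.w x y := by
  refine le_iInf fun L => le_iInf₂ fun c hc => ?_
  obtain ⟨hL, hlip, hc0, hcL⟩ := hc
  have h1 := S.shortcut hκ hκ1 hx hy hL hlip hc0 hcL
  calc (κ : ℝ≥0∞) ^ 2 * dl univ x y
      ≤ (κ : ℝ≥0∞) ^ 2 *
        ∫⁻ r in Icc 0 L, {z | S.deep (κ / 4) z}ᶜ.indicator (fun _ => 1) (c r) := by gcongr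
    _ = ∫⁻ r in Icc 0 L, (κ : ℝ≥0∞) ^ 2 *
        {z | S.deep (κ / 4) z}ᶜ.indicator (fun _ => 1) (c r) := by
        rw [lintegral_const_mul']
        exact ENNReal.pow_ne_top ENNReal.coe_ne_top
    _ ≤ ∫⁻ r in Icc 0 L, S.w (c r) := by
        refine lintegral_mono fun r => ?_
        dsimp only
        by_cases h2 : S.deep (κ / 4) (c r)
        · rw [indicator_of_notMem (by simpa using h2), mul_zero]; exact zero_le
        · rw [indicator_of_mem (by simpa using h2), mul_one]
          refine le_trans ?_ (S.le_w_of_not_deep h2)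
          refine le_min ?_ (le_of_eq ?_)
          · exact pow_le_one₀ zero_le (by exact_mod_cast hκ1)
          · have : κ ^ 2 = 16 * (κ / 4) ^ 2 := by
              apply NNReal.eq; push_cast; ring
            exact_mod_cast this

end Skel

end Pool.Agent.QCS
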