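import Pool.Agent.Lib.MP_811d89_an.Cross

/-!
# Total boundedness
-/

open MeasureTheory Set Metric Topology Filter
open scoped ENNReal NNReal

namespace Pool.Agent.QCS

set_option linter.unusedSectionVars false

variable {X : Type*} [MetricSpace X] [MeasurableSpace X] [BorelSpace X]

theorem Chain.symm {K : Set X} {ε : ℝ} {a b : X} {L : ℝ} (h : Chain K ε a b L) :
    Chain K ε b a L := by
  induction h with
  | refl hx => exact .refl hx
  | @step y z L h1 hz hd ih =>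
    have h2 := (Chain.single hz h1.right_mem (by rwa [dist_comm] at hd)).trans ih
    rw [dist_comm, add_comm] at h2
    exact h2

/-- Maximal separated finite sets. -/
theorem exists_max_sep {α : Type*} {A : Set α} {R : α → α → Prop} (hsymm : ∀ a b, R a b → R b a)
    {N : ℕ} (hN : ∀ t : Finset α, ↑t ⊆ A → (∀ p ∈ t, ∀ q ∈ t, p ≠ q → R p q) → t.card ≤ N) :
    ∃ t : Finset α, ↑t ⊆ A ∧ (∀ p ∈ t, ∀ q ∈ t, p ≠ q → R p q) ∧
      ∀ y ∈ A, ∃ p ∈ t, p = y ∨ ¬ R p y := by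
  classical
  let Q : Set ℕ := {n | ∃ t : Finset α, ↑t ⊆ A ∧ (∀ p ∈ t, ∀ q ∈ t, p ≠ q → R p q) ∧ t.card = n}
  have hne : Q.Nonempty := ⟨0, ∅, by simp, by simp, rfl⟩
  have hb : BddAbove Q := ⟨N, by rintro n ⟨t, h1, h2, rfl⟩; exact hN t h1 h2⟩
  obtain ⟨t, h1, h2, h3⟩ := Nat.sSup_mem hne hb
  refine ⟨t, h1, h2, fun y hy => ?_⟩
  by_contra hcon
  push Not at hcon
  have hyt : y ∉ t := fun h => (hcon y h).1 rfl
  have h4 : (insert y t).card ≤ sSup Q := by
    refine le_csSup hb ⟨insert y t, ?_, ?_, rfl⟩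
    · rw [Finset.coe_insert]; exact insert_subset hy h1
    · intro p hp q hq hpq
      rcases Finset.mem_insert.1 hp with hp1 | hp1
      · subst hp1
        rcases Finset.mem_insert.1 hq with hq1 | hq1
        · exact absurd hq1.symm hpq
        · exact hsymm _ _ (hcon q hq1).2
      · rcases Finset.mem_insert.1 hq with hq1 | hq1
        · rw [hq1]; exact (hcon p hp1).2
        · exact h2 p hp1 q hq1 hpq
  rw [Finset.card_insert_of_notMem hyt, ← h3] at h4
  omega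

open Measure in
/-- Separated sets in continua of finite length. -/
theorem sep_card {F : Set X} (hF : IsPreconnected F) (hFc : IsCompact F) {ρ : ℝ} (hρ : 0 < ρ)
    (t : Finset X) (ht : ↑t ⊆ F)
    (hsep : ∀ p ∈ t, ∀ q ∈ t, p ≠ q → ENNReal.ofReal (2 * ρ) < dl F p q) :
    (t.card : ℝ≥0∞) * ENNReal.ofReal ρ ≤ μH[1] F + ENNReal.ofReal ρ := by
  classical
  rcases le_or_gt t.card 1 with hcard | hcard
  · calc (t.card : ℝ≥0∞) * ENNReal.ofReal ρ ≤ 1 * ENNReal.ofReal ρ := by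
          gcongr; exact_mod_cast hcard
      _ = ENNReal.ofReal ρ := one_mul _
      _ ≤ _ := le_add_self
  refine le_trans ?_ le_self_add
  have hn : ∀ p ∈ t, ∀ q ∈ t, p ≠ q → ∃ n : ℕ, 2 * ρ < cd F {p} (2 * ρ + 1) (1 / (n + 1 : ℝ)) q := by
    intro p hp q hq hpq
    by_contra hcon
    push Not at hcon
    obtain ⟨e, he, hLC⟩ := LC_of_cd_le hFc isClosed_singleton (by positivity)
      (lt_add_one (2 * ρ)) hcon
    rw [mem_singleton_iff.1 he] at hLC
    exact absurd (hsep p hp q hq hpq) (not_lt.2 hLC.dl_le)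
  choose! n hn using hn
  set N := t.sup fun p => t.sup fun q => n p q with hN
  set f : X → X → ℝ := fun p => cd F {p} (2 * ρ + 1) (1 / (N + 1 : ℝ)) with hf
  have hfpq : ∀ p ∈ t, ∀ q ∈ t, p ≠ q → 2 * ρ < f p q := by
    intro p hp q hq hpq
    refine (hn p hp q hq hpq).trans_le (cd_anti ?_ q)
    have h1 : n p q ≤ N := (Finset.le_sup (f := fun q => n p q) hq).trans
      (Finset.le_sup (f := fun p => t.sup fun q => n p q) hp)
    have h2 : (n p q : ℝ) ≤ N := by exact_mod_cast h1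
    gcongr
  set G : X → Set X := fun p => F ∩ {y | f p y < ρ} with hG
  have hGm : ∀ p, MeasurableSet (G p) := by
    intro p
    have h1 : ContinuousOn (f p) F := cd_continuousOn (by positivity)
    obtain ⟨U, hU, hUe⟩ := (_root_.continuousOn_iff'.1 h1) (Iio ρ) isOpen_Iio
    have : G p = U ∩ F := by
      rw [← hUe]; ext y; exact ⟨fun h => ⟨h.2, h.1⟩, fun h => ⟨h.2, h.1⟩⟩
    rw [this]
    exact hU.measurableSet.inter hFc.isClosed.measurableSet
  have hGdisj : (t : Set X).PairwiseDisjoint G := by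
    intro p hp q hq hpq
    show Disjoint (G p) (G q)
    rw [Set.disjoint_left]
    rintro y ⟨hyF, hyp⟩ ⟨-, hyq⟩
    obtain ⟨e, he, L, hL, hc⟩ := exists_chain_of_cd_lt (show f p y < ρ from hyp) (by linarith)
    obtain ⟨e', he', L', hL', hc'⟩ := exists_chain_of_cd_lt (show f q y < ρ from hyq) (by linarith)
    rw [mem_singleton_iff.1 he] at hc
    rw [mem_singleton_iff.1 he'] at hc'
    have h1 : f p q ≤ L + L' := cd_le_chain (mem_singleton p) (hc.trans hc'.symm)
    linarith [hfpq p hp q hq hpq]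
  have hGge : ∀ p ∈ t, ENNReal.ofReal ρ ≤ μH[1] (G p) := by
    intro p hp
    obtain ⟨q, hq, hqp⟩ := Finset.exists_mem_ne hcard p
    exact H1_ge_of_connected hF (f := f p) (r := ENNReal.ofReal (1 / (N + 1 : ℝ)))
      (by rw [ENNReal.ofReal_pos]; positivity) (fun x hx y hy hxy => cd_edist hx hy hxy)
      (ht hp) (ht hq) (cd_zero (by positivity) (mem_singleton p) (ht hp)).le
      (by linarith [hfpq p hp q hq hqp.symm])
  calc (t.card : ℝ≥0∞) * ENNReal.ofReal ρ = ∑ p ∈ t, ENNReal.ofReal ρ := by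
        rw [Finset.sum_const, nsmul_eq_mul]
    _ ≤ ∑ p ∈ t, μH[1] (G p) := Finset.sum_le_sum hGge
    _ = μH[1] (⋃ p ∈ t, G p) := (measure_biUnion_finset hGdisj fun p _ => hGm p).symm
    _ ≤ μH[1] F := measure_mono (iUnion₂_subset fun p _ => inter_subset_left)

theorem nat_le_of_mul_le {n : ℕ} {ρ : ℝ} (hρ : 0 < ρ) {B : ℝ≥0∞} (hB : B ≠ ∞)
    (h : (n : ℝ≥0∞) * ENNReal.ofReal ρ ≤ B) : n ≤ ⌊B.toReal / ρ⌋₊ := by
  refine Nat.le_floor ?_
  rw [le_div_iff₀ hρ]
  have h1 := ENNReal.toReal_mono hB h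
  rwa [ENNReal.toReal_mul, ENNReal.toReal_natCast, ENNReal.toReal_ofReal hρ.le] at h1

open Measure in
/-- Finite nets in continua of finite length. -/
theorem exists_net {F : Set X} (hF : IsPreconnected F) (hFc : IsCompact F) (hfin : μH[1] F ≠ ∞)
    {ρ : ℝ} (hρ : 0 < ρ) : ∃ t : Finset X, ↑t ⊆ F ∧
      (t.card : ℝ≥0∞) * ENNReal.ofReal ρ ≤ μH[1] F + ENNReal.ofReal ρ ∧
      ∀ y ∈ F, ∃ p ∈ t, dl F p y ≤ ENNReal.ofReal (2 * ρ) := by
  obtain ⟨t, h1, h2, h3⟩ := exists_max_sep (A := F)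
    (R := fun p q => ENNReal.ofReal (2 * ρ) < dl F p q)
    (fun a b h => by rwa [dl_comm])
    (N := ⌊(μH[1] F + ENNReal.ofReal ρ).toReal / ρ⌋₊)
    (fun t ht hs => nat_le_of_mul_le hρ (by finiteness) (sep_card hF hFc hρ t ht hs))
  refine ⟨t, h1, sep_card hF hFc hρ t h1 h2, fun y hy => ?_⟩
  obtain ⟨p, hp, h⟩ := h3 y hy
  refine ⟨p, hp, ?_⟩
  rcases h with h | h
  · rw [h, dl_self hy]; exact zero_le
  · exact not_lt.1 h

namespace Skel

variable (S : Skel X) [LocallyConnectedSpace X] [ConnectedSpace X]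

/-- Nearby points of the skeleton are in a common piece. -/
theorem exists_common_piece (x : X) : ∃ U ∈ 𝓝 x, ∀ y ∈ U, y ∈ S.E →
    ∃ F ∈ S.pieces, x ∈ F ∧ y ∈ F := by
  obtain ⟨U, hU, hfin⟩ := S.locfin x
  let P : Set (Set X) := {F ∈ S.pieces | (F ∩ U).Nonempty} ∩ {F | x ∉ F}
  have hP : P.Finite := hfin.inter_of_left _
  have hcl : IsClosed (⋃ F ∈ P, F) :=
    hP.isClosed_biUnion fun F hF => (S.piece_compact F hF.1.1).isClosed
  have hx : x ∉ ⋃ F ∈ P, F := by
    simp only [mem_iUnion, not_exists]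
    intro F hF hxF
    exact hF.2 hxF
  refine ⟨U ∩ (⋃ F ∈ P, F)ᶜ, inter_mem hU (hcl.isOpen_compl.mem_nhds hx), fun y hy hyE => ?_⟩
  rw [S.E_eq] at hyE
  obtain ⟨F, hF, hyF⟩ := hyE
  refine ⟨F, hF, ?_, hyF⟩
  by_contra hxF
  exact hy.2 (mem_iUnion₂.2 ⟨F, ⟨⟨hF, y, hyF, hy.1⟩, hxF⟩, hyF⟩)

theorem dl_piece_lt_top {F : Set X} (hF : F ∈ S.pieces) {a b : X} (ha : a ∈ F) (hb : b ∈ F) :
    dl univ a b < ∞ := by
  have h1 := dl_le_H1 (S.piece_conn F hF).isPreconnected (S.piece_compact F hF) Subset.rfl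
    (S.piece_compact F hF) ha hb
  exact ((dl_anti (subset_univ F) a b).trans h1).trans_lt (S.piece_fin F hF).lt_top

theorem dl_E_lt_top {a b : X} (ha : a ∈ S.E) (hb : b ∈ S.E) : dl univ a b < ∞ := by
  refine S.conn.isPreconnected.induction₂ (fun a b => dl univ a b < ∞) (fun x hx => ?_)
    (fun x y z _ _ _ h1 h2 => (dl_triangle _ _ _ _).trans_lt (ENNReal.add_lt_top.2 ⟨h1, h2⟩))
    (fun x y _ _ h => by rwa [dl_comm]) ha hb
  obtain ⟨U, hU, h⟩ := S.exists_common_piece x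
  filter_upwards [mem_nhdsWithin_of_mem_nhds hU, self_mem_nhdsWithin] with y hy hyE
  obtain ⟨F, hF, h1, h2⟩ := h y hy hyE
  exact S.dl_piece_lt_top hF h1 h2

theorem dl_lt_top {x y : X} (hx : S.v x ≠ ∞) (hy : S.v y ≠ ∞) : dl univ x y < ∞ := by
  have key : ∀ x, S.v x ≠ ∞ → ∃ e ∈ S.E, dl univ e x < ∞ := by
    intro x hx
    have h := hx.lt_top
    simp only [v, iInf_lt_iff] at h
    obtain ⟨e, he, h⟩ := h
    exact ⟨e, he, h⟩
  obtain ⟨e, he, h1⟩ := key x hx
  obtain ⟨e', he', h2⟩ := key y hy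
  have h3 := S.dl_E_lt_top he he'
  calc dl univ x y ≤ dl univ x e' + dl univ e' y := dl_triangle _ _ _ _
    _ ≤ (dl univ x e + dl univ e e') + dl univ e' y := by gcongr; exact dl_triangle _ _ _ _
    _ < ∞ := by
      rw [dl_comm univ x e]
      exact ENNReal.add_lt_top.2 ⟨ENNReal.add_lt_top.2 ⟨h1, h3⟩, h2⟩

theorem cost_lt_top {x y : X} (hx : S.v x ≠ ∞) (hy : S.v y ≠ ∞) : cost S.w x y < ∞ :=
  (cost_le_dl S.w_le_one univ x y).trans_lt (S.dl_lt_top hx hy)

/-- Finite nets for compact parts of the skeleton. -/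
theorem exists_net_E {K : Set X} (hK : IsCompact K) : ∃ C : ℝ, 0 ≤ C ∧ ∀ ρ : ℝ, 0 < ρ → ρ ≤ 1 →
    ∃ t : Finset X, ↑t ⊆ S.E ∧ (t.card : ℝ) * ρ ≤ C ∧
      ∀ y ∈ K, y ∈ S.E → ∃ p ∈ t, dl univ p y ≤ ENNReal.ofReal (2 * ρ) := by
  classical
  choose U hU hfin using S.locfin
  obtain ⟨s, -, hs⟩ := hK.elim_nhds_subcover U fun x _ => hU x
  have hPfin : (⋃ x ∈ s, {F ∈ S.pieces | (F ∩ U x).Nonempty}).Finite :=
    s.finite_toSet.biUnion fun x _ => hfin x
  set P := hPfin.toFinset with hP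
  have hPp : ∀ F ∈ P, F ∈ S.pieces := by
    intro F hF
    rw [hP, Finite.mem_toFinset] at hF
    obtain ⟨x, -, hx⟩ := mem_iUnion₂.1 hF
    exact hx.1
  refine ⟨∑ F ∈ P, ((μH[1] F).toReal + 1), Finset.sum_nonneg fun _ _ => by positivity,
    fun ρ hρ hρ1 => ?_⟩
  have hnet : ∀ F ∈ P, ∃ t : Finset X, ↑t ⊆ F ∧
      (t.card : ℝ≥0∞) * ENNReal.ofReal ρ ≤ μH[1] F + ENNReal.ofReal ρ ∧
      ∀ y ∈ F, ∃ p ∈ t, dl F p y ≤ ENNReal.ofReal (2 * ρ) := fun F hF =>
    exists_net (S.piece_conn F (hPp F hF)).isPreconnected (S.piece_compact F (hPp F hF))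
      (S.piece_fin F (hPp F hF)) hρ
  choose! t ht1 ht2 ht3 using hnet
  refine ⟨P.biUnion t, ?_, ?_, fun y hyK hyE => ?_⟩
  · intro y hy
    rw [Finset.mem_coe, Finset.mem_biUnion] at hy
    obtain ⟨F, hF, hyF⟩ := hy
    rw [S.E_eq]
    exact ⟨F, hPp F hF, ht1 F hF hyF⟩
  · have h1 : ((P.biUnion t).card : ℝ) ≤ ∑ F ∈ P, ((t F).card : ℝ) := by
      exact_mod_cast Finset.card_biUnion_le
    calc ((P.biUnion t).card : ℝ) * ρ ≤ (∑ F ∈ P, ((t F).card : ℝ)) * ρ := by gcongr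
      _ = ∑ F ∈ P, ((t F).card : ℝ) * ρ := by rw [Finset.sum_mul]
      _ ≤ _ := by
        refine Finset.sum_le_sum fun F hF => ?_
        have hfinF := S.piece_fin F (hPp F hF)
        have h2 := ENNReal.toReal_mono (by finiteness) (ht2 F hF)
        rw [ENNReal.toReal_mul, ENNReal.toReal_natCast, ENNReal.toReal_add hfinF (by finiteness),
          ENNReal.toReal_ofReal hρ.le] at h2
        linarith
  · obtain ⟨x, hx, hyU⟩ := mem_iUnion₂.1 (hs hyK)
    have hyE' := hyE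
    rw [S.E_eq] at hyE'
    obtain ⟨F, hF, hyF⟩ := hyE'
    have hFP : F ∈ P := by
      rw [hP, Finite.mem_toFinset]
      exact mem_iUnion₂.2 ⟨x, hx, hF, y, hyF, hyU⟩
    obtain ⟨p, hp, hpy⟩ := ht3 F hFP y hyF
    exact ⟨p, Finset.mem_biUnion.2 ⟨F, hFP, hp⟩, (dl_anti (subset_univ F) p y).trans hpy⟩

variable {S}

/-- Levels of the weighted depth. -/
theorem exists_psi {c : ℝ → X} {V r : ℝ} (hV : 0 ≤ V) (hr : 0 ≤ r)
    (h : ENNReal.ofReal r ≤ ∫⁻ τ in Icc 0 V, S.w (c τ)) :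
    ∃ a ∈ Icc 0 V, ∫⁻ τ in Icc a V, S.w (c τ) = ENNReal.ofReal r := by
  set F : ℝ → ℝ≥0∞ := fun a => ∫⁻ τ in Icc a V, S.w (c τ) with hF
  have hfin : ∀ a, F a ≠ ∞ := by
    intro a
    have h1 : F a ≤ ∫⁻ _ in Icc a V, 1 := lintegral_mono fun τ => S.w_le_one _
    refine (h1.trans_lt ?_).ne
    rw [setLIntegral_const, Real.volume_Icc]
    finiteness
  have hmono : ∀ a b, a ≤ b → F a ≤ F b + ENNReal.ofReal (b - a) := by
    intro a b hab
    have hsub : Icc a V ⊆ Icc b V ∪ Icc a b := by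
      intro x hx
      rcases le_total x b with h | h
      · exact Or.inr ⟨hx.1, h⟩
      · exact Or.inl ⟨h, hx.2⟩
    refine (lintegral_mono_set hsub).trans ((lintegral_union_le _ _ _).trans ?_)
    refine add_le_add le_rfl ?_
    calc ∫⁻ τ in Icc a b, S.w (c τ) ≤ ∫⁻ _ in Icc a b, 1 := lintegral_mono fun τ => S.w_le_one _
      _ = ENNReal.ofReal (b - a) := by simp
  have hanti : ∀ a b, a ≤ b → F b ≤ F a := fun a b hab =>
    lintegral_mono_set (Icc_subset_Icc hab le_rfl)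
  have hlip : LipschitzWith 1 fun a => (F a).toReal := by
    have key : ∀ a b, a ≤ b → |(F a).toReal - (F b).toReal| ≤ b - a := by
      intro a b hab
      have h1 := ENNReal.toReal_mono (by finiteness [hfin b]) (hmono a b hab)
      rw [ENNReal.toReal_add (hfin b) (by finiteness),
        ENNReal.toReal_ofReal (sub_nonneg.2 hab)] at h1
      have h2 := ENNReal.toReal_mono (hfin a) (hanti a b hab)
      rw [abs_of_nonneg (by linarith)]
      linarith
    refine LipschitzWith.of_dist_le_mul fun a b => ?_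
    simp only [NNReal.coe_one, one_mul, Real.dist_eq]
    rcases le_total a b with h | h
    · rw [abs_sub_comm a b, abs_of_nonneg (sub_nonneg.2 h)]; exact key a b h
    · rw [abs_of_nonneg (sub_nonneg.2 h), abs_sub_comm]; exact key b a h
  have hFV : (F V).toReal = 0 := by
    have : F V = 0 := by
      rw [hF]; dsimp only; rw [Icc_self]; simp
    rw [this]; simp
  have hF0 : r ≤ (F 0).toReal := by
    have := ENNReal.toReal_mono (hfin 0) h
    rwa [ENNReal.toReal_ofReal hr] at this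
  obtain ⟨a, ha, hae⟩ := intermediate_value_Icc' hV hlip.continuous.continuousOn
    (show r ∈ Icc (F V).toReal (F 0).toReal from ⟨by rw [hFV]; exact hr, hF0⟩)
  refine ⟨a, ha, ?_⟩
  have hae' : (F a).toReal = r := hae
  show F a = _
  rw [← hae', ENNReal.ofReal_toReal (hfin a)]

theorem cost_geod_le {z : X} {c : ℝ → X} (hc : S.Geod z c) {σ : ℝ} (h : σ ≤ (S.v z).toReal) :
    cost S.w (c σ) z ≤ ∫⁻ τ in Icc σ (S.v z).toReal, S.w (c τ) := by
  have := cost_le_of_curve (w := S.w) hc.lip h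
  rwa [hc.top] at this

/-- Points of the region are close to the end point of the geodesic. -/
theorem cost_region_le {z : X} {c : ℝ → X} (hc : S.Geod z c) {a ρ : ℝ} {r : ℝ≥0∞}
    (hr : ∫⁻ τ in Icc a (S.v z).toReal, S.w (c τ) ≤ r) {y : X}
    (hy : y ∈ S.region z c a (S.v z).toReal ρ) : cost S.w z y ≤ r + ENNReal.ofReal ρ := by
  obtain ⟨-, σ, hσ, hd⟩ := hy
  calc cost S.w z y ≤ cost S.w z (c σ) + cost S.w (c σ) y := cost_triangle _ _ _ _
    _ ≤ r + ENNReal.ofReal ρ := by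
      refine add_le_add ?_ ((cost_le_dl S.w_le_one _ _ _).trans hd)
      rw [cost_comm]
      exact (cost_geod_le hc hσ.2).trans ((lintegral_mono_set (Icc_subset_Icc hσ.1 le_rfl)).trans hr)

variable (S)

/-- Total boundedness of the reachable points of a compact set. -/
theorem totally_bounded {K : Set X} (hK : IsCompact K) {s : ℝ} (hs : 0 < s) :
    ∃ t : Finset X, (∀ p ∈ t, S.v p ≠ ∞) ∧
      ∀ z ∈ K, S.v z ≠ ∞ → ∃ p ∈ t, cost S.w p z ≤ ENNReal.ofReal s := by
  classical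
  obtain ⟨K', hK', hKK', hcells⟩ := S.cells K hK
  obtain ⟨C, hC, hnet⟩ := S.exists_net_E hK'
  obtain ⟨t₂, ht₂E, -, ht₂⟩ := hnet (min (s / 4) 1) (by positivity) (min_le_right _ _)
  -- points which are deep in the weighted sense
  set A : Set X := {z | z ∈ K ∧ ∃ R : Set X, IsClosed R ∧ R ⊆ K' ∧
    ENNReal.ofReal (s ^ 2 / 576) ≤ μH[2] R ∧ S.v z ≠ ∞ ∧
    ∀ y ∈ R, cost S.w z y ≤ ENNReal.ofReal (s / 2)} with hA
  have hfinK : μH[2] K' ≠ ∞ := (S.compact_lt_top hK').ne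
  obtain ⟨t₁, ht₁A, -, ht₁⟩ := exists_max_sep (A := A)
    (R := fun p q => ENNReal.ofReal s < cost S.w p q) (fun a b h => by rwa [cost_comm])
    (N := ⌊(μH[2] K').toReal / (s ^ 2 / 576)⌋₊) (fun t ht hsep => by
      refine nat_le_of_mul_le (by positivity) hfinK ?_
      have hR : ∀ z ∈ t, ∃ R : Set X, IsClosed R ∧ R ⊆ K' ∧
          ENNReal.ofReal (s ^ 2 / 576) ≤ μH[2] R ∧ S.v z ≠ ∞ ∧
          ∀ y ∈ R, cost S.w z y ≤ ENNReal.ofReal (s / 2) := fun z hz => (ht hz).2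
      choose! R hR1 hR2 hR3 hR4 hR5 using hR
      have hdisj : (t : Set X).PairwiseDisjoint R := by
        intro p hp q hq hpq
        show Disjoint (R p) (R q)
        rw [Set.disjoint_left]
        intro y hyp hyq
        refine absurd (hsep p hp q hq hpq) (not_lt.2 ?_)
        calc cost S.w p q ≤ cost S.w p y + cost S.w y q := cost_triangle _ _ _ _
          _ ≤ ENNReal.ofReal (s / 2) + ENNReal.ofReal (s / 2) := by
            refine add_le_add (hR5 p hp y hyp) ?_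
            rw [cost_comm]; exact hR5 q hq y hyq
          _ = ENNReal.ofReal s := by
            rw [← ENNReal.ofReal_add (by positivity) (by positivity)]; congr 1; ring
      calc (t.card : ℝ≥0∞) * ENNReal.ofReal (s ^ 2 / 576)
          = ∑ p ∈ t, ENNReal.ofReal (s ^ 2 / 576) := by rw [Finset.sum_const, nsmul_eq_mul]
        _ ≤ ∑ p ∈ t, μH[2] (R p) := Finset.sum_le_sum hR3
        _ = μH[2] (⋃ p ∈ t, R p) :=
            (measure_biUnion_finset hdisj fun p hp => (hR1 p hp).measurableSet).symm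
        _ ≤ μH[2] K' := measure_mono (iUnion₂_subset fun p hp => hR2 p hp))
  refine ⟨t₁ ∪ t₂, fun p hp => ?_, fun z hzK hv => ?_⟩
  · rcases Finset.mem_union.1 hp with h | h
    · obtain ⟨-, R, -, -, -, hv, -⟩ := ht₁A h
      exact hv
    · rw [S.v_zero (ht₂E h)]; exact ENNReal.zero_ne_top
  · -- nearby points of the skeleton suffice
    have hE : (∃ e ∈ S.E, e ∈ K' ∧ cost S.w e z ≤ ENNReal.ofReal (s / 4)) →
        ∃ p ∈ t₁ ∪ t₂, cost S.w p z ≤ ENNReal.ofReal s := by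
      rintro ⟨e, he, heK, hce⟩
      obtain ⟨p, hp, hpe⟩ := ht₂ e heK he
      refine ⟨p, Finset.mem_union_right _ hp, ?_⟩
      calc cost S.w p z ≤ cost S.w p e + cost S.w e z := cost_triangle _ _ _ _
        _ ≤ ENNReal.ofReal (2 * min (s / 4) 1) + ENNReal.ofReal (s / 4) :=
            add_le_add ((cost_le_dl S.w_le_one _ _ _).trans hpe) hce
        _ = ENNReal.ofReal (2 * min (s / 4) 1 + s / 4) :=
            (ENNReal.ofReal_add (by positivity) (by positivity)).symm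
        _ ≤ ENNReal.ofReal s := by
            refine ENNReal.ofReal_le_ofReal ?_
            have : min (s / 4) 1 ≤ s / 4 := min_le_left _ _
            linarith
    by_cases hzE : z ∈ S.E
    · exact hE ⟨z, hzE, hKK' hzK, by rw [cost_self]; exact zero_le⟩
    obtain ⟨c, hc⟩ := S.exists_Geod hzE hv
    have hcc : S.cc z ⊆ K' := hcells z hzK hzE
    have hV0 : (0 : ℝ) ≤ (S.v z).toReal := ENNReal.toReal_nonneg
    rcases le_or_gt (ENNReal.ofReal (s / 4)) (∫⁻ τ in Icc 0 (S.v z).toReal, S.w (c τ)) with h | h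
    · obtain ⟨a, ha, hae⟩ := exists_psi (S := S) hV0 (by positivity) h
      have hzA : z ∈ A := by
        refine ⟨hzK, S.region z c a (S.v z).toReal (s / 4),
          S.region_closed hzE hc.lip.continuous (by positivity), S.region_sub.trans hcc,
          S.area_ge hzE hc ha.1 hs hae.ge, hv, fun y hy => ?_⟩
        refine (cost_region_le hc hae.le hy).trans (le_of_eq ?_)
        rw [← ENNReal.ofReal_add (by positivity) (by positivity)]
        congr 1; ring
      obtain ⟨p, hp, hpz⟩ := ht₁ z hzA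
      refine ⟨p, Finset.mem_union_left _ hp, ?_⟩
      rcases hpz with h1 | h1
      · rw [h1, cost_self]; exact zero_le
      · exact not_lt.1 h1
    · refine hE ⟨c 0, hc.zero, hcc (hc.inK 0), ?_⟩
      exact (cost_geod_le hc hV0).trans h.le

end Skel

end Pool.Agent.QCS
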