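import Mathlib

/-!
# Unicoherence of simply connected spaces
-/

open Set Topology Filter Complex
open scoped Real

namespace Pool.Agent.QCS

/-- A real function on a preconnected set whose values are integer multiples of `2π` is constant. -/
theorem const_of_exp_eq_one {Z : Type*} [TopologicalSpace Z] {A : Set Z} (hA : IsPreconnected A)
    {h : Z → ℝ} (hc : ContinuousOn h A) (h1 : ∀ x ∈ A, Complex.exp (h x * I) = 1) {p q : Z}
    (hp : p ∈ A) (hq : q ∈ A) : h p = h q := by
  have hint : ∀ x ∈ A, ∃ n : ℤ, h x = n * (2 * π) := by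
    intro x hx
    obtain ⟨n, hn⟩ := Complex.exp_eq_one_iff.1 (h1 x hx)
    refine ⟨n, ?_⟩
    have h2 : (h x : ℂ) * I = ((n * (2 * π) : ℝ) : ℂ) * I := by
      rw [hn]; push_cast; ring
    exact_mod_cast mul_right_cancel₀ Complex.I_ne_zero h2
  have key : ∀ p ∈ A, ∀ q ∈ A, ¬ h p < h q := by
    intro p hp q hq hlt
    obtain ⟨m, hm⟩ := hint p hp
    obtain ⟨n, hn⟩ := hint q hq
    have hmn : m < n := by
      have : (m : ℝ) * (2 * π) < n * (2 * π) := by rw [← hm, ← hn]; exact hlt
      exact_mod_cast lt_of_mul_lt_mul_right this (by positivity)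
    have hmn' : (m : ℝ) + 1 ≤ n := by exact_mod_cast hmn
    obtain ⟨z, hz, hz2⟩ := hA.intermediate_value hp hq hc
      (show (m : ℝ) * (2 * π) + π ∈ Icc (h p) (h q) by
        constructor
        · rw [hm]; linarith [Real.pi_pos]
        · rw [hn]; nlinarith [Real.pi_pos])
    obtain ⟨k, hk⟩ := hint z hz
    have h3 : ((2 * k - 2 * m - 1 : ℤ) : ℝ) * π = 0 := by
      push_cast
      nlinarith [hk, hz2]
    have h4 : (2 * k - 2 * m - 1 : ℤ) = 0 := by
      have := (mul_eq_zero.1 h3).resolve_right Real.pi_pos.ne'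
      exact_mod_cast this
    omega
  exact le_antisymm (not_lt.1 (key q hq p hp)) (not_lt.1 (key p hp q hq))

/-- Unicoherence: in a simply connected locally path connected normal space the frontier of a
connected set with connected complement is connected. -/
theorem isPreconnected_frontier {Z : Type*} [TopologicalSpace Z] [NormalSpace Z]
    [SimplyConnectedSpace Z] [LocallyPathConnectedSpace Z] {A : Set Z} (hA : IsPreconnected A)
    (hA' : IsPreconnected Aᶜ) : IsPreconnected (frontier A) := by
  classical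
  rw [isPreconnected_closed_iff]
  intro t t' ht ht' hcov hne hne'
  by_contra hcon
  rw [not_nonempty_iff_eq_empty] at hcon
  obtain ⟨u, hu0, hu1, -⟩ := exists_continuous_zero_one_of_isClosed
    (isClosed_frontier.inter ht : IsClosed (frontier A ∩ t))
    (isClosed_frontier.inter ht' : IsClosed (frontier A ∩ t')) (by
      rw [disjoint_iff_inter_eq_empty, ← hcon]
      ext x; constructor
      · rintro ⟨⟨h1, h2⟩, -, h3⟩; exact ⟨h1, h2, h3⟩
      · rintro ⟨h1, h2, h3⟩; exact ⟨⟨h1, h2⟩, h1, h3⟩)
  set g₁ : Z → ℂ := fun x => Complex.exp ((π * u x : ℝ) * I) with hg₁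
  set g₂ : Z → ℂ := fun x => Complex.exp ((-(π * u x) : ℝ) * I) with hg₂
  have hg₁c : Continuous g₁ := by
    rw [hg₁]
    exact Complex.continuous_exp.comp
      ((Complex.continuous_ofReal.comp (u.continuous.const_mul π)).mul_const I)
  have hg₂c : Continuous g₂ := by
    rw [hg₂]
    exact Complex.continuous_exp.comp
      ((Complex.continuous_ofReal.comp ((u.continuous.const_mul π).neg)).mul_const I)
  have heq : ∀ x ∈ frontier A, g₁ x = g₂ x := by
    intro x hx
    rcases hcov hx with h | h
    · have : u x = 0 := hu0 ⟨hx, h⟩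
      simp [hg₁, hg₂, this]
    · have : u x = 1 := hu1 ⟨hx, h⟩
      simp only [hg₁, hg₂, this, mul_one]
      rw [Complex.exp_pi_mul_I]
      push_cast
      rw [neg_mul, Complex.exp_neg, Complex.exp_pi_mul_I]
      norm_num
  set g : Z → ℂ := fun x => if x ∈ A then g₁ x else g₂ x with hg
  have hgc : Continuous g := by
    rw [hg]
    refine continuous_if (p := fun x => x ∈ A) ?_ hg₁c.continuousOn hg₂c.continuousOn
    exact heq
  have hg0 : ∀ x, g x ≠ 0 := by
    intro x
    rw [hg]; dsimp only
    split_ifs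
    · exact Complex.exp_ne_zero _
    · exact Complex.exp_ne_zero _
  obtain ⟨a₀, ha₀⟩ := id hne
  obtain ⟨L, ⟨-, hL⟩, -⟩ := Complex.isCoveringMapOn_exp.existsUnique_continuousMap_lifts
    (⟨g, hgc⟩ : C(Z, ℂ)) (a₀ := a₀) (Complex.exp_log (hg0 a₀)) (fun x => hg0 x)
  have hLc : Continuous L := L.continuous
  have hL' : ∀ x, Complex.exp (L x) = g x := fun x => congrFun hL x
  have him : ∀ x, Complex.exp ((L x).im * I) = g x := by
    intro x
    have hnorm : ‖g x‖ = 1 := by
      rw [hg]; dsimp only
      split_ifs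
      · exact Complex.norm_exp_ofReal_mul_I _
      · exact Complex.norm_exp_ofReal_mul_I _
    have hre : (L x).re = 0 := by
      have h1 := Complex.norm_exp (L x)
      rw [hL', hnorm] at h1
      exact (Real.exp_eq_one_iff _).1 h1.symm
    rw [← hL' x]
    congr 1
    conv_rhs => rw [← Complex.re_add_im (L x), hre]
    simp
  have hg₁' : ∀ x ∈ closure A, g x = g₁ x := by
    intro x hx
    by_cases h : x ∈ A
    · rw [hg]; dsimp only; rw [if_pos h]
    · have h2 : x ∈ frontier A := ⟨hx, fun h' => h (interior_subset h')⟩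
      rw [hg]; dsimp only; rw [if_neg h]
      exact (heq x h2).symm
  have hg₂' : ∀ x ∈ closure Aᶜ, g x = g₂ x := by
    intro x hx
    by_cases h : x ∈ A
    · have h2 : x ∈ frontier A := by
        rw [frontier_eq_closure_inter_closure]; exact ⟨subset_closure h, hx⟩
      rw [hg]; dsimp only; rw [if_pos h]
      exact heq x h2
    · rw [hg]; dsimp only; rw [if_neg h]
  obtain ⟨p, hp, hpt⟩ := hne
  obtain ⟨q, hq, hqt⟩ := hne'
  have hup : u p = 0 := hu0 ⟨hp, hpt⟩
  have huq : u q = 1 := hu1 ⟨hq, hqt⟩
  rw [frontier_eq_closure_inter_closure] at hp hq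
  have hLi : Continuous fun x => (L x).im := Complex.continuous_im.comp hLc
  have k1 := const_of_exp_eq_one hA.closure (h := fun x => (L x).im - π * u x)
    (hLi.sub (u.continuous.const_mul π)).continuousOn (fun x hx => by
      have e1 : ((((L x).im - π * u x : ℝ) : ℂ) * I) = (L x).im * I - (π * u x : ℝ) * I := by
        push_cast; ring
      rw [e1, Complex.exp_sub, him, hg₁' x hx]
      exact div_self (Complex.exp_ne_zero _)) hp.1 hq.1
  have k2 := const_of_exp_eq_one hA'.closure (h := fun x => (L x).im + π * u x)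
    (hLi.add (u.continuous.const_mul π)).continuousOn (fun x hx => by
      have e1 : ((((L x).im + π * u x : ℝ) : ℂ) * I) = (L x).im * I - (-(π * u x) : ℝ) * I := by
        push_cast; ring
      rw [e1, Complex.exp_sub, him, hg₂' x hx]
      exact div_self (Complex.exp_ne_zero _)) hp.2 hq.2
  simp only [hup, huq] at k1 k2
  linarith [Real.pi_pos]

end Pool.Agent.QCS
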