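import Pool.Agent.Lib.MP_811d89_an.Neck

/-!
# The weight and the shortcut lemma
-/

open MeasureTheory Set Metric Topology Filter
open scoped ENNReal NNReal

namespace Pool.Agent.QCS

set_option linter.unusedSectionVars false

variable {X : Type*} [MetricSpace X] [MeasurableSpace X] [BorelSpace X]

namespace Skel

variable (S : Skel X) [LocallyConnectedSpace X] [ConnectedSpace X]

/-- `z` is `κ`-deep: it lies in a hair whose neck is smaller than `κ` times the depth of `z`. -/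
def deep (κ : ℝ≥0) (z : X) : Prop :=
  ∃ t : ℝ, 0 ≤ t ∧ ENNReal.ofReal t < S.v z ∧ S.Lh t z < κ * (S.v z - ENNReal.ofReal t)

/-- The weight. -/
noncomputable def w (z : X) : ℝ≥0∞ := min 1 (⨅ (κ : ℝ≥0) (_ : S.deep κ z), 16 * (κ : ℝ≥0∞) ^ 2)

theorem deep_mono {κ κ' : ℝ≥0} (h : κ ≤ κ') {z : X} (hd : S.deep κ z) : S.deep κ' z := by
  obtain ⟨t, h0, ht, hL⟩ := hd
  exact ⟨t, h0, ht, hL.trans_le (by gcongr)⟩

theorem w_le_one (z : X) : S.w z ≤ 1 := min_le_left _ _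

theorem w_le_of_deep {κ : ℝ≥0} {z : X} (h : S.deep κ z) : S.w z ≤ 16 * (κ : ℝ≥0∞) ^ 2 :=
  (min_le_right _ _).trans (iInf₂_le κ h)

theorem le_w_of_not_deep {κ : ℝ≥0} {z : X} (h : ¬ S.deep κ z) :
    min 1 (16 * (κ : ℝ≥0∞) ^ 2) ≤ S.w z := by
  refine min_le_min le_rfl (le_iInf₂ fun κ' h' => ?_)
  have : κ ≤ κ' := by
    by_contra hcon
    push Not at hcon
    exact h (S.deep_mono hcon.le h')
  gcongr

theorem not_deep_zero (z : X) : ¬ S.deep 0 z := by
  rintro ⟨t, -, -, h⟩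
  simp at h

theorem isOpen_deep (κ : ℝ≥0) : IsOpen {z | S.deep κ z} := by
  rw [isOpen_iff_mem_nhds]
  intro z hz
  obtain ⟨t, h0, ht, hL⟩ := hz
  have h1 : LowerSemicontinuous fun y => (κ : ℝ≥0∞) * (S.v y - ENNReal.ofReal t) := by
    have hc : Continuous fun x : ℝ≥0∞ => (κ : ℝ≥0∞) * (x - ENNReal.ofReal t) :=
      (ENNReal.continuous_const_mul ENNReal.coe_ne_top).comp
        (ENNReal.continuous_sub_right _)
    exact hc.comp_lowerSemicontinuous S.v_lsc fun a b hab => by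
      dsimp only; gcongr
  have h2 : IsOpen {y | S.Lh t z < (κ : ℝ≥0∞) * (S.v y - ENNReal.ofReal t)} :=
    h1.isOpen_preimage (S.Lh t z)
  filter_upwards [(S.isOpen_hair t z).mem_nhds (S.mem_hair ht), h2.mem_nhds hL] with y hy1 hy2
  refine ⟨t, h0, S.v_gt_of_hair hy1, ?_⟩
  rw [S.Lh_eq hy1]
  exact hy2

theorem isOpen_w_lt (r : ℝ≥0∞) : IsOpen {z | S.w z < r} := by
  by_cases h1 : 1 < r
  · have hu : {z | S.w z < r} = univ := eq_univ_of_forall fun z => (S.w_le_one z).trans_lt h1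
    rw [hu]
    exact isOpen_univ
  · have : {z | S.w z < r} = ⋃ (κ : ℝ≥0) (_ : 16 * (κ : ℝ≥0∞) ^ 2 < r), {z | S.deep κ z} := by
      ext z
      simp only [mem_iUnion]
      constructor
      · intro h
        have h2 : S.w z < r := h
        rw [w, min_lt_iff] at h2
        rcases h2 with h2 | h2
        · exact absurd h2 h1
        · simp only [iInf_lt_iff] at h2
          obtain ⟨κ, hκ, hlt⟩ := h2
          exact ⟨κ, hlt, hκ⟩
      · rintro ⟨κ, hlt, hκ⟩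
        exact (S.w_le_of_deep hκ).trans_lt hlt
    rw [this]
    exact isOpen_iUnion fun κ => isOpen_iUnion fun _ => S.isOpen_deep κ

theorem measurable_w : Measurable S.w := measurable_of_Iio fun r => (S.isOpen_w_lt r).measurableSet

/-- Points at infinite length distance from the skeleton are deep. -/
theorem deep_of_v_top {κ : ℝ≥0} (hκ : 0 < κ) {z : X} (h : S.v z = ∞) : S.deep κ z := by
  have hz : z ∉ S.E := fun hE => by rw [S.v_zero hE] at h; exact ENNReal.zero_ne_top h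
  obtain ⟨g, hg, hle, hint⟩ := S.neck_coarea hz (a := 0) (b := 1) le_rfl (by rw [h]; exact le_top)
  have hfin : μH[2] (S.hair 0 z) < ∞ :=
    (measure_mono ((S.hair_sub_cell 0 z).trans (S.cell_sub_cc z))).trans_lt
      (S.compact_lt_top (S.cc_compact z hz))
  have hex : ∃ t ∈ Ioo (0 : ℝ) 1, g t < ∞ := by
    by_contra hcon
    push Not at hcon
    have h1 : ∫⁻ t in Ioo (0 : ℝ) 1, g t = ∞ := by
      rw [setLIntegral_congr_fun measurableSet_Ioo (fun t ht => top_le_iff.1 (hcon t ht)),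
        setLIntegral_const, Real.volume_Ioo, ENNReal.top_mul]
      simp
    exact hfin.ne (top_le_iff.1 (h1 ▸ (setLIntegral_le_lintegral _ _).trans hint))
  obtain ⟨t, ht, hgt⟩ := hex
  refine ⟨t, ht.1.le, by rw [h]; exact ENNReal.ofReal_lt_top, ?_⟩
  rw [h, ENNReal.top_sub ENNReal.ofReal_ne_top, ENNReal.mul_top (by exact_mod_cast hκ.ne')]
  exact (hle t ht).trans_lt hgt

theorem v_ne_top_of_not_deep {κ : ℝ≥0} (hκ : 0 < κ) {z : X} (h : ¬ S.deep κ z) : S.v z ≠ ∞ :=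
  fun hv => h (S.deep_of_v_top hκ hv)

/-! ### The shortcut lemma -/

/-- The deep part of a hair, with explicit threshold. -/
def D (k : ℝ) (p : X × ℝ) : Set X :=
  {y | y ∈ S.hair p.2 p.1 ∧ ENNReal.ofReal (p.2 + 4 * (S.Lh p.2 p.1).toReal / k) < S.v y}

/-- Valid pairs. -/
def Valid (p : X × ℝ) : Prop := 0 ≤ p.2 ∧ ENNReal.ofReal p.2 < S.v p.1 ∧ S.Lh p.2 p.1 ≠ ∞

/-- The complement of a finite union of deep parts. -/
def P (k : ℝ) (s : Finset (X × ℝ)) : Set X := {y | ∀ p ∈ s, y ∉ S.D k p}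

theorem isOpen_D (k : ℝ) (p : X × ℝ) : IsOpen (S.D k p) :=
  (S.isOpen_hair p.2 p.1).inter (S.isOpen_vgt _)

theorem isClosed_P (k : ℝ) (s : Finset (X × ℝ)) : IsClosed (S.P k s) := by
  have : S.P k s = ⋂ p ∈ s, (S.D k p)ᶜ := by
    ext y; simp [P]
  rw [this]
  exact isClosed_biInter fun p _ => (S.isOpen_D k p).isClosed_compl

/-- Non-deep points of a hair are shallow. -/
theorem v_le_of_not_deep {κ : ℝ≥0} (hκ : 0 < κ) {p : X × ℝ} (hp : S.Valid p) {x : X}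
    (hx : ¬ S.deep κ x) (hxp : x ∈ S.hair p.2 p.1) :
    S.v x ≤ ENNReal.ofReal (p.2 + (S.Lh p.2 p.1).toReal / κ) := by
  have hv := S.v_gt_of_hair hxp
  have h1 : (κ : ℝ≥0∞) * (S.v x - ENNReal.ofReal p.2) ≤ S.Lh p.2 x := by
    by_contra hcon
    push Not at hcon
    exact hx ⟨p.2, hp.1, hv, hcon⟩
  rw [S.Lh_eq hxp] at h1
  have hκ' : (κ : ℝ≥0∞) ≠ 0 := by exact_mod_cast hκ.ne'
  have h2 : S.v x - ENNReal.ofReal p.2 ≤ S.Lh p.2 p.1 / κ := by
    rw [ENNReal.le_div_iff_mul_le (Or.inl hκ') (Or.inl ENNReal.coe_ne_top), mul_comm]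
    exact h1
  have h3 : S.Lh p.2 p.1 / κ = ENNReal.ofReal ((S.Lh p.2 p.1).toReal / κ) := by
    rw [ENNReal.ofReal_div_of_pos (by exact_mod_cast hκ), ENNReal.ofReal_toReal hp.2.2,
      ENNReal.ofReal_coe_nnreal]
  rw [ENNReal.ofReal_add hp.1 (by positivity), ← h3]
  calc S.v x ≤ (S.v x - ENNReal.ofReal p.2) + ENNReal.ofReal p.2 := le_tsub_add
    _ ≤ S.Lh p.2 p.1 / κ + ENNReal.ofReal p.2 := by gcongr
    _ = _ := add_comm _ _

/-- The left half of the shortcut lemma. -/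
theorem left_half {κ : ℝ≥0} (hκ : 0 < κ) {p : X × ℝ} (hp : S.Valid p) {s' : Finset (X × ℝ)}
    (hs' : S.hair p.2 p.1 ∩ (S.D κ p)ᶜ ⊆ S.P κ s') {x : X} (hx : ¬ S.deep κ x) {c : ℝ → X}
    (hc : LipschitzWith 1 c) (hc0 : c 0 = x) {M : ℝ} (hM : 0 ≤ M)
    (h1 : ∀ r ∈ Ico 0 M, c r ∉ S.D κ p) (h2 : ∀ ε > 0, ∃ r ∈ Ico M (M + ε), c r ∈ S.D κ p) :
    ∃ q ∈ frontier (S.hair p.2 p.1),
      cost ((S.P κ s').indicator fun _ => 1) x q + 2 * (S.Lh p.2 p.1 / κ) ≤
        ∫⁻ r in Icc 0 M, (S.P κ s' ∩ (S.D κ p)ᶜ).indicator (fun _ => 1) (c r) := by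
  set W := S.hair p.2 p.1 with hW
  set ℓ := (S.Lh p.2 p.1).toReal with hℓ
  have hℓ0 : 0 ≤ ℓ := ENNReal.toReal_nonneg
  have hκr : (0 : ℝ) < κ := by exact_mod_cast hκ
  have hdiv : S.Lh p.2 p.1 / κ = ENNReal.ofReal (ℓ / κ) := by
    rw [ENNReal.ofReal_div_of_pos hκr, ENNReal.ofReal_toReal hp.2.2, ENNReal.ofReal_coe_nnreal]
  have htwo : 2 * (S.Lh p.2 p.1 / κ) = ENNReal.ofReal (2 * (ℓ / κ)) := by
    rw [hdiv, ENNReal.ofReal_mul (by norm_num)]; simp
  have hq : 0 ≤ ℓ / κ := by positivity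
  have hfour : 4 * ℓ / κ = 4 * (ℓ / κ) := by ring
  -- the value of `v` at time `M`
  have hvM : ENNReal.ofReal (p.2 + 4 * (ℓ / κ)) ≤ S.v (c M) := by
    refine ENNReal.le_of_forall_pos_le_add fun ε hε _ => ?_
    obtain ⟨r, hr, hrD⟩ := h2 ε (by exact_mod_cast hε)
    have h3 := hrD.2
    rw [← hℓ, hfour] at h3
    have h4 := S.v_lip hc M r
    rw [abs_sub_comm, abs_of_nonneg (sub_nonneg.2 hr.1)] at h4
    refine h3.le.trans (h4.trans ?_)
    gcongr
    rw [← ENNReal.ofReal_coe_nnreal]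
    exact ENNReal.ofReal_le_ofReal (by linarith [hr.2])
  have hMcl : c M ∈ closure W := by
    rw [mem_closure_iff_nhds]
    intro U hU
    have h3 : c ⁻¹' U ∈ 𝓝 M := hc.continuous.continuousAt hU
    obtain ⟨ε, hε, hεU⟩ := Metric.mem_nhds_iff.1 h3
    obtain ⟨r, hr, hrD⟩ := h2 ε hε
    refine ⟨c r, hεU ?_, hrD.1⟩
    rw [mem_ball, Real.dist_eq, abs_of_nonneg (sub_nonneg.2 hr.1)]; linarith [hr.2]
  let A : Set ℝ := Icc 0 M ∩ c ⁻¹' Wᶜ
  have hAc : IsCompact A :=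
    isCompact_Icc.inter_right ((S.isOpen_hair _ _).isClosed_compl.preimage hc.continuous)
  rcases A.eq_empty_or_nonempty with hA | hA
  · -- the curve stays in the hair
    have hin : ∀ r ∈ Icc 0 M, c r ∈ W := by
      intro r hr
      by_contra hcon
      exact (hA ▸ (⟨hr, hcon⟩ : r ∈ A) : r ∈ (∅ : Set ℝ))
    have hxW : x ∈ W := hc0 ▸ hin 0 ⟨le_rfl, hM⟩
    have hvx := S.v_le_of_not_deep hκ hp hx hxW
    rw [← hℓ] at hvx
    have hvx_top : S.v x ≠ ∞ := (hvx.trans_lt ENNReal.ofReal_lt_top).ne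
    have hxt := S.v_gt_of_hair hxW
    have hxE := S.notMem_E hxt
    obtain ⟨g, hg, hgK, hg0, hgV, hgv⟩ := S.exists_geod hxE hvx_top
    have htV : p.2 < (S.v x).toReal := by
      rw [← ENNReal.toReal_ofReal hp.1]
      exact (ENNReal.toReal_lt_toReal ENNReal.ofReal_ne_top hvx_top).2 hxt
    have hVle : (S.v x).toReal ≤ p.2 + ℓ / κ := by
      rw [← ENNReal.toReal_ofReal (add_nonneg hp.1 hq)]
      exact ENNReal.toReal_mono ENNReal.ofReal_ne_top hvx
    have hfr : g p.2 ∈ frontier W := by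
      have := S.geod_mem_frontier hg hgV hgv hp.1 htV
      rwa [S.hair_eq hxW] at this
    refine ⟨g p.2, hfr, ?_⟩
    have hMge : 3 * (ℓ / κ) ≤ M := by
      have h3 := S.v_lip hc 0 M
      rw [hc0, zero_sub, abs_neg, abs_of_nonneg hM] at h3
      have h4 : ENNReal.ofReal (p.2 + 4 * (ℓ / κ)) ≤ ENNReal.ofReal (p.2 + ℓ / κ + M) := by
        rw [ENNReal.ofReal_add (add_nonneg hp.1 hq) hM]
        exact hvM.trans (h3.trans (by gcongr))
      have h5 := (ENNReal.ofReal_le_ofReal_iff (by linarith [hp.1])).1 h4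
      linarith
    have hcost : cost ((S.P κ s').indicator fun _ => 1) x (g p.2) ≤ ENNReal.ofReal (ℓ / κ) := by
      have h3 : LC univ (g p.2) (g (S.v x).toReal) ((S.v x).toReal - p.2) :=
        LC_univ hg htV.le
      rw [hgV] at h3
      have h4 := h3.symm.cost_le (w := (S.P κ s').indicator fun _ => 1) (M := 1)
        fun y _ => indicator_le_self' (f := fun _ => (1 : ℝ≥0∞)) (fun _ _ => zero_le) y
      rw [one_mul] at h4
      exact h4.trans (ENNReal.ofReal_le_ofReal (by linarith))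
    have hint : ENNReal.ofReal M ≤
        ∫⁻ r in Icc 0 M, (S.P κ s' ∩ (S.D κ p)ᶜ).indicator (fun _ => 1) (c r) := by
      calc ENNReal.ofReal M = ∫⁻ _ in Ico 0 M, (1 : ℝ≥0∞) := by simp
        _ = ∫⁻ r in Ico 0 M, (S.P κ s' ∩ (S.D κ p)ᶜ).indicator (fun _ => 1) (c r) := by
          refine setLIntegral_congr_fun measurableSet_Ico fun r hr => ?_
          have hr1 := h1 r hr
          have hmem : c r ∈ S.P κ s' ∩ (S.D κ p)ᶜ := ⟨hs' ⟨hin r ⟨hr.1, hr.2.le⟩, hr1⟩, hr1⟩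
          rw [indicator_of_mem hmem]
        _ ≤ _ := lintegral_mono_set Ico_subset_Icc_self
    refine le_trans (add_le_add hcost le_rfl) (le_trans ?_ hint)
    rw [htwo, ← ENNReal.ofReal_add hq (by positivity)]
    exact ENNReal.ofReal_le_ofReal (by linarith)
  · obtain ⟨a, ha, hmax⟩ := hAc.exists_isGreatest hA
    have ha0 : 0 ≤ a := ha.1.1
    have haM : a ≤ M := ha.1.2
    have hin : ∀ r ∈ Ioc a M, c r ∈ W := by
      intro r hr
      by_contra hcon
      exact absurd (hmax ⟨⟨ha0.trans hr.1.le, hr.2⟩, hcon⟩) (not_le.2 hr.1)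
    have hcl : c a ∈ closure W := by
      rcases haM.eq_or_lt with h | h
      · rw [h]; exact hMcl
      · have h3 : c '' Ioc a M ⊆ W := by rintro _ ⟨r, hr, rfl⟩; exact hin r hr
        refine closure_mono h3 (image_closure_subset_closure_image hc.continuous ⟨a, ?_, rfl⟩)
        rw [closure_Ioc h.ne]; exact ⟨le_rfl, h.le⟩
    have hfr : c a ∈ frontier W := ⟨hcl, fun h => ha.2 (interior_subset h)⟩
    refine ⟨c a, hfr, ?_⟩
    have hva := S.v_le_of_frontier hfr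
    have hMa : 4 * (ℓ / κ) ≤ M - a := by
      have h3 := S.v_lip hc a M
      rw [abs_sub_comm, abs_of_nonneg (sub_nonneg.2 haM)] at h3
      have h4 : ENNReal.ofReal (p.2 + 4 * (ℓ / κ)) ≤ ENNReal.ofReal (p.2 + (M - a)) := by
        rw [ENNReal.ofReal_add hp.1 (sub_nonneg.2 haM)]
        exact hvM.trans (h3.trans (by gcongr))
      have h5 := (ENNReal.ofReal_le_ofReal_iff (by linarith [hp.1, sub_nonneg.2 haM])).1 h4
      linarith
    have hcost : cost ((S.P κ s').indicator fun _ => 1) x (c a) ≤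
        ∫⁻ r in Ico 0 a, (S.P κ s' ∩ (S.D κ p)ᶜ).indicator (fun _ => 1) (c r) := by
      have h3 := cost_le_of_curve (w := (S.P κ s').indicator fun _ => 1) hc ha0
      rw [hc0, ← restrict_Ico_eq_restrict_Icc] at h3
      refine h3.trans (le_of_eq (setLIntegral_congr_fun measurableSet_Ico fun r hr => ?_))
      have hr1 := h1 r ⟨hr.1, hr.2.trans_le haM⟩
      by_cases hP : c r ∈ S.P κ s'
      · have hmem : c r ∈ S.P κ s' ∩ (S.D κ p)ᶜ := ⟨hP, hr1⟩
        rw [indicator_of_mem hP, indicator_of_mem hmem]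
      · have hmem : c r ∉ S.P κ s' ∩ (S.D κ p)ᶜ := fun h => hP h.1
        rw [indicator_of_notMem hP, indicator_of_notMem hmem]
    have hint : ENNReal.ofReal (M - a) ≤
        ∫⁻ r in Ico a M, (S.P κ s' ∩ (S.D κ p)ᶜ).indicator (fun _ => 1) (c r) := by
      calc ENNReal.ofReal (M - a) = ∫⁻ _ in Ioo a M, (1 : ℝ≥0∞) := by simp
        _ = ∫⁻ r in Ioo a M, (S.P κ s' ∩ (S.D κ p)ᶜ).indicator (fun _ => 1) (c r) := by
          refine setLIntegral_congr_fun measurableSet_Ioo fun r hr => ?_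
          have hr1 := h1 r ⟨ha0.trans hr.1.le, hr.2⟩
          have hmem : c r ∈ S.P κ s' ∩ (S.D κ p)ᶜ := ⟨hs' ⟨hin r ⟨hr.1, hr.2.le⟩, hr1⟩, hr1⟩
          rw [indicator_of_mem hmem]
        _ ≤ _ := lintegral_mono_set Ioo_subset_Ico_self
    calc cost ((S.P κ s').indicator fun _ => 1) x (c a) + 2 * (S.Lh p.2 p.1 / κ)
        ≤ cost ((S.P κ s').indicator fun _ => 1) x (c a) + ENNReal.ofReal (M - a) := by
          rw [htwo]; gcongr; linarith
      _ ≤ (∫⁻ r in Ico 0 a, (S.P κ s' ∩ (S.D κ p)ᶜ).indicator (fun _ => 1) (c r)) +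
          ∫⁻ r in Ico a M, (S.P κ s' ∩ (S.D κ p)ᶜ).indicator (fun _ => 1) (c r) :=
          add_le_add hcost hint
      _ = ∫⁻ r in Ico 0 M, (S.P κ s' ∩ (S.D κ p)ᶜ).indicator (fun _ => 1) (c r) := by
          rw [← Ico_union_Ico_eq_Ico ha0 haM, lintegral_union measurableSet_Ico]
          exact Ico_disjoint_Ico_same
      _ ≤ _ := lintegral_mono_set Ico_subset_Icc_self

end Skel

end Pool.Agent.QCS
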