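import Pool.Agent.Lib.MP_811d89_an.Osc

/-!
# The trimmed space
-/

open MeasureTheory Set Metric Topology Filter
open scoped ENNReal NNReal

namespace Pool.Agent.QCS

set_option linter.unusedSectionVars false

universe u

variable {X : Type u} [MetricSpace X] [MeasurableSpace X] [BorelSpace X]

namespace Skel

variable (S : Skel X) [LocallyConnectedSpace X] [ConnectedSpace X]

/-- The reachable points. -/
structure Xr where
  /-- the point -/
  val : X
  prop : S.v val ≠ ∞

noncomputable instance : PseudoMetricSpace S.Xr where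
  dist p q := (cost S.w p.val q.val).toReal
  dist_self p := by rw [cost_self]; simp
  dist_comm p q := by rw [cost_comm]
  dist_triangle p q r := by
    have h1 := S.cost_lt_top p.prop q.prop
    have h2 := S.cost_lt_top q.prop r.prop
    rw [← ENNReal.toReal_add h1.ne h2.ne]
    exact ENNReal.toReal_mono (ENNReal.add_lt_top.2 ⟨h1, h2⟩).ne (cost_triangle _ _ _ _)

variable {S}

theorem Xr.dist_def (p q : S.Xr) : dist p q = (cost S.w p.val q.val).toReal := rfl

theorem Xr.ofReal_dist (p q : S.Xr) : ENNReal.ofReal (dist p q) = cost S.w p.val q.val :=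
  ENNReal.ofReal_toReal (S.cost_lt_top p.prop q.prop).ne

theorem Xr.dist_le {p q : S.Xr} {r : ℝ} (hr : 0 ≤ r) (h : cost S.w p.val q.val ≤ ENNReal.ofReal r) :
    dist p q ≤ r := by
  have := ENNReal.toReal_mono ENNReal.ofReal_ne_top h
  rwa [ENNReal.toReal_ofReal hr] at this

theorem Xr.cost_lt {p q : S.Xr} {r : ℝ} (h : dist p q < r) :
    cost S.w p.val q.val < ENNReal.ofReal r := by
  rw [← Xr.ofReal_dist]
  exact (ENNReal.ofReal_lt_ofReal_iff (dist_nonneg.trans_lt h)).2 h

variable (S) in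
/-- The completion of the reachable points. -/
abbrev Cpl : Type u := UniformSpace.Completion S.Xr

/-- The inclusion in the completion. -/
noncomputable def iota (p : S.Xr) : Cpl S := (p : UniformSpace.Completion S.Xr)

theorem dist_iota (p q : S.Xr) : dist (iota p) (iota q) = dist p q :=
  UniformSpace.Completion.dist_eq p q

theorem lim_thick [LocallyCompactSpace X] {x : X} (hx : S.Thick x) {p : ℕ → S.Xr}
    (hlim : Tendsto (fun n => (p n).val) atTop (𝓝 x)) {a : Cpl S}
    (ha : Tendsto (fun n => iota (p n)) atTop (𝓝 a)) : a = iota ⟨x, hx.v_ne_top⟩ := by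
  refine dist_le_zero.1 (le_of_forall_pos_le_add fun ε hε => ?_)
  rw [zero_add]
  have hP : ∀ n : ℕ, ∀ᶠ k in atTop, dist (iota (p k)) a < (1 / 2) ^ n / 4 := fun n =>
    (tendsto_iff_dist_tendsto_zero.1 ha).eventually_lt_const (by positivity)
  obtain ⟨θ, hθ, hθd⟩ := extraction_forall_of_eventually hP
  have hc : ∀ n, cost S.w (p (θ n)).val (p (θ (n + 1))).val < ENNReal.ofReal ((1 / 2) ^ n) := by
    intro n
    refine Xr.cost_lt ?_
    rw [← dist_iota]
    have h1 := hθd n
    have h2 := hθd (n + 1)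
    have h3 := dist_triangle_right (iota (p (θ n))) (iota (p (θ (n + 1)))) a
    have h4 : (1 / 2 : ℝ) ^ (n + 1) = (1 / 2) ^ n / 2 := by rw [pow_succ]; ring
    have h5 : (0 : ℝ) < (1 / 2) ^ n := by positivity
    linarith
  have hpow : ∀ᶠ n : ℕ in atTop, (1 / 2 : ℝ) ^ n < ε :=
    (tendsto_pow_atTop_nhds_zero_of_lt_one (by norm_num) (by norm_num)).eventually_lt_const hε
  obtain ⟨N, hN⟩ := eventually_atTop.1 hpow
  obtain ⟨n, hn, hcost⟩ := S.cauchy_thick hx (z := fun n => (p (θ n)).val)
    (fun n => (p _).prop) (hlim.comp hθ.tendsto_atTop) hc (half_pos hε) N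
  have h1 : dist (p (θ n)) (⟨x, hx.v_ne_top⟩ : S.Xr) ≤ ε / 2 := Xr.dist_le (by positivity) hcost
  rw [← dist_iota] at h1
  have h2 := hθd n
  have h3 := hN n hn
  have h4 := dist_triangle_left a (iota ⟨x, hx.v_ne_top⟩) (iota (p (θ n)))
  linarith

/-- The oscillation lemma. -/
theorem osc [LocallyCompactSpace X] (x : X) {ε : ℝ} (hε : 0 < ε) : ∃ r > 0, ∀ p q : S.Xr,
    dist x p.val < r → dist x q.val < r → dist p q ≤ ε := by
  by_cases hx : S.Thick x
  · by_contra hcon
    push Not at hcon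
    choose p q hp hq hpq using fun n : ℕ => hcon (1 / (n + 1 : ℝ)) (by positivity)
    have hlimp : Tendsto (fun n => (p n).val) atTop (𝓝 x) := by
      rw [tendsto_iff_dist_tendsto_zero]
      refine squeeze_zero (fun _ => dist_nonneg) (fun n => ?_)
        tendsto_one_div_add_atTop_nhds_zero_nat
      rw [dist_comm]; exact (hp n).le
    have hlimq : Tendsto (fun n => (q n).val) atTop (𝓝 x) := by
      rw [tendsto_iff_dist_tendsto_zero]
      refine squeeze_zero (fun _ => dist_nonneg) (fun n => ?_)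
        tendsto_one_div_add_atTop_nhds_zero_nat
      rw [dist_comm]; exact (hq n).le
    obtain ⟨K, hKc, hxK⟩ := exists_compact_mem_nhds x
    set B : Set S.Xr := {p | p.val ∈ K} with hB
    have hBtb : TotallyBounded B := by
      rw [Metric.totallyBounded_iff]
      intro s hs
      obtain ⟨t, ht1, ht2⟩ := S.totally_bounded hKc (half_pos hs)
      refine ⟨{p : S.Xr | p.val ∈ t}, ?_, fun z hz => ?_⟩
      · refine Finite.of_finite_image (f := fun p : S.Xr => p.val)
          (t.finite_toSet.subset ?_) ?_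
        · rintro _ ⟨p, hp, rfl⟩; exact hp
        · intro a _ b _ hab
          cases a; cases b
          simp only at hab
          subst hab
          rfl
      · obtain ⟨y, hy, hyz⟩ := ht2 z.val hz z.prop
        refine mem_iUnion₂.2 ⟨⟨y, ht1 y hy⟩, hy, ?_⟩
        rw [mem_ball, dist_comm]
        exact (Xr.dist_le (p := ⟨y, ht1 y hy⟩) (by positivity) hyz).trans_lt (by linarith)
    have hC : IsCompact (closure (iota '' B)) := by
      refine TotallyBounded.isCompact_of_isClosed (TotallyBounded.closure ?_) isClosed_closure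
      exact hBtb.image (UniformSpace.Completion.uniformContinuous_coe _)
    obtain ⟨N, hN⟩ := eventually_atTop.1 ((hlimp.eventually_mem hxK).and
      (hlimq.eventually_mem hxK))
    obtain ⟨a, -, φ, hφ, ha⟩ := hC.tendsto_subseq (x := fun n => iota (p (n + N)))
      fun n => subset_closure ⟨_, (hN _ (by omega)).1, rfl⟩
    obtain ⟨b, -, ψ, hψ, hb⟩ := hC.tendsto_subseq (x := fun n => iota (q (φ n + N)))
      fun n => subset_closure ⟨_, (hN _ (by omega)).2, rfl⟩
    have hφN : Tendsto (fun n => φ (ψ n) + N) atTop atTop :=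
      (tendsto_add_atTop_nat N).comp (hφ.tendsto_atTop.comp hψ.tendsto_atTop)
    have ha' : Tendsto (fun n => iota (p (φ (ψ n) + N))) atTop (𝓝 a) := ha.comp hψ.tendsto_atTop
    have hb' : Tendsto (fun n => iota (q (φ (ψ n) + N))) atTop (𝓝 b) := hb
    have h1 := lim_thick hx (p := fun n => p (φ (ψ n) + N)) (hlimp.comp hφN) ha'
    have h2 := lim_thick hx (p := fun n => q (φ (ψ n) + N)) (hlimq.comp hφN) hb'
    have h3 : Tendsto (fun n => dist (iota (p (φ (ψ n) + N))) (iota (q (φ (ψ n) + N)))) atTop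
      (𝓝 (dist a b)) := ha'.dist hb'
    have h4 : ε ≤ dist a b := ge_of_tendsto' h3 fun n => by
      rw [dist_iota]; exact (hpq _).le
    rw [h1, h2, dist_self] at h4
    exact absurd h4 (not_le.2 hε)
  · have hx' : ∀ l > 0, ∃ t, 0 ≤ t ∧ ENNReal.ofReal t < S.v x ∧ S.Lh t x < ENNReal.ofReal l := by
      unfold Thick at hx
      push Not at hx
      exact hx
    obtain ⟨ρ, hρ, hμ⟩ := S.exists_small_measure x (ε := (ε / 18) ^ 2) (by positivity)
    obtain ⟨ε₀, hε₀, hsm⟩ := S.small_hair' (isCompact_singleton (x := x)) hρ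
    obtain ⟨t, h0, htv, hL⟩ := hx' (min ε₀ (ε / 3)) (by positivity)
    have hdiam := hsm x rfl (S.notMem_E htv) t
      (hL.trans_le (ENNReal.ofReal_le_ofReal (min_le_left _ _)))
    have hμh := S.measure_hair_le (subset_closure (S.mem_hair htv)) hdiam
    obtain ⟨r, hr, hball⟩ := Metric.isOpen_iff.1 (S.isOpen_hair t x) x (S.mem_hair htv)
    have key : ∀ p : S.Xr, dist x p.val < r → ∃ q ∈ frontier (S.hair t x),
        cost S.w p.val q ≤ ENNReal.ofReal (ε / 3) := by
      intro p hp
      have h1 : p.val ∈ S.hair t x := hball (by rwa [mem_ball, dist_comm])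
      obtain ⟨q, hq, hqc⟩ := S.cost_neck_le h0 (S.v_gt_of_hair h1) p.prop
      rw [S.hair_eq h1] at hq hqc
      refine ⟨q, hq, hqc.trans (ENNReal.ofReal_le_ofReal ?_)⟩
      have := sqrt_measure_le (by positivity) (hμh.trans hμ.le)
      linarith
    refine ⟨r, hr, fun p q hp hq => ?_⟩
    obtain ⟨a, ha, hac⟩ := key p hp
    obtain ⟨b, hb, hbc⟩ := key q hq
    refine Xr.dist_le hε.le ?_
    calc cost S.w p.val q.val ≤ cost S.w p.val a + cost S.w a b + cost S.w b q.val :=
          (cost_triangle _ _ b _).trans (add_le_add (cost_triangle _ _ _ _) le_rfl)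
      _ ≤ ENNReal.ofReal (ε / 3) + ENNReal.ofReal (ε / 3) + ENNReal.ofReal (ε / 3) := by
          refine add_le_add (add_le_add hac ?_) ?_
          · exact (cost_le_dl S.w_le_one _ _ _).trans ((S.dl_le_Lh ha hb).trans
              (hL.le.trans (ENNReal.ofReal_le_ofReal (min_le_right _ _))))
          · rw [cost_comm]; exact hbc
      _ = ENNReal.ofReal ε := by
          rw [← ENNReal.ofReal_add (by positivity) (by positivity),
            ← ENNReal.ofReal_add (by positivity) (by positivity)]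
          congr 1; ring

variable (S)

theorem exists_f [LocallyCompactSpace X] : ∃ f : X → Cpl S, ∀ x, ∀ ε > 0, ∃ r > 0, ∀ p : S.Xr,
    dist x p.val < r → dist (iota p) (f x) ≤ ε := by
  have key : ∀ x : X, ∃ a : Cpl S, ∀ ε > 0, ∃ r > 0, ∀ p : S.Xr,
      dist x p.val < r → dist (iota p) a ≤ ε := by
    intro x
    choose z hz hzv using fun n : ℕ => S.dense_reach x (r := 1 / (n + 1 : ℝ)) (by positivity)
    set p : ℕ → S.Xr := fun n => ⟨z n, hzv n⟩ with hp
    have hsmall : ∀ r > 0, ∃ N, ∀ n ≥ N, dist x (p n).val < r := by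
      intro r hr
      obtain ⟨N, hN⟩ := eventually_atTop.1
        ((tendsto_one_div_add_atTop_nhds_zero_nat (𝕜 := ℝ)).eventually_lt_const hr)
      exact ⟨N, fun n hn => (hz n).trans (hN n hn)⟩
    have hc : CauchySeq fun n => iota (p n) := by
      rw [Metric.cauchySeq_iff]
      intro ε hε
      obtain ⟨r, hr, hosc⟩ := osc (S := S) x (half_pos hε)
      obtain ⟨N, hN⟩ := hsmall r hr
      refine ⟨N, fun m hm n hn => ?_⟩
      rw [dist_iota]
      exact (hosc _ _ (hN m hm) (hN n hn)).trans_lt (by linarith)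
    obtain ⟨a, ha⟩ := cauchySeq_tendsto_of_complete hc
    refine ⟨a, fun ε hε => ?_⟩
    obtain ⟨r, hr, hosc⟩ := osc (S := S) x (half_pos hε)
    refine ⟨r, hr, fun q hq => ?_⟩
    obtain ⟨N, hN⟩ := hsmall r hr
    obtain ⟨n, hn1, hn2⟩ := (((tendsto_iff_dist_tendsto_zero.1 ha).eventually_lt_const
      (half_pos hε)).and (eventually_ge_atTop N)).exists
    have h1 := hosc q (p n) hq (hN n hn2)
    rw [← dist_iota] at h1
    have h2 := dist_triangle (iota q) (iota (p n)) a
    linarith
  choose f hf using key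
  exact ⟨f, hf⟩

/-- The trimmed space. -/
theorem exists_Y [LocallyCompactSpace X] : ∃ (Y : Type u) (_ : MetricSpace Y) (f : X ≃ₜ Y),
    ∀ x y, S.v x ≠ ∞ → S.v y ≠ ∞ → edist (f x) (f y) = cost S.w x y := by
  obtain ⟨f, hf⟩ := S.exists_f
  have hfr : ∀ p : S.Xr, f p.val = iota p := by
    intro p
    refine (dist_le_zero.1 (le_of_forall_pos_le_add fun ε hε => ?_)).symm
    rw [zero_add]
    obtain ⟨r, hr, h⟩ := hf p.val ε hε
    exact h p (by rwa [dist_self])
  have hcont : Continuous f := by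
    rw [Metric.continuous_iff]
    intro x ε hε
    obtain ⟨r, hr, h⟩ := hf x (ε / 3) (by positivity)
    refine ⟨r / 2, half_pos hr, fun y hy => ?_⟩
    obtain ⟨r', hr', h'⟩ := hf y (ε / 3) (by positivity)
    obtain ⟨z, hz, hzv⟩ := S.dense_reach y (r := min r' (r / 2)) (by positivity)
    have h1 := h' ⟨z, hzv⟩ (hz.trans_le (min_le_left _ _))
    have h2 := h ⟨z, hzv⟩ (by
      have h3 := dist_triangle x y z
      have h4 := hz.trans_le (min_le_right _ _)
      rw [dist_comm] at hy
      show dist x z < r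
      linarith)
    have h3 := dist_triangle_left (f y) (f x) (iota (⟨z, hzv⟩ : S.Xr))
    linarith
  have hlow : ∀ x, ∀ ρ > 0, ∃ η > 0, ∀ y, ρ ≤ dist x y → η ≤ dist (f x) (f y) := by
    intro x ρ hρ
    obtain ⟨η, hη, r, hr, hps⟩ := S.path_small x (half_pos hρ)
    refine ⟨η / 4, by positivity, fun y hy => ?_⟩
    by_contra hcon
    push Not at hcon
    obtain ⟨r₁, hr₁, h₁⟩ := hf x (η / 4) (by positivity)
    obtain ⟨r₂, hr₂, h₂⟩ := hf y (η / 4) (by positivity)
    obtain ⟨z₁, hz₁, hz₁v⟩ := S.dense_reach x (r := min r r₁) (by positivity)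
    obtain ⟨z₂, hz₂, hz₂v⟩ := S.dense_reach y (r := min (ρ / 2) r₂) (by positivity)
    have h3 := h₁ ⟨z₁, hz₁v⟩ (hz₁.trans_le (min_le_right _ _))
    have h4 := h₂ ⟨z₂, hz₂v⟩ (hz₂.trans_le (min_le_right _ _))
    have h5 : dist (⟨z₁, hz₁v⟩ : S.Xr) ⟨z₂, hz₂v⟩ < η := by
      rw [← dist_iota]
      have h6 := dist_triangle4_right (iota (⟨z₁, hz₁v⟩ : S.Xr)) (iota ⟨z₂, hz₂v⟩) (f x) (f y)
      linarith
    obtain ⟨L, c, hL, hc, hc0, hcL, hint⟩ := exists_of_cost_lt (Xr.cost_lt h5)
    have h6 := hps c L hc (by rw [hc0]; exact hz₁.trans_le (min_le_left _ _)) hint L ⟨hL, le_rfl⟩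
    rw [hcL] at h6
    have h7 := hz₂.trans_le (min_le_left _ _)
    have h8 := dist_triangle_right x y z₂
    simp only at h6
    linarith
  have hinj : Function.Injective f := by
    intro x y hxy
    by_contra hne
    obtain ⟨η, hη, h⟩ := hlow x (dist x y) (dist_pos.2 hne)
    have := h y le_rfl
    rw [hxy, dist_self] at this
    exact absurd this (not_le.2 hη)
  have hemb : Topology.IsEmbedding f := by
    refine ⟨Topology.isInducing_iff_nhds.2 fun x => le_antisymm (hcont.tendsto x).le_comap ?_, hinj⟩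
    intro U hU
    obtain ⟨ρ, hρ, hball⟩ := Metric.mem_nhds_iff.1 hU
    obtain ⟨η, hη, h⟩ := hlow x ρ hρ
    refine ⟨ball (f x) η, ball_mem_nhds _ hη, fun y hy => hball ?_⟩
    rw [mem_ball, dist_comm]
    by_contra hcon
    have h1 : dist (f y) (f x) < η := hy
    rw [dist_comm] at h1
    exact absurd (h y (not_lt.1 hcon)) (not_le.2 h1)
  refine ⟨range f, inferInstance, hemb.toHomeomorph, fun x y hx hy => ?_⟩
  have h1 : edist (hemb.toHomeomorph x) (hemb.toHomeomorph y) = edist (f x) (f y) := rfl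
  rw [h1, hfr ⟨x, hx⟩, hfr ⟨y, hy⟩, edist_dist, dist_iota, Xr.ofReal_dist]

end Skel

end Pool.Agent.QCS
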